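import Mathlib

/-!
# Coefficients of a polynomial from its values on a circle
-/

namespace UE97

open Polynomial

variable {K : Type*} [NormedField K] [IsUltrametricDist K] [IsAlgClosed K]

/-- Average over the roots of unity of order `N = 2 ^ k > P.natDegree` (`‖2‖ = 1`, so `‖N‖ = 1`;
`K` algebraically closed with `2 ≠ 0` has a primitive `N`-th root of unity `ζ`, and `‖ζ‖ = 1`):
`N * P.coeff i * r ^ i = ∑ j < N, ζ ^ (-(i j)) * P.eval (ζ ^ j * r)`. (`char K` may be assumed
different from `2` only; `IsAlgClosed` and `NeZero (N : K)` give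
`HasEnoughRootsOfUnity`/`IsPrimitiveRoot`.) -/
theorem coeff_lt_of_circle (h2 : ‖(2 : K)‖ = 1) (P : K[X]) {r : K} (hr : r ≠ 0) {M : ℝ}
    (h : ∀ τ : K, ‖τ‖ = ‖r‖ → ‖P.eval τ‖ < M) (i : ℕ) : ‖P.coeff i‖ * ‖r‖ ^ i < M := by
  have hM : 0 < M := lt_of_le_of_lt (norm_nonneg _) (h r rfl)
  rcases le_or_gt (P.natDegree + 1) i with hi | hi
  · rw [coeff_eq_zero_of_natDegree_lt (by omega), norm_zero, zero_mul]
    exact hM
  obtain ⟨k, hk⟩ : ∃ k : ℕ, P.natDegree < 2 ^ k := ⟨_, P.natDegree.lt_two_pow_self⟩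
  set N : ℕ := 2 ^ k with hN
  have hNpos : 0 < N := by positivity
  have hNn : ‖(N : K)‖ = 1 := by
    rw [hN]
    push_cast
    rw [norm_pow, h2, one_pow]
  have hN0 : (N : K) ≠ 0 := by
    intro h0
    rw [h0, norm_zero] at hNn
    exact zero_ne_one hNn
  have : NeZero (N : K) := ⟨hN0⟩
  have : NeZero N := ⟨hNpos.ne'⟩
  obtain ⟨ζ, hζ⟩ := HasEnoughRootsOfUnity.exists_primitiveRoot K N
  have hζn : ‖ζ‖ = 1 := by
    have h1 : ‖ζ‖ ^ N = 1 := by rw [← norm_pow, hζ.pow_eq_one, norm_one]
    exact (pow_eq_one_iff_of_nonneg (norm_nonneg _) hNpos.ne').mp h1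
  have hiN : i < N := by omega
  have key : (N : K) * (P.coeff i * r ^ i) =
      ∑ j ∈ Finset.range N, ζ ^ (j * (N - i)) * P.eval (ζ ^ j * r) := by
    have h1 : ∀ j ∈ Finset.range N, ζ ^ (j * (N - i)) * P.eval (ζ ^ j * r) =
        ∑ l ∈ Finset.range N, P.coeff l * r ^ l * (ζ ^ (N - i + l)) ^ j := by
      intro j _
      rw [eval_eq_sum_range' hk, Finset.mul_sum]
      refine Finset.sum_congr rfl fun l _ => ?_
      rw [mul_pow, ← pow_mul, ← pow_mul, add_mul, pow_add, mul_comm (N - i) j, mul_comm l j]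
      ring
    rw [Finset.sum_congr rfl h1, Finset.sum_comm]
    have h3 : ∀ l ∈ Finset.range N, ∑ j ∈ Finset.range N,
        P.coeff l * r ^ l * (ζ ^ (N - i + l)) ^ j =
        if l = i then (N : K) * (P.coeff i * r ^ i) else 0 := by
      intro l hl
      rw [Finset.mem_range] at hl
      rw [← Finset.mul_sum]
      split_ifs with hli
      · subst hli
        have e : N - l + l = N := by omega
        rw [e, hζ.pow_eq_one]
        simp only [one_pow, Finset.sum_const, Finset.card_range, nsmul_eq_mul, mul_one]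
        ring
      · have hx : ζ ^ (N - i + l) ≠ 1 := by
          intro h0
          have hd : N ∣ N - i + l := (hζ.pow_eq_one_iff_dvd _).mp h0
          obtain ⟨c, hc⟩ := hd
          rcases Nat.lt_or_ge c 1 with hc1 | hc1
          · have : c = 0 := by omega
            rw [this, mul_zero] at hc
            omega
          · rcases Nat.lt_or_ge c 2 with hc2 | hc2
            · have : c = 1 := by omega
              rw [this, mul_one] at hc
              omega
            · have : N * 2 ≤ N * c := Nat.mul_le_mul_left _ hc2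
              omega
        have hg : (∑ j ∈ Finset.range N, (ζ ^ (N - i + l)) ^ j) * (ζ ^ (N - i + l) - 1) = 0 := by
          rw [geom_sum_mul, ← pow_mul, mul_comm, pow_mul, hζ.pow_eq_one, one_pow, sub_self]
        have hz := (mul_eq_zero.mp hg).resolve_right (sub_ne_zero.mpr hx)
        rw [hz, mul_zero]
    rw [Finset.sum_congr rfl h3, Finset.sum_ite_eq' (Finset.range N) i, if_pos (Finset.mem_range.mpr hiN)]
  have hnorm : ‖P.coeff i‖ * ‖r‖ ^ i =
      ‖∑ j ∈ Finset.range N, ζ ^ (j * (N - i)) * P.eval (ζ ^ j * r)‖ := by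
    rw [← key, norm_mul, hNn, one_mul, norm_mul, norm_pow]
  rw [hnorm]
  have hne : (Finset.range N).Nonempty := ⟨0, Finset.mem_range.mpr hNpos⟩
  obtain ⟨j, _, hj⟩ := IsUltrametricDist.exists_norm_finsetSum_le_of_nonempty hne
    (fun j => ζ ^ (j * (N - i)) * P.eval (ζ ^ j * r))
  refine lt_of_le_of_lt hj ?_
  rw [norm_mul, norm_pow, hζn, one_pow, one_mul]
  refine h _ ?_
  rw [norm_mul, norm_pow, hζn, one_pow, one_mul]

end UE97
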