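import Mathlib

/-!
# Uniform limits of Laurent polynomials on an annulus, together with their derivative

`Cl u v g g1`: on the annulus `u ≤ ‖τ‖ ≤ v` the function `g` is a uniform limit of Laurent
polynomials `L = P / τ ^ m`, and `g1` is the uniform limit of the corresponding `τ L'`
(Euler derivative). No completeness is used: `g` and `g1` are functions given beforehand.
-/

namespace UE97

open Polynomial

variable {K : Type*} [NormedField K]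

/-- Euler derivative `τ d/dτ` of the Laurent polynomial `P / τ ^ m`. -/
noncomputable def ld (P : K[X]) (m : ℕ) (τ : K) : K :=
  (τ * (derivative P).eval τ - m * P.eval τ) / τ ^ m

def Cl (u v : ℝ) (g g1 : K → K) : Prop :=
  ∀ ε > 0, ∃ (m : ℕ) (P : K[X]), ∀ τ : K, u ≤ ‖τ‖ → ‖τ‖ ≤ v →
    ‖g τ - P.eval τ / τ ^ m‖ ≤ ε ∧ ‖g1 τ - ld P m τ‖ ≤ ε

theorem ld_mul (P Q : K[X]) (m n : ℕ) {τ : K} (hτ : τ ≠ 0) :
    ld (P * Q) (m + n) τ = P.eval τ / τ ^ m * ld Q n τ + ld P m τ * (Q.eval τ / τ ^ n) := by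
  have h1 : τ ^ m ≠ 0 := pow_ne_zero _ hτ
  have h2 : τ ^ n ≠ 0 := pow_ne_zero _ hτ
  unfold ld
  rw [derivative_mul, eval_add, eval_mul, eval_mul, eval_mul, pow_add]
  push_cast
  field_simp
  ring

theorem cls_ld_X_pow (k : ℕ) {τ : K} (hτ : τ ≠ 0) : ld (X ^ k : K[X]) k τ = 0 := by
  unfold ld
  rw [derivative_X_pow]
  have h1 : τ ^ k ≠ 0 := pow_ne_zero _ hτ
  rcases k with _ | k
  · simp
  · simp only [eval_mul, eval_C, eval_pow, eval_X, Nat.add_sub_cancel]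
    rw [pow_succ]
    ring

theorem cls_ld_add (P Q : K[X]) (m : ℕ) (τ : K) : ld (P + Q) m τ = ld P m τ + ld Q m τ := by
  unfold ld
  rw [derivative_add, eval_add, eval_add]
  ring

theorem cls_ld_C_mul (a : K) (P : K[X]) (m : ℕ) (τ : K) : ld (C a * P) m τ = a * ld P m τ := by
  unfold ld
  rw [derivative_C_mul, eval_mul, eval_mul, eval_C]
  ring

theorem cls_ld_neg (P : K[X]) (m : ℕ) (τ : K) : ld (-P) m τ = -ld P m τ := by
  unfold ld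
  rw [derivative_neg, eval_neg, eval_neg]
  ring

/-- The same Laurent polynomial with a bigger exponent. -/
theorem ld_shift (P : K[X]) (m k : ℕ) {τ : K} (hτ : τ ≠ 0) :
    ld (X ^ k * P) (m + k) τ = ld P m τ ∧
      (X ^ k * P).eval τ / τ ^ (m + k) = P.eval τ / τ ^ m := by
  have h1 : τ ^ m ≠ 0 := pow_ne_zero _ hτ
  have h2 : τ ^ k ≠ 0 := pow_ne_zero _ hτ
  constructor
  · rw [add_comm m k, ld_mul _ _ _ _ hτ, cls_ld_X_pow k hτ, eval_pow, eval_X, div_self h2]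
    ring
  · rw [eval_mul, eval_pow, eval_X, pow_add]
    field_simp

theorem Cl.congr {u v : ℝ} {g g1 k k1 : K → K} (h : Cl u v g g1)
    (h1 : ∀ τ, u ≤ ‖τ‖ → ‖τ‖ ≤ v → k τ = g τ)
    (h2 : ∀ τ, u ≤ ‖τ‖ → ‖τ‖ ≤ v → k1 τ = g1 τ) : Cl u v k k1 := by
  intro ε hε
  obtain ⟨m, P, hP⟩ := h ε hε
  refine ⟨m, P, fun τ h3 h4 => ?_⟩
  rw [h1 τ h3 h4, h2 τ h3 h4]
  exact hP τ h3 h4

theorem Cl.laurent (u v : ℝ) (P : K[X]) (m : ℕ) :
    Cl u v (fun τ => P.eval τ / τ ^ m) (fun τ => ld P m τ) := by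
  intro ε hε
  refine ⟨m, P, fun τ _ _ => ?_⟩
  rw [sub_self, sub_self, norm_zero]
  exact ⟨hε.le, hε.le⟩

theorem Cl.poly (u v : ℝ) (P : K[X]) :
    Cl u v (fun τ => P.eval τ) (fun τ => τ * (derivative P).eval τ) := by
  refine (Cl.laurent u v P 0).congr (fun τ _ _ => ?_) (fun τ _ _ => ?_)
  · simp
  · simp [ld]

theorem Cl.const (u v : ℝ) (a : K) : Cl u v (fun _ => a) (fun _ => 0) := by
  refine (Cl.poly u v (C a)).congr (fun τ _ _ => ?_) (fun τ _ _ => ?_)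
  · simp
  · simp

theorem Cl.zpow {u : ℝ} (hu : 0 < u) (v : ℝ) (n : ℤ) :
    Cl u v (fun τ : K => τ ^ n) (fun τ => n * τ ^ n) := by
  obtain ⟨k, rfl | rfl⟩ := Int.eq_nat_or_neg n
  · refine (Cl.poly u v (X ^ k)).congr (fun τ _ _ => ?_) (fun τ _ _ => ?_)
    · simp
    · rw [derivative_X_pow]
      rcases k with _ | k
      · simp
      · simp only [eval_mul, eval_C, eval_pow, eval_X, Nat.add_sub_cancel, Int.cast_natCast,
          zpow_natCast]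
        rw [pow_succ]
        ring
  · refine (Cl.laurent u v 1 k).congr (fun τ h1 _ => ?_) (fun τ h1 _ => ?_)
    · simp
    · simp only [ld, derivative_one, eval_zero, eval_one, Int.cast_neg, Int.cast_natCast,
        zpow_neg, zpow_natCast]
      ring

theorem cls_eval_bdd (P : K[X]) (v : ℝ) : ∃ B : ℝ, 0 ≤ B ∧ ∀ τ : K, ‖τ‖ ≤ v → ‖P.eval τ‖ ≤ B := by
  refine ⟨∑ i ∈ Finset.range (P.natDegree + 1), ‖P.coeff i‖ * |v| ^ i,
    Finset.sum_nonneg fun i _ => by positivity, fun τ hτ => ?_⟩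
  rw [eval_eq_sum_range]
  refine (norm_sum_le _ _).trans (Finset.sum_le_sum fun i _ => ?_)
  rw [norm_mul, norm_pow]
  exact mul_le_mul_of_nonneg_left
    (pow_le_pow_left₀ (norm_nonneg _) (hτ.trans (le_abs_self v)) i) (norm_nonneg _)

theorem cls_ne_zero {u : ℝ} (hu : 0 < u) {τ : K} (h : u ≤ ‖τ‖) : τ ≠ 0 := by
  rintro rfl
  rw [norm_zero] at h
  linarith

/-- Members of the class are bounded. -/
theorem Cl.bdd {u v : ℝ} (hu : 0 < u) {g g1 : K → K} (h : Cl u v g g1) :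
    ∃ M : ℝ, 0 < M ∧ ∀ τ : K, u ≤ ‖τ‖ → ‖τ‖ ≤ v → ‖g τ‖ ≤ M ∧ ‖g1 τ‖ ≤ M := by
  obtain ⟨m, P, hP⟩ := h 1 one_pos
  obtain ⟨B, hB0, hB⟩ := cls_eval_bdd P v
  obtain ⟨B', hB'0, hB'⟩ := cls_eval_bdd (X * derivative P - C (m : K) * P) v
  have hum : 0 < u ^ m := pow_pos hu m
  refine ⟨1 + (B + B') / u ^ m, by positivity, fun τ h1 h2 => ?_⟩
  obtain ⟨e1, e2⟩ := hP τ h1 h2
  have hτm : u ^ m ≤ ‖τ ^ m‖ := by
    rw [norm_pow]
    exact pow_le_pow_left₀ hu.le h1 m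
  have f1 : ‖P.eval τ / τ ^ m‖ ≤ (B + B') / u ^ m := by
    rw [norm_div]
    exact div_le_div₀ (by positivity) (by linarith [hB τ h2]) hum hτm
  have f2 : ‖ld P m τ‖ ≤ (B + B') / u ^ m := by
    unfold ld
    rw [norm_div]
    have := hB' τ h2
    rw [eval_sub, eval_mul, eval_mul, eval_X, eval_C] at this
    exact div_le_div₀ (by positivity) (by linarith) hum hτm
  constructor
  · calc ‖g τ‖ = ‖(g τ - P.eval τ / τ ^ m) + P.eval τ / τ ^ m‖ := by rw [sub_add_cancel]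
      _ ≤ ‖g τ - P.eval τ / τ ^ m‖ + ‖P.eval τ / τ ^ m‖ := norm_add_le _ _
      _ ≤ _ := add_le_add e1 f1
  · calc ‖g1 τ‖ = ‖(g1 τ - ld P m τ) + ld P m τ‖ := by rw [sub_add_cancel]
      _ ≤ ‖g1 τ - ld P m τ‖ + ‖ld P m τ‖ := norm_add_le _ _
      _ ≤ _ := add_le_add e2 f2

/-- Uniform limits (with the derivatives) stay in the class. -/
theorem Cl.lim {u v : ℝ} {g g1 : K → K}
    (h : ∀ ε > 0, ∃ k k1 : K → K, Cl u v k k1 ∧ ∀ τ : K, u ≤ ‖τ‖ → ‖τ‖ ≤ v →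
      ‖g τ - k τ‖ ≤ ε ∧ ‖g1 τ - k1 τ‖ ≤ ε) : Cl u v g g1 := by
  intro ε hε
  obtain ⟨k, k1, hk, hkk⟩ := h (ε / 2) (half_pos hε)
  obtain ⟨m, P, hP⟩ := hk (ε / 2) (half_pos hε)
  refine ⟨m, P, fun τ h1 h2 => ?_⟩
  obtain ⟨e1, e2⟩ := hkk τ h1 h2
  obtain ⟨f1, f2⟩ := hP τ h1 h2
  constructor
  · calc ‖g τ - P.eval τ / τ ^ m‖ = ‖(g τ - k τ) + (k τ - P.eval τ / τ ^ m)‖ := by
          rw [sub_add_sub_cancel]
      _ ≤ ‖g τ - k τ‖ + ‖k τ - P.eval τ / τ ^ m‖ := norm_add_le _ _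
      _ ≤ ε := by linarith
  · calc ‖g1 τ - ld P m τ‖ = ‖(g1 τ - k1 τ) + (k1 τ - ld P m τ)‖ := by
          rw [sub_add_sub_cancel]
      _ ≤ ‖g1 τ - k1 τ‖ + ‖k1 τ - ld P m τ‖ := norm_add_le _ _
      _ ≤ ε := by linarith

theorem Cl.neg {u v : ℝ} {g g1 : K → K} (h : Cl u v g g1) :
    Cl u v (fun τ => -g τ) (fun τ => -g1 τ) := by
  intro ε hε
  obtain ⟨m, P, hP⟩ := h ε hε
  refine ⟨m, -P, fun τ h1 h2 => ?_⟩
  obtain ⟨e1, e2⟩ := hP τ h1 h2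
  constructor
  · rw [eval_neg, neg_div, neg_sub_neg, norm_sub_rev]
    exact e1
  · rw [cls_ld_neg, neg_sub_neg, norm_sub_rev]
    exact e2

theorem Cl.add {u v : ℝ} (hu : 0 < u) {g g1 k k1 : K → K} (h : Cl u v g g1) (h' : Cl u v k k1) :
    Cl u v (fun τ => g τ + k τ) (fun τ => g1 τ + k1 τ) := by
  intro ε hε
  obtain ⟨m, P, hP⟩ := h (ε / 2) (half_pos hε)
  obtain ⟨n, Q, hQ⟩ := h' (ε / 2) (half_pos hε)
  refine ⟨m + n, X ^ n * P + X ^ m * Q, fun τ h1 h2 => ?_⟩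
  have hτ : τ ≠ 0 := cls_ne_zero hu h1
  obtain ⟨e1, e2⟩ := hP τ h1 h2
  obtain ⟨f1, f2⟩ := hQ τ h1 h2
  obtain ⟨s1, s2⟩ := ld_shift P m n hτ
  obtain ⟨t1, t2⟩ := ld_shift Q n m hτ
  rw [add_comm n m] at t1 t2
  constructor
  · rw [eval_add, add_div, s2, t2, add_sub_add_comm]
    exact (norm_add_le _ _).trans (by linarith)
  · rw [cls_ld_add, s1, t1, add_sub_add_comm]
    exact (norm_add_le _ _).trans (by linarith)

theorem Cl.sub {u v : ℝ} (hu : 0 < u) {g g1 k k1 : K → K} (h : Cl u v g g1) (h' : Cl u v k k1) :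
    Cl u v (fun τ => g τ - k τ) (fun τ => g1 τ - k1 τ) := by
  refine (Cl.add hu h h'.neg).congr (fun τ _ _ => ?_) (fun τ _ _ => ?_)
  · exact sub_eq_add_neg _ _
  · exact sub_eq_add_neg _ _

theorem cls_mul_bd {a b p q : K} {M e : ℝ} (ha : ‖a‖ ≤ M) (hb : ‖b‖ ≤ M) (he1 : e ≤ 1)
    (hp : ‖a - p‖ ≤ e) (hq : ‖b - q‖ ≤ e) : ‖a * b - p * q‖ ≤ e * (2 * M + 1) := by
  have hM : 0 ≤ M := (norm_nonneg _).trans ha
  have he : 0 ≤ e := (norm_nonneg _).trans hp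
  have hq' : ‖q‖ ≤ M + 1 := by
    calc ‖q‖ = ‖b - (b - q)‖ := by rw [sub_sub_cancel]
      _ ≤ ‖b‖ + ‖b - q‖ := norm_sub_le _ _
      _ ≤ M + 1 := by linarith
  calc ‖a * b - p * q‖ = ‖a * (b - q) + (a - p) * q‖ := by
        congr 1
        ring
    _ ≤ ‖a * (b - q)‖ + ‖(a - p) * q‖ := norm_add_le _ _
    _ = ‖a‖ * ‖b - q‖ + ‖a - p‖ * ‖q‖ := by rw [norm_mul, norm_mul]
    _ ≤ M * e + e * (M + 1) := add_le_add (mul_le_mul ha hq (norm_nonneg _) hM)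
        (mul_le_mul hp hq' (norm_nonneg _) he)
    _ = e * (2 * M + 1) := by ring

theorem Cl.mul {u v : ℝ} (hu : 0 < u) {g g1 k k1 : K → K} (h : Cl u v g g1) (h' : Cl u v k k1) :
    Cl u v (fun τ => g τ * k τ) (fun τ => g τ * k1 τ + g1 τ * k τ) := by
  intro ε hε
  obtain ⟨M1, hM1, hg⟩ := h.bdd hu
  obtain ⟨M2, hM2, hk⟩ := h'.bdd hu
  set M := max M1 M2 with hM
  have hM0 : 0 < M := lt_max_of_lt_left hM1
  set e := min 1 (ε / (2 * (2 * M + 1))) with he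
  have he0 : 0 < e := lt_min one_pos (by positivity)
  have he1 : e ≤ 1 := min_le_left _ _
  have he2 : e * (2 * M + 1) ≤ ε / 2 := by
    have : e ≤ ε / (2 * (2 * M + 1)) := min_le_right _ _
    calc e * (2 * M + 1) ≤ ε / (2 * (2 * M + 1)) * (2 * M + 1) :=
          mul_le_mul_of_nonneg_right this (by positivity)
      _ = ε / 2 := by field_simp
  obtain ⟨m, P, hP⟩ := h e he0
  obtain ⟨n, Q, hQ⟩ := h' e he0
  refine ⟨m + n, P * Q, fun τ h1 h2 => ?_⟩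
  have hτ : τ ≠ 0 := cls_ne_zero hu h1
  obtain ⟨e1, e2⟩ := hP τ h1 h2
  obtain ⟨f1, f2⟩ := hQ τ h1 h2
  obtain ⟨g1', g2'⟩ := hg τ h1 h2
  obtain ⟨k1', k2'⟩ := hk τ h1 h2
  have le1 : M1 ≤ M := le_max_left _ _
  have le2 : M2 ≤ M := le_max_right _ _
  constructor
  · rw [eval_mul, pow_add, mul_div_mul_comm]
    exact (cls_mul_bd (g1'.trans le1) (k1'.trans le2) he1 e1 f1).trans (by linarith)
  · rw [ld_mul _ _ _ _ hτ, add_sub_add_comm]
    refine (norm_add_le _ _).trans ?_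
    have a1 := cls_mul_bd (g1'.trans le1) (k2'.trans le2) he1 e1 f2
    have a2 := cls_mul_bd (g2'.trans le1) (k1'.trans le2) he1 e2 f1
    linarith

theorem Cl.const_mul {u v : ℝ} {g g1 : K → K} (a : K) (h : Cl u v g g1) :
    Cl u v (fun τ => a * g τ) (fun τ => a * g1 τ) := by
  intro ε hε
  have h0 : 0 < ‖a‖ + 1 := by positivity
  obtain ⟨m, P, hP⟩ := h (ε / (‖a‖ + 1)) (div_pos hε h0)
  have key : ∀ x : K, ‖x‖ ≤ ε / (‖a‖ + 1) → ‖a * x‖ ≤ ε := by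
    intro x hx
    rw [norm_mul]
    calc ‖a‖ * ‖x‖ ≤ (‖a‖ + 1) * (ε / (‖a‖ + 1)) :=
          mul_le_mul (by linarith) hx (norm_nonneg _) h0.le
      _ = ε := mul_div_cancel₀ _ h0.ne'
  refine ⟨m, C a * P, fun τ h1 h2 => ?_⟩
  obtain ⟨e1, e2⟩ := hP τ h1 h2
  constructor
  · rw [eval_mul, eval_C, mul_div_assoc, ← mul_sub]
    exact key _ e1
  · rw [cls_ld_C_mul, ← mul_sub]
    exact key _ e2

theorem Cl.pow {u v : ℝ} (hu : 0 < u) {g g1 : K → K} (h : Cl u v g g1) (n : ℕ) :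
    Cl u v (fun τ => g τ ^ (n + 1)) (fun τ => (n + 1) * g τ ^ n * g1 τ) := by
  induction n with
  | zero =>
    refine h.congr (fun τ _ _ => ?_) (fun τ _ _ => ?_)
    · simp
    · simp
  | succ n ih =>
    refine (Cl.mul hu ih h).congr (fun τ _ _ => ?_) (fun τ _ _ => ?_)
    · rw [pow_succ]
    · push_cast
      ring

end UE97
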