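import Mathlib
import Pool.Agent.Lib.MP_10e784_ag.EQ.Cls
import Pool.Agent.Lib.MP_10e784_ag.EQ.Circ

/-!
# The annulus lemma
-/

namespace UE97

open Polynomial

variable {K : Type*} [NormedField K] [IsUltrametricDist K] [IsAlgClosed K]

theorem ann_norm_sub_lt {K : Type*} [NormedField K] [IsUltrametricDist K] {a b : K} {c : ℝ}
    (ha : ‖a‖ < c) (hb : ‖b‖ < c) : ‖a - b‖ < c := by
  rw [sub_eq_add_neg]
  refine lt_of_le_of_lt (IsUltrametricDist.norm_add_le_max a (-b)) (max_lt ha ?_)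
  rwa [norm_neg]

theorem ann_norm_add_lt {K : Type*} [NormedField K] [IsUltrametricDist K] {a b : K} {c : ℝ}
    (ha : ‖a‖ < c) (hb : ‖b‖ < c) : ‖a + b‖ < c :=
  lt_of_le_of_lt (IsUltrametricDist.norm_add_le_max a b) (max_lt ha hb)

theorem ann_norm_eq_of_sub_lt {K : Type*} [NormedField K] [IsUltrametricDist K] {a b : K}
    (h : ‖a - b‖ < ‖b‖) : ‖a‖ = ‖b‖ := by
  have h1 : ‖a‖ ≤ ‖b‖ := by
    have : a = (a - b) + b := by ring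
    rw [this]
    exact (IsUltrametricDist.norm_add_le_max _ _).trans (max_le h.le le_rfl)
  by_contra hne
  have h2 : ‖a‖ < ‖b‖ := lt_of_le_of_ne h1 hne
  have h3 : ‖a - (a - b)‖ < ‖b‖ := ann_norm_sub_lt h2 h
  rw [sub_sub_cancel] at h3
  exact lt_irrefl _ h3

theorem ann_pow_aux {c b : ℝ} (hc : 0 ≤ c) (hb : c + 2 ≤ b) (k : ℕ) :
    c + ((k + 1 : ℕ) : ℝ) ≤ b ^ (k + 1) := by
  induction k with
  | zero => simp; linarith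
  | succ k ih =>
    have hb2 : 2 ≤ b := by linarith
    have h1 : (1 : ℝ) ≤ ((k + 1 : ℕ) : ℝ) := by exact_mod_cast Nat.le_add_left 1 k
    have h0 : 0 ≤ b ^ (k + 1) := by positivity
    calc c + ((k + 1 + 1 : ℕ) : ℝ) = (c + ((k + 1 : ℕ) : ℝ)) + 1 := by push_cast; ring
      _ ≤ 2 * (c + ((k + 1 : ℕ) : ℝ)) := by linarith
      _ ≤ 2 * b ^ (k + 1) := by linarith
      _ ≤ b ^ (k + 1) * b := by nlinarith
      _ = b ^ (k + 1 + 1) := by ring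

theorem ann_coeff_R {K : Type*} [NormedField K] (P : K[X]) (m N : ℕ) (κ : K) (i : ℕ) :
    (X * derivative P - C (m : K) * P - C κ * X ^ N).coeff i
      = ((i : K) - m) * P.coeff i - (if i = N then κ else 0) := by
  rw [coeff_sub, coeff_sub, coeff_C_mul, coeff_C_mul, coeff_X_pow]
  have h1 : (X * derivative P).coeff i = (i : K) * P.coeff i := by
    cases i with
    | zero => simp
    | succ i =>
      rw [coeff_X_mul, coeff_derivative]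
      push_cast
      ring
  rw [h1]
  split_ifs <;> ring

/-- Polynomial core of the annulus lemma. Here `P / τ ^ m` is the Laurent polynomial
`∑ c_n τ ^ n` with `c_n = P.coeff (n + m)`, and `N = M + m` is a natural number.
Coefficients of `X * P' - m * P - C κ * X ^ N`: by `coeff_lt_of_circle` on the circles of radius
`‖r₁‖` and `‖r₂‖`:
`‖(i - m) * P.coeff i‖ * ρ ^ i < ‖κ‖ * ρ ^ N` for `i ≠ N`, `ρ = ‖r₁‖, ‖r₂‖`, and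
`‖(N - m) * P.coeff N - κ‖ < ‖κ‖`. So `N ≠ m` and `‖(N - m) * P.coeff N‖ = ‖κ‖`,
`‖P.coeff N‖ ≥ ‖κ‖`.
For `i ≠ m`, `i ≠ N` and `t` with `‖r₁‖ * b ≤ t`, `t * b ≤ ‖r₂‖`, `b ≥ |N - m| + 2`:
if `i = N + k`, `k ≥ 1`, then with `ρ = ‖r₂‖`:
`‖P.coeff i‖ * t ^ i < ‖κ‖ * ρ ^ N * ‖(i - m : K)‖⁻¹ * (t / ρ) ^ i
 ≤ ‖κ‖ * t ^ N * |i - m| * b ^ (- k)` and `|i - m| ≤ |N - m| + k ≤ b ^ k`;
if `i = N - k` use `ρ = ‖r₁‖` in the same way. So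
`‖P.coeff i‖ * t ^ i < ‖κ‖ * t ^ N ≤ ‖P.coeff N‖ * t ^ N`. -/
theorem annulus_core (h2 : ‖(2 : K)‖ = 1) (hn : ∀ n : ℤ, n ≠ 0 → 1 ≤ ‖(n : K)‖ * |(n : ℝ)|)
    {P : K[X]} {m N : ℕ} {r₁ r₂ κ : K} (hr1 : r₁ ≠ 0) (h12 : ‖r₁‖ ≤ ‖r₂‖) (hκ : κ ≠ 0)
    (hP : ∀ τ : K, ‖r₁‖ ≤ ‖τ‖ → ‖τ‖ ≤ ‖r₂‖ →
      ‖τ * (derivative P).eval τ - m * P.eval τ - κ * τ ^ N‖ < ‖κ‖ * ‖τ‖ ^ N)
    {b : ℝ} (hb : |(N : ℝ) - m| + 2 ≤ b) :
    N ≠ m ∧ ‖κ‖ ≤ ‖P.coeff N‖ ∧ ∀ t : ℝ, ‖r₁‖ * b ≤ t → t * b ≤ ‖r₂‖ →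
      ∀ i, i ≠ m → i ≠ N → ‖P.coeff i‖ * t ^ i < ‖P.coeff N‖ * t ^ N := by
  have hρ1 : 0 < ‖r₁‖ := norm_pos_iff.mpr hr1
  have hρ2 : 0 < ‖r₂‖ := lt_of_lt_of_le hρ1 h12
  have hr2 : r₂ ≠ 0 := norm_pos_iff.mp hρ2
  have hκ0 : 0 < ‖κ‖ := norm_pos_iff.mpr hκ
  have hb2 : 2 ≤ b := by
    have := abs_nonneg ((N : ℝ) - m)
    linarith
  have hb0 : 0 < b := by linarith
  set R : K[X] := X * derivative P - C (m : K) * P - C κ * X ^ N with hR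
  have hRe : ∀ τ : K, R.eval τ = τ * (derivative P).eval τ - m * P.eval τ - κ * τ ^ N := by
    intro τ
    simp [hR]
  have hc1 : ∀ i, ‖R.coeff i‖ * ‖r₁‖ ^ i < ‖κ‖ * ‖r₁‖ ^ N := by
    intro i
    refine coeff_lt_of_circle h2 R hr1 (fun τ hτ => ?_) i
    rw [hRe, ← hτ]
    exact hP τ hτ.ge (hτ.le.trans h12)
  have hc2 : ∀ i, ‖R.coeff i‖ * ‖r₂‖ ^ i < ‖κ‖ * ‖r₂‖ ^ N := by
    intro i
    refine coeff_lt_of_circle h2 R hr2 (fun τ hτ => ?_) i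
    rw [hRe, ← hτ]
    exact hP τ (h12.trans hτ.ge) hτ.le
  have hN1 : ‖((N : K) - m) * P.coeff N - κ‖ < ‖κ‖ := by
    have h := hc1 N
    rw [hR, ann_coeff_R, if_pos rfl] at h
    exact lt_of_mul_lt_mul_right h (by positivity)
  have hNm : N ≠ m := by
    rintro rfl
    rw [sub_self, zero_mul, zero_sub, norm_neg] at hN1
    exact lt_irrefl _ hN1
  have hPN : ‖κ‖ ≤ ‖P.coeff N‖ := by
    have h1 := ann_norm_eq_of_sub_lt hN1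
    rw [← h1, norm_mul]
    have h3 : ‖(N : K) - m‖ ≤ 1 := by
      have := IsUltrametricDist.norm_intCast_le_one K ((N : ℤ) - m)
      push_cast at this
      exact this
    calc ‖(N : K) - m‖ * ‖P.coeff N‖ ≤ 1 * ‖P.coeff N‖ :=
          mul_le_mul_of_nonneg_right h3 (norm_nonneg _)
      _ = _ := one_mul _
  refine ⟨hNm, hPN, ?_⟩
  intro t ht1 ht2 i him hiN
  have ht0 : 0 < t := lt_of_lt_of_le (by positivity) ht1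
  -- coefficient bound
  have hci : ∀ ρ : ℝ, 0 < ρ → ‖R.coeff i‖ * ρ ^ i < ‖κ‖ * ρ ^ N →
      ‖P.coeff i‖ * ρ ^ i < ‖κ‖ * |(i : ℝ) - m| * ρ ^ N := by
    intro ρ hρ h
    rw [hR, ann_coeff_R, if_neg hiN, sub_zero, norm_mul] at h
    have h4 : 1 ≤ ‖(i : K) - m‖ * |(i : ℝ) - m| := by
      have := hn ((i : ℤ) - m) (by
        intro h5
        apply him
        have : (i : ℤ) = m := by linarith
        exact_mod_cast this)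
      push_cast at this
      exact this
    have h5 : 0 < |(i : ℝ) - m| := by
      rw [abs_pos]
      intro h6
      apply him
      have : (i : ℝ) = m := by linarith
      exact_mod_cast this
    calc ‖P.coeff i‖ * ρ ^ i = 1 * (‖P.coeff i‖ * ρ ^ i) := (one_mul _).symm
      _ ≤ (‖(i : K) - m‖ * |(i : ℝ) - m|) * (‖P.coeff i‖ * ρ ^ i) :=
          mul_le_mul_of_nonneg_right h4 (by positivity)
      _ = |(i : ℝ) - m| * (‖(i : K) - m‖ * ‖P.coeff i‖ * ρ ^ i) := by ring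
      _ < |(i : ℝ) - m| * (‖κ‖ * ρ ^ N) := mul_lt_mul_of_pos_left h h5
      _ = _ := by ring
  have hfin : ‖P.coeff i‖ * t ^ i < ‖κ‖ * t ^ N := by
    rcases lt_or_gt_of_ne hiN with hlt | hgt
    · -- i < N
      obtain ⟨k, hk⟩ : ∃ k, N = i + (k + 1) := ⟨N - i - 1, by omega⟩
      have h1 := hci ‖r₁‖ hρ1 (hc1 i)
      have h6 : |(i : ℝ) - m| ≤ b ^ (k + 1) := by
        refine le_trans ?_ (ann_pow_aux (abs_nonneg _) hb k)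
        have : (i : ℝ) - m = ((N : ℝ) - m) - ((k + 1 : ℕ) : ℝ) := by
          rw [hk]; push_cast; ring
        rw [this]
        refine (abs_sub _ _).trans ?_
        rw [abs_of_nonneg (Nat.cast_nonneg (k + 1) : (0 : ℝ) ≤ ((k + 1 : ℕ) : ℝ))]
      have h7 : ‖P.coeff i‖ < ‖κ‖ * |(i : ℝ) - m| * ‖r₁‖ ^ (k + 1) := by
        have h8 : ‖P.coeff i‖ * ‖r₁‖ ^ i < (‖κ‖ * |(i : ℝ) - m| * ‖r₁‖ ^ (k + 1)) * ‖r₁‖ ^ i := by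
          calc _ < _ := h1
            _ = _ := by rw [hk]; ring
        exact lt_of_mul_lt_mul_right h8 (by positivity)
      have h9 : ‖P.coeff i‖ < ‖κ‖ * t ^ (k + 1) := by
        calc ‖P.coeff i‖ < ‖κ‖ * |(i : ℝ) - m| * ‖r₁‖ ^ (k + 1) := h7
          _ ≤ ‖κ‖ * b ^ (k + 1) * ‖r₁‖ ^ (k + 1) := by gcongr
          _ = ‖κ‖ * (‖r₁‖ * b) ^ (k + 1) := by rw [mul_pow]; ring
          _ ≤ ‖κ‖ * t ^ (k + 1) := by gcongr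
      calc ‖P.coeff i‖ * t ^ i < (‖κ‖ * t ^ (k + 1)) * t ^ i :=
            mul_lt_mul_of_pos_right h9 (by positivity)
        _ = ‖κ‖ * t ^ N := by rw [hk]; ring
    · obtain ⟨k, hk⟩ : ∃ k, i = N + (k + 1) := ⟨i - N - 1, by omega⟩
      have h1 := hci ‖r₂‖ hρ2 (hc2 i)
      have h6 : |(i : ℝ) - m| ≤ b ^ (k + 1) := by
        refine le_trans ?_ (ann_pow_aux (abs_nonneg _) hb k)
        have : (i : ℝ) - m = ((N : ℝ) - m) + ((k + 1 : ℕ) : ℝ) := by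
          rw [hk]; push_cast; ring
        rw [this]
        refine (abs_add_le _ _).trans ?_
        rw [abs_of_nonneg (Nat.cast_nonneg (k + 1) : (0 : ℝ) ≤ ((k + 1 : ℕ) : ℝ))]
      have h7 : ‖P.coeff i‖ * ‖r₂‖ ^ (k + 1) < ‖κ‖ * |(i : ℝ) - m| := by
        have h8 : (‖P.coeff i‖ * ‖r₂‖ ^ (k + 1)) * ‖r₂‖ ^ N < (‖κ‖ * |(i : ℝ) - m|) * ‖r₂‖ ^ N := by
          calc _ = ‖P.coeff i‖ * ‖r₂‖ ^ i := by rw [hk]; ring
            _ < _ := h1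
        exact lt_of_mul_lt_mul_right h8 (by positivity)
      have h9 : ‖P.coeff i‖ * t ^ (k + 1) < ‖κ‖ := by
        have h10 : (‖P.coeff i‖ * t ^ (k + 1)) * b ^ (k + 1) < ‖κ‖ * b ^ (k + 1) := by
          calc (‖P.coeff i‖ * t ^ (k + 1)) * b ^ (k + 1)
              = ‖P.coeff i‖ * (t * b) ^ (k + 1) := by rw [mul_pow]; ring
            _ ≤ ‖P.coeff i‖ * ‖r₂‖ ^ (k + 1) := by gcongr
            _ < ‖κ‖ * |(i : ℝ) - m| := h7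
            _ ≤ ‖κ‖ * b ^ (k + 1) := by gcongr
        exact lt_of_mul_lt_mul_right h10 (by positivity)
      calc ‖P.coeff i‖ * t ^ i = (‖P.coeff i‖ * t ^ (k + 1)) * t ^ N := by rw [hk]; ring
        _ < ‖κ‖ * t ^ N := mul_lt_mul_of_pos_right h9 (by positivity)
  calc ‖P.coeff i‖ * t ^ i < ‖κ‖ * t ^ N := hfin
    _ ≤ ‖P.coeff N‖ * t ^ N := by gcongr

/-- Evaluation of a polynomial when all monomials except two are small. -/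
theorem ann_eval_lt {K : Type*} [NormedField K] [IsUltrametricDist K] (P : K[X]) {m N : ℕ}
    (hNm : N ≠ m) (τ : K) {c : ℝ} (hc : 0 < c)
    (h : ∀ i, i ≠ m → i ≠ N → ‖P.coeff i‖ * ‖τ‖ ^ i < c) :
    ‖P.eval τ - P.coeff m * τ ^ m - P.coeff N * τ ^ N‖ < c := by
  set Q : K[X] := P - C (P.coeff m) * X ^ m - C (P.coeff N) * X ^ N with hQ
  have hQe : Q.eval τ = P.eval τ - P.coeff m * τ ^ m - P.coeff N * τ ^ N := by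
    simp [hQ]
  have hQc : ∀ i, ‖Q.coeff i‖ * ‖τ‖ ^ i < c := by
    intro i
    rw [hQ, coeff_sub, coeff_sub, coeff_C_mul, coeff_C_mul, coeff_X_pow, coeff_X_pow]
    by_cases h1 : i = m
    · subst h1
      rw [if_pos rfl, if_neg (fun h => hNm h.symm)]
      simpa using hc
    · by_cases h2 : i = N
      · subst h2
        rw [if_neg h1, if_pos rfl]
        simpa using hc
      · rw [if_neg h1, if_neg h2]
        simpa using h i h1 h2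
  rw [← hQe, eval_eq_sum_range]
  obtain ⟨i, -, hi⟩ := IsUltrametricDist.exists_norm_finsetSum_le_of_nonempty
    (t := Finset.range (Q.natDegree + 1)) ⟨0, by simp⟩ (fun i => Q.coeff i * τ ^ i)
  refine lt_of_le_of_lt hi ?_
  rw [norm_mul, norm_pow]
  exact hQc i

/-- **Annulus lemma.** If `w` is analytic on the annulus `‖r₁‖ ≤ ‖τ‖ ≤ ‖r₂‖` with Euler
derivative close to `κ τ ^ M`, then points with equal values of `w`, not too close to the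
boundary, have equal norms.
Proof: take `ε` smaller than `‖κ‖ * ρ ^ M` for `ρ = ‖r₁‖, ‖r₂‖` (then `ε < ‖κ‖ * ‖τ‖ ^ M` on the
whole annulus: the integer power is monotone or antitone), and `P / τ ^ m` from `hw ε`; by
`ld_shift` we may assume `M + m ≥ 0`; put `N = M + m`. By `annulus_core`,
`‖P.eval τᵢ / τᵢ ^ m - P.coeff m - P.coeff N * τᵢ ^ M‖ < ‖P.coeff N‖ * ‖τᵢ‖ ^ M`, and
`ε < ‖κ‖ * ‖τᵢ‖ ^ M ≤ ‖P.coeff N‖ * ‖τᵢ‖ ^ M`; so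
`‖(w τᵢ - P.coeff m) - P.coeff N * τᵢ ^ M‖ < ‖P.coeff N * τᵢ ^ M‖` and
`‖w τᵢ - P.coeff m‖ = ‖P.coeff N‖ * ‖τᵢ‖ ^ M` for `i = 1, 2`, `M ≠ 0`. -/
theorem annulus_lemma (h2 : ‖(2 : K)‖ = 1) (hn : ∀ n : ℤ, n ≠ 0 → 1 ≤ ‖(n : K)‖ * |(n : ℝ)|)
    {w w1 : K → K} {r₁ r₂ κ : K} (hr1 : r₁ ≠ 0) (h12 : ‖r₁‖ ≤ ‖r₂‖) (hκ : κ ≠ 0)
    (hw : Cl ‖r₁‖ ‖r₂‖ w w1) {M : ℤ}
    (hM : ∀ τ : K, ‖r₁‖ ≤ ‖τ‖ → ‖τ‖ ≤ ‖r₂‖ → ‖w1 τ - κ * τ ^ M‖ < ‖κ * τ ^ M‖)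
    {b : ℝ} (hb : |(M : ℝ)| + 2 ≤ b) {τ₁ τ₂ : K}
    (h1 : ‖r₁‖ * b ≤ ‖τ₁‖) (h1' : ‖τ₁‖ * b ≤ ‖r₂‖)
    (h3 : ‖r₁‖ * b ≤ ‖τ₂‖) (h3' : ‖τ₂‖ * b ≤ ‖r₂‖)
    (heq : w τ₁ = w τ₂) : ‖τ₁‖ = ‖τ₂‖ := by
  have hρ1 : 0 < ‖r₁‖ := norm_pos_iff.mpr hr1
  have hρ2 : 0 < ‖r₂‖ := lt_of_lt_of_le hρ1 h12
  have hκ0 : 0 < ‖κ‖ := norm_pos_iff.mpr hκ
  have hb1 : 1 ≤ b := by
    have := abs_nonneg (M : ℝ)
    linarith
  -- the choice of ε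
  have hex : ∃ ε : ℝ, 0 < ε ∧ ∀ τ : K, ‖r₁‖ ≤ ‖τ‖ → ‖τ‖ ≤ ‖r₂‖ → ε < ‖κ‖ * ‖τ‖ ^ M := by
    refine ⟨min (‖κ‖ * ‖r₁‖ ^ M) (‖κ‖ * ‖r₂‖ ^ M) / 2, by positivity, ?_⟩
    intro τ hτ1 hτ2
    have hτ0 : 0 < ‖τ‖ := lt_of_lt_of_le hρ1 hτ1
    have hpos : 0 < min (‖κ‖ * ‖r₁‖ ^ M) (‖κ‖ * ‖r₂‖ ^ M) := by positivity
    have hle : min (‖κ‖ * ‖r₁‖ ^ M) (‖κ‖ * ‖r₂‖ ^ M) ≤ ‖κ‖ * ‖τ‖ ^ M := by
      rcases le_total 0 M with hM0 | hM0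
      · refine (min_le_left _ _).trans ?_
        have : ‖r₁‖ ^ M ≤ ‖τ‖ ^ M := zpow_le_zpow_left₀ hM0 hρ1.le hτ1
        gcongr
      · refine (min_le_right _ _).trans ?_
        have h5 : ‖τ‖ ^ (-M) ≤ ‖r₂‖ ^ (-M) := zpow_le_zpow_left₀ (by omega) hτ0.le hτ2
        rw [zpow_neg, zpow_neg] at h5
        have : ‖r₂‖ ^ M ≤ ‖τ‖ ^ M := (inv_le_inv₀ (by positivity) (by positivity)).mp h5
        gcongr
    linarith
  obtain ⟨ε, hε, hεlt⟩ := hex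
  -- an approximation with `M + m ≥ 0`
  have hex2 : ∃ (m N : ℕ) (P : K[X]), (N : ℤ) = M + m ∧ ∀ τ : K, ‖r₁‖ ≤ ‖τ‖ → ‖τ‖ ≤ ‖r₂‖ →
      ‖w τ - P.eval τ / τ ^ m‖ ≤ ε ∧ ‖w1 τ - ld P m τ‖ ≤ ε := by
    obtain ⟨m, P, hP⟩ := hw ε hε
    refine ⟨m + M.natAbs, (M + (m + M.natAbs : ℕ)).toNat, X ^ M.natAbs * P, by omega, ?_⟩
    intro τ hτ1 hτ2
    have hτ0 : τ ≠ 0 := norm_pos_iff.mp (lt_of_lt_of_le hρ1 hτ1)
    obtain ⟨e1, e2⟩ := ld_shift P m M.natAbs hτ0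
    rw [e1, e2]
    exact hP τ hτ1 hτ2
  obtain ⟨m, N, P, hNM, hP⟩ := hex2
  have hpow : ∀ τ : K, τ ≠ 0 → τ ^ N = τ ^ M * τ ^ m := by
    intro τ hτ
    rw [← zpow_natCast τ N, hNM, zpow_add₀ hτ, zpow_natCast]
  have hpow' : ∀ τ : K, τ ≠ 0 → ‖τ‖ ^ N = ‖τ‖ ^ M * ‖τ‖ ^ m := by
    intro τ hτ
    rw [← zpow_natCast ‖τ‖ N, hNM, zpow_add₀ (norm_ne_zero_iff.mpr hτ), zpow_natCast]
  have hP' : ∀ τ : K, ‖r₁‖ ≤ ‖τ‖ → ‖τ‖ ≤ ‖r₂‖ →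
      ‖τ * (derivative P).eval τ - m * P.eval τ - κ * τ ^ N‖ < ‖κ‖ * ‖τ‖ ^ N := by
    intro τ hτ1 hτ2
    have hτn : 0 < ‖τ‖ := lt_of_lt_of_le hρ1 hτ1
    have hτ0 : τ ≠ 0 := norm_pos_iff.mp hτn
    have e1 : ‖w1 τ - ld P m τ‖ < ‖κ‖ * ‖τ‖ ^ M := lt_of_le_of_lt (hP τ hτ1 hτ2).2 (hεlt τ hτ1 hτ2)
    have e2 : ‖w1 τ - κ * τ ^ M‖ < ‖κ‖ * ‖τ‖ ^ M := by
      have := hM τ hτ1 hτ2
      rwa [norm_mul, norm_zpow] at this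
    have e3 : ‖ld P m τ - κ * τ ^ M‖ < ‖κ‖ * ‖τ‖ ^ M := by
      have : ld P m τ - κ * τ ^ M = (w1 τ - κ * τ ^ M) - (w1 τ - ld P m τ) := by ring
      rw [this]
      exact ann_norm_sub_lt e2 e1
    have e4 : τ * (derivative P).eval τ - m * P.eval τ - κ * τ ^ N
        = (ld P m τ - κ * τ ^ M) * τ ^ m := by
      rw [hpow τ hτ0, ld, sub_mul, div_mul_cancel₀ _ (pow_ne_zero m hτ0)]
      ring
    rw [e4, norm_mul, norm_pow, hpow' τ hτ0, ← mul_assoc]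
    exact mul_lt_mul_of_pos_right e3 (by positivity)
  have hb' : |(N : ℝ) - m| + 2 ≤ b := by
    have : (N : ℝ) - m = (M : ℝ) := by
      have h5 : ((N : ℤ) : ℝ) = ((M + m : ℤ) : ℝ) := by rw [hNM]
      push_cast at h5
      linarith
    rw [this]
    exact hb
  obtain ⟨hNm, hPN, hdom⟩ := annulus_core h2 hn hr1 h12 hκ hP' hb'
  have hM0 : M ≠ 0 := by
    rintro rfl
    apply hNm
    omega
  have hPN0 : 0 < ‖P.coeff N‖ := lt_of_lt_of_le hκ0 hPN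
  have hmain : ∀ τ : K, ‖r₁‖ * b ≤ ‖τ‖ → ‖τ‖ * b ≤ ‖r₂‖ →
      ‖w τ - P.coeff m‖ = ‖P.coeff N‖ * ‖τ‖ ^ M := by
    intro τ hτb hτb'
    have hτ1 : ‖r₁‖ ≤ ‖τ‖ := le_trans (by nlinarith) hτb
    have hτn : 0 < ‖τ‖ := lt_of_lt_of_le hρ1 hτ1
    have hτ2 : ‖τ‖ ≤ ‖r₂‖ := le_trans (by nlinarith) hτb'
    have hτ0 : τ ≠ 0 := norm_pos_iff.mp hτn
    have e1 : ‖P.eval τ - P.coeff m * τ ^ m - P.coeff N * τ ^ N‖ < ‖P.coeff N‖ * ‖τ‖ ^ N :=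
      ann_eval_lt P hNm τ (by positivity) (hdom ‖τ‖ hτb hτb')
    have e2 : ‖P.eval τ / τ ^ m - P.coeff m - P.coeff N * τ ^ M‖ < ‖P.coeff N‖ * ‖τ‖ ^ M := by
      have h5 : (P.eval τ / τ ^ m - P.coeff m - P.coeff N * τ ^ M) * τ ^ m
          = P.eval τ - P.coeff m * τ ^ m - P.coeff N * τ ^ N := by
        rw [hpow τ hτ0, sub_mul, sub_mul, div_mul_cancel₀ _ (pow_ne_zero m hτ0)]
        ring
      have h6 : ‖P.eval τ / τ ^ m - P.coeff m - P.coeff N * τ ^ M‖ * ‖τ‖ ^ m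
          < (‖P.coeff N‖ * ‖τ‖ ^ M) * ‖τ‖ ^ m := by
        rw [← norm_pow, ← norm_mul, h5, norm_pow, mul_assoc, ← hpow' τ hτ0]
        exact e1
      exact lt_of_mul_lt_mul_right h6 (by positivity)
    have e3 : ‖w τ - P.eval τ / τ ^ m‖ < ‖P.coeff N‖ * ‖τ‖ ^ M := by
      refine lt_of_le_of_lt (hP τ hτ1 hτ2).1 (lt_of_lt_of_le (hεlt τ hτ1 hτ2) ?_)
      gcongr
    have e4 : ‖(w τ - P.coeff m) - P.coeff N * τ ^ M‖ < ‖P.coeff N * τ ^ M‖ := by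
      have : (w τ - P.coeff m) - P.coeff N * τ ^ M
          = (w τ - P.eval τ / τ ^ m) + (P.eval τ / τ ^ m - P.coeff m - P.coeff N * τ ^ M) := by ring
      rw [this, norm_mul, norm_zpow]
      exact ann_norm_add_lt e3 e2
    rw [ann_norm_eq_of_sub_lt e4, norm_mul, norm_zpow]
  have f1 := hmain τ₁ h1 h1'
  have f2 := hmain τ₂ h3 h3'
  rw [heq, f2] at f1
  have f3 : ‖τ₂‖ ^ M = ‖τ₁‖ ^ M := mul_left_cancel₀ hPN0.ne' f1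
  exact ((zpow_left_inj₀ (norm_nonneg _) (norm_nonneg _) hM0).mp f3).symm

end UE97
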