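import Mathlib
import Pool.Agent.Lib.MP_10e784_ag.EQ.Cls

/-!
# Inverses and inverse square roots of `1 - y`
-/

namespace UE97

open Polynomial

variable {K : Type*} [NormedField K]

section inv

variable [IsUltrametricDist K]

private theorem clsInv_norm {y : K} {θ : ℝ} (hθ : θ < 1) (hy : ‖y‖ ≤ θ) : ‖1 - y‖ = 1 := by
  have h1 : ‖(1 : K) + (-y)‖ = max ‖(1 : K)‖ ‖-y‖ := by
    refine IsUltrametricDist.norm_add_eq_max_of_norm_ne_norm ?_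
    rw [norm_one, norm_neg]
    exact (lt_of_le_of_lt hy hθ).ne'
  rw [sub_eq_add_neg, h1, norm_one, norm_neg]
  exact max_eq_left (hy.trans hθ.le)

/-- Approximate by `a n = ∑ i < n, y ^ i`: `(1 - y) * a n = 1 - y ^ n`, so
`(1 - y)⁻¹ - a n = y ^ n / (1 - y)`, of norm `≤ θ ^ n`; the derivative `a n 1` satisfies
`a n 1 * (1 - y) = a n * y1 - n * y ^ (n - 1) * y1`, so
`y1 / (1 - y) ^ 2 - a n 1 = y1 * (((1 - y)⁻¹ - a n) + n * y ^ (n - 1)) / (1 - y)`, of norm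
`≤ ‖y1‖ * θ ^ (n - 1)`. Note `‖1 - y‖ = 1`, and `y1` is bounded (`Cl.bdd`). -/
theorem Cl.inv_one_sub {u v : ℝ} (hu : 0 < u) {y y1 : K → K} (h : Cl u v y y1) {θ : ℝ}
    (hθ : θ < 1) (hy : ∀ τ : K, u ≤ ‖τ‖ → ‖τ‖ ≤ v → ‖y τ‖ ≤ θ) :
    Cl u v (fun τ => (1 - y τ)⁻¹) (fun τ => y1 τ / (1 - y τ) ^ 2) := by
  rcases lt_or_ge θ 0 with hneg | hpos
  · -- the annulus is empty
    intro ε hε
    refine ⟨0, 0, fun τ h1 h2 => ?_⟩
    exact absurd ((norm_nonneg _).trans (hy τ h1 h2)) (not_le.mpr hneg)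
  obtain ⟨M, hM, hb⟩ := h.bdd hu
  have key : ∀ n : ℕ, ∃ k k1 : K → K, Cl u v k k1 ∧ ∀ τ : K, u ≤ ‖τ‖ → ‖τ‖ ≤ v →
      ‖(1 - y τ)⁻¹ - k τ‖ ≤ θ ^ n ∧ ‖y1 τ / (1 - y τ) ^ 2 - k1 τ‖ ≤ M * θ ^ n := by
    have hne : ∀ τ : K, u ≤ ‖τ‖ → ‖τ‖ ≤ v → (1 - y τ) ≠ 0 := by
      intro τ h1 h2 h0
      have := clsInv_norm hθ (hy τ h1 h2)
      rw [h0, norm_zero] at this
      exact zero_ne_one this
    have key2 : ∀ n : ℕ, ∃ k k1 : K → K, Cl u v k k1 ∧ ∀ τ : K, u ≤ ‖τ‖ → ‖τ‖ ≤ v →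
        ‖(1 - y τ)⁻¹ - k τ‖ ≤ θ ^ (n + 1) ∧ ‖y1 τ / (1 - y τ) ^ 2 - k1 τ‖ ≤ M * θ ^ n := by
      intro n
      induction n with
      | zero =>
        refine ⟨fun _ => 1, fun _ => 0, Cl.const u v 1, fun τ h1 h2 => ⟨?_, ?_⟩⟩
        · have e : (1 - y τ)⁻¹ - 1 = y τ / (1 - y τ) := by
            have := hne τ h1 h2
            field_simp
            ring
          show ‖(1 - y τ)⁻¹ - 1‖ ≤ θ ^ (0 + 1)
          rw [e, norm_div, clsInv_norm hθ (hy τ h1 h2), div_one, zero_add, pow_one]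
          exact hy τ h1 h2
        · show ‖y1 τ / (1 - y τ) ^ 2 - 0‖ ≤ M * θ ^ 0
          rw [sub_zero, norm_div, norm_pow, clsInv_norm hθ (hy τ h1 h2), one_pow, div_one, pow_zero,
            mul_one]
          exact (hb τ h1 h2).2
      | succ n ih =>
        obtain ⟨k, k1, hk, hk2⟩ := ih
        refine ⟨_, _, (Cl.const u v (1 : K)).add hu (h.mul hu hk), fun τ h1 h2 => ⟨?_, ?_⟩⟩
        · have e : (1 - y τ)⁻¹ - (1 + y τ * k τ) = y τ * ((1 - y τ)⁻¹ - k τ) := by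
            have := hne τ h1 h2
            field_simp
            ring
          show ‖(1 - y τ)⁻¹ - (1 + y τ * k τ)‖ ≤ θ ^ (n + 1 + 1)
          rw [e, norm_mul, pow_succ, mul_comm]
          exact mul_le_mul (hk2 τ h1 h2).1 (hy τ h1 h2) (norm_nonneg _) (pow_nonneg hpos _)
        · have e : y1 τ / (1 - y τ) ^ 2 - (0 + (y τ * k1 τ + y1 τ * k τ)) =
              y τ * (y1 τ / (1 - y τ) ^ 2 - k1 τ) + y1 τ * ((1 - y τ)⁻¹ - k τ) := by
            have := hne τ h1 h2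
            field_simp
            ring
          show ‖y1 τ / (1 - y τ) ^ 2 - (0 + (y τ * k1 τ + y1 τ * k τ))‖ ≤ M * θ ^ (n + 1)
          rw [e]
          refine (IsUltrametricDist.norm_add_le_max _ _).trans (max_le ?_ ?_)
          · rw [norm_mul]
            calc ‖y τ‖ * ‖y1 τ / (1 - y τ) ^ 2 - k1 τ‖ ≤ θ * (M * θ ^ n) :=
                  mul_le_mul (hy τ h1 h2) (hk2 τ h1 h2).2 (norm_nonneg _) hpos
              _ = M * θ ^ (n + 1) := by ring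
          · rw [norm_mul]
            exact mul_le_mul (hb τ h1 h2).2 (hk2 τ h1 h2).1 (norm_nonneg _) hM.le
    intro n
    obtain ⟨k, k1, hk, hk2⟩ := key2 n
    refine ⟨k, k1, hk, fun τ h1 h2 => ⟨(hk2 τ h1 h2).1.trans ?_, (hk2 τ h1 h2).2⟩⟩
    rw [pow_succ]
    exact mul_le_of_le_one_right (pow_nonneg hpos _) hθ.le
  refine Cl.lim ?_
  intro ε hε
  have ht1 : Filter.Tendsto (fun n : ℕ => θ ^ n) Filter.atTop (nhds 0) :=
    tendsto_pow_atTop_nhds_zero_of_lt_one hpos hθ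
  have ht2 : Filter.Tendsto (fun n : ℕ => M * θ ^ n) Filter.atTop (nhds (M * 0)) :=
    ht1.const_mul M
  rw [mul_zero] at ht2
  obtain ⟨n, hn1, hn2⟩ := ((ht1.eventually_le_const hε).and (ht2.eventually_le_const hε)).exists
  obtain ⟨k, k1, hk, hk2⟩ := key n
  exact ⟨k, k1, hk, fun τ h1 h2 => ⟨(hk2 τ h1 h2).1.trans hn1, (hk2 τ h1 h2).2.trans hn2⟩⟩

end inv

end UE97
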