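import Mathlib
import Pool.Agent.Lib.MP_10e784_ag.EQ.ClsInv

/-!
# The inverse square root of `1 - y`
-/

namespace UE97

open Polynomial

variable {K : Type*} [NormedField K]

open Classical in
/-- `sqi y` is the root `s` of `s ^ 2 * (1 - y) = 1` with `‖s - 1‖ < 1` (for `‖y‖ < 1`). -/
noncomputable def sqi (y : K) : K :=
  if h : ∃ s : K, s ^ 2 * (1 - y) = 1 ∧ ‖s - 1‖ < 1 then h.choose else 1

section poly

/-- chain rule for polynomials -/
theorem clsSq_poly {u v : ℝ} (hu : 0 < u) {y y1 : K → K} (h : Cl u v y y1) (Q : K[X]) :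
    Cl u v (fun τ => Q.eval (y τ)) (fun τ => (derivative Q).eval (y τ) * y1 τ) := by
  induction Q using Polynomial.induction_on' with
  | add P Q hP hQ =>
    refine (Cl.add hu hP hQ).congr (fun τ _ _ => ?_) (fun τ _ _ => ?_)
    · rw [eval_add]
    · rw [derivative_add, eval_add]
      ring
  | monomial n a =>
    rcases n with _ | n
    · refine (Cl.const u v a).congr (fun τ _ _ => ?_) (fun τ _ _ => ?_)
      · simp
      · simp
    · refine ((Cl.pow hu h n).const_mul a).congr (fun τ _ _ => ?_) (fun τ _ _ => ?_)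
      · rw [eval_monomial]
      · rw [derivative_monomial, eval_monomial]
        push_cast
        ring

/-- the Newton iterates -/
noncomputable def clsSqB : ℕ → K[X]
  | 0 => 1
  | k + 1 => clsSqB k * (1 + C (1 / 2) * (1 - (1 - X) * clsSqB k ^ 2))

/-- the defects -/
noncomputable def clsSqE (k : ℕ) : K[X] := 1 - (1 - X) * clsSqB k ^ 2

theorem clsSqB_succ (k : ℕ) :
    (clsSqB (k + 1) : K[X]) = clsSqB k * (1 + C (1 / 2) * clsSqE k) := rfl

theorem clsSqE_zero : (clsSqE 0 : K[X]) = X := by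
  unfold clsSqE clsSqB
  ring

theorem clsSqE_succ (h2 : (2 : K) ≠ 0) (k : ℕ) :
    (clsSqE (k + 1) : K[X]) = C (3 / 4) * clsSqE k ^ 2 + C (1 / 4) * clsSqE k ^ 3 := by
  have e1 : (clsSqE (k + 1) : K[X]) = 1 - (1 - X) * clsSqB (k + 1) ^ 2 := rfl
  have e2 : ((1 - X) * clsSqB k ^ 2 : K[X]) = 1 - clsSqE k := by
    unfold clsSqE
    ring
  have e3 : ((1 - X) * clsSqB (k + 1) ^ 2 : K[X]) =
      (1 - clsSqE k) * (1 + C (1 / 2) * clsSqE k) ^ 2 := by
    rw [clsSqB_succ, mul_pow, ← mul_assoc, e2]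
  rw [e1, e3]
  have c1 : (C (1 / 2) : K[X]) = C 2 * C (1 / 4) := by
    rw [← C_mul]
    congr 1
    have h4 : (4 : K) = 2 * 2 := by norm_num
    rw [h4]
    field_simp
  have c2 : (C (3 / 4) : K[X]) = C 3 * C (1 / 4) := by
    rw [← C_mul]
    congr 1
    ring
  have c3 : (C 2 * (C 2 * C (1 / 4)) : K[X]) = 1 := by
    rw [← C_mul, ← C_mul, ← C_1]
    congr 1
    have h4 : (4 : K) = 2 * 2 := by norm_num
    rw [h4]
    field_simp
  have c4 : (C 2 : K[X]) = 2 := rfl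
  have c5 : (C 3 : K[X]) = 3 := rfl
  rw [c1, c2]
  rw [c4] at c3 ⊢
  rw [c5]
  linear_combination (-clsSqE k - (clsSqE k) ^ 2 * C (1 / 4) +
    (clsSqE k) ^ 3 * C (1 / 4)) * c3

end poly

section sq

variable [IsUltrametricDist K] [IsAlgClosed K]

omit [IsAlgClosed K] in
theorem clsSq_norm_one_sub {y : K} (hy : ‖y‖ < 1) : ‖1 - y‖ = 1 := by
  have h : ‖(1 : K)‖ ≠ ‖-y‖ := by
    rw [norm_one, norm_neg]
    exact hy.ne'
  rw [sub_eq_add_neg, IsUltrametricDist.norm_add_eq_max_of_norm_ne_norm h, norm_one, norm_neg]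
  exact max_eq_left hy.le

omit [IsAlgClosed K] in
theorem clsSq_norm_of_sub {s : K} (hs : ‖s - 1‖ < 1) : ‖s‖ = 1 := by
  have : ‖1 - (-(s - 1))‖ = 1 := clsSq_norm_one_sub (by rwa [norm_neg])
  rwa [sub_neg_eq_add, add_sub_cancel] at this

omit [IsAlgClosed K] in
theorem clsSq_norm_sum (h2 : ‖(2 : K)‖ = 1) {s b : K} (hs : ‖s - 1‖ < 1) (hb : ‖b - 1‖ < 1) :
    ‖s + b‖ = 1 := by
  have h1 : ‖(s - 1) + (b - 1)‖ < 1 :=
    (IsUltrametricDist.norm_add_le_max _ _).trans_lt (max_lt hs hb)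
  have h : ‖(2 : K)‖ ≠ ‖(s - 1) + (b - 1)‖ := by
    rw [h2]
    exact h1.ne'
  have e : s + b = 2 + ((s - 1) + (b - 1)) := by ring
  rw [e, IsUltrametricDist.norm_add_eq_max_of_norm_ne_norm h, h2]
  exact max_eq_left h1.le

/-- Let `t` be a square root of `(1 - y)⁻¹`. Then `(t - 1) * (t + 1) = y / (1 - y)` has norm
`< 1`, and `(t + 1) - (t - 1) = 2` has norm `1`, so exactly one of `‖t - 1‖`, `‖t + 1‖` is `< 1`;
take `s = t` or `s = -t`. -/
theorem sqi_spec (h2 : ‖(2 : K)‖ = 1) {y : K} (hy : ‖y‖ < 1) :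
    sqi y ^ 2 * (1 - y) = 1 ∧ ‖sqi y - 1‖ < 1 := by
  have hy1 : ‖1 - y‖ = 1 := clsSq_norm_one_sub hy
  have hy0 : 1 - y ≠ 0 := by
    intro h
    rw [h, norm_zero] at hy1
    exact zero_ne_one hy1
  have hex : ∃ s : K, s ^ 2 * (1 - y) = 1 ∧ ‖s - 1‖ < 1 := by
    obtain ⟨t, ht⟩ := IsAlgClosed.exists_pow_nat_eq ((1 - y)⁻¹) (n := 2) (by norm_num)
    have ht1 : t ^ 2 * (1 - y) = 1 := by rw [ht, inv_mul_cancel₀ hy0]
    have hp : (t - 1) * (t + 1) * (1 - y) = y := by linear_combination ht1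
    have hn : ‖t - 1‖ * ‖t + 1‖ = ‖y‖ := by
      rw [← hp, norm_mul, norm_mul, hy1, mul_one]
    rcases lt_or_ge ‖t - 1‖ 1 with h | h
    · exact ⟨t, ht1, h⟩
    · refine ⟨-t, by rw [neg_sq, ht1], ?_⟩
      have e : ‖-t - 1‖ = ‖t + 1‖ := by
        rw [← norm_neg]
        congr 1
        ring
      rw [e]
      by_contra h'
      push Not at h'
      have : 1 * 1 ≤ ‖t - 1‖ * ‖t + 1‖ := mul_le_mul h h' zero_le_one (norm_nonneg _)
      rw [hn] at this
      linarith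
  unfold sqi
  rw [dif_pos hex]
  exact hex.choose_spec

omit [IsAlgClosed K] in
theorem clsSq_bounds (h2 : ‖(2 : K)‖ = 1) {θ : ℝ} (hθ0 : 0 ≤ θ) (hθ : θ < 1) {y : K}
    (hy : ‖y‖ ≤ θ) (k : ℕ) :
    ‖(clsSqE k).eval y‖ ≤ θ ^ (k + 1) ∧ ‖(derivative (clsSqE k)).eval y‖ ≤ θ ^ k ∧
      ‖(clsSqB k).eval y - 1‖ < 1 := by
  have h20 : (2 : K) ≠ 0 := by
    intro h
    rw [h, norm_zero] at h2
    exact zero_ne_one h2
  have h4 : ‖(4 : K)‖ = 1 := by
    have : (4 : K) = 2 * 2 := by norm_num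
    rw [this, norm_mul, h2, mul_one]
  have h3 : ‖(3 : K)‖ ≤ 1 := by
    have := IsUltrametricDist.norm_natCast_le_one K 3
    simpa using this
  induction k with
  | zero =>
    rw [clsSqE_zero]
    refine ⟨by simpa using hy, by simp, ?_⟩
    have : (clsSqB 0 : K[X]) = 1 := rfl
    rw [this, eval_one, sub_self, norm_zero]
    exact one_pos
  | succ k ih =>
    obtain ⟨i1, i2, i3⟩ := ih
    set e := (clsSqE k).eval y with he
    set e' := (derivative (clsSqE k)).eval y with he'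
    set b := (clsSqB k).eval y with hb
    have hθk : θ ^ (k + 1) ≤ θ := by
      calc θ ^ (k + 1) ≤ θ ^ 1 := pow_le_pow_of_le_one hθ0 hθ.le (by omega)
        _ = θ := pow_one θ
    have he1 : ‖e‖ ≤ θ := i1.trans hθk
    have he1' : ‖e‖ ≤ 1 := he1.trans hθ.le
    refine ⟨?_, ?_, ?_⟩
    · have E : (clsSqE (k + 1)).eval y = (3 / 4) * e ^ 2 + (1 / 4) * e ^ 3 := by
        rw [clsSqE_succ h20, eval_add, eval_mul, eval_mul, eval_C, eval_C, eval_pow, eval_pow]
      rw [E]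
      refine (IsUltrametricDist.norm_add_le_max _ _).trans (max_le ?_ ?_)
      · rw [norm_mul, norm_div, h4, div_one, norm_pow]
        calc ‖(3 : K)‖ * ‖e‖ ^ 2 ≤ 1 * ‖e‖ ^ 2 :=
              mul_le_mul_of_nonneg_right h3 (by positivity)
          _ = ‖e‖ * ‖e‖ := by ring
          _ ≤ θ ^ (k + 1) * θ := mul_le_mul i1 he1 (norm_nonneg _) (by positivity)
          _ = θ ^ (k + 1 + 1) := by ring
      · rw [norm_mul, norm_div, h4, div_one, norm_pow, norm_one, one_mul]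
        calc ‖e‖ ^ 3 = ‖e‖ * ‖e‖ * ‖e‖ := by ring
          _ ≤ θ ^ (k + 1) * θ * 1 := mul_le_mul (mul_le_mul i1 he1 (norm_nonneg _)
              (by positivity)) he1' (norm_nonneg _) (by positivity)
          _ = θ ^ (k + 1 + 1) := by ring
    · have E : (derivative (clsSqE (k + 1))).eval y =
          (3 / 2) * e * e' + (3 / 4) * e ^ 2 * e' := by
        rw [clsSqE_succ h20, derivative_add, derivative_C_mul, derivative_C_mul,
          derivative_pow, derivative_pow]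
        simp only [eval_add, eval_mul, eval_C, eval_pow]
        have h40 : (4 : K) ≠ 0 := by
          intro h
          rw [h, norm_zero] at h4
          exact zero_ne_one h4
        rw [← he, ← he']
        have q : (3 / 4 : K) = (3 / 2) * (1 / 2) := by
          have : (4 : K) = 2 * 2 := by norm_num
          rw [this]
          field_simp
        push_cast
        have q1 : (3 / 4 : K) * 2 = 3 / 2 := by
          have : (4 : K) = 2 * 2 := by norm_num
          rw [this]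
          field_simp
        linear_combination (e * e') * q1
      rw [E]
      refine (IsUltrametricDist.norm_add_le_max _ _).trans (max_le ?_ ?_)
      · rw [norm_mul, norm_mul, norm_div, h2, div_one]
        calc ‖(3 : K)‖ * ‖e‖ * ‖e'‖ ≤ 1 * θ * θ ^ k :=
              mul_le_mul (mul_le_mul h3 he1 (norm_nonneg _) zero_le_one) i2 (norm_nonneg _)
                (by positivity)
          _ = θ ^ (k + 1) := by ring
      · rw [norm_mul, norm_mul, norm_div, h4, div_one, norm_pow]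
        calc ‖(3 : K)‖ * ‖e‖ ^ 2 * ‖e'‖ ≤ 1 * (θ * 1) * θ ^ k := by
              refine mul_le_mul (mul_le_mul h3 ?_ (by positivity) zero_le_one) i2 (norm_nonneg _)
                (by positivity)
              rw [pow_two]
              exact mul_le_mul he1 he1' (norm_nonneg _) hθ0
          _ = θ ^ (k + 1) := by ring
    · have E : (clsSqB (k + 1)).eval y - 1 = (b - 1) + b * (1 / 2 * e) := by
        rw [clsSqB_succ, eval_mul, eval_add, eval_one, eval_mul, eval_C]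
        ring
      rw [E]
      refine (IsUltrametricDist.norm_add_le_max _ _).trans_lt (max_lt i3 ?_)
      rw [norm_mul, norm_mul, norm_div, norm_one, h2, clsSq_norm_of_sub i3]
      linarith

/-- Newton iteration. `b 0 = 1`, `e k = 1 - (1 - y) * b k ^ 2`, `b (k + 1) = b k * (1 + e k / 2)`,
so `e (k + 1) = (3 / 4) * e k ^ 2 + (1 / 4) * e k ^ 3`, `‖e k‖ ≤ θ ^ (2 ^ k)`, `‖b k - 1‖ < 1`.
With `s = sqi y`: `(s - b k) * (s + b k) = e k / (1 - y)` and `‖s + b k‖ = ‖2‖ = 1`, so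
`‖s - b k‖ = ‖e k‖`. Derivatives: `b k` and `e k` are polynomials in `y`, hence `Cl`
(`Cl.add`, `Cl.mul`, induction on `k`), with derivatives `bk1`, `ek1`;
`e (k+1) 1 = ((3 / 2) * e k + (3 / 4) * e k ^ 2) * ek1`, so
`‖e (k+1) 1‖ ≤ ‖e k‖ * ‖ek1‖ ≤ θ * ‖ek1‖` and `‖ek1‖ ≤ θ ^ k * ‖y1‖`;
from `e k = 1 - (1 - y) * b k ^ 2`: `bk1 = b k * y1 / (2 * (1 - y)) - ek1 / (2 * (1 - y) * b k)`,
so `‖s * y1 / (2 * (1 - y)) - bk1‖ ≤ max (‖s - b k‖ * ‖y1‖) ‖ek1‖` tends to `0` uniformly.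
Conclude with `Cl.lim`. -/
theorem Cl.sqi (h2 : ‖(2 : K)‖ = 1) {u v : ℝ} (hu : 0 < u) {y y1 : K → K} (h : Cl u v y y1)
    {θ : ℝ} (hθ : θ < 1) (hy : ∀ τ : K, u ≤ ‖τ‖ → ‖τ‖ ≤ v → ‖y τ‖ ≤ θ) :
    Cl u v (fun τ => UE97.sqi (y τ)) (fun τ => UE97.sqi (y τ) * y1 τ / (2 * (1 - y τ))) := by
  have h20 : (2 : K) ≠ 0 := by
    intro h
    rw [h, norm_zero] at h2
    exact zero_ne_one h2
  obtain ⟨M, hM, hb⟩ := h.bdd hu
  set θ' := max θ 0 with hθ'
  have hθ0 : 0 ≤ θ' := le_max_right _ _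
  have hθ1 : θ' < 1 := max_lt hθ one_pos
  apply Cl.lim
  intro ε hε
  obtain ⟨k, hk⟩ := exists_pow_lt_of_lt_one (show 0 < min ε (ε / M) from
    lt_min hε (div_pos hε hM)) hθ1
  refine ⟨_, _, clsSq_poly hu h (clsSqB k), fun τ a1 a2 => ?_⟩
  have hyθ : ‖y τ‖ ≤ θ' := (hy τ a1 a2).trans (le_max_left _ _)
  have hy1 : ‖y τ‖ < 1 := hyθ.trans_lt hθ1
  obtain ⟨i1, i2, i3⟩ := clsSq_bounds h2 hθ0 hθ1 hyθ k
  obtain ⟨s1, s2⟩ := sqi_spec h2 hy1
  obtain ⟨-, bM⟩ := hb τ a1 a2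
  set s := UE97.sqi (y τ) with hs
  set b := (clsSqB k).eval (y τ) with hbd
  set b' := (derivative (clsSqB k)).eval (y τ) with hb'
  set e := (clsSqE k).eval (y τ) with he
  set e' := (derivative (clsSqE k)).eval (y τ) with he'
  have n1 : ‖1 - y τ‖ = 1 := clsSq_norm_one_sub hy1
  have hy0 : 1 - y τ ≠ 0 := by
    intro h
    rw [h, norm_zero] at n1
    exact zero_ne_one n1
  have nb : ‖b‖ = 1 := clsSq_norm_of_sub i3
  have hb0 : b ≠ 0 := by
    intro h
    rw [h, norm_zero] at nb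
    exact zero_ne_one nb
  have E1 : e = 1 - (1 - y τ) * b ^ 2 := by
    rw [he]
    unfold clsSqE
    rw [eval_sub, eval_mul, eval_sub, eval_pow, eval_one, eval_X]
  have E2 : e' = b ^ 2 - 2 * (1 - y τ) * b * b' := by
    rw [he']
    unfold clsSqE
    rw [derivative_sub, derivative_mul, derivative_sub, derivative_one, derivative_X,
      derivative_pow]
    simp only [eval_sub, eval_add, eval_mul, eval_pow, eval_one, eval_X, eval_zero, eval_C]
    push_cast
    ring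
  have nsb : ‖s - b‖ = ‖e‖ := by
    have : (s - b) * (s + b) * (1 - y τ) = e := by
      rw [E1]
      linear_combination s1
    rw [← this, norm_mul, norm_mul, n1, clsSq_norm_sum h2 s2 i3, mul_one, mul_one]
  have p1 : θ' ^ (k + 1) ≤ θ' ^ k := pow_le_pow_of_le_one hθ0 hθ1.le (by omega)
  have k1 : θ' ^ k ≤ ε := hk.le.trans (min_le_left _ _)
  have k2 : θ' ^ k * M ≤ ε := by
    have := hk.le.trans (min_le_right _ _)
    rwa [le_div_iff₀ hM] at this
  refine ⟨?_, ?_⟩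
  · rw [nsb]
    exact i1.trans (p1.trans k1)
  · have D : s * y1 τ / (2 * (1 - y τ)) - b' * y1 τ =
        y1 τ * ((s - b) / (2 * (1 - y τ)) + e' / (2 * (1 - y τ) * b)) := by
      rw [E2]
      field_simp
      ring
    rw [D, norm_mul]
    have t1 : ‖(s - b) / (2 * (1 - y τ))‖ ≤ θ' ^ k := by
      rw [norm_div, norm_mul, h2, n1, mul_one, div_one, nsb]
      exact i1.trans p1
    have t2 : ‖e' / (2 * (1 - y τ) * b)‖ ≤ θ' ^ k := by
      rw [norm_div, norm_mul, norm_mul, h2, n1, nb, mul_one, mul_one, div_one]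
      exact i2
    calc ‖y1 τ‖ * ‖(s - b) / (2 * (1 - y τ)) + e' / (2 * (1 - y τ) * b)‖
        ≤ M * θ' ^ k := mul_le_mul bM ((IsUltrametricDist.norm_add_le_max _ _).trans
          (max_le t1 t2)) (norm_nonneg _) hM.le
      _ ≤ ε := by linarith

end sq

end UE97
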