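import Mathlib

/-!
# Gauss norms

`gn c ρ P` is the Gauss norm of `P` on the disc of centre `c` and radius `ρ`:
the maximum over `i` of `‖(taylor c P).coeff i‖ * ρ ^ i`.
Mathlib: `Polynomial.gaussNorm`, `Polynomial.le_gaussNorm`, `Polynomial.exists_eq_gaussNorm`,
`Polynomial.gaussNorm_mul`, `Polynomial.isNonarchimedean_gaussNorm`.
-/

namespace UE97

open Polynomial

variable {K : Type*} [NormedField K]

/-- Gauss norm of `P` on the disc of centre `c` and radius `ρ`. -/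
noncomputable def gn (c : K) (ρ : ℝ) (P : K[X]) : ℝ :=
  (taylor c P).gaussNorm (NormedField.toAbsoluteValue K) ρ

theorem coeff_le_gn (c : K) {ρ : ℝ} (hρ : 0 ≤ ρ) (P : K[X]) (i : ℕ) :
    ‖(taylor c P).coeff i‖ * ρ ^ i ≤ gn c ρ P := by
  exact le_gaussNorm (NormedField.toAbsoluteValue K) (taylor c P) hρ i

theorem exists_gn_eq (c : K) (ρ : ℝ) (P : K[X]) :
    ∃ i, gn c ρ P = ‖(taylor c P).coeff i‖ * ρ ^ i := by
  exact exists_eq_gaussNorm (NormedField.toAbsoluteValue K) ρ (taylor c P)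

theorem gn_nonneg (c : K) {ρ : ℝ} (hρ : 0 ≤ ρ) (P : K[X]) : 0 ≤ gn c ρ P := by
  obtain ⟨i, hi⟩ := exists_gn_eq c ρ P
  rw [hi]
  positivity

theorem gn_le_iff (c : K) {ρ : ℝ} (hρ : 0 ≤ ρ) (P : K[X]) (M : ℝ) :
    gn c ρ P ≤ M ↔ ∀ i, ‖(taylor c P).coeff i‖ * ρ ^ i ≤ M := by
  constructor
  · intro h i
    exact (coeff_le_gn c hρ P i).trans h
  · intro h
    obtain ⟨i, hi⟩ := exists_gn_eq c ρ P
    rw [hi]
    exact h i

theorem gn_lt_iff (c : K) {ρ : ℝ} (hρ : 0 ≤ ρ) (P : K[X]) (M : ℝ) :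
    gn c ρ P < M ↔ ∀ i, ‖(taylor c P).coeff i‖ * ρ ^ i < M := by
  constructor
  · intro h i
    exact (coeff_le_gn c hρ P i).trans_lt h
  · intro h
    obtain ⟨i, hi⟩ := exists_gn_eq c ρ P
    rw [hi]
    exact h i

theorem gn_pos (c : K) {ρ : ℝ} (hρ : 0 < ρ) {P : K[X]} (hP : P ≠ 0) : 0 < gn c ρ P := by
  have h1 : taylor c P ≠ 0 := fun h => hP ((taylor_eq_zero c P).1 h)
  have h2 : (taylor c P).leadingCoeff ≠ 0 := leadingCoeff_ne_zero.2 h1
  have h3 : 0 < ‖(taylor c P).coeff (taylor c P).natDegree‖ * ρ ^ (taylor c P).natDegree := by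
    have : 0 < ‖(taylor c P).coeff (taylor c P).natDegree‖ := norm_pos_iff.2 h2
    positivity
  exact h3.trans_le (coeff_le_gn c hρ.le P _)

theorem gn_C_mul (c : K) {ρ : ℝ} (hρ : 0 ≤ ρ) (a : K) (P : K[X]) :
    gn c ρ (C a * P) = ‖a‖ * gn c ρ P := by
  have key : ∀ i, ‖(taylor c (C a * P)).coeff i‖ * ρ ^ i =
      ‖a‖ * (‖(taylor c P).coeff i‖ * ρ ^ i) := by
    intro i
    rw [taylor_mul, taylor_C, coeff_C_mul, norm_mul]
    ring
  apply le_antisymm
  · rw [gn_le_iff c hρ]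
    intro i
    rw [key]
    exact mul_le_mul_of_nonneg_left (coeff_le_gn c hρ P i) (norm_nonneg _)
  · obtain ⟨i, hi⟩ := exists_gn_eq c ρ P
    rw [hi, ← key]
    exact coeff_le_gn c hρ _ i

theorem gn_neg (c : K) {ρ : ℝ} (hρ : 0 ≤ ρ) (P : K[X]) : gn c ρ (-P) = gn c ρ P := by
  have h := gn_C_mul c hρ (-1 : K) P
  rw [norm_neg, norm_one, one_mul] at h
  rw [← h]
  congr 1
  simp

/-- The Gauss norm as a function of the radius is continuous on `[0, ∞)`. (It is a finite maximum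
of continuous functions: `gn c ρ P` is the maximum over `i < natDegree + 1`.) -/
theorem gn_continuousOn (c : K) (P : K[X]) : ContinuousOn (fun ρ => gn c ρ P) (Set.Ici 0) := by
  have hne : (Finset.range ((taylor c P).natDegree + 1)).Nonempty := ⟨0, by simp⟩
  have h1 : ∀ ρ ∈ Set.Ici (0 : ℝ), gn c ρ P = (Finset.range ((taylor c P).natDegree + 1)).sup' hne
      (fun i => ‖(taylor c P).coeff i‖ * ρ ^ i) := by
    intro ρ hρ
    apply le_antisymm
    · rw [gn_le_iff c hρ]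
      intro i
      by_cases hi : i ≤ (taylor c P).natDegree
      · exact Finset.le_sup' (fun i => ‖(taylor c P).coeff i‖ * ρ ^ i)
          (Finset.mem_range.2 (by omega))
      · rw [coeff_eq_zero_of_natDegree_lt (by omega), norm_zero, zero_mul]
        have h2 := Finset.le_sup' (fun i => ‖(taylor c P).coeff i‖ * ρ ^ i)
          (Finset.mem_range.2 (Nat.succ_pos (taylor c P).natDegree) :
            0 ∈ Finset.range ((taylor c P).natDegree + 1))
        refine le_trans ?_ h2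
        have hρ' : (0 : ℝ) ≤ ρ := hρ
        positivity
    · rw [Finset.sup'_le_iff]
      intro i _
      exact coeff_le_gn c hρ P i
  refine ContinuousOn.congr ?_ h1
  apply ContinuousOn.finset_sup'_apply
  intro i _
  fun_prop

/-- For small radii the Gauss norm is at most any positive bound of the value at the centre. -/
theorem gn_small (c : K) (P : K[X]) {M : ℝ} (hM : 0 < M) (h : ‖P.eval c‖ ≤ M) :
    ∃ ρ₁ > 0, ∀ ρ, 0 ≤ ρ → ρ ≤ ρ₁ → gn c ρ P ≤ M := by
  set S : ℝ := ∑ i ∈ (taylor c P).support, ‖(taylor c P).coeff i‖ + 1 with hS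
  have hS0 : 0 < S := by positivity
  have hSi : ∀ i, ‖(taylor c P).coeff i‖ ≤ S := by
    intro i
    by_cases hi : i ∈ (taylor c P).support
    · have := Finset.single_le_sum (f := fun i => ‖(taylor c P).coeff i‖)
        (fun i _ => norm_nonneg _) hi
      linarith
    · rw [notMem_support_iff.1 hi, norm_zero]
      exact hS0.le
  refine ⟨min 1 (M / S), lt_min one_pos (div_pos hM hS0), ?_⟩
  intro ρ hρ0 hρ1
  rw [gn_le_iff c hρ0]
  intro i
  rcases Nat.eq_zero_or_pos i with rfl | hi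
  · rw [taylor_coeff_zero, pow_zero, mul_one]
    exact h
  · have h1 : ρ ^ i ≤ ρ := by
      calc ρ ^ i ≤ ρ ^ 1 := pow_le_pow_of_le_one hρ0 (hρ1.trans (min_le_left _ _)) hi
        _ = ρ := pow_one ρ
    calc ‖(taylor c P).coeff i‖ * ρ ^ i ≤ S * ρ := by
          have := hSi i
          gcongr
      _ ≤ S * (M / S) := by
          have := hρ1.trans (min_le_right _ _)
          gcongr
      _ = M := by field_simp

section ultra

variable [IsUltrametricDist K]

theorem gn_add_le (c : K) {ρ : ℝ} (hρ : 0 ≤ ρ) (P Q : K[X]) :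
    gn c ρ (P + Q) ≤ max (gn c ρ P) (gn c ρ Q) := by
  rw [gn_le_iff c hρ]
  intro i
  rw [map_add, coeff_add]
  calc ‖(taylor c P).coeff i + (taylor c Q).coeff i‖ * ρ ^ i
      ≤ max ‖(taylor c P).coeff i‖ ‖(taylor c Q).coeff i‖ * ρ ^ i := by
        gcongr
        exact IsUltrametricDist.norm_add_le_max _ _
    _ = max (‖(taylor c P).coeff i‖ * ρ ^ i) (‖(taylor c Q).coeff i‖ * ρ ^ i) := by
        rw [max_mul_of_nonneg _ _ (pow_nonneg hρ _)]
    _ ≤ max (gn c ρ P) (gn c ρ Q) := max_le_max (coeff_le_gn c hρ P i) (coeff_le_gn c hρ Q i)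

theorem gn_sub_le (c : K) {ρ : ℝ} (hρ : 0 ≤ ρ) (P Q : K[X]) :
    gn c ρ (P - Q) ≤ max (gn c ρ P) (gn c ρ Q) := by
  rw [sub_eq_add_neg]
  have := gn_add_le c hρ P (-Q)
  rwa [gn_neg c hρ] at this

theorem gn_mul (c : K) {ρ : ℝ} (hρ : 0 < ρ) (P Q : K[X]) :
    gn c ρ (P * Q) = gn c ρ P * gn c ρ Q := by
  unfold gn
  rw [taylor_mul]
  apply gaussNorm_mul _ hρ
  exact IsUltrametricDist.isNonarchimedean_norm (R := K)

theorem gn_center_le {c c' : K} {ρ : ℝ} (h : ‖c - c'‖ ≤ ρ) (P : K[X]) :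
    gn c ρ P ≤ gn c' ρ P := by
  have hρ : 0 ≤ ρ := (norm_nonneg _).trans h
  rw [gn_le_iff c hρ]
  intro i
  have h1 : taylor c P = taylor (c - c') (taylor c' P) := by
    rw [taylor_taylor, sub_add_cancel]
  rw [h1, taylor_coeff, eval_eq_sum_range]
  obtain ⟨n, _, hn⟩ := IsUltrametricDist.exists_norm_finsetSum_le_of_nonempty
    (Finset.nonempty_range_add_one (n := (hasseDeriv i (taylor c' P)).natDegree))
    (fun n => (hasseDeriv i (taylor c' P)).coeff n * (c - c') ^ n)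
  calc ‖∑ n ∈ Finset.range ((hasseDeriv i (taylor c' P)).natDegree + 1),
        (hasseDeriv i (taylor c' P)).coeff n * (c - c') ^ n‖ * ρ ^ i
      ≤ ‖(hasseDeriv i (taylor c' P)).coeff n * (c - c') ^ n‖ * ρ ^ i := by gcongr
    _ = ‖(((n + i).choose i : ℕ) : K)‖ * ‖(taylor c' P).coeff (n + i)‖ * ‖c - c'‖ ^ n * ρ ^ i := by
        rw [hasseDeriv_coeff, norm_mul, norm_mul, norm_pow]
    _ ≤ 1 * ‖(taylor c' P).coeff (n + i)‖ * ρ ^ n * ρ ^ i := by
        gcongr
        exact IsUltrametricDist.norm_natCast_le_one K _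
    _ = ‖(taylor c' P).coeff (n + i)‖ * ρ ^ (n + i) := by rw [pow_add]; ring
    _ ≤ gn c' ρ P := coeff_le_gn c' hρ P _

theorem norm_eval_le_gn (c x : K) {ρ : ℝ} (hx : ‖x - c‖ ≤ ρ) (P : K[X]) :
    ‖P.eval x‖ ≤ gn c ρ P := by
  have hρ : 0 ≤ ρ := (norm_nonneg _).trans hx
  have h1 := coeff_le_gn x hρ P 0
  rw [taylor_coeff_zero, pow_zero, mul_one] at h1
  exact h1.trans (gn_center_le hx P)

/-- Every point of a disc is a centre. Key point: `(taylor c' P).coeff i` is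
`∑ j, choose (i + j) i * (taylor c P).coeff (i + j) * (c' - c) ^ j`
(`taylor_taylor`, `taylor_coeff`, `hasseDeriv`), and `‖choose‖ ≤ 1`. -/
theorem gn_center {c c' : K} {ρ : ℝ} (h : ‖c - c'‖ ≤ ρ) (P : K[X]) :
    gn c ρ P = gn c' ρ P := by
  apply le_antisymm (gn_center_le h P)
  apply gn_center_le
  rwa [norm_sub_rev]

end ultra

end UE97
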