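import Mathlib
import Pool.Agent.Lib.MP_10e784_ag.EQ.Gn

/-!
# Strictly dominating monomials

`Dom P n ρ` says that the monomial of index `n` of `P` strictly dominates on the circle of
radius `ρ`.
-/

namespace UE97

open Polynomial

variable {K : Type*} [NormedField K]

/-- The monomial of index `n` of `P` strictly dominates at radius `ρ`. -/
def Dom (P : K[X]) (n : ℕ) (ρ : ℝ) : Prop :=
  ∀ i, i ≠ n → ‖P.coeff i‖ * ρ ^ i < ‖P.coeff n‖ * ρ ^ n

theorem Dom.coeff_ne_zero {P : K[X]} {n : ℕ} {ρ : ℝ} (hρ : 0 ≤ ρ) (h : Dom P n ρ) :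
    P.coeff n ≠ 0 := by
  intro h0
  have h1 := h (n + 1) (by omega)
  rw [h0, norm_zero, zero_mul] at h1
  exact absurd h1 (not_lt.2 (by positivity))

theorem Dom.le_natDegree {P : K[X]} {n : ℕ} {ρ : ℝ} (hρ : 0 ≤ ρ) (h : Dom P n ρ) :
    n ≤ P.natDegree := by
  exact Polynomial.le_natDegree_of_ne_zero (h.coeff_ne_zero hρ)

theorem Dom.neg {P : K[X]} {n : ℕ} {ρ : ℝ} (h : Dom P n ρ) : Dom (-P) n ρ := by
  intro i hi
  have := h i hi
  simpa only [Polynomial.coeff_neg, norm_neg] using this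

theorem Dom.C_mul {P : K[X]} {n : ℕ} {ρ : ℝ} {a : K} (ha : a ≠ 0) (h : Dom P n ρ) :
    Dom (C a * P) n ρ := by
  intro i hi
  have h1 := h i hi
  have h2 : 0 < ‖a‖ := norm_pos_iff.2 ha
  rw [Polynomial.coeff_C_mul, Polynomial.coeff_C_mul, norm_mul, norm_mul, mul_assoc, mul_assoc]
  exact mul_lt_mul_of_pos_left h1 h2

theorem Dom.gn_eq {P : K[X]} {n : ℕ} {ρ : ℝ} (hρ : 0 ≤ ρ) (h : Dom P n ρ) :
    gn 0 ρ P = ‖P.coeff n‖ * ρ ^ n := by
  apply le_antisymm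
  · obtain ⟨i, hi⟩ := exists_gn_eq (0 : K) ρ P
    rw [hi, Polynomial.taylor_zero]
    rcases eq_or_ne i n with rfl | hin
    · exact le_refl _
    · exact (h i hin).le
  · have h1 := coeff_le_gn (0 : K) hρ P n
    rwa [Polynomial.taylor_zero] at h1

section ultra

variable [IsUltrametricDist K]

/-- the sum of finitely many elements smaller than a positive bound -/
private theorem Dom_sum_lt {ι : Type*} (t : Finset ι) (f : ι → K) {M : ℝ} (hM : 0 < M)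
    (h : ∀ i ∈ t, ‖f i‖ < M) : ‖∑ i ∈ t, f i‖ < M := by
  rcases t.eq_empty_or_nonempty with rfl | ht
  · simpa using hM
  · obtain ⟨i, hi, hi'⟩ := IsUltrametricDist.exists_norm_finsetSum_le_of_nonempty ht f
    exact hi'.trans_lt (h i hi)

private theorem Dom_norm_eq {a b : K} (h : ‖a - b‖ < ‖b‖) : ‖a‖ = ‖b‖ := by
  have h1 : ‖(a - b) + b‖ = max ‖a - b‖ ‖b‖ :=
    IsUltrametricDist.norm_add_eq_max_of_norm_ne_norm h.ne
  rwa [sub_add_cancel, max_eq_right h.le] at h1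

theorem Dom.mul {P Q : K[X]} {n m : ℕ} {ρ : ℝ} (hρ : 0 < ρ) (hP : Dom P n ρ) (hQ : Dom Q m ρ) :
    Dom (P * Q) (n + m) ρ := by
  have hA : 0 < ‖P.coeff n‖ * ρ ^ n :=
    mul_pos (norm_pos_iff.2 (hP.coeff_ne_zero hρ.le)) (pow_pos hρ _)
  have hB : 0 < ‖Q.coeff m‖ * ρ ^ m :=
    mul_pos (norm_pos_iff.2 (hQ.coeff_ne_zero hρ.le)) (pow_pos hρ _)
  have hPle : ∀ a, ‖P.coeff a‖ * ρ ^ a ≤ ‖P.coeff n‖ * ρ ^ n := by
    intro a
    rcases eq_or_ne a n with rfl | ha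
    · exact le_refl _
    · exact (hP a ha).le
  have hQle : ∀ b, ‖Q.coeff b‖ * ρ ^ b ≤ ‖Q.coeff m‖ * ρ ^ m := by
    intro b
    rcases eq_or_ne b m with rfl | hb
    · exact le_refl _
    · exact (hQ b hb).le
  have hterm : ∀ x : ℕ × ℕ, x ≠ (n, m) → ‖P.coeff x.1 * Q.coeff x.2‖ * ρ ^ (x.1 + x.2) <
      (‖P.coeff n‖ * ρ ^ n) * (‖Q.coeff m‖ * ρ ^ m) := by
    intro x hx
    have e : ‖P.coeff x.1 * Q.coeff x.2‖ * ρ ^ (x.1 + x.2) =
        (‖P.coeff x.1‖ * ρ ^ x.1) * (‖Q.coeff x.2‖ * ρ ^ x.2) := by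
      rw [norm_mul, pow_add]; ring
    rw [e]
    by_cases h1 : x.1 = n
    · have h2 : x.2 ≠ m := fun h2 => hx (Prod.ext h1 h2)
      rw [h1]
      exact mul_lt_mul_of_pos_left (hQ _ h2) hA
    · calc (‖P.coeff x.1‖ * ρ ^ x.1) * (‖Q.coeff x.2‖ * ρ ^ x.2)
          ≤ (‖P.coeff x.1‖ * ρ ^ x.1) * (‖Q.coeff m‖ * ρ ^ m) :=
            mul_le_mul_of_nonneg_left (hQle _) (by positivity)
        _ < (‖P.coeff n‖ * ρ ^ n) * (‖Q.coeff m‖ * ρ ^ m) :=
            mul_lt_mul_of_pos_right (hP _ h1) hB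
  -- the norm of the coefficient of index `n + m`
  have hmain : ‖(P * Q).coeff (n + m)‖ * ρ ^ (n + m) =
      (‖P.coeff n‖ * ρ ^ n) * (‖Q.coeff m‖ * ρ ^ m) := by
    have hmem : (n, m) ∈ Finset.HasAntidiagonal.antidiagonal (n + m) := by simp
    have hsub : (P * Q).coeff (n + m) - P.coeff n * Q.coeff m =
        ∑ x ∈ (Finset.HasAntidiagonal.antidiagonal (n + m)).erase (n, m), P.coeff x.1 * Q.coeff x.2 := by
      rw [Polynomial.coeff_mul, ← Finset.add_sum_erase _ _ hmem]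
      ring
    have hpos : 0 < ‖P.coeff n * Q.coeff m‖ := by
      rw [norm_mul]
      exact mul_pos (norm_pos_iff.2 (hP.coeff_ne_zero hρ.le))
        (norm_pos_iff.2 (hQ.coeff_ne_zero hρ.le))
    have hlt : ‖(P * Q).coeff (n + m) - P.coeff n * Q.coeff m‖ < ‖P.coeff n * Q.coeff m‖ := by
      rw [hsub]
      apply Dom_sum_lt _ _ hpos
      intro x hx
      rw [Finset.mem_erase, Finset.HasAntidiagonal.mem_antidiagonal] at hx
      have h1 := hterm x hx.1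
      rw [hx.2] at h1
      have e : (‖P.coeff n‖ * ρ ^ n) * (‖Q.coeff m‖ * ρ ^ m) =
          ‖P.coeff n * Q.coeff m‖ * ρ ^ (n + m) := by
        rw [norm_mul, pow_add]; ring
      rw [e] at h1
      exact lt_of_mul_lt_mul_right h1 (pow_pos hρ _).le
    rw [Dom_norm_eq hlt, norm_mul, pow_add]
    ring
  intro i hi
  rw [hmain, Polynomial.coeff_mul]
  obtain ⟨x, hx, hx'⟩ := IsUltrametricDist.exists_norm_finsetSum_le_of_nonempty
    (⟨(0, i), by simp⟩ : (Finset.HasAntidiagonal.antidiagonal i).Nonempty) (fun x => P.coeff x.1 * Q.coeff x.2)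
  rw [Finset.HasAntidiagonal.mem_antidiagonal] at hx
  have hne : x ≠ (n, m) := by
    rintro rfl
    exact hi hx.symm
  refine lt_of_le_of_lt (mul_le_mul_of_nonneg_right hx' (pow_pos hρ _).le) ?_
  have h1 := hterm x hne
  rwa [hx] at h1

/-- On the circle of radius `ρ`, the polynomial is its dominating monomial up to a strictly
smaller error. -/
theorem Dom.norm_eval_sub_lt {P : K[X]} {n : ℕ} {τ : K} (hτ : τ ≠ 0) (h : Dom P n ‖τ‖) :
    ‖P.eval τ - P.coeff n * τ ^ n‖ < ‖P.coeff n * τ ^ n‖ := by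
  have hτ0 : 0 < ‖τ‖ := norm_pos_iff.2 hτ
  have hc := h.coeff_ne_zero hτ0.le
  have hpos : 0 < ‖P.coeff n * τ ^ n‖ := norm_pos_iff.2 (mul_ne_zero hc (pow_ne_zero _ hτ))
  have hmem : n ∈ Finset.range (P.natDegree + 1) := by
    rw [Finset.mem_range]
    have := h.le_natDegree hτ0.le
    omega
  have hsub : P.eval τ - P.coeff n * τ ^ n =
      ∑ i ∈ (Finset.range (P.natDegree + 1)).erase n, P.coeff i * τ ^ i := by
    rw [Polynomial.eval_eq_sum_range, ← Finset.add_sum_erase _ _ hmem]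
    ring
  rw [hsub]
  apply Dom_sum_lt _ _ hpos
  intro i hi
  rw [Finset.mem_erase] at hi
  have h1 := h i hi.1
  rw [norm_mul, norm_mul, norm_pow, norm_pow]
  exact h1

theorem Dom.norm_eval {P : K[X]} {n : ℕ} {τ : K} (hτ : τ ≠ 0) (h : Dom P n ‖τ‖) :
    ‖P.eval τ‖ = ‖P.coeff n‖ * ‖τ‖ ^ n := by
  rw [Dom_norm_eq (h.norm_eval_sub_lt hτ), norm_mul, norm_pow]

theorem Dom.eval_ne_zero {P : K[X]} {n : ℕ} {τ : K} (hτ : τ ≠ 0) (h : Dom P n ‖τ‖) :
    P.eval τ ≠ 0 := by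
  have hτ0 : 0 < ‖τ‖ := norm_pos_iff.2 hτ
  rw [← norm_pos_iff, h.norm_eval hτ]
  exact mul_pos (norm_pos_iff.2 (h.coeff_ne_zero hτ0.le)) (pow_pos hτ0 _)

/-- Two polynomials with strictly dominating monomials on a whole circle: if `Dom P n ρ` holds at
`ρ = ‖τ₀‖` then around `τ₀`, on every smaller disc, the constant term strictly dominates.
Proof: `gn τ₀ ‖τ₀‖ P = gn 0 ‖τ₀‖ P = ‖P.coeff n‖ * ‖τ₀‖ ^ n = ‖P.eval τ₀‖`, so
`‖(taylor τ₀ P).coeff i‖ * ‖τ₀‖ ^ i ≤ ‖P.eval τ₀‖`; multiply by `(ρ / ‖τ₀‖) ^ i < 1` for `i > 0`. -/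
theorem Dom.taylor {P : K[X]} {n : ℕ} {τ₀ : K} (hτ : τ₀ ≠ 0) (h : Dom P n ‖τ₀‖) {ρ : ℝ}
    (hρ : 0 < ρ) (hρ' : ρ < ‖τ₀‖) : Dom (Polynomial.taylor τ₀ P) 0 ρ := by
  have hτ0 : 0 < ‖τ₀‖ := norm_pos_iff.2 hτ
  have hg : gn τ₀ ‖τ₀‖ P = ‖P.eval τ₀‖ := by
    rw [gn_center (c := τ₀) (c' := 0) (ρ := ‖τ₀‖) (by simp) P, h.gn_eq hτ0.le, h.norm_eval hτ]
  intro i hi
  rw [Polynomial.taylor_coeff_zero, pow_zero, mul_one]
  have h1 := coeff_le_gn τ₀ hτ0.le P i
  rw [hg] at h1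
  rcases (norm_nonneg ((Polynomial.taylor τ₀ P).coeff i)).eq_or_lt with h0 | h0
  · rw [← h0, zero_mul]
    exact norm_pos_iff.2 (h.eval_ne_zero hτ)
  · refine lt_of_lt_of_le ?_ h1
    exact mul_lt_mul_of_pos_left (pow_lt_pow_left₀ hρ' hρ.le hi) h0

omit [IsUltrametricDist K] in
private theorem Dom_X_sub_C_of_lt {β : K} {ρ : ℝ} (h : ‖β‖ < ρ) : Dom (X - C β) 1 ρ := by
  have hρ : 0 < ρ := (norm_nonneg β).trans_lt h
  intro i hi
  have h1 : (X - C β : K[X]).coeff 1 = 1 := by simp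
  rw [h1, norm_one, one_mul, pow_one]
  rcases Nat.lt_or_ge i 1 with h0 | h0
  · have : i = 0 := by omega
    subst this
    simpa using h
  · have hi2 : 2 ≤ i := by omega
    have hc : (X - C β : K[X]).coeff i = 0 := by
      rw [Polynomial.coeff_sub, Polynomial.coeff_X_of_ne_one (by omega),
        Polynomial.coeff_C_of_ne_zero (by omega), sub_zero]
    rw [hc, norm_zero, zero_mul]
    exact hρ

omit [IsUltrametricDist K] in
private theorem Dom_X_sub_C_of_gt {β : K} {ρ : ℝ} (hρ : 0 < ρ) (h : ρ < ‖β‖) :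
    Dom (X - C β) 0 ρ := by
  have hβ : 0 < ‖β‖ := hρ.trans h
  intro i hi
  have h1 : (X - C β : K[X]).coeff 0 = -β := by simp
  rw [h1, norm_neg, pow_zero, mul_one]
  rcases eq_or_ne i 1 with rfl | h0
  · have hc : (X - C β : K[X]).coeff 1 = 1 := by simp
    rw [hc, norm_one, one_mul, pow_one]
    exact h
  · have hc : (X - C β : K[X]).coeff i = 0 := by
      rw [Polynomial.coeff_sub, Polynomial.coeff_X_of_ne_one h0, Polynomial.coeff_C_of_ne_zero hi,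
        sub_zero]
    rw [hc, norm_zero, zero_mul]
    exact hβ

omit [IsUltrametricDist K] in
private theorem Dom_one {ρ : ℝ} : Dom (1 : K[X]) 0 ρ := by
  intro i hi
  rw [Polynomial.coeff_one, if_neg hi, Polynomial.coeff_one, if_pos rfl]
  simp

/-- A polynomial without roots on the closed annulus `u ≤ ‖x‖ ≤ v` has there one strictly
dominating monomial. Proof: induction on the multiset of roots (or on the degree): each factor
`X - C β` is dominated by `X` if `‖β‖ < u` and by the constant if `v < ‖β‖`; use `Dom.mul`. -/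
theorem exists_dom_of_no_roots [IsAlgClosed K] {P : K[X]} (hP : P ≠ 0) {u v : ℝ} (hu : 0 < u)
    (huv : u ≤ v)
    (h : ∀ β, P.eval β = 0 → ‖β‖ < u ∨ v < ‖β‖) :
    ∃ n, ∀ ρ, u ≤ ρ → ρ ≤ v → Dom P n ρ := by
  have hprod : ∀ m : Multiset K, (∀ β ∈ m, ‖β‖ < u ∨ v < ‖β‖) →
      ∃ n, ∀ ρ, u ≤ ρ → ρ ≤ v → Dom ((m.map fun a => X - C a).prod) n ρ := by
    intro m
    induction m using Multiset.induction_on with
    | empty =>
      intro _
      exact ⟨0, fun ρ _ _ => by simpa using (Dom_one : Dom (1 : K[X]) 0 ρ)⟩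
    | cons a m ih =>
      intro hm
      obtain ⟨n, hn⟩ := ih fun β hβ => hm β (Multiset.mem_cons_of_mem hβ)
      rcases hm a (Multiset.mem_cons_self a m) with ha | ha
      · refine ⟨1 + n, fun ρ h1 h2 => ?_⟩
        rw [Multiset.map_cons, Multiset.prod_cons]
        exact Dom.mul (hu.trans_le h1) (Dom_X_sub_C_of_lt (ha.trans_le h1)) (hn ρ h1 h2)
      · refine ⟨0 + n, fun ρ h1 h2 => ?_⟩
        rw [Multiset.map_cons, Multiset.prod_cons]
        exact Dom.mul (hu.trans_le h1) (Dom_X_sub_C_of_gt (hu.trans_le h1) (h2.trans_lt ha))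
          (hn ρ h1 h2)
  obtain ⟨n, hn⟩ := hprod P.roots fun β hβ => h β (Polynomial.isRoot_of_mem_roots hβ)
  refine ⟨n, fun ρ h1 h2 => ?_⟩
  rw [(IsAlgClosed.splits P).eq_prod_roots]
  exact (hn ρ h1 h2).C_mul (Polynomial.leadingCoeff_ne_zero.2 hP)

/-- Substitution `x = c + τ ^ 2`, even part. -/
theorem dom_comp_sq {P : K[X]} {c : K} {n : ℕ} {ρ : ℝ} (hρ : 0 < ρ)
    (h : Dom (Polynomial.taylor c P) n (ρ ^ 2)) :
    Dom (P.comp (X ^ 2 + C c)) (2 * n) ρ := by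
  have e : P.comp (X ^ 2 + C c) = Polynomial.expand K 2 (Polynomial.taylor c P) := by
    rw [Polynomial.expand_eq_comp_X_pow, Polynomial.taylor_apply, Polynomial.comp_assoc]
    simp
  rw [e]
  have hc : ∀ i, ‖(Polynomial.expand K 2 (Polynomial.taylor c P)).coeff (2 * i)‖ * ρ ^ (2 * i) =
      ‖(Polynomial.taylor c P).coeff i‖ * (ρ ^ 2) ^ i := by
    intro i
    rw [Polynomial.coeff_expand (by norm_num), if_pos (Dvd.intro _ rfl),
      Nat.mul_div_cancel_left _ (by norm_num), pow_mul]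
  intro i hi
  rw [hc]
  by_cases h2 : 2 ∣ i
  · obtain ⟨k, rfl⟩ := h2
    rw [hc]
    exact h k (by rintro rfl; exact hi rfl)
  · rw [Polynomial.coeff_expand (by norm_num), if_neg h2, norm_zero, zero_mul]
    exact mul_pos (norm_pos_iff.2 (h.coeff_ne_zero (by positivity))) (by positivity)

/-- Substitution `x = c + τ ^ 2`, with the extra factor `2 * τ`. -/
theorem dom_two_X_comp_sq {P : K[X]} {c : K} {n : ℕ} {ρ : ℝ} (hρ : 0 < ρ)
    (h2 : ‖(2 : K)‖ = 1) (h : Dom (Polynomial.taylor c P) n (ρ ^ 2)) :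
    Dom (C 2 * X * P.comp (X ^ 2 + C c)) (2 * n + 1) ρ := by
  have h20 : (2 : K) ≠ 0 := by
    intro h0
    rw [h0, norm_zero] at h2
    exact zero_ne_one h2
  have hX : Dom (X : K[X]) 1 ρ := by
    have := Dom_X_sub_C_of_lt (β := (0 : K)) (ρ := ρ) (by simpa using hρ)
    simpa using this
  have h1 := Dom.mul hρ (hX.C_mul h20) (dom_comp_sq hρ h)
  rwa [add_comm 1 (2 * n)] at h1

end ultra

end UE97
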