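import Mathlib
import Pool.Agent.Lib.MP_10e784_ag.EQ.Dom
import Pool.Agent.Lib.MP_10e784_ag.EQ.ClsSq

/-!
# Inverses and square roots of polynomials with a dominating monomial
-/

namespace UE97

open Polynomial

variable {K : Type*} [NormedField K] [IsUltrametricDist K]

theorem cd_one_index {p q : ℝ} {i n : ℕ} {u v : ℝ} (hp : 0 ≤ p) (hu : 0 < u) (huv : u ≤ v)
    (h : ∀ ρ, u ≤ ρ → ρ ≤ v → p * ρ ^ i < q * ρ ^ n) :
    ∃ θ : ℝ, 0 ≤ θ ∧ θ < 1 ∧ ∀ ρ, u ≤ ρ → ρ ≤ v → p * ρ ^ i ≤ θ * (q * ρ ^ n) := by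
  have hpos : ∀ ρ, u ≤ ρ → ρ ≤ v → 0 < q * ρ ^ n := by
    intro ρ h1 h2
    have hρ : 0 < ρ := lt_of_lt_of_le hu h1
    exact lt_of_le_of_lt (by positivity) (h ρ h1 h2)
  obtain ⟨ρ0, hρ0, hmax⟩ := (isCompact_Icc (a := u) (b := v)).exists_isMaxOn
    (Set.nonempty_Icc.mpr huv) (f := fun ρ => (p * ρ ^ i) / (q * ρ ^ n)) (by
      apply ContinuousOn.div (by fun_prop) (by fun_prop)
      intro ρ hρ
      exact (hpos ρ hρ.1 hρ.2).ne')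
  refine ⟨(p * ρ0 ^ i) / (q * ρ0 ^ n), ?_, ?_, ?_⟩
  · have hρ : 0 < ρ0 := lt_of_lt_of_le hu hρ0.1
    exact div_nonneg (by positivity) (hpos ρ0 hρ0.1 hρ0.2).le
  · rw [div_lt_one (hpos ρ0 hρ0.1 hρ0.2)]
    exact h ρ0 hρ0.1 hρ0.2
  · intro ρ h1 h2
    have h3 : (p * ρ ^ i) / (q * ρ ^ n) ≤ (p * ρ0 ^ i) / (q * ρ0 ^ n) := hmax ⟨h1, h2⟩
    rwa [div_le_iff₀ (hpos ρ h1 h2)] at h3

theorem cd_finset {P : K[X]} {n : ℕ} {u v : ℝ} (hu : 0 < u) (huv : u ≤ v)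
    (h : ∀ ρ, u ≤ ρ → ρ ≤ v → Dom P n ρ) (s : Finset ℕ) :
    ∃ θ : ℝ, 0 ≤ θ ∧ θ < 1 ∧ ∀ i ∈ s, i ≠ n → ∀ ρ, u ≤ ρ → ρ ≤ v →
      ‖P.coeff i‖ * ρ ^ i ≤ θ * (‖P.coeff n‖ * ρ ^ n) := by
  classical
  induction s using Finset.induction_on with
  | empty => exact ⟨0, le_rfl, one_pos, by simp⟩
  | insert a s ha ih =>
    obtain ⟨θ, h0, h1, h2⟩ := ih
    by_cases han : a = n
    · refine ⟨θ, h0, h1, ?_⟩
      intro i hi hin
      rcases Finset.mem_insert.mp hi with rfl | hi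
      · exact absurd han hin
      · exact h2 i hi hin
    · obtain ⟨θ', h0', h1', h2'⟩ := cd_one_index (norm_nonneg (P.coeff a)) hu huv
        (fun ρ e1 e2 => h ρ e1 e2 a han)
      refine ⟨max θ θ', le_max_of_le_left h0, max_lt h1 h1', ?_⟩
      intro i hi hin ρ e1 e2
      have hρ : 0 < ρ := lt_of_lt_of_le hu e1
      have hnn : 0 ≤ ‖P.coeff n‖ * ρ ^ n := by positivity
      rcases Finset.mem_insert.mp hi with rfl | hi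
      · exact (h2' ρ e1 e2).trans (mul_le_mul_of_nonneg_right (le_max_right _ _) hnn)
      · exact (h2 i hi hin ρ e1 e2).trans (mul_le_mul_of_nonneg_right (le_max_left _ _) hnn)

/-- Uniform domination. For `i ≠ n` put `q i = ‖P.coeff i / P.coeff n‖`. On `[u, v]` the function
`ρ ↦ q i * ρ ^ (i - n)` (integer exponent) is monotone or antitone, so it is at most
`max (q i * u ^ (i - n)) (q i * v ^ (i - n)) < 1`; take the maximum over the finitely many `i ≤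
natDegree P`. -/
theorem dom_uniform {P : K[X]} {n : ℕ} {u v : ℝ} (hu : 0 < u) (huv : u ≤ v)
    (h : ∀ ρ, u ≤ ρ → ρ ≤ v → Dom P n ρ) :
    ∃ θ : ℝ, θ < 1 ∧ ∀ τ : K, u ≤ ‖τ‖ → ‖τ‖ ≤ v →
      ‖1 - P.eval τ / (P.coeff n * τ ^ n)‖ ≤ θ := by
  obtain ⟨θ, h0, h1, h2⟩ := cd_finset hu huv h (Finset.range (P.natDegree + 1))
  refine ⟨θ, h1, ?_⟩
  intro τ e1 e2
  have hτn : 0 < ‖τ‖ := lt_of_lt_of_le hu e1
  have hτ : τ ≠ 0 := norm_pos_iff.mp hτn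
  have hPn : P.coeff n ≠ 0 := Dom.coeff_ne_zero hτn.le (h ‖τ‖ e1 e2)
  have hden : P.coeff n * τ ^ n ≠ 0 := mul_ne_zero hPn (pow_ne_zero n hτ)
  have hdn : 0 < ‖P.coeff n‖ * ‖τ‖ ^ n := by
    have := norm_pos_iff.mpr hPn
    positivity
  set Q : K[X] := C (P.coeff n) * X ^ n - P with hQ
  have hQe : Q.eval τ = P.coeff n * τ ^ n - P.eval τ := by simp [hQ]
  have hQc : ∀ i, ‖Q.coeff i‖ * ‖τ‖ ^ i ≤ θ * (‖P.coeff n‖ * ‖τ‖ ^ n) := by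
    intro i
    rw [hQ, coeff_sub, coeff_C_mul, coeff_X_pow]
    by_cases hin : i = n
    · subst hin
      rw [if_pos rfl]
      simp
      positivity
    · rw [if_neg hin, mul_zero, zero_sub, norm_neg]
      by_cases hi : i ∈ Finset.range (P.natDegree + 1)
      · exact h2 i hi hin ‖τ‖ e1 e2
      · rw [coeff_eq_zero_of_natDegree_lt (by
          rw [Finset.mem_range] at hi
          omega)]
        simp
        positivity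
  have hQle : ‖Q.eval τ‖ ≤ θ * (‖P.coeff n‖ * ‖τ‖ ^ n) := by
    rw [eval_eq_sum_range]
    obtain ⟨i, -, hi⟩ := IsUltrametricDist.exists_norm_finsetSum_le_of_nonempty
      (t := Finset.range (Q.natDegree + 1)) ⟨0, by simp⟩ (fun i => Q.coeff i * τ ^ i)
    refine hi.trans ?_
    rw [norm_mul, norm_pow]
    exact hQc i
  have e3 : 1 - P.eval τ / (P.coeff n * τ ^ n) = Q.eval τ / (P.coeff n * τ ^ n) := by
    rw [hQe, sub_div, div_self hden]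
  rw [e3, norm_div, norm_mul, norm_pow, div_le_iff₀ hdn]
  exact hQle

/-- The function `y = 1 - P τ / (P.coeff n * τ ^ n)` is in the class. -/
theorem cd_y (P : K[X]) (n : ℕ) {u : ℝ} (hu : 0 < u) (v : ℝ) :
    Cl u v (fun τ => 1 - P.eval τ / (P.coeff n * τ ^ n))
      (fun τ => -((P.coeff n)⁻¹ * (τ ^ n)⁻¹ *
        (τ * (derivative P).eval τ - n * P.eval τ))) := by
  have h1 := Cl.zpow (K := K) hu v (-(n : ℤ))
  have h2 := Cl.poly u v P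
  have h3 := (Cl.mul hu h1 h2).const_mul (P.coeff n)⁻¹
  have h4 := Cl.sub hu (Cl.const u v (1 : K)) h3
  refine h4.congr ?_ ?_
  · intro τ e1 e2
    rw [zpow_neg, zpow_natCast, div_eq_mul_inv, mul_inv]
    ring
  · intro τ e1 e2
    rw [zpow_neg, zpow_natCast]
    push_cast
    ring

/-- `P τ = P.coeff n * τ ^ n * (1 - y τ)` with `y τ = 1 - P τ / (P.coeff n * τ ^ n)`; use
`Cl.inv_one_sub`, `Cl.zpow`, `Cl.mul`. -/
theorem Cl.inv_of_dom {P : K[X]} {n : ℕ} {u v : ℝ} (hu : 0 < u) (huv : u ≤ v)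
    (h : ∀ ρ, u ≤ ρ → ρ ≤ v → Dom P n ρ) :
    Cl u v (fun τ => (P.eval τ)⁻¹)
      (fun τ => -(τ * (derivative P).eval τ) / P.eval τ ^ 2) := by
  obtain ⟨θ, hθ, hy⟩ := dom_uniform hu huv h
  have h1 := Cl.inv_one_sub hu (cd_y P n hu v) hθ hy
  have h2 := (Cl.mul hu (Cl.zpow (K := K) hu v (-(n : ℤ))) h1).const_mul (P.coeff n)⁻¹
  refine h2.congr ?_ ?_
  · intro τ e1 e2
    have hτn : 0 < ‖τ‖ := lt_of_lt_of_le hu e1
    have hτ : τ ≠ 0 := norm_pos_iff.mp hτn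
    have hPn : P.coeff n ≠ 0 := Dom.coeff_ne_zero hτn.le (h ‖τ‖ e1 e2)
    have hPe : P.eval τ ≠ 0 := Dom.eval_ne_zero hτ (h ‖τ‖ e1 e2)
    have hτp : τ ^ n ≠ 0 := pow_ne_zero n hτ
    rw [zpow_neg, zpow_natCast, sub_sub_cancel]
    field_simp
  · intro τ e1 e2
    have hτn : 0 < ‖τ‖ := lt_of_lt_of_le hu e1
    have hτ : τ ≠ 0 := norm_pos_iff.mp hτn
    have hPn : P.coeff n ≠ 0 := Dom.coeff_ne_zero hτn.le (h ‖τ‖ e1 e2)
    have hPe : P.eval τ ≠ 0 := Dom.eval_ne_zero hτ (h ‖τ‖ e1 e2)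
    have hτp : τ ^ n ≠ 0 := pow_ne_zero n hτ
    rw [zpow_neg, zpow_natCast, sub_sub_cancel]
    push_cast
    field_simp
    ring

/-- Square root of a polynomial with a dominating monomial of even index:
`F τ = s * τ ^ m * (1 - y τ) * sqi (y τ)`, `s ^ 2 = P.coeff (2 m)`. -/
theorem Cl.exists_sqrt_of_dom [IsAlgClosed K] (h2 : ‖(2 : K)‖ = 1) {P : K[X]} {m : ℕ} {u v : ℝ}
    (hu : 0 < u) (huv : u ≤ v) (h : ∀ ρ, u ≤ ρ → ρ ≤ v → Dom P (2 * m) ρ) :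
    ∃ (F F1 : K → K) (s : K), s ≠ 0 ∧ Cl u v F F1 ∧ (∀ τ : K, u ≤ ‖τ‖ → ‖τ‖ ≤ v →
      F τ ≠ 0 ∧ F τ ^ 2 = P.eval τ ∧ F1 τ = τ * (derivative P).eval τ / (2 * F τ) ∧
      ‖F τ - s * τ ^ m‖ < ‖s * τ ^ m‖) := by
  have h20 : (2 : K) ≠ 0 := by
    intro h0
    rw [h0, norm_zero] at h2
    exact zero_ne_one h2
  obtain ⟨θ, hθ, hy⟩ := dom_uniform hu huv h
  obtain ⟨s, hs⟩ := IsAlgClosed.exists_pow_nat_eq (P.coeff (2 * m)) (n := 2) (by norm_num)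
  have hPn : P.coeff (2 * m) ≠ 0 := Dom.coeff_ne_zero hu.le (h u le_rfl huv)
  have hs0 : s ≠ 0 := by
    rintro rfl
    apply hPn
    rw [← hs]
    simp
  have hcy := cd_y P (2 * m) hu v
  have hsq := Cl.sqi h2 hu hcy hθ hy
  have h1y := Cl.sub hu (Cl.const u v (1 : K)) hcy
  have hA := (Cl.zpow (K := K) hu v (m : ℤ)).const_mul s
  have hF := Cl.mul hu (Cl.mul hu hA h1y) hsq
  refine ⟨_, _, s, hs0, hF, ?_⟩
  intro τ e1 e2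
  have hτn : 0 < ‖τ‖ := lt_of_lt_of_le hu e1
  have hτ : τ ≠ 0 := norm_pos_iff.mp hτn
  have hPe : P.eval τ ≠ 0 := Dom.eval_ne_zero hτ (h ‖τ‖ e1 e2)
  have hτp : τ ^ m ≠ 0 := pow_ne_zero m hτ
  have hyτ := hy τ e1 e2
  have hylt : ‖1 - P.eval τ / (P.coeff (2 * m) * τ ^ (2 * m))‖ < 1 := lt_of_le_of_lt hyτ hθ
  obtain ⟨hS1, hS2⟩ := sqi_spec h2 hylt
  -- abbreviations
  obtain ⟨y, hydef⟩ : ∃ y, y = 1 - P.eval τ / (P.coeff (2 * m) * τ ^ (2 * m)) := ⟨_, rfl⟩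
  obtain ⟨S, hSdef⟩ : ∃ S, S = UE97.sqi y := ⟨_, rfl⟩
  simp only [← hydef] at hS1 hS2 hylt ⊢
  rw [← hSdef] at hS1 hS2
  simp only [← hSdef, zpow_natCast]
  have hPy : P.eval τ = s ^ 2 * (τ ^ m) ^ 2 * (1 - y) := by
    rw [hydef, hs, sub_sub_cancel, ← pow_mul, mul_comm m 2]
    field_simp
  have h1y0 : 1 - y ≠ 0 := by
    intro h0
    rw [h0, mul_zero] at hPy
    exact hPe hPy
  have hS0 : S ≠ 0 := by
    rintro rfl
    simp at hS1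
  have hF2 : (s * τ ^ m * (1 - y) * S) ^ 2 = P.eval τ := by
    rw [hPy]
    linear_combination (s ^ 2 * (τ ^ m) ^ 2 * (1 - y)) * hS1
  have hF0 : s * τ ^ m * (1 - y) * S ≠ 0 := by
    intro h0
    rw [h0] at hF2
    exact hPe (by rw [← hF2]; simp)
  refine ⟨hF0, hF2, ?_, ?_⟩
  · rw [eq_div_iff (mul_ne_zero h20 hF0), ← hs]
    have e5 : (τ : K) ^ (2 * m) = (τ ^ m) ^ 2 := by rw [← pow_mul, mul_comm m 2]
    rw [e5]
    obtain ⟨D, hD⟩ : ∃ D, D = τ * (derivative P).eval τ := ⟨_, rfl⟩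
    rw [← hD, hPy]
    push_cast
    obtain ⟨T, hT⟩ : ∃ T, T = τ ^ m := ⟨_, rfl⟩
    rw [← hT] at hτp ⊢
    have hS3 : S ^ 2 = (1 - y)⁻¹ := by
      field_simp
      linear_combination hS1
    field_simp
    rw [hS3]
    field_simp
    ring
  · have e6 : s * τ ^ m * (1 - y) * S - s * τ ^ m = (s * τ ^ m) * ((S - 1) + -(y * S)) := by ring
    rw [e6, norm_mul]
    have hpos : 0 < ‖s * τ ^ m‖ := norm_pos_iff.mpr (mul_ne_zero hs0 hτp)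
    have hSn : ‖S‖ ≤ 1 := by
      have : S = (S - 1) + 1 := by ring
      rw [this]
      refine (IsUltrametricDist.norm_add_le_max _ _).trans (max_le hS2.le ?_)
      rw [norm_one]
    have hlt : ‖(S - 1) + -(y * S)‖ < 1 := by
      refine lt_of_le_of_lt (IsUltrametricDist.norm_add_le_max _ _) (max_lt hS2 ?_)
      rw [norm_neg, norm_mul]
      calc ‖y‖ * ‖S‖ ≤ ‖y‖ * 1 := mul_le_mul_of_nonneg_left hSn (norm_nonneg _)
        _ < 1 := by rw [mul_one]; exact hylt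
    calc ‖s * τ ^ m‖ * ‖(S - 1) + -(y * S)‖ < ‖s * τ ^ m‖ * 1 := mul_lt_mul_of_pos_left hlt hpos
      _ = _ := mul_one _

/-- Uniform smallness of `B / A`. `‖A.eval τ‖ = gn 0 ‖τ‖ A` (`Dom.norm_eval`, `Dom.gn_eq`),
`‖B.eval τ‖ ≤ gn 0 ‖τ‖ B`, and the continuous function `ρ ↦ gn 0 ρ B / gn 0 ρ A` attains its
maximum on the compact interval `[u, v]`. -/
theorem ratio_uniform {A B : K[X]} {n : ℕ} {u v : ℝ} (hu : 0 < u) (huv : u ≤ v)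
    (hA : ∀ ρ, u ≤ ρ → ρ ≤ v → Dom A n ρ) (hlt : ∀ ρ, u ≤ ρ → ρ ≤ v → gn 0 ρ B < gn 0 ρ A) :
    ∃ θ : ℝ, θ < 1 ∧ ∀ τ : K, u ≤ ‖τ‖ → ‖τ‖ ≤ v → ‖B.eval τ / A.eval τ‖ ≤ θ := by
  have hpos : ∀ ρ, u ≤ ρ → ρ ≤ v → 0 < gn 0 ρ A := by
    intro ρ h1 h2
    exact lt_of_le_of_lt (gn_nonneg 0 (hu.le.trans h1) B) (hlt ρ h1 h2)
  have hsub : Set.Icc u v ⊆ Set.Ici 0 := fun ρ hρ => hu.le.trans hρ.1
  obtain ⟨ρ0, hρ0, hmax⟩ := (isCompact_Icc (a := u) (b := v)).exists_isMaxOn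
    (Set.nonempty_Icc.mpr huv) (f := fun ρ => gn 0 ρ B / gn 0 ρ A) (by
      apply ContinuousOn.div ((gn_continuousOn 0 B).mono hsub) ((gn_continuousOn 0 A).mono hsub)
      intro ρ hρ
      exact (hpos ρ hρ.1 hρ.2).ne')
  refine ⟨gn 0 ρ0 B / gn 0 ρ0 A, ?_, ?_⟩
  · rw [div_lt_one (hpos ρ0 hρ0.1 hρ0.2)]
    exact hlt ρ0 hρ0.1 hρ0.2
  · intro τ e1 e2
    have hτn : 0 < ‖τ‖ := lt_of_lt_of_le hu e1
    have hτ : τ ≠ 0 := norm_pos_iff.mp hτn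
    have e3 : ‖A.eval τ‖ = gn 0 ‖τ‖ A := by
      rw [Dom.norm_eval hτ (hA _ e1 e2), Dom.gn_eq hτn.le (hA _ e1 e2)]
    have e4 : ‖B.eval τ‖ ≤ gn 0 ‖τ‖ B := norm_eval_le_gn 0 τ (by simp) B
    rw [norm_div, e3]
    have e5 : gn 0 ‖τ‖ B / gn 0 ‖τ‖ A ≤ gn 0 ρ0 B / gn 0 ρ0 A := hmax ⟨e1, e2⟩
    refine le_trans ?_ e5
    exact div_le_div_of_nonneg_right e4 (hpos _ e1 e2).le

end UE97
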