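import Mathlib

/-!
# The data

`IsDat e A B G f h`: a nonconstant map of `y ^ 2 = f` to the elliptic curve
`Y ^ 2 = (X - e₀) (X - e₁) (X - e₂)`, given by `X = A / B`, `Y = (G / B ^ 2) y`, where the `eᵢ` are
integral with pairwise differences of norm one (good reduction), together with the pull-back
`h dx / y` of the invariant differential.
-/

namespace UE97

open Polynomial

variable {K : Type*} [NormedField K]

structure IsDat (e : Fin 3 → K) (A B G f h : K[X]) : Prop where
  norm_e : ∀ i, ‖e i‖ ≤ 1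
  norm_sub : ∀ i j, i ≠ j → ‖e i - e j‖ = 1
  cop : IsCoprime A B
  eq : B * ((A - C (e 0) * B) * (A - C (e 1) * B) * (A - C (e 2) * B)) = f * G ^ 2
  wr : derivative A * B - A * derivative B = h * G
  f_ne : f ≠ 0
  h_ne : h ≠ 0
  G_ne : G ≠ 0

theorem IsDat.eval_eq {e : Fin 3 → K} {A B G f h : K[X]} (D : IsDat e A B G f h) (x : K) :
    B.eval x * ((A.eval x - e 0 * B.eval x) * (A.eval x - e 1 * B.eval x) *
      (A.eval x - e 2 * B.eval x)) = f.eval x * G.eval x ^ 2 := by
  have := congrArg (Polynomial.eval x) D.eq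
  simpa using this

theorem IsDat.eval_wr {e : Fin 3 → K} {A B G f h : K[X]} (D : IsDat e A B G f h) (x : K) :
    (derivative A).eval x * B.eval x - A.eval x * (derivative B).eval x =
      h.eval x * G.eval x := by
  have := congrArg (Polynomial.eval x) D.wr
  simpa using this

theorem IsDat.not_both_zero {e : Fin 3 → K} {A B G f h : K[X]} (D : IsDat e A B G f h) (x : K) :
    A.eval x ≠ 0 ∨ B.eval x ≠ 0 := by
  by_contra hcon
  push Not at hcon
  obtain ⟨a, b, hab⟩ := D.cop
  have := congrArg (Polynomial.eval x) hab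
  simp [hcon.1, hcon.2] at this

/-- Translation by the 2-torsion point `(e j, 0)`: `X ↦ e j + δ / (X - e j)`, where
`δ = (e j - e k) (e j - e l)`. -/
theorem IsDat.translate {e : Fin 3 → K} {A B G f h : K[X]} (D : IsDat e A B G f h)
    (j k l : Fin 3) (hjk : j ≠ k) (hjl : j ≠ l) (hkl : k ≠ l) :
    IsDat e (C (e j) * (A - C (e j) * B) + C ((e j - e k) * (e j - e l)) * B)
      (A - C (e j) * B) (C ((e j - e k) * (e j - e l)) * G) f (-h) := by
  have hδ : (e j - e k) * (e j - e l) ≠ 0 := by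
    have h1 : ‖(e j - e k) * (e j - e l)‖ = 1 := by
      rw [norm_mul, D.norm_sub j k hjk, D.norm_sub j l hjl, one_mul]
    intro h0
    rw [h0, norm_zero] at h1
    exact zero_ne_one h1
  have hprod : ∀ F : Fin 3 → K[X], F 0 * F 1 * F 2 = F j * F k * F l := by
    intro F
    fin_cases j <;> fin_cases k <;> fin_cases l <;>
      first
        | exact absurd rfl hjk
        | exact absurd rfl hjl
        | exact absurd rfl hkl
        | (simp only [Fin.zero_eta, Fin.mk_one, Fin.reduceFinMk] <;> ring)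
  refine ⟨D.norm_e, D.norm_sub, ?_, ?_, ?_, D.f_ne, neg_ne_zero.mpr D.h_ne, ?_⟩
  · obtain ⟨a, b, hab⟩ := D.cop
    obtain ⟨δ, hδ'⟩ : ∃ δ, δ = (e j - e k) * (e j - e l) := ⟨_, rfl⟩
    rw [← hδ'] at hδ ⊢
    have hC : C δ⁻¹ * C δ = (1 : K[X]) := by
      rw [← C_mul, inv_mul_cancel₀ hδ, C_1]
    refine ⟨(a * C (e j) + b) * C δ⁻¹, a - (a * C (e j) + b) * C δ⁻¹ * C (e j), ?_⟩
    linear_combination hab + (a * C (e j) + b) * B * hC
  · have h1 := hprod (fun i => A - C (e i) * B)
    have h2 := hprod (fun i => C (e j) * (A - C (e j) * B) + C ((e j - e k) * (e j - e l)) * B -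
      C (e i) * (A - C (e j) * B))
    rw [h2]
    have h3 := D.eq
    rw [h1] at h3
    simp only [C_mul, C_sub]
    linear_combination (C (e j) - C (e k)) ^ 2 * (C (e j) - C (e l)) ^ 2 * h3
  · have h3 := D.wr
    simp only [derivative_add, derivative_sub, derivative_C_mul]
    simp only [C_mul, C_sub]
    linear_combination (-(C (e j) - C (e k)) * (C (e j) - C (e l))) * h3
  · exact mul_ne_zero (by rwa [Ne, C_eq_zero]) D.G_ne

/-- Substitution `x = c + τ ^ 2`. -/
theorem IsDat.pull [CharZero K] {e : Fin 3 → K} {A B G f h : K[X]} (D : IsDat e A B G f h)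
    (c : K) :
    IsDat e (A.comp (X ^ 2 + C c)) (B.comp (X ^ 2 + C c)) (G.comp (X ^ 2 + C c))
      (f.comp (X ^ 2 + C c)) (C 2 * X * h.comp (X ^ 2 + C c)) := by
  have hne : ∀ p : K[X], p ≠ 0 → p.comp (X ^ 2 + C c) ≠ 0 := by
    intro p hp h0
    rw [Polynomial.comp_eq_zero_iff] at h0
    rcases h0 with h0 | ⟨_, h0⟩
    · exact hp h0
    · have h1 : (X ^ 2 + C c : K[X]).natDegree = 2 := natDegree_X_pow_add_C
      rw [h0, natDegree_C] at h1
      exact absurd h1 (by norm_num)
  refine ⟨D.norm_e, D.norm_sub, ?_, ?_, ?_, hne f D.f_ne, ?_, hne G D.G_ne⟩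
  · exact D.cop.map (Polynomial.compRingHom (X ^ 2 + C c))
  · have h1 := congrArg (fun p : K[X] => p.comp (X ^ 2 + C c)) D.eq
    simpa only [mul_comp, sub_comp, C_comp, pow_comp] using h1
  · have h1 := congrArg (fun p : K[X] => p.comp (X ^ 2 + C c)) D.wr
    simp only [mul_comp, sub_comp] at h1
    have h2 : derivative (X ^ 2 + C c : K[X]) = C 2 * X := by
      rw [derivative_add, derivative_C, add_zero, derivative_X_sq]
    rw [derivative_comp, derivative_comp, h2]
    linear_combination (C 2 * X) * h1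
  · exact mul_ne_zero (mul_ne_zero (by rw [Ne, C_eq_zero]; exact two_ne_zero) X_ne_zero)
      (hne h D.h_ne)

end UE97
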