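import Mathlib
import Pool.Agent.Lib.MP_10e784_ag.EQ.Dat
import Pool.Agent.Lib.MP_10e784_ag.EQ.Gn
import Pool.Agent.Lib.MP_10e784_ag.EQ.Dom
import Pool.Agent.Lib.MP_10e784_ag.EQ.ClsDom

/-!
# The annuli which reduce to a point which is not 2-torsion
-/

namespace UE97

open Polynomial

variable {K : Type*} [NormedField K] [IsUltrametricDist K] [IsAlgClosed K]

omit [IsAlgClosed K] in
private theorem caseGen_norm {x y : K} (h : ‖x - y‖ < ‖y‖) : ‖x‖ = ‖y‖ := by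
  have h1 : x = (x - y) + y := by ring
  rw [h1, IsUltrametricDist.norm_add_eq_max_of_norm_ne_norm h.ne, max_eq_right h.le]

omit [IsUltrametricDist K] [IsAlgClosed K] in
private theorem caseGen_ne {x y : K} (h : ‖x - y‖ < ‖y‖) : y ≠ 0 :=
  norm_pos_iff.1 ((norm_nonneg _).trans_lt h)

omit [IsAlgClosed K] in
private theorem caseGen_mul {x y x' y' : K} (h : ‖x - y‖ < ‖y‖) (h' : ‖x' - y'‖ < ‖y'‖) :
    ‖x * x' - y * y'‖ < ‖y * y'‖ := by
  have hy : 0 < ‖y‖ := norm_pos_iff.2 (caseGen_ne h)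
  have hy' : 0 < ‖y'‖ := norm_pos_iff.2 (caseGen_ne h')
  have e : x * x' - y * y' = (x - y) * x' + y * (x' - y') := by ring
  rw [e]
  refine (IsUltrametricDist.norm_add_le_max _ _).trans_lt (max_lt ?_ ?_)
  · rw [norm_mul, norm_mul, caseGen_norm h']
    exact mul_lt_mul_of_pos_right h hy'
  · rw [norm_mul, norm_mul]
    exact mul_lt_mul_of_pos_left h' hy

omit [IsAlgClosed K] in
private theorem caseGen_inv {x y : K} (h : ‖x - y‖ < ‖y‖) : ‖x⁻¹ - y⁻¹‖ < ‖y⁻¹‖ := by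
  have hy0 := caseGen_ne h
  have hy : 0 < ‖y‖ := norm_pos_iff.2 hy0
  have hxn := caseGen_norm h
  have hx : 0 < ‖x‖ := by rw [hxn]; exact hy
  have hx0 := norm_pos_iff.1 hx
  have e : x⁻¹ - y⁻¹ = -((x - y) * (x⁻¹ * y⁻¹)) := by
    field_simp
    ring
  rw [e, norm_neg, norm_mul, norm_mul, norm_inv, norm_inv, hxn]
  calc ‖x - y‖ * (‖y‖⁻¹ * ‖y‖⁻¹) < ‖y‖ * (‖y‖⁻¹ * ‖y‖⁻¹) :=
        mul_lt_mul_of_pos_right h (by positivity)
    _ = ‖y‖⁻¹ := by field_simp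

omit [IsUltrametricDist K] [IsAlgClosed K] in
private theorem caseGen_uniq {P : K[X]} {n n' : ℕ} {ρ : ℝ} (h : Dom P n ρ) (h' : Dom P n' ρ) :
    n = n' := by
  by_contra hne
  have h1 := h n' (fun h => hne h.symm)
  have h2 := h' n hne
  exact lt_asymm h1 h2

/-- **Generic case**: `A / B` is close to the constant `a`, which is at distance one from all `eᵢ`.
On the annulus `‖A - eᵢ B‖ = ‖B‖ ≠ 0` (coprimality gives `B τ ≠ 0`), so by `D.eval_eq` also
`G τ ≠ 0`, and `B`, `G` have dominating monomials of index `k`, `l` (`exists_dom_of_no_roots`).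
`w = A / B` has Euler derivative `w1 = τ (A' B - A B') / B ^ 2 = τ h G / B ^ 2`
(`Cl.inv_of_dom`, `Cl.mul`, `D.eval_wr`), which is `κ τ ^ (1 + n + l - 2 k)` up to a factor
`1 + small`, `κ = h.coeff n * G.coeff l / B.coeff k ^ 2`. Finally `l - 2 k = - m`: taking norms in
`D.eval_eq`, `‖B‖ ^ 4 = ‖f‖ * ‖G‖ ^ 2` at every radius `ρ = ‖τ‖` of the annulus, in particular (if
`u < v` the value group has two different points in `[u, v]`)...
To avoid the value group: the polynomials `U = B (A - e₀ B) (A - e₁ B) (A - e₂ B)` and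
`f * G ^ 2` are equal; `Dom B k ρ`, and `A - eᵢ B` has no zero on the annulus hence has a dominating
monomial, of index `kᵢ`; the dominating index of `f * G ^ 2` is `2 m + 2 l` (`Dom.mul`), that of `U`
is `k + k₀ + k₁ + k₂`, and the dominating index of a polynomial at a given radius is unique. And
`kᵢ = k`: `A - eᵢ B = (a - eᵢ) B + (A - a B)` with `gn 0 ρ (A - a B) < gn 0 ρ B`. -/
theorem case_gen {e : Fin 3 → K} {A B G f h : K[X]}
    (D : IsDat e A B G f h) {u v : ℝ} (hu : 0 < u) (huv : u ≤ v) {m n : ℕ}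
    (hf : ∀ ρ, u ≤ ρ → ρ ≤ v → Dom f (2 * m) ρ) (hh : ∀ ρ, u ≤ ρ → ρ ≤ v → Dom h n ρ)
    {a : K} (ha : ‖a‖ ≤ 1) (hae : ∀ i, ‖a - e i‖ = 1)
    (hlt : ∀ ρ, u ≤ ρ → ρ ≤ v → gn 0 ρ (A - C a * B) < gn 0 ρ B)
    (hlt' : ∀ τ : K, u ≤ ‖τ‖ → ‖τ‖ ≤ v → ‖A.eval τ - a * B.eval τ‖ < ‖B.eval τ‖) :
    ∃ (w w1 : K → K) (κ : K), κ ≠ 0 ∧ Cl u v w w1 ∧
      (∀ τ : K, u ≤ ‖τ‖ → ‖τ‖ ≤ v → B.eval τ ≠ 0 ∧ w τ * B.eval τ = A.eval τ) ∧
      (∀ τ : K, u ≤ ‖τ‖ → ‖τ‖ ≤ v →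
        ‖w1 τ - κ * τ ^ (1 + (n : ℤ) - m)‖ < ‖κ * τ ^ (1 + (n : ℤ) - m)‖) := by
  -- values
  have hB0 : ∀ τ : K, u ≤ ‖τ‖ → ‖τ‖ ≤ v → B.eval τ ≠ 0 := fun τ h1 h2 =>
    norm_pos_iff.1 ((norm_nonneg _).trans_lt (hlt' τ h1 h2))
  have hAe : ∀ i, ∀ τ : K, u ≤ ‖τ‖ → ‖τ‖ ≤ v → A.eval τ - e i * B.eval τ ≠ 0 := by
    intro i τ h1 h2 h0
    have h3 := hlt' τ h1 h2
    have h4 : A.eval τ - a * B.eval τ = -((a - e i) * B.eval τ) := by
      linear_combination h0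
    rw [h4, norm_neg, norm_mul, hae i, one_mul] at h3
    exact lt_irrefl _ h3
  have hG0 : ∀ τ : K, u ≤ ‖τ‖ → ‖τ‖ ≤ v → G.eval τ ≠ 0 := by
    intro τ h1 h2 h0
    have h3 := D.eval_eq τ
    rw [h0] at h3
    have h4 : B.eval τ * ((A.eval τ - e 0 * B.eval τ) * (A.eval τ - e 1 * B.eval τ) *
      (A.eval τ - e 2 * B.eval τ)) ≠ 0 :=
      mul_ne_zero (hB0 τ h1 h2) (mul_ne_zero (mul_ne_zero (hAe 0 τ h1 h2) (hAe 1 τ h1 h2))
        (hAe 2 τ h1 h2))
    apply h4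
    rw [h3]
    ring
  -- dominating monomials
  have hBne : B ≠ 0 := by
    intro h0
    have h1 := hlt u le_rfl huv
    rw [h0] at h1
    have h3 : gn (0 : K) u (0 : K[X]) = 0 := by
      apply le_antisymm
      · rw [gn_le_iff 0 hu.le]
        intro i
        simp
      · exact gn_nonneg 0 hu.le 0
    rw [h3] at h1
    exact absurd (gn_nonneg 0 hu.le _) (not_le.2 h1)
  obtain ⟨k, hk⟩ := exists_dom_of_no_roots hBne hu huv (fun β hβ => by
    by_contra hcon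
    push Not at hcon
    exact hB0 β hcon.1 hcon.2 hβ)
  obtain ⟨l, hl⟩ := exists_dom_of_no_roots D.G_ne hu huv (fun β hβ => by
    by_contra hcon
    push Not at hcon
    exact hG0 β hcon.1 hcon.2 hβ)
  -- the index of `A - e i B`
  have hdomA : ∀ i, ∀ ρ, u ≤ ρ → ρ ≤ v → Dom (A - C (e i) * B) k ρ := by
    intro i ρ h1 h2
    have hρ : 0 < ρ := hu.trans_le h1
    have hgB := (hk ρ h1 h2).gn_eq hρ.le
    have hg := hlt ρ h1 h2
    rw [hgB] at hg
    have hcoef : ∀ j, (A - C (e i) * B).coeff j =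
        (A - C a * B).coeff j + (a - e i) * B.coeff j := by
      intro j
      simp only [coeff_sub, coeff_C_mul]
      ring
    have hsmall : ∀ j, ‖(A - C a * B).coeff j‖ * ρ ^ j < ‖B.coeff k‖ * ρ ^ k := by
      intro j
      have := coeff_le_gn (0 : K) hρ.le (A - C a * B) j
      rw [taylor_zero] at this
      exact this.trans_lt hg
    have hρk : 0 < ρ ^ k := pow_pos hρ k
    have hmain : ‖(A - C (e i) * B).coeff k‖ = ‖B.coeff k‖ := by
      have h3 : ‖(A - C (e i) * B).coeff k - (a - e i) * B.coeff k‖ < ‖(a - e i) * B.coeff k‖ := by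
        rw [hcoef k, add_sub_cancel_right, norm_mul, hae i, one_mul]
        exact lt_of_mul_lt_mul_right (hsmall k) hρk.le
      rw [caseGen_norm h3, norm_mul, hae i, one_mul]
    intro j hj
    rw [hmain, hcoef j]
    have hρj : 0 < ρ ^ j := pow_pos hρ j
    have h4 : ‖(A - C a * B).coeff j + (a - e i) * B.coeff j‖ ≤
        max ‖(A - C a * B).coeff j‖ ‖B.coeff j‖ := by
      refine (IsUltrametricDist.norm_add_le_max _ _).trans ?_
      rw [norm_mul, hae i, one_mul]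
    rcases le_total ‖(A - C a * B).coeff j‖ ‖B.coeff j‖ with h5 | h5
    · rw [max_eq_right h5] at h4
      exact (mul_le_mul_of_nonneg_right h4 hρj.le).trans_lt (hk ρ h1 h2 j hj)
    · rw [max_eq_left h5] at h4
      exact (mul_le_mul_of_nonneg_right h4 hρj.le).trans_lt (hsmall j)
  have hidx : 4 * k = 2 * m + 2 * l := by
    have h1 : Dom (B * ((A - C (e 0) * B) * (A - C (e 1) * B) * (A - C (e 2) * B)))
        (k + (k + k + k)) u :=
      (hk u le_rfl huv).mul hu (((hdomA 0 u le_rfl huv).mul hu (hdomA 1 u le_rfl huv)).mul hu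
        (hdomA 2 u le_rfl huv))
    have h2 : Dom (f * G ^ 2) (2 * m + (l + l)) u := by
      rw [pow_two]
      exact (hf u le_rfl huv).mul hu ((hl u le_rfl huv).mul hu (hl u le_rfl huv))
    rw [D.eq] at h1
    have := caseGen_uniq h1 h2
    omega
  -- the function
  have hclB := Cl.inv_of_dom hu huv hk
  have hclA := Cl.poly u v A
  have hcl := hclA.mul hu hclB
  have hhn : h.coeff n ≠ 0 := (hh u le_rfl huv).coeff_ne_zero hu.le
  have hGl : G.coeff l ≠ 0 := (hl u le_rfl huv).coeff_ne_zero hu.le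
  have hBk : B.coeff k ≠ 0 := (hk u le_rfl huv).coeff_ne_zero hu.le
  refine ⟨_, _, h.coeff n * G.coeff l * ((B.coeff k)⁻¹ * (B.coeff k)⁻¹),
    mul_ne_zero (mul_ne_zero hhn hGl) (mul_ne_zero (inv_ne_zero hBk) (inv_ne_zero hBk)), hcl,
    ?_, ?_⟩
  · intro τ h1 h2
    refine ⟨hB0 τ h1 h2, ?_⟩
    rw [mul_assoc, inv_mul_cancel₀ (hB0 τ h1 h2), mul_one]
  · intro τ h1 h2
    have hτ : τ ≠ 0 := norm_pos_iff.1 (hu.trans_le h1)
    have hBτ := hB0 τ h1 h2
    have c1 := (hh ‖τ‖ h1 h2).norm_eval_sub_lt hτ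
    have c2 := (hl ‖τ‖ h1 h2).norm_eval_sub_lt hτ
    have c3 := caseGen_inv ((hk ‖τ‖ h1 h2).norm_eval_sub_lt hτ)
    have c0 : ‖τ - τ‖ < ‖τ‖ := by
      rw [sub_self, norm_zero]
      exact norm_pos_iff.2 hτ
    have c4 := caseGen_mul (caseGen_mul c0 (caseGen_mul c1 c2)) (caseGen_mul c3 c3)
    have e1 : A.eval τ * (-(τ * (derivative B).eval τ) / B.eval τ ^ 2) +
        τ * (derivative A).eval τ * (B.eval τ)⁻¹ =
        τ * (h.eval τ * G.eval τ) * ((B.eval τ)⁻¹ * (B.eval τ)⁻¹) := by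
      rw [← D.eval_wr τ]
      field_simp
      ring
    have e2 : h.coeff n * G.coeff l * ((B.coeff k)⁻¹ * (B.coeff k)⁻¹) *
        τ ^ (1 + (n : ℤ) - m) = τ * (h.coeff n * τ ^ n * (G.coeff l * τ ^ l)) *
          ((B.coeff k * τ ^ k)⁻¹ * (B.coeff k * τ ^ k)⁻¹) := by
      have h5 : (1 + (n : ℤ) - m) = 1 + (n : ℤ) + l + (-(k : ℤ) + -(k : ℤ)) := by
        have : (4 * k : ℤ) = 2 * m + 2 * l := by exact_mod_cast hidx
        omega
      rw [h5, zpow_add₀ hτ, zpow_add₀ hτ, zpow_add₀ hτ, zpow_add₀ hτ, zpow_neg, zpow_natCast,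
        zpow_natCast, zpow_natCast, zpow_one, mul_inv]
      ring
    rw [e1, e2]
    exact c4

end UE97
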