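import Mathlib
import Pool.Agent.Lib.MP_10e784_ag.EQ.Dat

/-!
# Algebraic identities for the annuli which reduce to the point at infinity
-/

namespace UE97

open Polynomial

variable {K : Type*} [NormedField K]

/-- The key polynomial identity. Let `W = A' B - A B'` and
`Π = (A - e₀ B) (A - e₁ B) (A - e₂ B)`. Proof: multiply by `G` (nonzero) and use `B Π = f G ^ 2`
and its derivative `(B Π)' = f' G ^ 2 + 2 f G G'`, and `W = h G`: with `U = B Π`,
`U' A - 4 U A' - U W ∑ eᵢ / (A - eᵢ B) = - W Π` is an identity in the polynomials `A, B, A', B'`. -/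
theorem IsDat.key {e : Fin 3 → K} {A B G f h : K[X]} (D : IsDat e A B G f h) :
    (A - C (e 0) * B) * (A - C (e 1) * B) * (A - C (e 2) * B) *
        (2 * derivative G * f * A - 4 * G * derivative A * f + G * A * derivative f)
      - G * f * (derivative A * B - A * derivative B) *
        (C (e 0) * ((A - C (e 1) * B) * (A - C (e 2) * B)) +
          C (e 1) * ((A - C (e 0) * B) * (A - C (e 2) * B)) +
          C (e 2) * ((A - C (e 0) * B) * (A - C (e 1) * B)))
      = - (h * ((A - C (e 0) * B) * (A - C (e 1) * B) * (A - C (e 2) * B)) ^ 2) := by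
  have hU := D.eq
  have hU' := congrArg derivative D.eq
  simp only [derivative_mul, derivative_sub, derivative_C, derivative_pow, zero_mul, zero_add,
    Nat.cast_ofNat] at hU'
  have hW := D.wr
  apply mul_left_cancel₀ D.G_ne
  have hC2 : (C (2 : K) : K[X]) = 2 := rfl
  simp only [hC2] at hU'
  linear_combination
    (-((A - C (e 0) * B) * (A - C (e 1) * B) * (A - C (e 2) * B)) * A) * hU' +
    (4 * ((A - C (e 0) * B) * (A - C (e 1) * B) * (A - C (e 2) * B)) * derivative A +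
      (derivative A * B - A * derivative B) *
        (C (e 0) * ((A - C (e 1) * B) * (A - C (e 2) * B)) +
          C (e 1) * ((A - C (e 0) * B) * (A - C (e 2) * B)) +
          C (e 2) * ((A - C (e 0) * B) * (A - C (e 1) * B)))) * hU -
    ((A - C (e 0) * B) * (A - C (e 1) * B) * (A - C (e 2) * B)) ^ 2 * hW

/-- The derivative of `w`, as an identity between elements of a field.
`a, b, g, f, h` are the values at `τ` of `A, B, G, f, h`, and `a', b', g', f'` those of the
derivatives; `z = b / a`; `F ^ 2 = f`; `Vᵢ ^ 2 (1 - eᵢ z) = 1`; `z1 = τ (b' a - b a') / a ^ 2`.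
The left side is `2 F V₀ V₁ V₂` times the Euler derivative of `w = (g / a ^ 2) F V₀ V₁ V₂`. -/
theorem case_inf_identity {F₀ : Type*} [Field F₀] (h2 : (2 : F₀) ≠ 0)
    {e0 e1 e2 a b g f h a' b' g' f' τ F V0 V1 V2 : F₀}
    (ha : a ≠ 0) (ha0 : a - e0 * b ≠ 0) (ha1 : a - e1 * b ≠ 0) (ha2 : a - e2 * b ≠ 0)
    (hF0 : F ≠ 0) (hF : F ^ 2 = f)
    (hV0 : V0 ^ 2 * (1 - e0 * (b / a)) = 1) (hV1 : V1 ^ 2 * (1 - e1 * (b / a)) = 1)
    (hV2 : V2 ^ 2 * (1 - e2 * (b / a)) = 1)
    (hkey : (a - e0 * b) * (a - e1 * b) * (a - e2 * b) *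
        (2 * g' * f * a - 4 * g * a' * f + g * a * f')
      - g * f * (a' * b - a * b') *
        (e0 * ((a - e1 * b) * (a - e2 * b)) + e1 * ((a - e0 * b) * (a - e2 * b)) +
          e2 * ((a - e0 * b) * (a - e1 * b)))
      = - (h * ((a - e0 * b) * (a - e1 * b) * (a - e2 * b)) ^ 2)) :
    2 * F * (V0 * V1 * V2) *
      (((τ * g' / a ^ 2 - 2 * τ * g * a' / a ^ 3) * F + g / a ^ 2 * (τ * f' / (2 * F))) *
          (V0 * V1 * V2)
        + g / a ^ 2 * F *
          (V0 * (e0 * (τ * (b' * a - b * a') / a ^ 2)) / (2 * (1 - e0 * (b / a))) * (V1 * V2)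
          + V0 * (V1 * (e1 * (τ * (b' * a - b * a') / a ^ 2)) / (2 * (1 - e1 * (b / a))) * V2
          + V1 * (V2 * (e2 * (τ * (b' * a - b * a') / a ^ 2)) / (2 * (1 - e2 * (b / a)))))))
      = - (τ * h) := by
  have hq : ∀ e : F₀, 1 - e * (b / a) = (a - e * b) / a := by
    intro e
    field_simp
  rw [hq] at hV0 hV1 hV2
  simp only [hq]
  have hv : ∀ (V P : F₀), P ≠ 0 → V ^ 2 * (P / a) = 1 → V ^ 2 = a / P := by
    intro V P hP h
    field_simp at h ⊢
    exact h
  have h0 := hv V0 _ ha0 hV0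
  have h1 := hv V1 _ ha1 hV1
  have h2' := hv V2 _ ha2 hV2
  have key : 2 * F * (V0 * V1 * V2) *
      (((τ * g' / a ^ 2 - 2 * τ * g * a' / a ^ 3) * F + g / a ^ 2 * (τ * f' / (2 * F))) *
          (V0 * V1 * V2)
        + g / a ^ 2 * F *
          (V0 * (e0 * (τ * (b' * a - b * a') / a ^ 2)) / (2 * ((a - e0 * b) / a)) * (V1 * V2)
          + V0 * (V1 * (e1 * (τ * (b' * a - b * a') / a ^ 2)) / (2 * ((a - e1 * b) / a)) * V2
          + V1 * (V2 * (e2 * (τ * (b' * a - b * a') / a ^ 2)) / (2 * ((a - e2 * b) / a))))))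
      = (V0 ^ 2 * V1 ^ 2 * V2 ^ 2) * (τ * (2 * F ^ 2 * g' / a ^ 2 - 4 * F ^ 2 * g * a' / a ^ 3
          + g * f' / a ^ 2
          + g * F ^ 2 * (b' * a - b * a') / a ^ 4 * (e0 * (a / (a - e0 * b))
            + e1 * (a / (a - e1 * b)) + e2 * (a / (a - e2 * b))))) := by
    field_simp
    ring
  rw [key, h0, h1, h2', hF]
  have hP : (a - e0 * b) * (a - e1 * b) * (a - e2 * b) ≠ 0 :=
    mul_ne_zero (mul_ne_zero ha0 ha1) ha2
  generalize hp0 : a - e0 * b = p0 at *
  generalize hp1 : a - e1 * b = p1 at *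
  generalize hp2 : a - e2 * b = p2 at *
  field_simp
  linear_combination τ * hkey

end UE97
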