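import Mathlib
import Pool.Agent.Lib.MP_10e784_ag.EQ.CaseInfA
import Pool.Agent.Lib.MP_10e784_ag.EQ.Gn
import Pool.Agent.Lib.MP_10e784_ag.EQ.Dom
import Pool.Agent.Lib.MP_10e784_ag.EQ.ClsDom

/-!
# The annuli which reduce to the point at infinity
-/

namespace UE97

open Polynomial

variable {K : Type*} [NormedField K]


private theorem near_mul [IsUltrametricDist K] {x y : K} (hx : ‖x - 1‖ < 1) (hy : ‖y - 1‖ < 1) :
    ‖x * y - 1‖ < 1 := by
  have h1 : x * y - 1 = (x - 1) * (y - 1) + ((x - 1) + (y - 1)) := by ring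
  rw [h1]
  refine lt_of_le_of_lt (IsUltrametricDist.norm_add_le_max _ _) (max_lt ?_ ?_)
  · rw [norm_mul]
    calc ‖x - 1‖ * ‖y - 1‖ ≤ ‖x - 1‖ * 1 :=
          mul_le_mul_of_nonneg_left hy.le (norm_nonneg _)
      _ < 1 := by rwa [mul_one]
  · exact lt_of_le_of_lt (IsUltrametricDist.norm_add_le_max _ _) (max_lt hx hy)

private theorem near_norm [IsUltrametricDist K] {x : K} (hx : ‖x - 1‖ < 1) : ‖x‖ = 1 := by
  have h1 : x = (x - 1) + 1 := by ring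
  have h2 : ‖(x - 1) + 1‖ = ‖(1 : K)‖ := by
    rw [IsUltrametricDist.norm_add_eq_max_of_norm_ne_norm (by rw [norm_one]; exact hx.ne)]
    rw [norm_one]
    exact max_eq_right hx.le
  rw [h1, h2, norm_one]

private theorem near_inv [IsUltrametricDist K] {x : K} (hx : ‖x - 1‖ < 1) :
    ‖x⁻¹ - 1‖ < 1 := by
  have h1 := near_norm hx
  have h0 : x ≠ 0 := by
    intro h
    rw [h, norm_zero] at h1
    exact zero_ne_one h1
  have h2 : x⁻¹ - 1 = x⁻¹ * (-(x - 1)) := by field_simp; ring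
  rw [h2, norm_mul, norm_inv, h1, norm_neg]
  simpa using hx

private theorem near_div {a b : K} (hb : b ≠ 0) (h : ‖a - b‖ < ‖b‖) : ‖a / b - 1‖ < 1 := by
  have h1 : a / b - 1 = (a - b) / b := by field_simp
  rw [h1, norm_div]
  exact (div_lt_one (norm_pos_iff.2 hb)).2 h

private theorem inf_alg {F₀ : Type*} [Field F₀] {a b e0 e1 e2 g f : F₀} (ha : a ≠ 0)
    (h0 : a - e0 * b ≠ 0) (h1 : a - e1 * b ≠ 0) (h2 : a - e2 * b ≠ 0)
    (hE : b * ((a - e0 * b) * (a - e1 * b) * (a - e2 * b)) = f * g ^ 2) :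
    (g / a ^ 2) ^ 2 * f * (a / (a - e0 * b) * (a / (a - e1 * b) * (a / (a - e2 * b)))) * a = b := by
  generalize a - e0 * b = c0 at *
  generalize a - e1 * b = c1 at *
  generalize a - e2 * b = c2 at *
  field_simp
  linear_combination -hE

private theorem inf_alg2 {F₀ : Type*} [Field F₀] (h20 : (2 : F₀) ≠ 0)
    {t tn tm s c hh F V0 V1 V2 : F₀} (htn : tn ≠ 0) (htm : tm ≠ 0) (hs : s ≠ 0) (hc : c ≠ 0)
    (hF : F ≠ 0) (h0 : V0 ≠ 0) (h1 : V1 ≠ 0) (h2 : V2 ≠ 0) :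
    -(t * hh) = 2 * F * (V0 * V1 * V2) * (-c / (2 * s) * (t * tn / tm) *
      (hh / (c * tn) * (F / (s * tm) * (V0 * (V1 * V2)))⁻¹)) := by
  field_simp

/-- **Case infinity**: `‖B‖ < ‖A‖` on the annulus. `A` has no zero there, so it has a dominating
monomial (`exists_dom_of_no_roots`). Put `z = B / A` (class `Cl`, `‖z‖ ≤ θ < 1` by
`ratio_uniform`), `F` the square root of `f` (`Cl.exists_sqrt_of_dom`), `V = ∏ sqi (eᵢ z)`,
`w = (G / A ^ 2) F V`. Then `w ^ 2 = z`, and by `case_inf_identity`, `w1 = - τ h / (2 F V)`, where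
`h τ` is `h.coeff n * τ ^ n` and `F τ` is `s τ ^ m` and `V` is `1`, up to factors `1 + small`. So
`κ = - h.coeff n / (2 s)`. -/
theorem case_inf [IsUltrametricDist K] [IsAlgClosed K] (h2 : ‖(2 : K)‖ = 1) {e : Fin 3 → K}
    {A B G f h : K[X]}
    (D : IsDat e A B G f h) {u v : ℝ} (hu : 0 < u) (huv : u ≤ v) {m n : ℕ}
    (hf : ∀ ρ, u ≤ ρ → ρ ≤ v → Dom f (2 * m) ρ) (hh : ∀ ρ, u ≤ ρ → ρ ≤ v → Dom h n ρ)
    (hlt : ∀ ρ, u ≤ ρ → ρ ≤ v → gn 0 ρ B < gn 0 ρ A)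
    (hlt' : ∀ τ : K, u ≤ ‖τ‖ → ‖τ‖ ≤ v → ‖B.eval τ‖ < ‖A.eval τ‖) :
    ∃ (w w1 : K → K) (κ : K), κ ≠ 0 ∧ Cl u v w w1 ∧
      (∀ τ : K, u ≤ ‖τ‖ → ‖τ‖ ≤ v → w τ ^ 2 * A.eval τ = B.eval τ) ∧
      (∀ τ : K, u ≤ ‖τ‖ → ‖τ‖ ≤ v →
        ‖w1 τ - κ * τ ^ (1 + (n : ℤ) - m)‖ < ‖κ * τ ^ (1 + (n : ℤ) - m)‖) := by
  have hA0 : A ≠ 0 := by
    intro h0
    have h1 := hlt u le_rfl huv
    obtain ⟨i, hi⟩ := exists_gn_eq (K := K) 0 u A
    rw [h0] at hi h1
    rw [hi] at h1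
    have h3 := gn_nonneg (K := K) 0 hu.le B
    simp at h1
    linarith
  obtain ⟨nA, hnA⟩ := exists_dom_of_no_roots hA0 hu huv (fun β hβ => by
    by_contra hcon
    push Not at hcon
    have h1 := hlt' β hcon.1 hcon.2
    rw [hβ, norm_zero] at h1
    exact absurd h1 (not_lt.2 (norm_nonneg _)))
  obtain ⟨θ, hθ, hz⟩ := ratio_uniform hu huv hnA hlt
  obtain ⟨F, F1, s, hs, hFC, hF⟩ := Cl.exists_sqrt_of_dom h2 hu huv hf
  have h20 : (2 : K) ≠ 0 := by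
    intro h
    rw [h, norm_zero] at h2
    exact zero_ne_one h2
  -- the functions
  set z : K → K := fun τ => B.eval τ / A.eval τ with hzdef
  set z1 : K → K := fun τ =>
    τ * ((derivative B).eval τ * A.eval τ - B.eval τ * (derivative A).eval τ) / A.eval τ ^ 2
    with hz1def
  have hne : ∀ τ : K, u ≤ ‖τ‖ → ‖τ‖ ≤ v → A.eval τ ≠ 0 := by
    intro τ h1 h3 h0
    have h4 := hlt' τ h1 h3
    rw [h0, norm_zero] at h4
    exact absurd h4 (not_lt.2 (norm_nonneg _))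
  have hinv := Cl.inv_of_dom hu huv hnA
  have hzC : Cl u v z z1 := by
    refine (Cl.mul hu (Cl.poly u v B) hinv).congr (fun τ _ _ => ?_) (fun τ h1 h3 => ?_)
    · simp only [hzdef]
      rw [div_eq_mul_inv]
    · have := hne τ h1 h3
      simp only [hz1def]
      field_simp
      ring
  have hyC : ∀ i, Cl u v (fun τ => e i * z τ) (fun τ => e i * z1 τ) := fun i =>
    Cl.const_mul (e i) hzC
  have hyn : ∀ i, ∀ τ : K, u ≤ ‖τ‖ → ‖τ‖ ≤ v → ‖e i * z τ‖ ≤ θ := by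
    intro i τ h1 h3
    rw [norm_mul]
    calc ‖e i‖ * ‖z τ‖ ≤ 1 * ‖z τ‖ :=
          mul_le_mul_of_nonneg_right (D.norm_e i) (norm_nonneg _)
      _ ≤ θ := by rw [one_mul]; exact hz τ h1 h3
  have hVC : ∀ i, Cl u v (fun τ => UE97.sqi (e i * z τ))
      (fun τ => UE97.sqi (e i * z τ) * (e i * z1 τ) / (2 * (1 - e i * z τ))) := fun i =>
    Cl.sqi h2 hu (hyC i) hθ (hyn i)
  have hGC : Cl u v (fun τ => G.eval τ / A.eval τ ^ 2)
      (fun τ => τ * (derivative G).eval τ / A.eval τ ^ 2 -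
        2 * τ * G.eval τ * (derivative A).eval τ / A.eval τ ^ 3) := by
    refine (Cl.mul hu (Cl.poly u v G) (Cl.mul hu hinv hinv)).congr (fun τ h1 h3 => ?_)
      (fun τ h1 h3 => ?_)
    · have := hne τ h1 h3
      field_simp
    · have := hne τ h1 h3
      field_simp
      ring
  have hwC := Cl.mul hu (Cl.mul hu hGC hFC) (Cl.mul hu (hVC 0) (Cl.mul hu (hVC 1) (hVC 2)))
  refine ⟨_, _, -(h.coeff n) / (2 * s), ?_, hwC, ?_, ?_⟩
  · have h1 : h.coeff n ≠ 0 := (hh u le_rfl huv).coeff_ne_zero hu.le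
    exact div_ne_zero (neg_ne_zero.2 h1) (mul_ne_zero h20 hs)
  · intro τ h1 h3
    have ha := hne τ h1 h3
    have hV : ∀ i, UE97.sqi (e i * z τ) ^ 2 * (1 - e i * z τ) = 1 := fun i =>
      (sqi_spec h2 (lt_of_le_of_lt (hyn i τ h1 h3) hθ)).1
    obtain ⟨hF0, hF2, -, -⟩ := hF τ h1 h3
    have hab : ∀ i, A.eval τ - e i * B.eval τ ≠ 0 := by
      intro i h0
      have h4 : A.eval τ = e i * B.eval τ := sub_eq_zero.1 h0
      have h5 := hlt' τ h1 h3
      rw [h4, norm_mul] at h5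
      have h6 : ‖e i‖ * ‖B.eval τ‖ ≤ 1 * ‖B.eval τ‖ :=
        mul_le_mul_of_nonneg_right (D.norm_e i) (norm_nonneg _)
      linarith
    have h4 : ∀ i, 1 - e i * z τ = (A.eval τ - e i * B.eval τ) / A.eval τ := by
      intro i
      simp only [hzdef]
      field_simp
    have hV' : ∀ i, UE97.sqi (e i * z τ) ^ 2 = A.eval τ / (A.eval τ - e i * B.eval τ) := by
      intro i
      have h5 := hV i
      rw [h4 i] at h5
      have h6 := hab i
      field_simp at h5 ⊢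
      linear_combination h5
    have hE := D.eval_eq τ
    have h5 : ((G.eval τ / A.eval τ ^ 2 * F τ) * (UE97.sqi (e 0 * z τ) *
        (UE97.sqi (e 1 * z τ) * UE97.sqi (e 2 * z τ)))) ^ 2 * A.eval τ =
        (G.eval τ / A.eval τ ^ 2) ^ 2 * F τ ^ 2 * (UE97.sqi (e 0 * z τ) ^ 2 *
        (UE97.sqi (e 1 * z τ) ^ 2 * UE97.sqi (e 2 * z τ) ^ 2)) * A.eval τ := by ring
    have h50 : ((G.eval τ / A.eval τ ^ 2 * F τ) * (UE97.sqi (e 0 * z τ) *
        (UE97.sqi (e 1 * z τ) * UE97.sqi (e 2 * z τ)))) ^ 2 * A.eval τ = B.eval τ := by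
      rw [h5, hF2, hV' 0, hV' 1, hV' 2]
      exact inf_alg ha (hab 0) (hab 1) (hab 2) (by linear_combination hE)
    exact h50
  · intro τ h1 h3
    have ha := hne τ h1 h3
    have hτ : τ ≠ 0 := by
      intro h0
      rw [h0, norm_zero] at h1
      linarith
    have hyl : ∀ i, ‖e i * z τ‖ < 1 := fun i => lt_of_le_of_lt (hyn i τ h1 h3) hθ
    have hV : ∀ i, UE97.sqi (e i * z τ) ^ 2 * (1 - e i * z τ) = 1 := fun i =>
      (sqi_spec h2 (hyl i)).1
    have hVn : ∀ i, ‖UE97.sqi (e i * z τ) - 1‖ < 1 := fun i => (sqi_spec h2 (hyl i)).2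
    obtain ⟨hF0, hF2, hF1, hFn⟩ := hF τ h1 h3
    have hab : ∀ i, A.eval τ - e i * B.eval τ ≠ 0 := by
      intro i h0
      have h4 : A.eval τ = e i * B.eval τ := sub_eq_zero.1 h0
      have h5 := hlt' τ h1 h3
      rw [h4, norm_mul] at h5
      have h6 : ‖e i‖ * ‖B.eval τ‖ ≤ 1 * ‖B.eval τ‖ :=
        mul_le_mul_of_nonneg_right (D.norm_e i) (norm_nonneg _)
      linarith
    have hk := congrArg (Polynomial.eval τ) D.key
    simp only [eval_mul, eval_sub, eval_add, eval_C, eval_neg, eval_pow, eval_ofNat] at hk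
    have hid := case_inf_identity (F₀ := K) h20 (e0 := e 0) (e1 := e 1) (e2 := e 2)
      (a := A.eval τ) (b := B.eval τ) (g := G.eval τ) (f := f.eval τ) (h := h.eval τ)
      (a' := (derivative A).eval τ) (b' := (derivative B).eval τ) (g' := (derivative G).eval τ)
      (f' := (derivative f).eval τ) (τ := τ) (F := F τ) (V0 := UE97.sqi (e 0 * z τ))
      (V1 := UE97.sqi (e 1 * z τ)) (V2 := UE97.sqi (e 2 * z τ)) ha (hab 0) (hab 1) (hab 2) hF0
      hF2 (hV 0) (hV 1) (hV 2) hk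
    have hhc : h.coeff n ≠ 0 := (hh u le_rfl huv).coeff_ne_zero hu.le
    have hhn : ‖h.eval τ / (h.coeff n * τ ^ n) - 1‖ < 1 :=
      near_div (mul_ne_zero hhc (pow_ne_zero _ hτ)) ((hh _ h1 h3).norm_eval_sub_lt hτ)
    have hFn' : ‖F τ / (s * τ ^ m) - 1‖ < 1 :=
      near_div (mul_ne_zero hs (pow_ne_zero _ hτ)) hFn
    have hVV := near_mul (hVn 0) (near_mul (hVn 1) (hVn 2))
    have hV0 : ∀ i, UE97.sqi (e i * z τ) ≠ 0 := by
      intro i h0
      have := hV i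
      rw [h0] at this
      simp at this
    have hR := near_mul hhn (near_inv (near_mul hFn' hVV))
    set W1 : K := G.eval τ / A.eval τ ^ 2 * F τ *
        (UE97.sqi (e 0 * z τ) * (UE97.sqi (e 1 * z τ) *
            (UE97.sqi (e 2 * z τ) * (e 2 * z1 τ) / (2 * (1 - e 2 * z τ))) +
          UE97.sqi (e 1 * z τ) * (e 1 * z1 τ) / (2 * (1 - e 1 * z τ)) * UE97.sqi (e 2 * z τ)) +
        UE97.sqi (e 0 * z τ) * (e 0 * z1 τ) / (2 * (1 - e 0 * z τ)) *
          (UE97.sqi (e 1 * z τ) * UE97.sqi (e 2 * z τ))) +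
      (G.eval τ / A.eval τ ^ 2 * F1 τ +
        (τ * (derivative G).eval τ / A.eval τ ^ 2 -
          2 * τ * G.eval τ * (derivative A).eval τ / A.eval τ ^ 3) * F τ) *
        (UE97.sqi (e 0 * z τ) * (UE97.sqi (e 1 * z τ) * UE97.sqi (e 2 * z τ))) with hW1
    have hfin : 2 * F τ * (UE97.sqi (e 0 * z τ) * UE97.sqi (e 1 * z τ) * UE97.sqi (e 2 * z τ)) *
        W1 = -(τ * h.eval τ) := by
      rw [← hid, hW1, hF1]
      simp only [hzdef, hz1def]
      ring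
    have hw1 : W1 = -(h.coeff n) / (2 * s) * τ ^ (1 + (n : ℤ) - m) *
        (h.eval τ / (h.coeff n * τ ^ n) * (F τ / (s * τ ^ m) *
          (UE97.sqi (e 0 * z τ) * (UE97.sqi (e 1 * z τ) * UE97.sqi (e 2 * z τ))))⁻¹) := by
      have h70 := hV0 0
      have h71 := hV0 1
      have h72 := hV0 2
      have h8 : τ ^ (1 + (n : ℤ) - m) = τ * τ ^ n / τ ^ m := by
        rw [zpow_sub₀ hτ, zpow_add₀ hτ, zpow_one, zpow_natCast, zpow_natCast]
      rw [h8]
      have h9 : 2 * F τ * (UE97.sqi (e 0 * z τ) * UE97.sqi (e 1 * z τ) *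
          UE97.sqi (e 2 * z τ)) ≠ 0 :=
        mul_ne_zero (mul_ne_zero h20 hF0) (mul_ne_zero (mul_ne_zero h70 h71) h72)
      apply mul_left_cancel₀ h9
      rw [hfin]
      exact inf_alg2 h20 (pow_ne_zero _ hτ) (pow_ne_zero _ hτ) hs hhc hF0 h70 h71 h72
    have hκ0 : -(h.coeff n) / (2 * s) * τ ^ (1 + (n : ℤ) - m) ≠ 0 :=
      mul_ne_zero (div_ne_zero (neg_ne_zero.2 hhc) (mul_ne_zero h20 hs)) (zpow_ne_zero _ hτ)
    change ‖W1 - _‖ < _
    rw [hw1]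
    have h10 : ∀ x y : K, x * y - x = x * (y - 1) := fun x y => by ring
    rw [h10, norm_mul]
    have h11 := norm_pos_iff.2 hκ0
    calc _ < ‖-(h.coeff n) / (2 * s) * τ ^ (1 + (n : ℤ) - m)‖ * 1 :=
          mul_lt_mul_of_pos_left hR h11
      _ = _ := mul_one _

end UE97
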