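import Mathlib

/-!
# Counting distances
-/

namespace UE97

/-- `S` is a finite set of exponents, `Crit` a finite set of critical radii. Suppose that for any
three different `s₁, s₂, s₃ ∈ S` some critical `κ` lies in
`[p ^ (min sᵢ - 2 Δ), p ^ (max sᵢ + 2 Δ)]`. Then
`|S| ≤ |Crit| (4 Δ + 1) + 2 (|Crit| + 1)`.
Proof: call `s ∈ S` bad if some `κ ∈ Crit` satisfies `p ^ (s - 2 Δ) ≤ κ ≤ p ^ (s + 2 Δ)`; for each
`κ` these `s` lie in an interval of integers of length `4 Δ`, so there are at most
`|Crit| (4 Δ + 1)` bad `s`. For good `s` let `nb s = #{κ ∈ Crit | κ < p ^ s} ∈ {0, ..., |Crit|}`.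
If three different good `s₁ < s₂ < s₃` had the same `nb`, take `κ` from the hypothesis:
`p ^ (s₁ - 2 Δ) ≤ κ ≤ p ^ (s₃ + 2 Δ)`. `κ < p ^ s₁` would make `s₁` bad and `κ ≥ p ^ s₃` would make
`s₃` bad; otherwise `p ^ s₁ ≤ κ < p ^ s₃`, so `κ` is counted in `nb s₃` and not in `nb s₁`, and
`nb s₁ < nb s₃`. So every value of `nb` is taken at most twice. -/
theorem card_exponents_le {p : ℝ} (hp : 1 < p) (S : Finset ℤ) (Crit : Finset ℝ) (Δ : ℕ)
    (H : ∀ s : Fin 3 → ℤ, (∀ i, s i ∈ S) → Function.Injective s →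
      ∃ κ ∈ Crit, ∃ i j, p ^ (s i - 2 * Δ) ≤ κ ∧ κ ≤ p ^ (s j + 2 * Δ)) :
    S.card ≤ Crit.card * (4 * Δ + 1) + 2 * (Crit.card + 1) := by
  classical
  set B : ℝ → ℤ → Prop := fun κ s => p ^ (s - 2 * (Δ : ℤ)) ≤ κ ∧ κ ≤ p ^ (s + 2 * (Δ : ℤ)) with hB
  set Sb := S.filter (fun s => ∃ κ ∈ Crit, B κ s) with hSb
  set Sg := S.filter (fun s => ¬ ∃ κ ∈ Crit, B κ s) with hSg
  have hsplit : Sb.card + Sg.card = S.card := Finset.card_filter_add_card_filter_not _
  -- bad exponents
  have hbad1 : ∀ κ ∈ Crit, (S.filter (fun s => B κ s)).card ≤ 4 * Δ + 1 := by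
    intro κ _
    rcases (S.filter (fun s => B κ s)).eq_empty_or_nonempty with h0 | h0
    · rw [h0]
      simp
    set m := (S.filter (fun s => B κ s)).min' h0 with hm
    have hmm : m ∈ S.filter (fun s => B κ s) := Finset.min'_mem _ _
    have hmB : B κ m := (Finset.mem_filter.1 hmm).2
    have hsub : S.filter (fun s => B κ s) ⊆ Finset.Icc m (m + 4 * (Δ : ℤ)) := by
      intro s hs
      rw [Finset.mem_Icc]
      refine ⟨Finset.min'_le _ _ hs, ?_⟩
      have hsB : B κ s := (Finset.mem_filter.1 hs).2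
      have h1 := (zpow_le_zpow_iff_right₀ hp).1 (hsB.1.trans hmB.2)
      omega
    refine (Finset.card_le_card hsub).trans ?_
    rw [Int.card_Icc]
    omega
  have hbad : Sb.card ≤ Crit.card * (4 * Δ + 1) := by
    have h1 : Sb ⊆ Crit.biUnion (fun κ => S.filter (fun s => B κ s)) := by
      intro s hs
      obtain ⟨hs1, κ, hκ, hsκ⟩ := Finset.mem_filter.1 hs
      exact Finset.mem_biUnion.2 ⟨κ, hκ, Finset.mem_filter.2 ⟨hs1, hsκ⟩⟩
    exact (Finset.card_le_card h1).trans (Finset.card_biUnion_le_card_mul _ _ _ hbad1)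
  -- good exponents
  have hgood : Sg.card ≤ 2 * (Crit.card + 1) := by
    set nb : ℤ → ℕ := fun s => (Crit.filter (fun κ => κ < p ^ s)).card with hnb
    have hmaps : ∀ s ∈ Sg, nb s ∈ Finset.range (Crit.card + 1) := by
      intro s _
      rw [Finset.mem_range]
      exact Nat.lt_succ_of_le (Finset.card_filter_le _ _)
    have hfib : ∀ z ∈ Finset.range (Crit.card + 1), (Sg.filter (fun s => nb s = z)).card ≤ 2 := by
      intro z _
      by_contra hcon
      push Not at hcon
      obtain ⟨a, ha, b, hb, c, hc, hab, hac, hbc⟩ := Finset.two_lt_card.1 hcon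
      set s : Fin 3 → ℤ := ![a, b, c] with hs
      have hsF : ∀ i, s i ∈ Sg.filter (fun s => nb s = z) := by
        intro i
        fin_cases i
        · exact ha
        · exact hb
        · exact hc
      have hinj : Function.Injective s := by
        intro i j hij
        have h0 : s 0 = a := rfl
        have h1 : s 1 = b := rfl
        have h2 : s 2 = c := rfl
        clear_value s
        fin_cases i <;> fin_cases j
        · rfl
        · exact absurd (h0.symm.trans (hij.trans h1)) hab
        · exact absurd (h0.symm.trans (hij.trans h2)) hac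
        · exact absurd (h0.symm.trans (hij.symm.trans h1)) hab
        · rfl
        · exact absurd (h1.symm.trans (hij.trans h2)) hbc
        · exact absurd (h0.symm.trans (hij.symm.trans h2)) hac
        · exact absurd (h1.symm.trans (hij.symm.trans h2)) hbc
        · rfl
      obtain ⟨κ, hκ, i, j, h1, h2⟩ := H s
        (fun i => (Finset.mem_filter.1 (Finset.mem_filter.1 (hsF i)).1).1) hinj
      have hgi := (Finset.mem_filter.1 (Finset.mem_filter.1 (hsF i)).1).2
      have hgj := (Finset.mem_filter.1 (Finset.mem_filter.1 (hsF j)).1).2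
      have hzi := (Finset.mem_filter.1 (hsF i)).2
      have hzj := (Finset.mem_filter.1 (hsF j)).2
      have h3 : p ^ (s i + 2 * (Δ : ℤ)) < κ := by
        by_contra hcon2
        push Not at hcon2
        exact hgi ⟨κ, hκ, h1, hcon2⟩
      have h4 : κ < p ^ (s j - 2 * (Δ : ℤ)) := by
        by_contra hcon2
        push Not at hcon2
        exact hgj ⟨κ, hκ, hcon2, h2⟩
      have h5 : p ^ (s i) < κ :=
        lt_of_le_of_lt (zpow_le_zpow_right₀ hp.le (by omega)) h3
      have h6 : κ < p ^ (s j) :=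
        lt_of_lt_of_le h4 (zpow_le_zpow_right₀ hp.le (by omega))
      have h7 : nb (s i) < nb (s j) := by
        apply Finset.card_lt_card
        rw [Finset.ssubset_iff_of_subset]
        · exact ⟨κ, Finset.mem_filter.2 ⟨hκ, h6⟩, fun h => lt_asymm h5 (Finset.mem_filter.1 h).2⟩
        · intro x hx
          rw [Finset.mem_filter] at hx ⊢
          exact ⟨hx.1, hx.2.trans (h5.trans h6)⟩
      rw [hzi, hzj] at h7
      exact lt_irrefl _ h7
    have h8 := Finset.card_le_mul_card_image_of_maps_to hmaps 2 hfib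
    rwa [Finset.card_range] at h8
  omega

end UE97
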