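import Mathlib

/-!
# The four squares lemma (no nonconstant map from the line to an elliptic curve)

`k` is an algebraically closed field with `2 ≠ 0`.
-/

namespace UE97

open Polynomial

variable {k : Type*} [Field k] [IsAlgClosed k]

omit [IsAlgClosed k] in
theorem Four_unit {u : k[X]} (hu : IsUnit u) : ∃ c : k, c ≠ 0 ∧ u = C c := by
  obtain ⟨c, hc, rfl⟩ := Polynomial.isUnit_iff.1 hu
  exact ⟨c, hc.ne_zero, rfl⟩

theorem Four_sqrt (c : k) : ∃ d : k, c = d ^ 2 := by
  obtain ⟨d, hd⟩ := IsAlgClosed.exists_pow_nat_eq c (n := 2) (by norm_num)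
  exact ⟨d, hd.symm⟩

theorem Four_constMul {c : k} {P : k[X]} (h : ∃ a, P = a ^ 2) : ∃ a, C c * P = a ^ 2 := by
  obtain ⟨a, rfl⟩ := h
  obtain ⟨d, rfl⟩ := Four_sqrt c
  exact ⟨C d * a, by rw [C_pow]; ring⟩

theorem Four_constMul' {c : k} (hc : c ≠ 0) {P : k[X]} (h : ∃ a, C c * P = a ^ 2) :
    ∃ a, P = a ^ 2 := by
  obtain ⟨a, ha⟩ := Four_constMul (c := c⁻¹) h
  refine ⟨a, ?_⟩
  rw [← ha, ← mul_assoc, ← C_mul, inv_mul_cancel₀ hc, C_1, one_mul]

/-- In `k[X]`, a factor of a square (up to a square) which is coprime to the cofactor is a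
square. Proof: `(g ^ 2) ∣ (H ^ 2)` gives `g ∣ H`, so `L * M` is a square; then
`exists_associated_pow_of_mul_eq_pow` (for coprime factors) makes `L` associated to a square, and
the unit is a constant, which is a square in `k`. -/
theorem isSquare_of_coprime_mul {L M g H : k[X]} (hLM : IsCoprime L M) (hg : g ≠ 0)
    (h : L * M * g ^ 2 = H ^ 2) : ∃ l : k[X], L = l ^ 2 := by
  have h1 : g ^ 2 ∣ H ^ 2 := ⟨L * M, by rw [← h]; ring⟩
  have h2 : g ∣ H := (UniqueFactorizationMonoid.pow_dvd_pow_iff_dvd two_ne_zero).1 h1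
  obtain ⟨w, rfl⟩ := h2
  have h3 : L * M = w ^ 2 := by
    have hg2 : g ^ 2 ≠ 0 := pow_ne_zero 2 hg
    apply mul_right_cancel₀ hg2
    rw [h]; ring
  obtain ⟨d, hd⟩ := exists_associated_pow_of_mul_eq_pow' hLM h3
  obtain ⟨u, hu⟩ := hd
  obtain ⟨c, hc, hc2⟩ := Four_unit u.isUnit
  rw [hc2] at hu
  rw [← hu, mul_comm]
  exact Four_constMul ⟨d, rfl⟩

theorem Four_aux (h2 : (2 : k) ≠ 0) : ∀ (n : ℕ) (lam : k), lam ≠ 0 → lam ≠ 1 →
    ∀ (P Q : k[X]), IsCoprime P Q → (∃ a, P = a ^ 2) → (∃ a, Q = a ^ 2) →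
    (∃ a, P - Q = a ^ 2) → (∃ a, P - C lam * Q = a ^ 2) → P.natDegree ≤ n → Q.natDegree ≤ n →
    P.natDegree = 0 ∧ Q.natDegree = 0 := by
  intro n
  induction n using Nat.strong_induction_on with
  | _ n ih =>
    intro lam hl0 hl1 P Q hPQ hP hQ hPQ1 hPQ2 hPn hQn
    rcases Nat.eq_zero_or_pos n with hn | hn
    · subst hn
      exact ⟨Nat.le_zero.1 hPn, Nat.le_zero.1 hQn⟩
    obtain ⟨p, rfl⟩ := hP
    obtain ⟨q, rfl⟩ := hQ
    obtain ⟨a1, ha1⟩ := hPQ1
    obtain ⟨a2, ha2⟩ := hPQ2
    obtain ⟨μ, rfl⟩ := Four_sqrt lam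
    have hμ0 : μ ≠ 0 := fun h => hl0 (by rw [h]; ring)
    have hμ1 : μ - 1 ≠ 0 := fun h => hl1 (by
      have : μ = 1 := by linear_combination h
      rw [this]; ring)
    have hμ2 : μ + 1 ≠ 0 := fun h => hl1 (by
      have : μ = -1 := by linear_combination h
      rw [this]; ring)
    have hμ1' : (1 - μ) ≠ 0 := fun h => hμ1 (by linear_combination -h)
    have hμ2' : (1 + μ) ≠ 0 := fun h => hμ2 (by linear_combination h)
    have hpq : IsCoprime p q := (IsCoprime.pow_iff (by norm_num) (by norm_num)).1 hPQ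
    have hdp : p.natDegree ≤ n / 2 := by
      rw [natDegree_pow] at hPn
      omega
    have hdq : q.natDegree ≤ n / 2 := by
      rw [natDegree_pow] at hQn
      omega
    have hlt : n / 2 < n := by omega
    -- the invertible combinations are coprime
    have hcomb : ∀ a b c d : k, a * d - b * c ≠ 0 →
        IsCoprime (C a * p + C b * q) (C c * p + C d * q) := by
      intro a b c d hdet
      obtain ⟨s, t, hst⟩ := hpq
      -- p = (d (ap+bq) - b (cp+dq)) / det, q = (a (cp+dq) - c (ap+bq)) / det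
      refine ⟨C (a * d - b * c)⁻¹ * (s * C d - t * C c),
        C (a * d - b * c)⁻¹ * (t * C a - s * C b), ?_⟩
      have h1 : C (a * d - b * c)⁻¹ * (C a * C d - C b * C c) = (1 : k[X]) := by
        rw [← C_mul, ← C_mul, ← C_sub, ← C_mul, inv_mul_cancel₀ hdet, C_1]
      linear_combination (s * p + t * q) * h1 + hst
    have hA : ∃ a, p - q = a ^ 2 := by
      have hc := hcomb 1 (-1) 1 1 (by ring_nf; exact h2)
      have e1 : C 1 * p + C (-1) * q = p - q := by simp; ring
      have e2 : C 1 * p + C 1 * q = p + q := by simp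
      rw [e1, e2] at hc
      exact isSquare_of_coprime_mul hc (g := 1) one_ne_zero (H := a1) (by rw [← ha1]; ring)
    have hB : ∃ a, p + q = a ^ 2 := by
      have hc := hcomb 1 1 1 (-1) (by
        intro h
        apply h2
        linear_combination -h)
      have e1 : C 1 * p + C (-1) * q = p - q := by simp; ring
      have e2 : C 1 * p + C 1 * q = p + q := by simp
      rw [e1, e2] at hc
      exact isSquare_of_coprime_mul hc (g := 1) one_ne_zero (H := a1) (by rw [← ha1]; ring)
    have hC : ∃ a, p - C μ * q = a ^ 2 := by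
      have hc := hcomb 1 (-μ) 1 μ (by
        intro h
        have h3 : (2 : k) * μ = 0 := by linear_combination h
        rcases mul_eq_zero.1 h3 with h4 | h4
        · exact h2 h4
        · exact hμ0 h4)
      have e1 : C 1 * p + C (-μ) * q = p - C μ * q := by simp; ring
      have e2 : C 1 * p + C μ * q = p + C μ * q := by simp
      rw [e1, e2] at hc
      refine isSquare_of_coprime_mul hc (g := 1) one_ne_zero (H := a2) ?_
      rw [← ha2, C_pow]; ring
    have hD : ∃ a, p + C μ * q = a ^ 2 := by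
      have hc := hcomb 1 μ 1 (-μ) (by
        intro h
        have h3 : (2 : k) * μ = 0 := by linear_combination -h
        rcases mul_eq_zero.1 h3 with h4 | h4
        · exact h2 h4
        · exact hμ0 h4)
      have e1 : C 1 * p + C (-μ) * q = p - C μ * q := by simp; ring
      have e2 : C 1 * p + C μ * q = p + C μ * q := by simp
      rw [e1, e2] at hc
      refine isSquare_of_coprime_mul hc (g := 1) one_ne_zero (H := a2) ?_
      rw [← ha2, C_pow]; ring
    -- the new data
    obtain ⟨α, hα⟩ : ∃ α : k, 2 * α = 1 + μ := ⟨(1 + μ) / 2, by field_simp⟩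
    obtain ⟨β, hβ⟩ : ∃ β : k, 2 * β = 1 - μ := ⟨(1 - μ) / 2, by field_simp⟩
    have hα0 : α ≠ 0 := fun h => hμ2' (by rw [← hα, h]; ring)
    have hβ0 : β ≠ 0 := fun h => hμ1' (by rw [← hβ, h]; ring)
    have hαβ : α + β = 1 := by
      have h3 : (2 : k) * (α + β - 1) = 0 := by linear_combination hα + hβ
      rcases mul_eq_zero.1 h3 with h4 | h4
      · exact absurd h4 h2
      · linear_combination h4
    have hαβ2 : α - β = μ := by
      have h3 : (2 : k) * (α - β - μ) = 0 := by linear_combination hα - hβ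
      rcases mul_eq_zero.1 h3 with h4 | h4
      · exact absurd h4 h2
      · linear_combination h4
    have hnew := ih (n / 2) hlt ((α / β) ^ 2) (pow_ne_zero 2 (div_ne_zero hα0 hβ0)) (by
        intro h
        rw [div_pow, div_eq_one_iff_eq (pow_ne_zero 2 hβ0)] at h
        apply hμ0
        have : (α - β) * (α + β) = 0 := by linear_combination h
        rw [hαβ, mul_one, hαβ2] at this
        exact this)
      (C α * (p - q)) (C (-β) * (p + q)) (by
        have hc := hcomb α (-α) (-β) (-β) (by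
          intro h
          have h3 : 2 * (α * β) = 0 := by linear_combination -h
          rcases mul_eq_zero.1 h3 with h4 | h4
          · exact h2 h4
          · exact (mul_ne_zero hα0 hβ0) h4)
        have e1 : C α * p + C (-α) * q = C α * (p - q) := by rw [C_neg]; ring
        have e2 : C (-β) * p + C (-β) * q = C (-β) * (p + q) := by rw [C_neg]; ring
        rw [e1, e2] at hc
        exact hc)
      (Four_constMul hA) (Four_constMul hB) (by
        obtain ⟨a, ha⟩ := hC
        refine ⟨a, ?_⟩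
        rw [← ha, ← hαβ2, C_neg, C_sub]
        have h3 : (C α : k[X]) + C β = 1 := by rw [← C_add, hαβ, C_1]
        linear_combination p * h3) (by
        obtain ⟨a, ha⟩ := Four_constMul (c := α / β) hD
        refine ⟨a, ?_⟩
        rw [← ha, ← hαβ2]
        have h3 : (C α : k[X]) + C β = 1 := by rw [← C_add, hαβ, C_1]
        have h4 : (C (α / β) : k[X]) * C β = C α := by
          rw [← C_mul, div_mul_cancel₀ _ hβ0]
        rw [C_pow, C_neg, C_sub]
        linear_combination (C (α / β) * (p + q)) * h4 - (p - q) * h4 +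
          (C (α / β) * p) * h3)
      ((natDegree_C_mul_le _ _).trans ((natDegree_sub_le _ _).trans (max_le hdp hdq)))
      ((natDegree_C_mul_le _ _).trans ((natDegree_add_le _ _).trans (max_le hdp hdq)))
    obtain ⟨h5, h6⟩ := hnew
    rw [natDegree_C_mul hα0] at h5
    rw [natDegree_C_mul (neg_ne_zero.2 hβ0)] at h6
    have h7 : p = C (1 / 2) * ((p - q) + (p + q)) := by
      have : (C (1 / 2) : k[X]) * C 2 = 1 := by
        rw [← C_mul, one_div, inv_mul_cancel₀ h2, C_1]
      have e : (C 2 : k[X]) = 2 := map_ofNat C 2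
      rw [e] at this
      linear_combination -p * this
    have h8 : q = C (1 / 2) * ((p + q) - (p - q)) := by
      have : (C (1 / 2) : k[X]) * C 2 = 1 := by
        rw [← C_mul, one_div, inv_mul_cancel₀ h2, C_1]
      have e : (C 2 : k[X]) = 2 := map_ofNat C 2
      rw [e] at this
      linear_combination -q * this
    constructor
    · have h9 : p.natDegree ≤ 0 := by
        rw [h7]
        refine (natDegree_C_mul_le _ _).trans ((natDegree_add_le _ _).trans (max_le ?_ ?_))
        · omega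
        · omega
      rw [natDegree_pow]
      omega
    · have h9 : q.natDegree ≤ 0 := by
        rw [h8]
        refine (natDegree_C_mul_le _ _).trans ((natDegree_sub_le _ _).trans (max_le ?_ ?_))
        · omega
        · omega
      rw [natDegree_pow]
      omega

/-- **Four squares lemma.** If `P`, `Q` are coprime and `P`, `Q`, `P - Q`, `P - λ Q` are squares,
`λ ≠ 0, 1`, then `P` and `Q` are constant.
Proof by strong induction on `max P.natDegree Q.natDegree`. Write `P = p ^ 2`, `Q = q ^ 2`,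
`λ = μ ^ 2`, so `μ ≠ 0, 1, -1`. Then `p`, `q` are coprime, `(p - q) * (p + q) = P - Q` and
`(p - μ q) * (p + μ q) = P - λ Q` are squares; `p - q`, `p + q` are coprime (as `2 ≠ 0`), and
`p - μ q`, `p + μ q` are coprime, so these four polynomials are squares by
`isSquare_of_coprime_mul` (with `g = 1`). Put `α = (1 + μ) / 2`, `β = (1 - μ) / 2`,
`P' = α (p - q)`, `Q' = - β (p + q)` (constants are squares): `P' - Q' = p - μ q` and, with
`λ' = ((1 + μ) / (1 - μ)) ^ 2`, `P' - λ' Q' = (α + λ' β) (p + μ q)`.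
`P'`, `Q'` are coprime (an invertible linear combination of `p`, `q`),
`max (natDegree P') (natDegree Q') = max (natDegree p) (natDegree q)`, which is half of
`max (natDegree P) (natDegree Q)`. -/
theorem four_squares (h2 : (2 : k) ≠ 0) {lam : k} (hl0 : lam ≠ 0) (hl1 : lam ≠ 1)
    {P Q : k[X]} (hPQ : IsCoprime P Q) (hP : ∃ a, P = a ^ 2) (hQ : ∃ a, Q = a ^ 2)
    (hPQ1 : ∃ a, P - Q = a ^ 2) (hPQ2 : ∃ a, P - C lam * Q = a ^ 2) :
    P.natDegree = 0 ∧ Q.natDegree = 0 :=
  Four_aux h2 (max P.natDegree Q.natDegree) lam hl0 hl1 P Q hPQ hP hQ hPQ1 hPQ2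
    (le_max_left _ _) (le_max_right _ _)

/-- If `B (A - e₀ B) (A - e₁ B) (A - e₂ B) g ^ 2 = H ^ 2` with `A`, `B` coprime, `g ≠ 0` and `e`
injective, then `A` and `B` are constant. Apply `isSquare_of_coprime_mul` to each of the four
pairwise coprime factors (none of them is zero unless `A` and `B` are both constant: e.g. `B = 0`
forces `A` to be a unit) and then `four_squares` to `P = A - e₀ B`, `Q = (e₁ - e₀) B`,
`λ = (e₂ - e₀) / (e₁ - e₀)`. -/
theorem const_of_square (h2 : (2 : k) ≠ 0) {e : Fin 3 → k} (he : Function.Injective e)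
    {A B g H : k[X]} (hAB : IsCoprime A B) (hg : g ≠ 0)
    (h : B * ((A - C (e 0) * B) * (A - C (e 1) * B) * (A - C (e 2) * B)) * g ^ 2 = H ^ 2) :
    A.natDegree = 0 ∧ B.natDegree = 0 := by
  obtain ⟨s, t, hst⟩ := hAB
  have e01 : e 1 - e 0 ≠ 0 := sub_ne_zero.2 (he.ne (by decide))
  have e02 : e 2 - e 0 ≠ 0 := sub_ne_zero.2 (he.ne (by decide))
  have e12 : e 2 - e 1 ≠ 0 := sub_ne_zero.2 (he.ne (by decide))
  -- coprimality
  have hBi : ∀ c : k, IsCoprime B (A - C c * B) := fun c =>
    ⟨t + s * C c, s, by linear_combination hst⟩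
  have hij : ∀ c d : k, d - c ≠ 0 → IsCoprime (A - C c * B) (A - C d * B) := by
    intro c d hcd
    have h1 : C (d - c)⁻¹ * (C d - C c) = (1 : k[X]) := by
      rw [← C_sub, ← C_mul, inv_mul_cancel₀ hcd, C_1]
    refine ⟨C (d - c)⁻¹ * (s * C d + t), -(C (d - c)⁻¹ * (s * C c + t)), ?_⟩
    linear_combination (s * A + t * B) * h1 + hst
  have hB : ∃ l, B = l ^ 2 :=
    isSquare_of_coprime_mul (((hBi (e 0)).mul_right (hBi (e 1))).mul_right (hBi (e 2))) hg h
  have h0 : ∃ l, A - C (e 0) * B = l ^ 2 := by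
    refine isSquare_of_coprime_mul (M := B * (A - C (e 1) * B) * (A - C (e 2) * B))
      (((hBi (e 0)).symm.mul_right (hij _ _ e01)).mul_right (hij _ _ e02)) hg (H := H) ?_
    rw [← h]; ring
  have h1 : ∃ l, A - C (e 1) * B = l ^ 2 := by
    refine isSquare_of_coprime_mul (M := B * (A - C (e 0) * B) * (A - C (e 2) * B))
      (((hBi (e 1)).symm.mul_right (hij _ _ e01).symm).mul_right (hij _ _ e12)) hg (H := H) ?_
    rw [← h]; ring
  have h3 : ∃ l, A - C (e 2) * B = l ^ 2 := by
    refine isSquare_of_coprime_mul (M := B * (A - C (e 0) * B) * (A - C (e 1) * B))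
      (((hBi (e 2)).symm.mul_right (hij _ _ e02).symm).mul_right (hij _ _ e12).symm) hg
      (H := H) ?_
    rw [← h]; ring
  have hmain := four_squares h2 (lam := (e 2 - e 0) / (e 1 - e 0)) (div_ne_zero e02 e01) (by
      intro h
      rw [div_eq_one_iff_eq e01] at h
      exact e12 (by linear_combination h))
    (P := A - C (e 0) * B) (Q := C (e 1 - e 0) * B) (by
      have hu : IsUnit (C (e 1 - e 0) : k[X]) := isUnit_C.2 (IsUnit.mk0 _ e01)
      exact (isCoprime_mul_unit_left_right hu _ _).2 (hBi (e 0)).symm)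
    h0 (Four_constMul hB) (by
      obtain ⟨l, hl⟩ := h1
      refine ⟨l, ?_⟩
      rw [← hl, C_sub]; ring) (by
      obtain ⟨l, hl⟩ := h3
      refine ⟨l, ?_⟩
      rw [← hl, ← mul_assoc, ← C_mul, div_mul_cancel₀ _ e01, C_sub]; ring)
  obtain ⟨h5, h6⟩ := hmain
  rw [natDegree_C_mul e01] at h6
  refine ⟨?_, h6⟩
  have h7 : A = (A - C (e 0) * B) + C (e 0) * B := by ring
  have h8 : A.natDegree ≤ 0 := by
    rw [h7]
    refine (natDegree_add_le _ _).trans (max_le (by omega) ((natDegree_C_mul_le _ _).trans ?_))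
    omega
  omega

/-- Not necessarily coprime version: `A` and `B` are then linearly dependent. Proof: if `A = 0` or
`B = 0` this is clear. Otherwise write `A = G A'`, `B = G B'` with `A'`, `B'` coprime
(`EuclideanDomain.gcd` or `gcd`), and apply `const_of_square` with `g' = G ^ 2 * g`. -/
theorem dependent_of_square (h2 : (2 : k) ≠ 0) {e : Fin 3 → k} (he : Function.Injective e)
    {A B g H : k[X]} (hg : g ≠ 0)
    (h : B * ((A - C (e 0) * B) * (A - C (e 1) * B) * (A - C (e 2) * B)) * g ^ 2 = H ^ 2) :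
    ∃ a b : k, (a ≠ 0 ∨ b ≠ 0) ∧ C b * A = C a * B := by
  classical
  by_cases hA : A = 0
  · exact ⟨0, 1, Or.inr one_ne_zero, by rw [hA]; simp⟩
  by_cases hB : B = 0
  · exact ⟨1, 0, Or.inl one_ne_zero, by rw [hB]; simp⟩
  obtain ⟨A', hA'⟩ := EuclideanDomain.gcd_dvd_left A B
  obtain ⟨B', hB'⟩ := EuclideanDomain.gcd_dvd_right A B
  have hG : EuclideanDomain.gcd A B ≠ 0 := by
    intro h0
    exact hA (EuclideanDomain.gcd_eq_zero_iff.1 h0).1
  have hcop : IsCoprime A' B' := by
    have hbz := EuclideanDomain.gcd_eq_gcd_ab A B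
    refine ⟨EuclideanDomain.gcdA A B, EuclideanDomain.gcdB A B, ?_⟩
    apply mul_left_cancel₀ hG
    calc EuclideanDomain.gcd A B * (EuclideanDomain.gcdA A B * A' +
          EuclideanDomain.gcdB A B * B')
        = (EuclideanDomain.gcd A B * A') * EuclideanDomain.gcdA A B +
          (EuclideanDomain.gcd A B * B') * EuclideanDomain.gcdB A B := by ring
      _ = A * EuclideanDomain.gcdA A B + B * EuclideanDomain.gcdB A B := by rw [← hA', ← hB']
      _ = EuclideanDomain.gcd A B * 1 := by rw [← hbz, mul_one]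
  generalize EuclideanDomain.gcd A B = G at *
  subst hA' hB'
  have hmain := const_of_square h2 he hcop (g := G ^ 2 * g) (H := H)
    (mul_ne_zero (pow_ne_zero 2 hG) hg) (by rw [← h]; ring)
  obtain ⟨h5, h6⟩ := hmain
  rw [natDegree_eq_zero] at h5 h6
  obtain ⟨a, rfl⟩ := h5
  obtain ⟨b, rfl⟩ := h6
  refine ⟨a, b, Or.inl ?_, by ring⟩
  rintro rfl
  exact hA (by simp)

end UE97
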