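import Mathlib

/-!
# The residue field of an algebraically closed ultrametric field
-/

namespace UE97

open Polynomial

universe u

section

variable {K : Type u} [NormedField K] [IsUltrametricDist K]

private noncomputable abbrev ResidVS (K : Type u) [NormedField K] [IsUltrametricDist K] :
    ValuationSubring K := (NormedField.valuation (K := K)).valuationSubring

private lemma resid_mem (x : K) : x ∈ ResidVS K ↔ ‖x‖ ≤ 1 := by
  rw [Valuation.mem_valuationSubring_iff]
  exact Iff.rfl

private lemma resid_max (x : ResidVS K) :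
    x ∈ IsLocalRing.maximalIdeal (ResidVS K) ↔ ‖(x : K)‖ < 1 := by
  rw [IsLocalRing.mem_maximalIdeal, mem_nonunits_iff]
  constructor
  · intro h
    by_contra h1
    push Not at h1
    apply h
    have hx : ‖(x : K)‖ = 1 := le_antisymm ((resid_mem _).1 x.2) h1
    have hx0 : (x : K) ≠ 0 := by
      intro h0
      rw [h0, norm_zero] at hx
      norm_num at hx
    have hinv : (x : K)⁻¹ ∈ ResidVS K := by
      rw [resid_mem, norm_inv, hx, inv_one]
    refine IsUnit.of_mul_eq_one (⟨(x : K)⁻¹, hinv⟩ : ResidVS K) ?_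
    ext
    simpa using mul_inv_cancel₀ hx0
  · intro h hu
    obtain ⟨y, hy⟩ := hu.exists_right_inv
    have h1 : (x : K) * (y : K) = 1 := by
      have := congrArg (Subtype.val) hy
      simpa using this
    have h2 : ‖(x : K)‖ * ‖(y : K)‖ = 1 := by
      rw [← norm_mul, h1, norm_one]
    have h3 : ‖(y : K)‖ ≤ 1 := (resid_mem _).1 y.2
    have h4 : ‖(x : K)‖ * ‖(y : K)‖ ≤ ‖(x : K)‖ * 1 := by gcongr
    linarith

open Classical in
private noncomputable def residRed (x : K) : IsLocalRing.ResidueField (ResidVS K) :=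
  if h : ‖x‖ ≤ 1 then IsLocalRing.residue (ResidVS K) ⟨x, (resid_mem x).2 h⟩ else 0

private lemma residRed_eq (x : K) (h : ‖x‖ ≤ 1) :
    residRed x = IsLocalRing.residue (ResidVS K) ⟨x, (resid_mem x).2 h⟩ := by
  unfold residRed
  rw [dif_pos h]

private lemma resid_algClosed [IsAlgClosed K] :
    IsAlgClosed (IsLocalRing.ResidueField (ResidVS K)) := by
  refine IsAlgClosed.of_exists_root _ ?_
  intro p hp hirr
  have hl : p ∈ lifts (IsLocalRing.residue (ResidVS K)) := by
    rw [lifts_iff_coeff_lifts]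
    intro n
    obtain ⟨y, hy⟩ := IsLocalRing.residue_surjective (R := ResidVS K) (p.coeff n)
    exact ⟨y, hy⟩
  obtain ⟨q, hq1, hq2, hq3⟩ := lifts_and_natDegree_eq_and_monic hl hp
  have hdeg : (q.map (algebraMap (ResidVS K) K)).degree ≠ 0 := by
    rw [hq3.degree_map]
    have h1 : 0 < p.natDegree := hirr.natDegree_pos
    rw [← hq2] at h1
    exact (natDegree_pos_iff_degree_pos.1 h1).ne'
  obtain ⟨x, hx⟩ := IsAlgClosed.exists_root _ hdeg
  have hx' : eval₂ (algebraMap (ResidVS K) K) x q = 0 := by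
    rwa [IsRoot.def, eval_map] at hx
  have hint : IsIntegral (ResidVS K) x := ⟨q, hq3, hx'⟩
  obtain ⟨y, hy⟩ := IsIntegrallyClosed.isIntegral_iff.1 hint
  refine ⟨IsLocalRing.residue (ResidVS K) y, ?_⟩
  rw [← hq1, eval_map, eval₂_at_apply]
  have h1 : q.eval y = 0 := by
    have h2 : algebraMap (ResidVS K) K (q.eval y) = 0 := by
      rw [← eval₂_at_apply, hy, hx']
    exact (map_eq_zero_iff _ (IsFractionRing.injective (ResidVS K) K)).1 h2
  rw [h1, map_zero]

end

/-- Reduction of an algebraically closed ultrametric field modulo its maximal ideal, as a map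
`K → k` which is meaningful on the unit ball.
Proof: `O = {x | ‖x‖ ≤ 1}` is a subring (ultrametric inequality), it is local with maximal ideal
`{x | ‖x‖ < 1}`, let `k` be its residue field (or the quotient by this ideal). `red x` is the class
of `x` for `‖x‖ ≤ 1` (and `0` otherwise). `k` is algebraically closed
(`IsAlgClosed.of_exists_root`): a monic polynomial over `k` lifts to a monic polynomial over `O`
(`Polynomial.lifts_and_natDegree_eq_and_monic`), which has a root in `K` (if its degree is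
positive), and this root has norm `≤ 1` because the polynomial is monic with coefficients of
norm `≤ 1`. -/
theorem exists_residue {K : Type u} [NormedField K] [IsUltrametricDist K] [IsAlgClosed K]
    (h2 : ‖(2 : K)‖ = 1) :
    ∃ (k : Type u) (_ : Field k) (red : K → k), IsAlgClosed k ∧ (2 : k) ≠ 0 ∧
      red 0 = 0 ∧ red 1 = 1 ∧
      (∀ x y, ‖x‖ ≤ 1 → ‖y‖ ≤ 1 → red (x + y) = red x + red y) ∧
      (∀ x y, ‖x‖ ≤ 1 → ‖y‖ ≤ 1 → red (x * y) = red x * red y) ∧
      (∀ x, ‖x‖ ≤ 1 → (red x = 0 ↔ ‖x‖ < 1)) ∧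
      (∀ z : k, ∃ x, ‖x‖ ≤ 1 ∧ red x = z) := by
  have hz : ∀ x : K, ‖x‖ ≤ 1 → (residRed x = 0 ↔ ‖x‖ < 1) := by
    intro x hx
    rw [residRed_eq x hx, IsLocalRing.residue_eq_zero_iff, resid_max]
  have hadd : ∀ x y : K, ‖x‖ ≤ 1 → ‖y‖ ≤ 1 → residRed (x + y) = residRed x + residRed y := by
    intro x y hx hy
    have hxy : ‖x + y‖ ≤ 1 := (IsUltrametricDist.norm_add_le_max x y).trans (max_le hx hy)
    rw [residRed_eq x hx, residRed_eq y hy, residRed_eq _ hxy, ← map_add]
    rfl
  have hmul : ∀ x y : K, ‖x‖ ≤ 1 → ‖y‖ ≤ 1 → residRed (x * y) = residRed x * residRed y := by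
    intro x y hx hy
    have hxy : ‖x * y‖ ≤ 1 := by
      rw [norm_mul]
      exact mul_le_one₀ hx (norm_nonneg _) hy
    rw [residRed_eq x hx, residRed_eq y hy, residRed_eq _ hxy, ← map_mul]
    rfl
  have h1 : residRed (1 : K) = 1 := by
    rw [residRed_eq 1 (by simp)]
    exact map_one (IsLocalRing.residue (ResidVS K))
  refine ⟨IsLocalRing.ResidueField (ResidVS K), inferInstance, residRed, resid_algClosed, ?_, ?_,
    h1, hadd, hmul, hz, ?_⟩
  · have h3 : residRed (2 : K) = 2 := by
      have := hadd 1 1 (by simp) (by simp)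
      rw [h1, one_add_one_eq_two, one_add_one_eq_two] at this
      exact this
    rw [← h3, Ne, hz 2 h2.le, h2]
    exact lt_irrefl _
  · exact (hz 0 (by simp)).2 (by simp)
  · intro z
    obtain ⟨y, hy⟩ := IsLocalRing.residue_surjective (R := ResidVS K) z
    refine ⟨y, (resid_mem _).1 y.2, ?_⟩
    rw [residRed_eq _ ((resid_mem _).1 y.2)]
    exact hy

/-- Reduction of polynomials. Coefficients of norm `≤ 1` are reduced. `redP P` is the polynomial
with coefficients `red (P.coeff i)`; all properties are checked on coefficients. -/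
theorem exists_residue_poly {K : Type u} [NormedField K] [IsUltrametricDist K] [IsAlgClosed K]
    (h2 : ‖(2 : K)‖ = 1) :
    ∃ (k : Type u) (_ : Field k) (red : K → k) (redP : K[X] → k[X]), IsAlgClosed k ∧
      (2 : k) ≠ 0 ∧
      (∀ x y, ‖x‖ ≤ 1 → ‖y‖ ≤ 1 → red (x - y) = red x - red y) ∧
      (∀ x, ‖x‖ ≤ 1 → (red x = 0 ↔ ‖x‖ < 1)) ∧
      (∀ z : k, ∃ x, ‖x‖ ≤ 1 ∧ red x = z) ∧
      (∀ P Q : K[X], (∀ i, ‖P.coeff i‖ ≤ 1) → (∀ i, ‖Q.coeff i‖ ≤ 1) →
        redP (P - Q) = redP P - redP Q ∧ redP (P * Q) = redP P * redP Q) ∧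
      (∀ a, ‖a‖ ≤ 1 → redP (C a) = C (red a)) ∧
      (∀ n, redP (X ^ n) = X ^ n) ∧
      (∀ P : K[X], (∀ i, ‖P.coeff i‖ ≤ 1) → (redP P = 0 ↔ ∀ i, ‖P.coeff i‖ < 1)) := by
  obtain ⟨k, hk, red, hac, h2k, hr0, hr1, hadd, hmul, hz, hsurj⟩ := exists_residue (K := K) h2
  have hsub : ∀ x y : K, ‖x‖ ≤ 1 → ‖y‖ ≤ 1 → red (x - y) = red x - red y := by
    intro x y hx hy
    have hxy : ‖x - y‖ ≤ 1 := by
      rw [sub_eq_add_neg]
      exact (IsUltrametricDist.norm_add_le_max x (-y)).trans (max_le hx (by simpa using hy))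
    have := hadd (x - y) y hxy hy
    rw [sub_add_cancel] at this
    rw [this, add_sub_cancel_right]
  have hsum : ∀ (ι : Type) (s : Finset ι) (f : ι → K), (∀ i ∈ s, ‖f i‖ ≤ 1) →
      ‖∑ i ∈ s, f i‖ ≤ 1 ∧ red (∑ i ∈ s, f i) = ∑ i ∈ s, red (f i) := by
    classical
    intro ι s f
    induction s using Finset.induction_on with
    | empty => simp [hr0]
    | insert a s ha ih =>
      intro hf
      obtain ⟨h1, h3⟩ := ih fun i hi => hf i (Finset.mem_insert_of_mem hi)
      have h4 := hf a (Finset.mem_insert_self _ _)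
      rw [Finset.sum_insert ha, Finset.sum_insert ha]
      exact ⟨(IsUltrametricDist.norm_add_le_max _ _).trans (max_le h4 h1),
        by rw [hadd _ _ h4 h1, h3]⟩
  let redP : K[X] → k[X] := fun P => ∑ i ∈ Finset.range (P.natDegree + 1), monomial i (red (P.coeff i))
  have hco : ∀ (P : K[X]) (n : ℕ), (redP P).coeff n = red (P.coeff n) := by
    intro P n
    simp only [redP, finsetSum_coeff, coeff_monomial]
    rw [Finset.sum_ite_eq']
    split_ifs with h
    · rfl
    · have h' : P.natDegree < n := by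
        rw [Finset.mem_range] at h
        omega
      rw [coeff_eq_zero_of_natDegree_lt h', hr0]
  refine ⟨k, hk, red, redP, hac, h2k, hsub, hz, hsurj, ?_, ?_, ?_, ?_⟩
  · intro P Q hP hQ
    constructor
    · ext n
      rw [coeff_sub, hco, hco, hco, coeff_sub, hsub _ _ (hP n) (hQ n)]
    · ext n
      rw [hco, coeff_mul, coeff_mul, (hsum _ _ _ ?_).2]
      · refine Finset.sum_congr rfl fun ij _ => ?_
        rw [hco, hco, hmul _ _ (hP _) (hQ _)]
      · intro ij _
        rw [norm_mul]
        exact mul_le_one₀ (hP _) (norm_nonneg _) (hQ _)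
  · intro a ha
    ext n
    rw [hco, coeff_C, coeff_C]
    split_ifs
    · rfl
    · exact hr0
  · intro m
    ext n
    rw [hco, coeff_X_pow, coeff_X_pow]
    split_ifs
    · exact hr1
    · exact hr0
  · intro P hP
    constructor
    · intro h i
      rw [← hz _ (hP i), ← hco, h, coeff_zero]
    · intro h
      ext n
      rw [hco, coeff_zero, hz _ (hP n)]
      exact h n

end UE97
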