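import Mathlib
import Pool.Agent.Lib.MP_10e784_ag.EQ.Gn
import Pool.Agent.Lib.MP_10e784_ag.EQ.Dom
import Pool.Agent.Lib.MP_10e784_ag.EQ.Four
import Pool.Agent.Lib.MP_10e784_ag.EQ.Resid
import Pool.Agent.Lib.MP_10e784_ag.EQ.Dat

/-!
# Reduction on the unit disc
-/

namespace UE97

open Polynomial

universe u

variable {K : Type u} [NormedField K] [IsUltrametricDist K] [IsAlgClosed K]

omit [IsAlgClosed K] in
private theorem RedA_sub {P Q : K[X]} {M : ℝ} (hP : ∀ i, ‖P.coeff i‖ ≤ M)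
    (hQ : ∀ i, ‖Q.coeff i‖ ≤ M) (i : ℕ) : ‖(P - Q).coeff i‖ ≤ M := by
  rw [coeff_sub, sub_eq_add_neg]
  refine (IsUltrametricDist.norm_add_le_max _ _).trans (max_le (hP i) ?_)
  rw [norm_neg]
  exact hQ i

omit [IsAlgClosed K] in
private theorem RedA_mul {P Q : K[X]} (hP : ∀ i, ‖P.coeff i‖ ≤ 1)
    (hQ : ∀ i, ‖Q.coeff i‖ ≤ 1) (i : ℕ) : ‖(P * Q).coeff i‖ ≤ 1 := by
  rw [coeff_mul]
  refine IsUltrametricDist.norm_sum_le_of_forall_le_of_nonneg zero_le_one (fun x _ => ?_)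
  rw [norm_mul]
  exact mul_le_one₀ (hP _) (norm_nonneg _) (hQ _)

omit [IsUltrametricDist K] [IsAlgClosed K] in
private theorem RedA_C {P : K[X]} {c : K} (hc : ‖c‖ ≤ 1) (hP : ∀ i, ‖P.coeff i‖ ≤ 1) (i : ℕ) :
    ‖(C c * P).coeff i‖ ≤ 1 := by
  rw [coeff_C_mul, norm_mul]
  exact mul_le_one₀ hc (norm_nonneg _) (hP _)

/-- Coefficients of norm `≤ 1` version: `A`, `B` integral, not both of norm `< 1`.
Proof: take `k`, `red`, `redP` from `exists_residue_poly`. Divide `f` by its coefficient of index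
`2 m` and multiply `G` by a square root of it (`K` is algebraically closed): so `f` is integral
with `redP f = X ^ (2 m)`. Then `G` is integral (multiplied by suitable constant): otherwise choose
`γ` with `‖γ‖ = max ‖G.coeff i‖ > 1` (a coefficient of `G`), `G = γ G'`, `G'` integral, not of
norm `< 1`; then `γ⁻² B ∏ (A - eᵢ B) = f G' ^ 2` reduces to
`0 = X ^ (2 m) * (redP G') ^ 2`, impossible. So
`b * ∏ (a - red eᵢ b) * 1 ^ 2 = (X ^ m * redP G) ^ 2` with `a = redP A`, `b = redP B`, and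
`dependent_of_square` gives `(α, β) ≠ 0` in `k` with `β a = α b`; lift `α`, `β` to `K`. -/
theorem red_unit_aux (h2 : ‖(2 : K)‖ = 1) {e : Fin 3 → K} (he : ∀ i, ‖e i‖ ≤ 1)
    (hee : ∀ i j, i ≠ j → ‖e i - e j‖ = 1) {A B G f : K[X]}
    (hA : ∀ i, ‖A.coeff i‖ ≤ 1) (hB : ∀ i, ‖B.coeff i‖ ≤ 1)
    (heq : B * ((A - C (e 0) * B) * (A - C (e 1) * B) * (A - C (e 2) * B)) = f * G ^ 2)
    {m : ℕ} (hf : Dom f (2 * m) 1) :
    ∃ a b : K, ‖a‖ ≤ 1 ∧ ‖b‖ ≤ 1 ∧ (‖a‖ = 1 ∨ ‖b‖ = 1) ∧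
      ∀ i, ‖(C b * A - C a * B).coeff i‖ < 1 := by
  obtain ⟨k, _, red, redP, _, h2k, hsub, hzero, hsurj, hring, hC, hX, hP0⟩ :
      ∃ (k : Type u) (_ : Field k) (red : K → k) (redP : K[X] → k[X]), IsAlgClosed k ∧
      (2 : k) ≠ 0 ∧
      (∀ x y, ‖x‖ ≤ 1 → ‖y‖ ≤ 1 → red (x - y) = red x - red y) ∧
      (∀ x, ‖x‖ ≤ 1 → (red x = 0 ↔ ‖x‖ < 1)) ∧
      (∀ z : k, ∃ x, ‖x‖ ≤ 1 ∧ red x = z) ∧
      (∀ P Q : K[X], (∀ i, ‖P.coeff i‖ ≤ 1) → (∀ i, ‖Q.coeff i‖ ≤ 1) →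
        redP (P - Q) = redP P - redP Q ∧ redP (P * Q) = redP P * redP Q) ∧
      (∀ a, ‖a‖ ≤ 1 → redP (C a) = C (red a)) ∧
      (∀ n, redP (X ^ n) = X ^ n) ∧
      (∀ P : K[X], (∀ i, ‖P.coeff i‖ ≤ 1) → (redP P = 0 ↔ ∀ i, ‖P.coeff i‖ < 1)) :=
    exists_residue_poly h2
  -- normalise f
  have hc : f.coeff (2 * m) ≠ 0 := hf.coeff_ne_zero zero_le_one
  set c := f.coeff (2 * m) with hcdef
  obtain ⟨s, hs⟩ := IsAlgClosed.exists_pow_nat_eq c (n := 2) (by norm_num)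
  set f' : K[X] := C c⁻¹ * f with hf'
  set G' : K[X] := C s * G with hG'
  have hfd : ∀ i, i ≠ 2 * m → ‖f'.coeff i‖ < 1 := by
    intro i hi
    have h := hf i hi
    simp only [one_pow, mul_one] at h
    rw [hf', coeff_C_mul, norm_mul, norm_inv, inv_mul_lt_iff₀ (norm_pos_iff.2 hc), mul_one]
    exact h
  have hfm : f'.coeff (2 * m) = 1 := by
    rw [hf', coeff_C_mul, ← hcdef, inv_mul_cancel₀ hc]
  have hfi : ∀ i, ‖f'.coeff i‖ ≤ 1 := by
    intro i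
    by_cases hi : i = 2 * m
    · rw [hi, hfm, norm_one]
    · exact (hfd i hi).le
  have hXi : ∀ n i, ‖((X : K[X]) ^ n).coeff i‖ ≤ 1 := by
    intro n i
    rw [coeff_X_pow]
    split_ifs
    · rw [norm_one]
    · rw [norm_zero]; exact zero_le_one
  have hredf : redP f' = X ^ (2 * m) := by
    have h1 : redP (f' - X ^ (2 * m)) = 0 := by
      rw [hP0 _ (RedA_sub hfi (hXi _))]
      intro i
      rw [coeff_sub, coeff_X_pow]
      by_cases hi : i = 2 * m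
      · rw [if_pos hi, hi, hfm, sub_self, norm_zero]; exact zero_lt_one
      · rw [if_neg hi, sub_zero]; exact hfd i hi
    rw [(hring _ _ hfi (hXi _)).1, hX, sub_eq_zero] at h1
    exact h1
  have heq' : B * ((A - C (e 0) * B) * (A - C (e 1) * B) * (A - C (e 2) * B)) = f' * G' ^ 2 := by
    rw [heq, hf', hG', mul_pow, ← C_pow, hs]
    have : (C c⁻¹ : K[X]) * C c = 1 := by rw [← C_mul, inv_mul_cancel₀ hc, C_1]
    calc f * G ^ 2 = (C c⁻¹ * C c) * (f * G ^ 2) := by rw [this, one_mul]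
      _ = _ := by ring
  -- integrality of the factors
  have hEi : ∀ j i, ‖(A - C (e j) * B).coeff i‖ ≤ 1 := fun j =>
    RedA_sub hA (RedA_C (he j) hB)
  have hLi : ∀ i, ‖(B * ((A - C (e 0) * B) * (A - C (e 1) * B) * (A - C (e 2) * B))).coeff i‖ ≤ 1 :=
    RedA_mul hB (RedA_mul (RedA_mul (hEi 0) (hEi 1)) (hEi 2))
  -- integrality of G'
  have hGi : ∀ i, ‖G'.coeff i‖ ≤ 1 := by
    by_contra hcon
    push Not at hcon
    obtain ⟨i1, hi1⟩ := hcon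
    have hi1s : i1 ∈ G'.support := by
      rw [mem_support_iff]
      intro h0
      rw [h0, norm_zero] at hi1
      linarith
    obtain ⟨i0, hi0s, hmax⟩ := Finset.exists_max_image G'.support (fun i => ‖G'.coeff i‖) ⟨i1, hi1s⟩
    set γ := G'.coeff i0 with hγ
    have hγ1 : 1 < ‖γ‖ := lt_of_lt_of_le hi1 (hmax i1 hi1s)
    have hγ0 : γ ≠ 0 := by
      intro h0
      rw [h0, norm_zero] at hγ1
      linarith
    have hγp : 0 < ‖γ‖ := norm_pos_iff.2 hγ0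
    set G2 : K[X] := C γ⁻¹ * G' with hG2
    have hG2i : ∀ i, ‖G2.coeff i‖ ≤ 1 := by
      intro i
      rw [hG2, coeff_C_mul, norm_mul, norm_inv, inv_mul_le_iff₀ hγp, mul_one]
      by_cases hi : i ∈ G'.support
      · exact hmax i hi
      · rw [notMem_support_iff.1 hi, norm_zero]; exact hγp.le
    have hG20 : redP G2 ≠ 0 := by
      intro h0
      rw [hP0 _ hG2i] at h0
      have := h0 i0
      rw [hG2, coeff_C_mul, ← hγ, inv_mul_cancel₀ hγ0, norm_one] at this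
      exact lt_irrefl _ this
    have heq2 : C (γ⁻¹ ^ 2) * (B * ((A - C (e 0) * B) * (A - C (e 1) * B) * (A - C (e 2) * B))) =
        f' * (G2 * G2) := by
      rw [heq', hG2, C_pow]
      ring
    have hγi : ‖γ⁻¹ ^ 2‖ < 1 := by
      rw [norm_pow, norm_inv]
      exact pow_lt_one₀ (by positivity) (inv_lt_one_of_one_lt₀ hγ1) (by norm_num)
    have hl0 : redP (C (γ⁻¹ ^ 2) *
        (B * ((A - C (e 0) * B) * (A - C (e 1) * B) * (A - C (e 2) * B)))) = 0 := by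
      rw [hP0 _ (RedA_C hγi.le hLi)]
      intro i
      rw [coeff_C_mul, norm_mul]
      calc ‖γ⁻¹ ^ 2‖ * _ ≤ ‖γ⁻¹ ^ 2‖ * 1 := mul_le_mul_of_nonneg_left (hLi i) (norm_nonneg _)
        _ < 1 := by rw [mul_one]; exact hγi
    rw [heq2, (hring _ _ hfi (RedA_mul hG2i hG2i)).2, (hring _ _ hG2i hG2i).2, hredf] at hl0
    exact (mul_ne_zero (pow_ne_zero _ X_ne_zero) (mul_ne_zero hG20 hG20)) hl0
  -- reduce
  have hCe : ∀ j, redP (A - C (e j) * B) = redP A - C (red (e j)) * redP B := by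
    intro j
    have hCi : ∀ i, ‖(C (e j) : K[X]).coeff i‖ ≤ 1 := by
      intro i
      rw [coeff_C]
      split_ifs
      · exact he j
      · rw [norm_zero]; exact zero_le_one
    rw [(hring _ _ hA (RedA_C (he j) hB)).1, (hring _ _ hCi hB).2, hC _ (he j)]
  have hred : redP B * ((redP A - C (red (e 0)) * redP B) * (redP A - C (red (e 1)) * redP B) *
      (redP A - C (red (e 2)) * redP B)) * (1 : k[X]) ^ 2 = (X ^ m * redP G') ^ 2 := by
    have h1 := congrArg redP heq'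
    rw [pow_two G', (hring _ _ hfi (RedA_mul hGi hGi)).2, (hring _ _ hGi hGi).2, hredf,
      (hring _ _ hB (RedA_mul (RedA_mul (hEi 0) (hEi 1)) (hEi 2))).2,
      (hring _ _ (RedA_mul (hEi 0) (hEi 1)) (hEi 2)).2, (hring _ _ (hEi 0) (hEi 1)).2,
      hCe, hCe, hCe] at h1
    rw [h1]
    ring
  have hinj : Function.Injective (fun j => red (e j)) := by
    intro i j hij
    by_contra hne
    have h1 : red (e i - e j) = 0 := by
      rw [hsub _ _ (he i) (he j)]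
      exact sub_eq_zero.2 hij
    have h3 : ‖e i - e j‖ = 1 := hee i j hne
    rw [hzero _ h3.le] at h1
    linarith
  obtain ⟨a, b, hab, hdep⟩ := dependent_of_square h2k hinj one_ne_zero hred
  obtain ⟨a', ha'1, ha'⟩ := hsurj a
  obtain ⟨b', hb'1, hb'⟩ := hsurj b
  refine ⟨a', b', ha'1, hb'1, ?_, ?_⟩
  · rcases hab with h | h
    · left
      refine le_antisymm ha'1 (not_lt.1 fun hlt => h ?_)
      rw [← ha']
      exact (hzero _ ha'1).2 hlt
    · right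
      refine le_antisymm hb'1 (not_lt.1 fun hlt => h ?_)
      rw [← hb']
      exact (hzero _ hb'1).2 hlt
  · have hCi : ∀ x : K, ‖x‖ ≤ 1 → ∀ i, ‖(C x : K[X]).coeff i‖ ≤ 1 := by
      intro x hx i
      rw [coeff_C]
      split_ifs
      · exact hx
      · rw [norm_zero]; exact zero_le_one
    rw [← hP0 _ (RedA_sub (RedA_C hb'1 hA) (RedA_C ha'1 hB)),
      (hring _ _ (RedA_C hb'1 hA) (RedA_C ha'1 hB)).1, (hring _ _ (hCi _ hb'1) hA).2,
      (hring _ _ (hCi _ ha'1) hB).2, hC _ hb'1, hC _ ha'1, ha', hb', hdep, sub_self]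

/-- The same with Gauss norms: scale `A`, `B` by a common constant `s` and `G` by `s ^ 2` such
that `max (gn 0 1 A) (gn 0 1 B)` becomes `1`. (Then integrality holds, and the conclusion
`gn 0 1 (b A - a B) < 1` is the conclusion of `red_unit_aux`.) -/
theorem red_unit (h2 : ‖(2 : K)‖ = 1) {e : Fin 3 → K} (he : ∀ i, ‖e i‖ ≤ 1)
    (hee : ∀ i j, i ≠ j → ‖e i - e j‖ = 1) {A B G f : K[X]} (hAB : A ≠ 0 ∨ B ≠ 0)
    (heq : B * ((A - C (e 0) * B) * (A - C (e 1) * B) * (A - C (e 2) * B)) = f * G ^ 2)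
    {m : ℕ} (hf : Dom f (2 * m) 1) :
    ∃ a b : K, ‖a‖ ≤ 1 ∧ ‖b‖ ≤ 1 ∧ (‖a‖ = 1 ∨ ‖b‖ = 1) ∧
      gn 0 1 (C b * A - C a * B) < max (gn 0 1 A) (gn 0 1 B) := by
  have hM : 0 < max (gn 0 1 A) (gn 0 1 B) := by
    rcases hAB with h | h
    · exact lt_max_of_lt_left (gn_pos 0 zero_lt_one h)
    · exact lt_max_of_lt_right (gn_pos 0 zero_lt_one h)
  have hs : ∃ s : K, ‖s‖ = max (gn 0 1 A) (gn 0 1 B) := by
    obtain ⟨i, hi⟩ := exists_gn_eq (0 : K) 1 A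
    obtain ⟨j, hj⟩ := exists_gn_eq (0 : K) 1 B
    rw [one_pow, mul_one] at hi hj
    rcases max_choice (gn 0 1 A) (gn 0 1 B) with h | h
    · exact ⟨_, by rw [h, hi]⟩
    · exact ⟨_, by rw [h, hj]⟩
  obtain ⟨s, hs⟩ := hs
  have hs0 : s ≠ 0 := by
    intro h0
    rw [h0, norm_zero] at hs
    linarith
  have hsp : 0 < ‖s‖ := norm_pos_iff.2 hs0
  have hcoef : ∀ (P : K[X]) (i : ℕ), gn 0 1 P ≤ ‖s‖ → ‖(C s⁻¹ * P).coeff i‖ ≤ 1 := by
    intro P i hP
    rw [coeff_C_mul, norm_mul, norm_inv, inv_mul_le_iff₀ hsp, mul_one]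
    have h := coeff_le_gn (0 : K) zero_le_one P i
    rw [taylor_zero, one_pow, mul_one] at h
    exact h.trans hP
  have heq' : (C s⁻¹ * B) * ((C s⁻¹ * A - C (e 0) * (C s⁻¹ * B)) *
      (C s⁻¹ * A - C (e 1) * (C s⁻¹ * B)) * (C s⁻¹ * A - C (e 2) * (C s⁻¹ * B))) =
      f * (C s⁻¹ ^ 2 * G) ^ 2 := by
    have h1 : f * (C s⁻¹ ^ 2 * G) ^ 2 = (C s⁻¹ : K[X]) ^ 4 * (f * G ^ 2) := by ring
    rw [h1, ← heq]
    ring
  obtain ⟨a, b, ha, hb, hab, hlt⟩ := red_unit_aux h2 he hee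
    (fun i => hcoef A i (by rw [hs]; exact le_max_left _ _))
    (fun i => hcoef B i (by rw [hs]; exact le_max_right _ _)) heq' hf
  refine ⟨a, b, ha, hb, hab, ?_⟩
  rw [gn_lt_iff 0 zero_le_one, ← hs]
  intro i
  rw [taylor_zero, one_pow, mul_one]
  have h1 := hlt i
  have h3 : (C b * (C s⁻¹ * A) - C a * (C s⁻¹ * B)) = C s⁻¹ * (C b * A - C a * B) := by ring
  rw [h3, coeff_C_mul, norm_mul, norm_inv, inv_mul_lt_iff₀ hsp, mul_one] at h1
  exact h1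

end UE97
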