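import Mathlib
import Pool.Agent.Lib.MP_10e784_ag.EQ.RedA

/-!
# Reduction on every disc
-/

namespace UE97

open Polynomial

variable {K : Type*} [NormedField K] [IsUltrametricDist K] [IsAlgClosed K]

omit [IsUltrametricDist K] [IsAlgClosed K] in
private theorem redB_coeff (c r : K) (P : K[X]) (i : ℕ) :
    (P.comp (C r * X + C c)).coeff i = (taylor c P).coeff i * r ^ i := by
  have h1 : P.comp (C r * X + C c) = (taylor c P).comp (C r * X) := by
    rw [taylor_apply, comp_assoc, add_comp, X_comp, C_comp]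
  rw [h1, comp_C_mul_X_coeff]

/-- `P (r X + c) = ∑ (taylor c P).coeff i * r ^ i * X ^ i`. -/
theorem gn_scale (c r : K) (P : K[X]) :
    gn c ‖r‖ P = gn 0 1 (P.comp (C r * X + C c)) := by
  have key : ∀ M : ℝ, gn c ‖r‖ P ≤ M ↔ gn 0 1 (P.comp (C r * X + C c)) ≤ M := by
    intro M
    rw [gn_le_iff c (norm_nonneg r), gn_le_iff 0 zero_le_one]
    apply forall_congr'
    intro i
    rw [taylor_zero, redB_coeff, norm_mul, norm_pow, one_pow, mul_one]
  exact le_antisymm ((key _).2 le_rfl) ((key _).1 le_rfl)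

/-- First case: the radius belongs to the value group. Apply `red_unit` to the polynomials
`P.comp (C r * X + C c)`. -/
theorem red_disc_rational (h2 : ‖(2 : K)‖ = 1) {e : Fin 3 → K} {A B G f h : K[X]}
    (D : IsDat e A B G f h) (c : K) {r : K} (hr : r ≠ 0) {m : ℕ}
    (hf : Dom (taylor c f) (2 * m) ‖r‖) :
    ∃ a b : K, ‖a‖ ≤ 1 ∧ ‖b‖ ≤ 1 ∧ (‖a‖ = 1 ∨ ‖b‖ = 1) ∧
      gn c ‖r‖ (C b * A - C a * B) < max (gn c ‖r‖ A) (gn c ‖r‖ B) := by
  have hAB : A.comp (C r * X + C c) ≠ 0 ∨ B.comp (C r * X + C c) ≠ 0 := by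
    by_contra hcon
    push Not at hcon
    obtain ⟨x, y, hxy⟩ := D.cop
    have h3 := congrArg (fun Q : K[X] => Q.comp (C r * X + C c)) hxy
    simp only [add_comp, mul_comp, one_comp] at h3
    rw [hcon.1, hcon.2] at h3
    simp at h3
  have heq : B.comp (C r * X + C c) * ((A.comp (C r * X + C c) - C (e 0) * B.comp (C r * X + C c)) *
      (A.comp (C r * X + C c) - C (e 1) * B.comp (C r * X + C c)) *
      (A.comp (C r * X + C c) - C (e 2) * B.comp (C r * X + C c))) =
      f.comp (C r * X + C c) * G.comp (C r * X + C c) ^ 2 := by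
    have h3 := congrArg (fun Q : K[X] => Q.comp (C r * X + C c)) D.eq
    simp only [sub_comp, mul_comp, C_comp, pow_comp] at h3
    exact h3
  have hf' : Dom (f.comp (C r * X + C c)) (2 * m) 1 := by
    intro i hi
    rw [redB_coeff, redB_coeff, norm_mul, norm_mul, norm_pow, norm_pow, one_pow, one_pow, mul_one,
      mul_one]
    exact hf i hi
  obtain ⟨a, b, ha, hb, hab, hlt⟩ := red_unit h2 D.norm_e D.norm_sub hAB heq hf'
  refine ⟨a, b, ha, hb, hab, ?_⟩
  rw [gn_scale, gn_scale, gn_scale]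
  have h4 : (C b * A - C a * B).comp (C r * X + C c) =
      C b * A.comp (C r * X + C c) - C a * B.comp (C r * X + C c) := by
    rw [sub_comp, mul_comp, mul_comp, C_comp, C_comp]
  rw [h4]
  exact hlt

omit [IsUltrametricDist K] in
private theorem redB_irr {ρ : ℝ} (hρ : 0 < ρ) (hirr : ∀ r : K, ‖r‖ ≠ ρ) {x y : K} (hx : x ≠ 0)
    (hy : y ≠ 0) {i j : ℕ} (hij : i < j) : ‖x‖ * ρ ^ i ≠ ‖y‖ * ρ ^ j := by
  intro h
  obtain ⟨z, hz⟩ := IsAlgClosed.exists_pow_nat_eq (x / y) (Nat.sub_pos_of_lt hij)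
  apply hirr z
  have h1 : ‖z‖ ^ (j - i) = ρ ^ (j - i) := by
    rw [← norm_pow, hz, norm_div]
    have h2 : ρ ^ j = ρ ^ i * ρ ^ (j - i) := by rw [← pow_add]; congr 1; omega
    have h3 : 0 < ρ ^ i := pow_pos hρ i
    have h4 : 0 < ‖y‖ := norm_pos_iff.2 hy
    rw [h2] at h
    rw [div_eq_iff h4.ne']
    have h5 : ρ ^ i * ‖x‖ = ρ ^ i * (ρ ^ (j - i) * ‖y‖) := by linarith
    exact mul_left_cancel₀ h3.ne' h5
  exact (pow_left_inj₀ (norm_nonneg z) hρ.le (Nat.sub_pos_of_lt hij).ne').1 h1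

omit [IsUltrametricDist K] in
private theorem redB_irr' {ρ : ℝ} (hρ : 0 < ρ) (hirr : ∀ r : K, ‖r‖ ≠ ρ) {x y : K}
    (hx : x ≠ 0) {i j : ℕ} (h : ‖x‖ * ρ ^ i = ‖y‖ * ρ ^ j) : i = j := by
  have hy : y ≠ 0 := by
    intro h0
    rw [h0, norm_zero, zero_mul] at h
    have : 0 < ‖x‖ * ρ ^ i := mul_pos (norm_pos_iff.2 hx) (pow_pos hρ i)
    linarith
  rcases lt_trichotomy i j with h1 | h1 | h1
  · exact absurd h (redB_irr hρ hirr hx hy h1)
  · exact h1
  · exact absurd h.symm (redB_irr hρ hirr hy hx h1)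

/-- Second case: the radius is not in the value group. Then the numbers
`‖(taylor c P).coeff i‖ * ρ ^ i` (for nonzero coefficients) are pairwise different: if
`‖x‖ * ρ ^ i = ‖y‖ * ρ ^ j` with `x y ≠ 0`, `i < j`, then `ρ ^ (j - i) = ‖x / y‖` and `ρ` is the
norm of a root of `X ^ (j - i) - x / y`. So `A` and `B` have strictly dominating monomials
(if nonzero). If `gn c ρ A ≠ gn c ρ B` take `(a, b) = (1, 0)` or `(0, 1)`. If they are equal the
dominating monomials have the same index `i` (again because `ρ` is not in the value group), and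
with `b / a` the quotient of the coefficients (of norm `1`) the dominating monomials cancel. -/
theorem red_disc_irrational {A B : K[X]} (hAB : A ≠ 0 ∨ B ≠ 0) (c : K) {ρ : ℝ} (hρ : 0 < ρ)
    (hirr : ∀ r : K, ‖r‖ ≠ ρ) :
    ∃ a b : K, ‖a‖ ≤ 1 ∧ ‖b‖ ≤ 1 ∧ (‖a‖ = 1 ∨ ‖b‖ = 1) ∧
      gn c ρ (C b * A - C a * B) < max (gn c ρ A) (gn c ρ B) := by
  rcases lt_trichotomy (gn c ρ A) (gn c ρ B) with hlt | heq | hgt
  · refine ⟨0, 1, by simp, by simp, Or.inr (by simp), ?_⟩
    rw [C_1, C_0, one_mul, zero_mul, sub_zero]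
    exact lt_max_of_lt_right hlt
  · have hpos : 0 < gn c ρ A := by
      rcases hAB with h | h
      · exact gn_pos c hρ h
      · rw [heq]; exact gn_pos c hρ h
    obtain ⟨i, hi⟩ := exists_gn_eq c ρ A
    obtain ⟨j, hj⟩ := exists_gn_eq c ρ B
    have hρi : ∀ i, 0 < ρ ^ i := fun i => pow_pos hρ i
    have ha0 : (taylor c A).coeff i ≠ 0 := by
      intro h0
      rw [h0, norm_zero, zero_mul] at hi
      linarith
    have hb0 : (taylor c B).coeff j ≠ 0 := by
      intro h0
      rw [h0, norm_zero, zero_mul] at hj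
      linarith
    have hij : i = j := redB_irr' hρ hirr ha0 (hi.symm.trans (heq.trans hj))
    subst hij
    have hnorm : ‖(taylor c A).coeff i‖ = ‖(taylor c B).coeff i‖ := by
      have h3 := hi.symm.trans (heq.trans hj)
      exact mul_right_cancel₀ (hρi i).ne' h3
    have hnb : 0 < ‖(taylor c B).coeff i‖ := norm_pos_iff.2 hb0
    have hna : ‖(taylor c A).coeff i / (taylor c B).coeff i‖ = 1 := by
      rw [norm_div, hnorm, div_self hnb.ne']
    refine ⟨(taylor c A).coeff i / (taylor c B).coeff i, 1, hna.le, by simp, Or.inr (by simp), ?_⟩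
    rw [← heq, max_self, gn_lt_iff c hρ.le]
    intro k
    have hcoef : (taylor c (C 1 * A - C ((taylor c A).coeff i / (taylor c B).coeff i) * B)).coeff k =
        (taylor c A).coeff k - (taylor c A).coeff i / (taylor c B).coeff i *
          (taylor c B).coeff k := by
      rw [map_sub, C_1, one_mul, taylor_mul, taylor_C, coeff_sub, coeff_C_mul]
    rw [hcoef]
    by_cases hk : k = i
    · rw [hk, div_mul_cancel₀ _ hb0, sub_self, norm_zero, zero_mul]
      exact hpos
    · have b1 : ‖(taylor c A).coeff k‖ * ρ ^ k < gn c ρ A := by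
        refine lt_of_le_of_ne (coeff_le_gn c hρ.le A k) ?_
        intro h3
        rw [hi] at h3
        exact hk (redB_irr' hρ hirr ha0 h3.symm).symm
      have b2 : ‖(taylor c B).coeff k‖ * ρ ^ k < gn c ρ A := by
        rw [heq]
        refine lt_of_le_of_ne (coeff_le_gn c hρ.le B k) ?_
        intro h3
        rw [hj] at h3
        exact hk (redB_irr' hρ hirr hb0 h3.symm).symm
      have b3 : ‖(taylor c A).coeff k - (taylor c A).coeff i / (taylor c B).coeff i *
          (taylor c B).coeff k‖ ≤ max ‖(taylor c A).coeff k‖ ‖(taylor c B).coeff k‖ := by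
        rw [sub_eq_add_neg]
        refine (IsUltrametricDist.norm_add_le_max _ _).trans ?_
        rw [norm_neg, norm_mul, hna, one_mul]
      rcases le_total ‖(taylor c A).coeff k‖ ‖(taylor c B).coeff k‖ with h4 | h4
      · rw [max_eq_right h4] at b3
        exact (mul_le_mul_of_nonneg_right b3 (hρi k).le).trans_lt b2
      · rw [max_eq_left h4] at b3
        exact (mul_le_mul_of_nonneg_right b3 (hρi k).le).trans_lt b1
  · refine ⟨1, 0, by simp, by simp, Or.inl (by simp), ?_⟩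
    rw [C_1, C_0, one_mul, zero_mul, zero_sub, gn_neg c hρ.le]
    exact lt_max_of_lt_left hgt

theorem red_disc (h2 : ‖(2 : K)‖ = 1) {e : Fin 3 → K} {A B G f h : K[X]}
    (D : IsDat e A B G f h) (c : K) {ρ : ℝ} (hρ : 0 < ρ) {m : ℕ}
    (hf : Dom (taylor c f) (2 * m) ρ) :
    ∃ a b : K, ‖a‖ ≤ 1 ∧ ‖b‖ ≤ 1 ∧ (‖a‖ = 1 ∨ ‖b‖ = 1) ∧
      gn c ρ (C b * A - C a * B) < max (gn c ρ A) (gn c ρ B) := by
  by_cases hirr : ∃ r : K, ‖r‖ = ρ
  · obtain ⟨r, rfl⟩ := hirr
    exact red_disc_rational h2 D c (norm_pos_iff.mp hρ) hf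
  · push Not at hirr
    refine red_disc_irrational ?_ c hρ hirr
    by_contra hcon
    push Not at hcon
    obtain ⟨x, y, hxy⟩ := D.cop
    rw [hcon.1, hcon.2] at hxy
    simp at hxy

end UE97
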