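import Mathlib
import Pool.Agent.Lib.MP_10e784_ag.EQ.RedB

/-!
# The reduced map is constant on annuli
-/

namespace UE97

open Polynomial

variable {K : Type*} [NormedField K] [IsUltrametricDist K] [IsAlgClosed K]

/-- If `(a, b)` and `(a', b')` are unimodular and both work at one radius `ρ₀` and `(a, b)` works
at a radius `ρ` then `(a', b')` works at `ρ`.
Proof: at `ρ₀`: `(a b' - a' b) B = b (b' A - a' B) - b' (b A - a B)` and
`(a b' - a' b) A = a (b' A - a' B) - a' (b A - a B)`, so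
`‖a b' - a' b‖ * max (gn A) (gn B) < max (gn A) (gn B)` at `ρ₀` and `‖a b' - a' b‖ < 1`.
At `ρ`: if `‖b‖ = 1` then `b' A - a' B = (b' / b) (b A - a B) + ((a b' - a' b) / b) B`, and if
`‖a‖ = 1` then `b' A - a' B = (a' / a) (b A - a B) + ((a b' - a' b) / a) A`. -/
theorem pair_transfer {A B : K[X]} {c c₀ : K} {a b a' b' : K}
    (h1 : ‖a‖ ≤ 1) (h2 : ‖b‖ ≤ 1) (h3 : ‖a‖ = 1 ∨ ‖b‖ = 1)
    (h1' : ‖a'‖ ≤ 1) (h2' : ‖b'‖ ≤ 1) {ρ₀ ρ : ℝ} (hρ₀ : 0 < ρ₀) (hρ : 0 < ρ)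
    (k1 : gn c₀ ρ₀ (C b * A - C a * B) < max (gn c₀ ρ₀ A) (gn c₀ ρ₀ B))
    (k1' : gn c₀ ρ₀ (C b' * A - C a' * B) < max (gn c₀ ρ₀ A) (gn c₀ ρ₀ B))
    (k2 : gn c ρ (C b * A - C a * B) < max (gn c ρ A) (gn c ρ B)) :
    gn c ρ (C b' * A - C a' * B) < max (gn c ρ A) (gn c ρ B) := by
  set w : K := a * b' - a' * b with hw
  -- multiplication by an integral constant keeps the strict inequality
  have hmul : ∀ (c : K) (ρ : ℝ), 0 < ρ → ∀ (x : K) (P : K[X]) (N : ℝ), ‖x‖ ≤ 1 →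
      gn c ρ P < N → gn c ρ (C x * P) < N := by
    intro c ρ hρ x P N hx hP
    rw [gn_C_mul c hρ.le]
    calc ‖x‖ * gn c ρ P ≤ 1 * gn c ρ P :=
          mul_le_mul_of_nonneg_right hx (gn_nonneg c hρ.le P)
      _ = gn c ρ P := one_mul _
      _ < N := hP
  have hw1 : ‖w‖ < 1 := by
    set N := max (gn c₀ ρ₀ A) (gn c₀ ρ₀ B) with hN
    have hN0 : 0 < N := lt_of_le_of_lt (gn_nonneg c₀ hρ₀.le _) k1
    have eB : C w * B = C b * (C b' * A - C a' * B) - C b' * (C b * A - C a * B) := by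
      rw [hw, C_sub, C_mul, C_mul]; ring
    have eA : C w * A = C a * (C b' * A - C a' * B) - C a' * (C b * A - C a * B) := by
      rw [hw, C_sub, C_mul, C_mul]; ring
    have gB : ‖w‖ * gn c₀ ρ₀ B < N := by
      rw [← gn_C_mul c₀ hρ₀.le, eB]
      exact lt_of_le_of_lt (gn_sub_le c₀ hρ₀.le _ _)
        (max_lt (hmul c₀ ρ₀ hρ₀ b _ N h2 k1') (hmul c₀ ρ₀ hρ₀ b' _ N h2' k1))
    have gA : ‖w‖ * gn c₀ ρ₀ A < N := by
      rw [← gn_C_mul c₀ hρ₀.le, eA]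
      exact lt_of_le_of_lt (gn_sub_le c₀ hρ₀.le _ _)
        (max_lt (hmul c₀ ρ₀ hρ₀ a _ N h1 k1') (hmul c₀ ρ₀ hρ₀ a' _ N h1' k1))
    have hwN : ‖w‖ * N < N := by
      rcases le_total (gn c₀ ρ₀ A) (gn c₀ ρ₀ B) with h | h
      · rw [hN, max_eq_right h]
        rw [hN, max_eq_right h] at gB
        exact gB
      · rw [hN, max_eq_left h]
        rw [hN, max_eq_left h] at gA
        exact gA
    by_contra hcon
    rw [not_lt] at hcon
    nlinarith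
  set N := max (gn c ρ A) (gn c ρ B) with hN
  have hN0 : 0 < N := lt_of_le_of_lt (gn_nonneg c hρ.le _) k2
  have hlast : ∀ (x : K) (P : K[X]), ‖x‖ < 1 → gn c ρ P ≤ N → gn c ρ (C x * P) < N := by
    intro x P hx hP
    rw [gn_C_mul c hρ.le]
    calc ‖x‖ * gn c ρ P ≤ ‖x‖ * N := mul_le_mul_of_nonneg_left hP (norm_nonneg x)
      _ < 1 * N := mul_lt_mul_of_pos_right hx hN0
      _ = N := one_mul N
  rcases h3 with h | h
  · have ha0 : a ≠ 0 := by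
      rw [← norm_ne_zero_iff, h]; exact one_ne_zero
    have e1 : C b' * A - C a' * B = C (a' / a) * (C b * A - C a * B) + C (w / a) * A := by
      have hc1 : C b' = C (a' / a) * C b + C (w / a) := by
        rw [← C_mul, ← C_add]
        congr 1
        rw [hw]
        field_simp
        ring
      have hc2 : C a' = C (a' / a) * C a := by
        rw [← C_mul]
        congr 1
        field_simp
      rw [hc1]
      linear_combination -B * hc2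
    rw [e1]
    refine lt_of_le_of_lt (gn_add_le c hρ.le _ _) (max_lt ?_ ?_)
    · exact hmul c ρ hρ _ _ N (by rw [norm_div, h, div_one]; exact h1') k2
    · exact hlast _ _ (by rw [norm_div, h, div_one]; exact hw1) (le_max_left _ _)
  · have hb0 : b ≠ 0 := by
      rw [← norm_ne_zero_iff, h]; exact one_ne_zero
    have e1 : C b' * A - C a' * B = C (b' / b) * (C b * A - C a * B) + C (w / b) * B := by
      have hc1 : C a' = C (b' / b) * C a - C (w / b) := by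
        rw [← C_mul, ← C_sub]
        congr 1
        rw [hw]
        field_simp
        ring
      have hc2 : C b' = C (b' / b) * C b := by
        rw [← C_mul]
        congr 1
        field_simp
      rw [hc1]
      linear_combination A * hc2
    rw [e1]
    refine lt_of_le_of_lt (gn_add_le c hρ.le _ _) (max_lt ?_ ?_)
    · exact hmul c ρ hρ _ _ N (by rw [norm_div, h, div_one]; exact h2') k2
    · exact hlast _ _ (by rw [norm_div, h, div_one]; exact hw1) (le_max_right _ _)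

/-- If on a preconnected set `S` of positive radii, at each radius some unimodular pair works,
then a pair which works at one radius of `S` works at all.
Proof: the set of radii of `S` where `(a, b)` works is open in `S` (`gn_continuousOn`), and its
complement in `S` is the union of the corresponding sets for the other pairs
(`pair_transfer`), also open in `S`. -/
theorem pair_const {A B : K[X]} {c : K} {S : Set ℝ} (hS : IsPreconnected S)
    (hpos : ∀ ρ ∈ S, 0 < ρ)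
    (hall : ∀ ρ ∈ S, ∃ a b : K, ‖a‖ ≤ 1 ∧ ‖b‖ ≤ 1 ∧ (‖a‖ = 1 ∨ ‖b‖ = 1) ∧
      gn c ρ (C b * A - C a * B) < max (gn c ρ A) (gn c ρ B))
    {a b : K} (h1 : ‖a‖ ≤ 1) (h2 : ‖b‖ ≤ 1) (h3 : ‖a‖ = 1 ∨ ‖b‖ = 1) {ρ₀ : ℝ} (hρ₀ : ρ₀ ∈ S)
    (h0 : gn c ρ₀ (C b * A - C a * B) < max (gn c ρ₀ A) (gn c ρ₀ B)) :
    ∀ ρ ∈ S, gn c ρ (C b * A - C a * B) < max (gn c ρ A) (gn c ρ B) := by
  have hSs : S ⊆ Set.Ici 0 := fun ρ hρ => (hpos ρ hρ).le
  have hcont : ∀ P : K[X], Continuous (fun ρ : S => gn c (ρ : ℝ) P) := by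
    intro P
    exact continuousOn_iff_continuous_restrict.1 ((gn_continuousOn c P).mono hSs)
  have hopen : ∀ a b : K, IsOpen {ρ : S | gn c (ρ : ℝ) (C b * A - C a * B) <
      max (gn c (ρ : ℝ) A) (gn c (ρ : ℝ) B)} := by
    intro a b
    exact isOpen_lt (hcont _) ((hcont A).max (hcont B))
  have hpre : PreconnectedSpace S := isPreconnected_iff_preconnectedSpace.1 hS
  set U : Set S := {ρ : S | gn c (ρ : ℝ) (C b * A - C a * B) <
      max (gn c (ρ : ℝ) A) (gn c (ρ : ℝ) B)} with hU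
  have hclopen : IsClopen U := by
    refine ⟨⟨?_⟩, hopen a b⟩
    rw [isOpen_iff_forall_mem_open]
    intro ρ hρ
    obtain ⟨a', b', h1', h2', h3', h4'⟩ := hall ρ.1 ρ.2
    refine ⟨{ρ : S | gn c (ρ : ℝ) (C b' * A - C a' * B) <
      max (gn c (ρ : ℝ) A) (gn c (ρ : ℝ) B)}, ?_, hopen a' b', h4'⟩
    intro σ hσ hσU
    exact hρ (pair_transfer h1' h2' h3' h1 h2 (hpos σ.1 σ.2) (hpos ρ.1 ρ.2) hσ hσU h4')
  have huniv : U = Set.univ := hclopen.eq_univ ⟨⟨ρ₀, hρ₀⟩, h0⟩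
  intro ρ hρ
  have : (⟨ρ, hρ⟩ : S) ∈ U := by rw [huniv]; exact Set.mem_univ _
  exact this

/-- **The reduced map is constant on annuli.**
First part: `red_disc` and `pair_const` with `c = 0`, `S = Set.Icc u v`.
Second part: let `ρ₀ = ‖τ‖`. The inequality holds at centre `0` and radius `ρ₀`, hence at centre
`τ` and radius `ρ₀` (`gn_center`). For `0 < ρ < ρ₀` the constant term of `taylor τ f` strictly
dominates (`Dom.taylor`), so `red_disc` applies with `m = 0`; with `S = Set.Ioc 0 ρ₀` the lemma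
`pair_const` gives the inequality at centre `τ` for all radii `0 < ρ ≤ ρ₀`. Let
`M = max ‖A.eval τ‖ ‖B.eval τ‖ > 0` (coprimality). For small `ρ` one has
`gn τ ρ A ≤ M`, `gn τ ρ B ≤ M` by `gn_small`, and
`‖(C b * A - C a * B).eval τ‖ ≤ gn τ ρ (C b * A - C a * B) < M`. -/
theorem const_on_annulus (h2 : ‖(2 : K)‖ = 1) {e : Fin 3 → K} {A B G f h : K[X]}
    (D : IsDat e A B G f h) {u v : ℝ} (hu : 0 < u) (huv : u ≤ v) {m : ℕ}
    (hf : ∀ ρ, u ≤ ρ → ρ ≤ v → Dom f (2 * m) ρ) :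
    ∃ a b : K, ‖a‖ ≤ 1 ∧ ‖b‖ ≤ 1 ∧ (‖a‖ = 1 ∨ ‖b‖ = 1) ∧
      (∀ ρ, u ≤ ρ → ρ ≤ v → gn 0 ρ (C b * A - C a * B) < max (gn 0 ρ A) (gn 0 ρ B)) ∧
      (∀ τ : K, u ≤ ‖τ‖ → ‖τ‖ ≤ v →
        ‖b * A.eval τ - a * B.eval τ‖ < max ‖A.eval τ‖ ‖B.eval τ‖) := by
  have hred : ∀ ρ ∈ Set.Icc u v, ∃ a b : K, ‖a‖ ≤ 1 ∧ ‖b‖ ≤ 1 ∧ (‖a‖ = 1 ∨ ‖b‖ = 1) ∧
      gn 0 ρ (C b * A - C a * B) < max (gn 0 ρ A) (gn 0 ρ B) := by
    intro ρ hρ
    apply red_disc h2 D 0 (lt_of_lt_of_le hu hρ.1) (m := m)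
    rw [taylor_zero]
    exact hf ρ hρ.1 hρ.2
  obtain ⟨a, b, ha, hb, hab, hw⟩ := hred u ⟨le_refl u, huv⟩
  have hall := pair_const (isPreconnected_Icc (a := u) (b := v))
    (fun ρ hρ => lt_of_lt_of_le hu hρ.1) hred ha hb hab ⟨le_refl u, huv⟩ hw
  refine ⟨a, b, ha, hb, hab, fun ρ h1 h3 => hall ρ ⟨h1, h3⟩, ?_⟩
  intro τ hτ1 hτ2
  have hτ0 : 0 < ‖τ‖ := lt_of_lt_of_le hu hτ1
  have hτne : τ ≠ 0 := norm_pos_iff.1 hτ0
  have hcen : ∀ P : K[X], gn 0 ‖τ‖ P = gn τ ‖τ‖ P := fun P =>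
    gn_center (by rw [zero_sub, norm_neg]) P
  have h0 : gn τ ‖τ‖ (C b * A - C a * B) < max (gn τ ‖τ‖ A) (gn τ ‖τ‖ B) := by
    rw [← hcen, ← hcen, ← hcen]
    exact hall ‖τ‖ ⟨hτ1, hτ2⟩
  have hred' : ∀ ρ ∈ Set.Ioc 0 ‖τ‖, ∃ a b : K, ‖a‖ ≤ 1 ∧ ‖b‖ ≤ 1 ∧ (‖a‖ = 1 ∨ ‖b‖ = 1) ∧
      gn τ ρ (C b * A - C a * B) < max (gn τ ρ A) (gn τ ρ B) := by
    intro ρ hρ
    rcases lt_or_eq_of_le hρ.2 with hlt | heq
    · apply red_disc h2 D τ hρ.1 (m := 0)
      rw [mul_zero]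
      exact Dom.taylor hτne (hf ‖τ‖ hτ1 hτ2) hρ.1 hlt
    · rw [heq]
      exact ⟨a, b, ha, hb, hab, h0⟩
  have hall' := pair_const (isPreconnected_Ioc (a := 0) (b := ‖τ‖))
    (fun ρ hρ => hρ.1) hred' ha hb hab ⟨hτ0, le_refl _⟩ h0
  have hM : 0 < max ‖A.eval τ‖ ‖B.eval τ‖ := by
    rcases D.not_both_zero τ with h | h
    · exact lt_of_lt_of_le (norm_pos_iff.2 h) (le_max_left _ _)
    · exact lt_of_lt_of_le (norm_pos_iff.2 h) (le_max_right _ _)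
  obtain ⟨ρ1, hρ1, hA⟩ := gn_small τ A hM (le_max_left _ _)
  obtain ⟨ρ2, hρ2, hB⟩ := gn_small τ B hM (le_max_right _ _)
  set ρ := min (min ρ1 ρ2) ‖τ‖ with hρ
  have hρ0 : 0 < ρ := lt_min (lt_min hρ1 hρ2) hτ0
  have hle1 : ρ ≤ ρ1 := (min_le_left _ _).trans (min_le_left _ _)
  have hle2 : ρ ≤ ρ2 := (min_le_left _ _).trans (min_le_right _ _)
  have hev : b * A.eval τ - a * B.eval τ = (C b * A - C a * B).eval τ := by
    simp
  rw [hev]
  calc ‖(C b * A - C a * B).eval τ‖ ≤ gn τ ρ (C b * A - C a * B) :=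
        norm_eval_le_gn τ τ (by rw [sub_self, norm_zero]; exact hρ0.le) _
    _ < max (gn τ ρ A) (gn τ ρ B) := hall' ρ ⟨hρ0, min_le_right _ _⟩
    _ ≤ max ‖A.eval τ‖ ‖B.eval τ‖ := max_le (hA ρ hρ0.le hle1) (hB ρ hρ0.le hle2)

end UE97
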