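import Mathlib

/-!
# Facts on the algebraic closure of the `p`-adic numbers
-/

namespace UE97

variable (p : ℕ) [Fact p.Prime]

/-- The norm of a rational number in `PadicAlgCl p` (`PadicAlgCl.norm_extends`,
`Padic.eq_padicNorm`). -/
theorem norm_ratCast (q : ℚ) : ‖(q : PadicAlgCl p)‖ = (padicNorm p q : ℝ) := by
  rw [← map_ratCast (algebraMap ℚ_[p] (PadicAlgCl p)) q, PadicAlgCl.norm_extends]
  exact Padic.eq_padicNorm q

theorem norm_two (hp : p ≠ 2) : ‖(2 : PadicAlgCl p)‖ = 1 := by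
  have h := norm_ratCast p 2
  have h2 : padicNorm p ((2 : ℕ) : ℚ) = 1 := by
    rw [padicNorm.nat_eq_one_iff]
    intro hd
    exact hp ((Nat.prime_dvd_prime_iff_eq (Fact.out : p.Prime) Nat.prime_two).mp hd)
  rw [show ((2 : ℚ)) = ((2 : ℕ) : ℚ) by norm_num, h2] at h
  simpa using h

/-- `‖n‖ = p ^ (-v)` with `p ^ v ∣ n`, so `p ^ v ≤ |n|`. -/
theorem norm_int_mul_abs (n : ℤ) (hn : n ≠ 0) :
    1 ≤ ‖(n : PadicAlgCl p)‖ * |(n : ℝ)| := by
  have hp : p.Prime := Fact.out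
  have h := norm_ratCast p (n : ℚ)
  have hn' : (n : ℚ) ≠ 0 := by exact_mod_cast hn
  rw [padicNorm.eq_zpow_of_nonzero hn', padicValRat.of_int] at h
  have hc : ((n : ℚ) : PadicAlgCl p) = (n : PadicAlgCl p) := by push_cast; rfl
  rw [hc] at h
  rw [h]
  push_cast
  have hp0 : (0 : ℝ) < p := by exact_mod_cast hp.pos
  rw [zpow_neg, zpow_natCast, ← div_eq_inv_mul, le_div_iff₀ (pow_pos hp0 _), one_mul]
  have hd : (p : ℤ) ^ padicValInt p n ∣ n := padicValInt_dvd n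
  have hle : ((p : ℤ) ^ padicValInt p n) ≤ |n| := by
    refine Int.le_of_dvd (abs_pos.mpr hn) ((dvd_abs _ _).mpr hd)
  exact_mod_cast hle

theorem norm_p_inv_pow (Δ : ℕ) : ‖((p : PadicAlgCl p)⁻¹) ^ Δ‖ = (p : ℝ) ^ Δ := by
  have h : ‖(p : PadicAlgCl p)‖ = (p : ℝ)⁻¹ := by
    rw [← map_natCast (algebraMap ℚ_[p] (PadicAlgCl p)) p, PadicAlgCl.norm_extends]
    exact Padic.norm_p
  rw [norm_pow, norm_inv, h, inv_inv]

end UE97
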