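import Mathlib
import Pool.Agent.Lib.MP_10e784_ag.EQ.CaseInf
import Pool.Agent.Lib.MP_10e784_ag.EQ.CaseGen
import Pool.Agent.Lib.MP_10e784_ag.EQ.Ann

/-!
# Three points of one fibre in one annulus
-/

namespace UE97

open Polynomial

variable {K : Type*} [NormedField K] [IsUltrametricDist K] [IsAlgClosed K]

/-- Case infinity for three points: `w (τ i) ^ 2 = β / α` (`α ≠ 0`, `A (τ i) ≠ 0`), so two of the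
three values `w (τ i)` are equal; apply `annulus_lemma`. -/
theorem three_inf (h2 : ‖(2 : K)‖ = 1) (hn : ∀ n : ℤ, n ≠ 0 → 1 ≤ ‖(n : K)‖ * |(n : ℝ)|)
    {e : Fin 3 → K} {A B G f h : K[X]} (D : IsDat e A B G f h) {r₁ r₂ : K} (hr1 : r₁ ≠ 0)
    (h12 : ‖r₁‖ ≤ ‖r₂‖) {m n : ℕ}
    (hf : ∀ ρ, ‖r₁‖ ≤ ρ → ρ ≤ ‖r₂‖ → Dom f (2 * m) ρ)
    (hh : ∀ ρ, ‖r₁‖ ≤ ρ → ρ ≤ ‖r₂‖ → Dom h n ρ)
    (hlt : ∀ ρ, ‖r₁‖ ≤ ρ → ρ ≤ ‖r₂‖ → gn 0 ρ B < gn 0 ρ A)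
    (hlt' : ∀ τ : K, ‖r₁‖ ≤ ‖τ‖ → ‖τ‖ ≤ ‖r₂‖ → ‖B.eval τ‖ < ‖A.eval τ‖)
    {b : ℝ} (hb : |(1 + n - m : ℝ)| + 2 ≤ b) (τ : Fin 3 → K)
    (hτ : ∀ i, ‖r₁‖ * b ≤ ‖τ i‖ ∧ ‖τ i‖ * b ≤ ‖r₂‖) {α β : K} (hαβ : α ≠ 0 ∨ β ≠ 0)
    (hfib : ∀ i, β * A.eval (τ i) = α * B.eval (τ i)) :
    ∃ i j, i ≠ j ∧ ‖τ i‖ = ‖τ j‖ := by
  have hr : 0 < ‖r₁‖ := norm_pos_iff.2 hr1
  obtain ⟨w, w1, κ, hκ, hCl, hw, hM⟩ := case_inf h2 D hr h12 hf hh hlt hlt'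
  have hb1 : 1 ≤ b := by
    have := abs_nonneg (1 + n - m : ℝ)
    linarith
  have hb2 : |((1 + (n : ℤ) - m : ℤ) : ℝ)| + 2 ≤ b := by
    push_cast
    exact hb
  have hlow : ∀ i, ‖r₁‖ ≤ ‖τ i‖ := fun i =>
    (le_mul_of_one_le_right hr.le hb1).trans (hτ i).1
  have hupp : ∀ i, ‖τ i‖ ≤ ‖r₂‖ := fun i =>
    (le_mul_of_one_le_right (norm_nonneg _) hb1).trans (hτ i).2
  have hA : ∀ i, A.eval (τ i) ≠ 0 := by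
    intro i h0
    have := hlt' (τ i) (hlow i) (hupp i)
    rw [h0, norm_zero] at this
    exact absurd this (not_lt.2 (norm_nonneg _))
  have hβ : ∀ i, β = α * w (τ i) ^ 2 := by
    intro i
    have h1 := hw (τ i) (hlow i) (hupp i)
    have h3 := hfib i
    rw [← h1, ← mul_assoc] at h3
    exact mul_right_cancel₀ (hA i) h3
  have hα : α ≠ 0 := by
    rintro rfl
    have := hβ 0
    rw [zero_mul] at this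
    simp [this] at hαβ
  have hsq : ∀ i j, w (τ i) = w (τ j) ∨ w (τ i) = -w (τ j) := by
    intro i j
    apply sq_eq_sq_iff_eq_or_eq_neg.1
    have h3 : α * w (τ i) ^ 2 = α * w (τ j) ^ 2 := by rw [← hβ i, ← hβ j]
    exact mul_left_cancel₀ hα h3
  have hfin : ∀ i j, w (τ i) = w (τ j) → ‖τ i‖ = ‖τ j‖ := fun i j hij =>
    annulus_lemma h2 hn hr1 h12 hκ hCl hM hb2 (hτ i).1 (hτ i).2 (hτ j).1 (hτ j).2 hij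
  rcases hsq 0 1 with h01 | h01
  · exact ⟨0, 1, by decide, hfin 0 1 h01⟩
  · rcases hsq 0 2 with h02 | h02
    · exact ⟨0, 2, by decide, hfin 0 2 h02⟩
    · refine ⟨1, 2, by decide, hfin 1 2 ?_⟩
      rw [h01] at h02
      exact neg_injective h02

/-- Generic case: `w (τ i) = α / β`. -/
theorem three_gen (h2 : ‖(2 : K)‖ = 1) (hn : ∀ n : ℤ, n ≠ 0 → 1 ≤ ‖(n : K)‖ * |(n : ℝ)|)
    {e : Fin 3 → K} {A B G f h : K[X]} (D : IsDat e A B G f h) {r₁ r₂ : K} (hr1 : r₁ ≠ 0)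
    (h12 : ‖r₁‖ ≤ ‖r₂‖) {m n : ℕ}
    (hf : ∀ ρ, ‖r₁‖ ≤ ρ → ρ ≤ ‖r₂‖ → Dom f (2 * m) ρ)
    (hh : ∀ ρ, ‖r₁‖ ≤ ρ → ρ ≤ ‖r₂‖ → Dom h n ρ)
    {a : K} (ha : ‖a‖ ≤ 1) (hae : ∀ i, ‖a - e i‖ = 1)
    (hlt : ∀ ρ, ‖r₁‖ ≤ ρ → ρ ≤ ‖r₂‖ → gn 0 ρ (A - C a * B) < gn 0 ρ B)
    (hlt' : ∀ τ : K, ‖r₁‖ ≤ ‖τ‖ → ‖τ‖ ≤ ‖r₂‖ → ‖A.eval τ - a * B.eval τ‖ < ‖B.eval τ‖)
    {b : ℝ} (hb : |(1 + n - m : ℝ)| + 2 ≤ b) (τ : Fin 3 → K)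
    (hτ : ∀ i, ‖r₁‖ * b ≤ ‖τ i‖ ∧ ‖τ i‖ * b ≤ ‖r₂‖) {α β : K} (hαβ : α ≠ 0 ∨ β ≠ 0)
    (hfib : ∀ i, β * A.eval (τ i) = α * B.eval (τ i)) :
    ∃ i j, i ≠ j ∧ ‖τ i‖ = ‖τ j‖ := by
  have hr : 0 < ‖r₁‖ := norm_pos_iff.2 hr1
  obtain ⟨w, w1, κ, hκ, hCl, hw, hM⟩ := case_gen D hr h12 hf hh ha hae hlt hlt'
  have hb1 : 1 ≤ b := by
    have := abs_nonneg (1 + n - m : ℝ)
    linarith
  have hb2 : |((1 + (n : ℤ) - m : ℤ) : ℝ)| + 2 ≤ b := by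
    push_cast
    exact hb
  have hlow : ∀ i, ‖r₁‖ ≤ ‖τ i‖ := fun i =>
    (le_mul_of_one_le_right hr.le hb1).trans (hτ i).1
  have hupp : ∀ i, ‖τ i‖ ≤ ‖r₂‖ := fun i =>
    (le_mul_of_one_le_right (norm_nonneg _) hb1).trans (hτ i).2
  have hα : ∀ i, β * w (τ i) = α := by
    intro i
    obtain ⟨h0, h1⟩ := hw (τ i) (hlow i) (hupp i)
    have h3 := hfib i
    rw [← h1, ← mul_assoc] at h3
    exact mul_right_cancel₀ h0 h3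
  have hβ : β ≠ 0 := by
    rintro rfl
    have := hα 0
    rw [zero_mul] at this
    simp [← this] at hαβ
  refine ⟨0, 1, by decide, ?_⟩
  have hij : w (τ 0) = w (τ 1) := mul_left_cancel₀ hβ ((hα 0).trans (hα 1).symm)
  exact annulus_lemma h2 hn hr1 h12 hκ hCl hM hb2 (hτ 0).1 (hτ 0).2 (hτ 1).1 (hτ 1).2 hij

end UE97
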