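import Mathlib
import Pool.Agent.Lib.MP_10e784_ag.EQ.Const
import Pool.Agent.Lib.MP_10e784_ag.EQ.ThreeA

/-!
# Three points of one fibre in one annulus, all cases
-/

namespace UE97

open Polynomial

variable {K : Type*} [NormedField K] [IsUltrametricDist K] [IsAlgClosed K]

/-- properties shared by Gauss norms and absolute values of values -/
private structure ThreeN (N : K[X] → ℝ) : Prop where
  nonneg : ∀ P, 0 ≤ N P
  smul : ∀ (a : K) (P : K[X]), N (C a * P) = ‖a‖ * N P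
  add : ∀ P Q, N (P + Q) ≤ max (N P) (N Q)

omit [IsAlgClosed K] in
private theorem threeN_gn {ρ : ℝ} (hρ : 0 ≤ ρ) : ThreeN (fun P : K[X] => gn 0 ρ P) where
  nonneg P := gn_nonneg 0 hρ P
  smul a P := gn_C_mul 0 hρ a P
  add P Q := gn_add_le 0 hρ P Q

omit [IsAlgClosed K] in
private theorem threeN_eval (τ : K) : ThreeN (fun P : K[X] => ‖P.eval τ‖) where
  nonneg P := norm_nonneg _
  smul a P := by simp only [eval_mul, eval_C, norm_mul]
  add P Q := by
    simp only [eval_add]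
    exact IsUltrametricDist.norm_add_le_max _ _

omit [IsUltrametricDist K] [IsAlgClosed K] in
private theorem three_neg {N : K[X] → ℝ} (hN : ThreeN N) (P : K[X]) : N (-P) = N P := by
  have h := hN.smul (-1) P
  rw [norm_neg, norm_one, one_mul] at h
  rw [← h]
  congr 1
  simp

omit [IsUltrametricDist K] [IsAlgClosed K] in
private theorem three_l1 {N : K[X] → ℝ} (hN : ThreeN N) {A B : K[X]} {a b : K} (hb : ‖b‖ < 1)
    (ha : ‖a‖ = 1) (h : N (C b * A - C a * B) < max (N A) (N B)) : N B < N A := by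
  by_contra hcon
  push Not at hcon
  rw [max_eq_right hcon] at h
  have h0 := hN.nonneg (C b * A - C a * B)
  have hB : 0 < N B := lt_of_le_of_lt h0 h
  have h1 : N (C b * A) < N B := by
    rw [hN.smul]
    calc ‖b‖ * N A ≤ ‖b‖ * N B := mul_le_mul_of_nonneg_left hcon (norm_nonneg _)
      _ < 1 * N B := mul_lt_mul_of_pos_right hb hB
      _ = N B := one_mul _
  have h2 : N B = N (C b * A + -(C b * A - C a * B)) := by
    have : C b * A + -(C b * A - C a * B) = C a * B := by ring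
    rw [this, hN.smul, ha, one_mul]
  have h3 := hN.add (C b * A) (-(C b * A - C a * B))
  rw [← h2, three_neg hN] at h3
  exact absurd h3 (not_le.2 (max_lt h1 h))

omit [IsUltrametricDist K] [IsAlgClosed K] in
private theorem three_l2 {N : K[X] → ℝ} (hN : ThreeN N) {A B : K[X]} {a b : K} (hb : ‖b‖ = 1)
    (ha : ‖a‖ ≤ 1) (h : N (C b * A - C a * B) < max (N A) (N B)) :
    N (A - C (a / b) * B) < N B := by
  have hb0 : b ≠ 0 := by
    rintro rfl
    rw [norm_zero] at hb
    exact zero_ne_one hb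
  have e1 : C b * A - C a * B = C b * (A - C (a / b) * B) := by
    have : C a = C b * C (a / b) := by
      rw [← C_mul, mul_div_cancel₀ _ hb0]
    rw [this]
    ring
  rw [e1, hN.smul, hb, one_mul] at h
  by_cases hcon : N A ≤ N B
  · rwa [max_eq_right hcon] at h
  · exfalso
    push Not at hcon
    rw [max_eq_left hcon.le] at h
    have h2 : N (C (a / b) * B) < N A := by
      rw [hN.smul, norm_div, hb, div_one]
      calc ‖a‖ * N B ≤ 1 * N B := mul_le_mul_of_nonneg_right ha (hN.nonneg _)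
        _ < N A := by rw [one_mul]; exact hcon
    have h3 := hN.add (A - C (a / b) * B) (C (a / b) * B)
    rw [sub_add_cancel] at h3
    exact absurd h3 (not_le.2 (max_lt h h2))

omit [IsUltrametricDist K] [IsAlgClosed K] in
private theorem three_l3 {N : K[X] → ℝ} (hN : ThreeN N) {A B : K[X]} {a e : K}
    (hae : ‖a - e‖ < 1) (h : N (A - C a * B) < N B) : N (A - C e * B) < N B := by
  have hB : 0 < N B := lt_of_le_of_lt (hN.nonneg _) h
  have e1 : A - C e * B = (A - C a * B) + C (a - e) * B := by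
    rw [C_sub]
    ring
  rw [e1]
  refine lt_of_le_of_lt (hN.add _ _) (max_lt h ?_)
  rw [hN.smul]
  calc ‖a - e‖ * N B < 1 * N B := mul_lt_mul_of_pos_right hae hB
    _ = N B := one_mul _

omit [IsUltrametricDist K] [IsAlgClosed K] in
private theorem three_l4 {N : K[X] → ℝ} (hN : ThreeN N) {B B' : K[X]} {e d : K}
    (he : ‖e‖ ≤ 1) (hd : ‖d‖ = 1) (h : N B' < N B) : N B' < N (C e * B' + C d * B) := by
  have h1 : N (C d * B) = N B := by rw [hN.smul, hd, one_mul]
  have h2 := hN.add (C e * B' + C d * B) (-(C e * B'))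
  have e1 : C e * B' + C d * B + -(C e * B') = C d * B := by ring
  rw [e1, h1, three_neg hN, hN.smul] at h2
  have h3 : ‖e‖ * N B' < N B := by
    calc ‖e‖ * N B' ≤ 1 * N B' := mul_le_mul_of_nonneg_right he (hN.nonneg _)
      _ < N B := by rw [one_mul]; exact h
  rcases le_max_iff.1 h2 with h4 | h4
  · exact lt_of_lt_of_le h h4
  · exact absurd h4 (not_le.2 h3)

/-- **Three points of a fibre in one annulus, deep inside: two have the same norm.**
Take `(a, b')` from `const_on_annulus` (`u = ‖r₁‖`, `v = ‖r₂‖`).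
* If `‖b'‖ < 1`, or more generally if `gn 0 ρ B < gn 0 ρ A`: case infinity. Precisely: if
  `‖b'‖ = 1`, replace `a` by `a / b'`, i.e. `b' = 1`; then `gn (A - a B) < max (gn A) (gn B)` forces
  `gn (A - a B) < gn B` (if `gn B < gn A` then `gn (A - a B) = gn A`), same pointwise.
  - if `‖a - e i‖ = 1` for all `i`: `three_gen`;
  - if `‖a - e j‖ < 1` for some `j`: then `gn (A - e j B) < gn B` and pointwise. Apply
    `D.translate j k l` and `three_inf` to `Â = e j (A - e j B) + δ B`, `B̂ = A - e j B`, where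
    `‖δ‖ = 1`; `‖Â‖ = ‖B‖`, and the new fibre equation is
    `(α - e j β) Â = (e j (α - e j β) + δ β) B̂`.
* If `‖b'‖ < 1` then `‖a‖ = 1` and `gn (b' A - a B) < max (gn A) (gn B)` forces
  `gn B < gn A` (if `gn A ≤ gn B` then `gn (b' A - a B) = gn B`): `three_inf`. -/
theorem three_tau (h2 : ‖(2 : K)‖ = 1) (hn : ∀ n : ℤ, n ≠ 0 → 1 ≤ ‖(n : K)‖ * |(n : ℝ)|)
    {e : Fin 3 → K} {A B G f h : K[X]} (D : IsDat e A B G f h) {r₁ r₂ : K} (hr1 : r₁ ≠ 0)
    (h12 : ‖r₁‖ ≤ ‖r₂‖) {m n : ℕ}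
    (hf : ∀ ρ, ‖r₁‖ ≤ ρ → ρ ≤ ‖r₂‖ → Dom f (2 * m) ρ)
    (hh : ∀ ρ, ‖r₁‖ ≤ ρ → ρ ≤ ‖r₂‖ → Dom h n ρ)
    {b : ℝ} (hb : |(1 + n - m : ℝ)| + 2 ≤ b) (τ : Fin 3 → K)
    (hτ : ∀ i, ‖r₁‖ * b ≤ ‖τ i‖ ∧ ‖τ i‖ * b ≤ ‖r₂‖) {α β : K} (hαβ : α ≠ 0 ∨ β ≠ 0)
    (hfib : ∀ i, β * A.eval (τ i) = α * B.eval (τ i)) :
    ∃ i j, i ≠ j ∧ ‖τ i‖ = ‖τ j‖ := by
  have hu : 0 < ‖r₁‖ := norm_pos_iff.2 hr1
  obtain ⟨a, b', ha, hb', hab, G1, G2⟩ := const_on_annulus h2 D hu h12 hf
  have hG2 : ∀ τ : K, ‖r₁‖ ≤ ‖τ‖ → ‖τ‖ ≤ ‖r₂‖ →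
      ‖(C b' * A - C a * B).eval τ‖ < max ‖A.eval τ‖ ‖B.eval τ‖ := by
    intro τ h1 h2
    have := G2 τ h1 h2
    simpa only [eval_sub, eval_mul, eval_C] using this
  rcases lt_or_eq_of_le hb' with hb1 | hb1
  · -- case infinity
    have ha1 : ‖a‖ = 1 := by
      rcases hab with h | h
      · exact h
      · exact absurd h hb1.ne
    refine three_inf h2 hn D hr1 h12 hf hh ?_ ?_ hb τ hτ hαβ hfib
    · intro ρ h1 h2
      exact three_l1 (threeN_gn (hu.le.trans h1)) hb1 ha1 (G1 ρ h1 h2)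
    · intro τ h1 h2
      exact three_l1 (threeN_eval τ) hb1 ha1 (hG2 τ h1 h2)
  · have H1 : ∀ ρ, ‖r₁‖ ≤ ρ → ρ ≤ ‖r₂‖ → gn 0 ρ (A - C (a / b') * B) < gn 0 ρ B := by
      intro ρ h1 h2
      exact three_l2 (threeN_gn (hu.le.trans h1)) hb1 ha (G1 ρ h1 h2)
    have H2 : ∀ τ : K, ‖r₁‖ ≤ ‖τ‖ → ‖τ‖ ≤ ‖r₂‖ →
        ‖(A - C (a / b') * B).eval τ‖ < ‖B.eval τ‖ := by
      intro τ h1 h2
      exact three_l2 (threeN_eval τ) hb1 ha (hG2 τ h1 h2)
    have ha1 : ‖a / b'‖ ≤ 1 := by
      rw [norm_div, hb1, div_one]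
      exact ha
    by_cases hcase : ∀ i, ‖a / b' - e i‖ = 1
    · refine three_gen h2 hn D hr1 h12 hf hh ha1 hcase H1 ?_ hb τ hτ hαβ hfib
      intro τ h1 h2
      have := H2 τ h1 h2
      simpa only [eval_sub, eval_mul, eval_C] using this
    · push Not at hcase
      obtain ⟨j, hj⟩ := hcase
      have hj1 : ‖a / b' - e j‖ < 1 := by
        refine lt_of_le_of_ne ?_ hj
        calc ‖a / b' - e j‖ = ‖a / b' + -(e j)‖ := by rw [sub_eq_add_neg]
          _ ≤ max ‖a / b'‖ ‖-(e j)‖ := IsUltrametricDist.norm_add_le_max _ _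
          _ ≤ 1 := max_le ha1 (by rw [norm_neg]; exact D.norm_e j)
      obtain ⟨k, l, hjk, hjl, hkl⟩ : ∃ k l : Fin 3, j ≠ k ∧ j ≠ l ∧ k ≠ l := by
        clear hj hj1
        revert j
        decide
      have hd1 : ‖(e j - e k) * (e j - e l)‖ = 1 := by
        rw [norm_mul, D.norm_sub j k hjk, D.norm_sub j l hjl, one_mul]
      have hd0 : (e j - e k) * (e j - e l) ≠ 0 := by
        intro h0
        rw [h0, norm_zero] at hd1
        exact zero_ne_one hd1
      have D' := D.translate j k l hjk hjl hkl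
      refine three_inf h2 hn D' hr1 h12 hf (fun ρ h1 h2 => (hh ρ h1 h2).neg) ?_ ?_ hb τ hτ
        (α := e j * (α - e j * β) + (e j - e k) * (e j - e l) * β) (β := α - e j * β) ?_ ?_
      · intro ρ h1 h2
        have hN := threeN_gn (K := K) (hu.le.trans h1)
        exact three_l4 hN (D.norm_e j) hd1 (three_l3 hN hj1 (H1 ρ h1 h2))
      · intro τ h1 h2
        have hN := threeN_eval τ
        exact three_l4 hN (D.norm_e j) hd1 (three_l3 hN hj1 (H2 τ h1 h2))
      · by_contra hcon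
        push Not at hcon
        obtain ⟨q1, q2⟩ := hcon
        rw [q2, mul_zero, zero_add] at q1
        have hβ : β = 0 := (mul_eq_zero.1 q1).resolve_left hd0
        have hα : α = 0 := by
          rw [hβ, mul_zero, sub_zero] at q2
          exact q2
        rcases hαβ with h | h
        · exact h hα
        · exact h hβ
      · intro i
        have := hfib i
        simp only [eval_add, eval_sub, eval_mul, eval_C]
        linear_combination (-(e j - e k) * (e j - e l)) * this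

end UE97
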