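import Mathlib
import Pool.Agent.Lib.MP_10e784_ag.EQ.Three

/-!
# Three points of one fibre, in the coordinate `x`
-/

namespace UE97

open Polynomial

variable {K : Type*} [NormedField K] [IsUltrametricDist K] [IsAlgClosed K]

/-- Let `x 0, x 1, x 2` be points of one fibre of `A / B` (all different from `c`) and suppose that
no root of `f` or `h` has distance from `c` in the interval
`[min ‖x i - c‖ / ‖β‖ ^ 2, max ‖x i - c‖ * ‖β‖ ^ 2]`. Then two of the distances `‖x i - c‖` are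
equal.
Proof: choose `τ i` with `τ i ^ 2 = x i - c`, and `r₁ = τ i₀ / β`, `r₂ = τ j₀ * β` where `τ i₀` has
the smallest and `τ j₀` the largest norm. By `exists_dom_of_no_roots` applied to `taylor c f` and
`taylor c h` on `[‖r₁‖ ^ 2, ‖r₂‖ ^ 2]` there are dominating indices `m`, `n'` and `dom_comp_sq`,
`dom_two_X_comp_sq` give `Dom (f.comp (X ^ 2 + C c)) (2 * m) ρ` and
`Dom (C 2 * X * h.comp (X ^ 2 + C c)) (2 * n' + 1) ρ` for `ρ ∈ [‖r₁‖, ‖r₂‖]`. Apply `three_tau` to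
`D.pull c`, with `b = ‖β‖` and exponent `1 + (2 n' + 1) - m`: its absolute value is at most
`f.natDegree` because `2 n' + 2 ≤ 2 h.natDegree + 2 ≤ f.natDegree` and `m ≤ f.natDegree`
(`Dom.le_natDegree`). -/
theorem three_x (h2 : ‖(2 : K)‖ = 1) (hn : ∀ n : ℤ, n ≠ 0 → 1 ≤ ‖(n : K)‖ * |(n : ℝ)|)
    {e : Fin 3 → K} {A B G f h : K[X]} (D : IsDat e A B G f h)
    (hdeg : 2 * h.natDegree + 2 ≤ f.natDegree) (c : K) (x : Fin 3 → K) (hx : ∀ i, x i ≠ c)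
    {β₀ : K} (hβ₀ : (f.natDegree : ℝ) + 2 ≤ ‖β₀‖)
    (hcrit : ∀ γ, f.eval γ = 0 ∨ h.eval γ = 0 → ∀ i j,
      ‖x i - c‖ / ‖β₀‖ ^ 2 ≤ ‖γ - c‖ → ‖γ - c‖ ≤ ‖x j - c‖ * ‖β₀‖ ^ 2 → False)
    {α β : K} (hαβ : α ≠ 0 ∨ β ≠ 0) (hfib : ∀ i, β * A.eval (x i) = α * B.eval (x i)) :
    ∃ i j, i ≠ j ∧ ‖x i - c‖ = ‖x j - c‖ := by
  have : CharZero K := by
    apply charZero_of_inj_zero
    intro n hn0
    by_contra hne
    have h1 := hn (n : ℤ) (by exact_mod_cast hne)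
    rw [Int.cast_natCast, hn0, norm_zero, zero_mul] at h1
    linarith
  have hβ2 : 2 ≤ ‖β₀‖ := by
    have : (0 : ℝ) ≤ (f.natDegree : ℝ) := Nat.cast_nonneg _
    linarith
  have hβpos : 0 < ‖β₀‖ := by linarith
  have hβ0 : β₀ ≠ 0 := norm_pos_iff.1 hβpos
  have hτex : ∀ i, ∃ t : K, t ^ 2 = x i - c := fun i => IsAlgClosed.exists_pow_nat_eq _ (by norm_num)
  choose τ hτ using hτex
  have hτ0 : ∀ i, τ i ≠ 0 := by
    intro i h0
    have := hτ i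
    rw [h0] at this
    exact hx i (sub_eq_zero.1 (by rw [← this]; ring))
  have hτn : ∀ i, ‖x i - c‖ = ‖τ i‖ ^ 2 := fun i => by rw [← hτ i, norm_pow]
  obtain ⟨i₀, hi₀⟩ := Finite.exists_min (fun i => ‖τ i‖)
  obtain ⟨j₀, hj₀⟩ := Finite.exists_max (fun i => ‖τ i‖)
  have hr1 : τ i₀ / β₀ ≠ 0 := div_ne_zero (hτ0 i₀) hβ0
  have hn1 : ‖τ i₀ / β₀‖ = ‖τ i₀‖ / ‖β₀‖ := norm_div _ _
  have hn2 : ‖τ j₀ * β₀‖ = ‖τ j₀‖ * ‖β₀‖ := norm_mul _ _
  have h12 : ‖τ i₀ / β₀‖ ≤ ‖τ j₀ * β₀‖ := by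
    rw [hn1, hn2]
    have h3 := hj₀ i₀
    have h4 : ‖τ i₀‖ / ‖β₀‖ ≤ ‖τ i₀‖ := div_le_self (norm_nonneg _) (by linarith)
    have h5 : ‖τ j₀‖ ≤ ‖τ j₀‖ * ‖β₀‖ := le_mul_of_one_le_right (norm_nonneg _) (by linarith)
    linarith
  have hu : 0 < ‖τ i₀ / β₀‖ ^ 2 := by
    have := norm_pos_iff.2 hr1
    positivity
  have huv : ‖τ i₀ / β₀‖ ^ 2 ≤ ‖τ j₀ * β₀‖ ^ 2 := by gcongr
  have hroot : ∀ P : K[X], (∀ γ, P.eval γ = 0 → f.eval γ = 0 ∨ h.eval γ = 0) →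
      ∀ b, (taylor c P).eval b = 0 → ‖b‖ < ‖τ i₀ / β₀‖ ^ 2 ∨ ‖τ j₀ * β₀‖ ^ 2 < ‖b‖ := by
    intro P hP b hb
    rw [taylor_eval] at hb
    by_contra hcon
    push Not at hcon
    refine hcrit (b + c) (hP _ hb) i₀ j₀ ?_ ?_
    · rw [add_sub_cancel_right, hτn, ← div_pow, ← hn1]
      exact hcon.1
    · rw [add_sub_cancel_right, hτn, ← mul_pow, ← hn2]
      exact hcon.2
  have hf0 : taylor c f ≠ 0 := fun h0 => D.f_ne ((taylor_eq_zero c f).1 h0)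
  have hh0 : taylor c h ≠ 0 := fun h0 => D.h_ne ((taylor_eq_zero c h).1 h0)
  obtain ⟨m, hm⟩ := exists_dom_of_no_roots hf0 hu huv (hroot f fun γ hγ => Or.inl hγ)
  obtain ⟨n', hn'⟩ := exists_dom_of_no_roots hh0 hu huv (hroot h fun γ hγ => Or.inr hγ)
  have hmdeg : m ≤ f.natDegree := by
    have := (hm _ le_rfl huv).le_natDegree hu.le
    rwa [natDegree_taylor] at this
  have hndeg : n' ≤ h.natDegree := by
    have := (hn' _ le_rfl huv).le_natDegree hu.le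
    rwa [natDegree_taylor] at this
  have hb : |(1 + ((2 * n' + 1 : ℕ) : ℝ) - m : ℝ)| + 2 ≤ ‖β₀‖ := by
    have h3 : ((2 * n' + 2 : ℕ) : ℝ) ≤ (f.natDegree : ℝ) := by
      exact_mod_cast (by omega : 2 * n' + 2 ≤ f.natDegree)
    have h4 : (m : ℝ) ≤ (f.natDegree : ℝ) := by exact_mod_cast hmdeg
    have h5 : (0 : ℝ) ≤ (m : ℝ) := Nat.cast_nonneg _
    have h6 : (0 : ℝ) ≤ (n' : ℝ) := Nat.cast_nonneg _
    push_cast at h3 ⊢
    have h7 : |(1 + (2 * (n' : ℝ) + 1) - m : ℝ)| ≤ f.natDegree := by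
      rw [abs_le]
      constructor <;> linarith
    linarith
  obtain ⟨i, j, hij, hn3⟩ := three_tau h2 hn (D.pull c) hr1 h12
    (m := m) (n := 2 * n' + 1) (b := ‖β₀‖)
    (fun ρ hρ1 hρ2 => dom_comp_sq ((norm_pos_iff.2 hr1).trans_le hρ1)
      (hm _ (by gcongr) (pow_le_pow_left₀ ((norm_nonneg _).trans hρ1) hρ2 2)))
    (fun ρ hρ1 hρ2 => dom_two_X_comp_sq ((norm_pos_iff.2 hr1).trans_le hρ1) h2
      (hn' _ (by gcongr) (pow_le_pow_left₀ ((norm_nonneg _).trans hρ1) hρ2 2)))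
    hb τ
    (fun i => by
      constructor
      · rw [hn1, div_mul_cancel₀ _ hβpos.ne']
        exact hi₀ i
      · rw [hn2]
        exact mul_le_mul_of_nonneg_right (hj₀ i) hβpos.le)
    hαβ
    (fun i => by
      have hx' : τ i ^ 2 + c = x i := by rw [hτ i, sub_add_cancel]
      simp only [eval_comp, eval_add, eval_pow, eval_X, eval_C, hx']
      exact hfib i)
  refine ⟨i, j, hij, ?_⟩
  rw [hτn, hτn, hn3]

end UE97
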