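import Mathlib
import Pool.Agent.Lib.MP_10e784_ag.EQ.XLev
import Pool.Agent.Lib.MP_10e784_ag.EQ.Inst
import Pool.Agent.Lib.MP_10e784_ag.EQ.Cnt

/-!
# Few distances in the fibres
-/

namespace UE97

open Polynomial

/-- The number of distances. -/
def bigD (g : ℕ) : ℕ := (3 * g + 3) * (4 * (2 * g + 4) + 1) + 2 * (3 * g + 3 + 1)

private theorem FibA_norm {p : ℕ} [Fact p.Prime] {x c : ℚ} (h : x ≠ c) :
    ‖(x : PadicAlgCl p) - (c : PadicAlgCl p)‖ = (p : ℝ) ^ (-padicValRat p (x - c)) := by
  have h1 : (x : PadicAlgCl p) - (c : PadicAlgCl p) = ((x - c : ℚ) : PadicAlgCl p) := by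
    push_cast
    ring
  rw [h1, norm_ratCast, padicNorm.eq_zpow_of_nonzero (sub_ne_zero.2 h)]
  push_cast
  rfl

/-- The distances seen from one point of a fibre, over `K = PadicAlgCl p`.
`Y` is a finite set of rational numbers, all in one fibre of `A / B`, and no root of `f`.
Proof: let `Crit` be the set of the `‖γ - c‖`, `γ` a root of `f` or of `h`; it has at most
`f.natDegree + h.natDegree ≤ (2 g + 2) + g ≤ 3 g + 3` elements. Let `S` be the set of exponents
`s = - padicValRat p (x - c)`, `x ∈ Y.erase c`, so `‖x - c‖ = p ^ s`. Apply `card_exponents_le`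
with `Δ = 2 g + 4` (`p ^ Δ ≥ 2 ^ Δ ≥ 2 g + 4`): the hypothesis for three different exponents is
`three_x` (by contradiction), with `β₀ = (p⁻¹) ^ Δ`, `‖β₀‖ = p ^ Δ`. -/
theorem distances_le {p : ℕ} [Fact p.Prime] (hp : p ≠ 2) {g : ℕ}
    {e : Fin 3 → PadicAlgCl p} {A B G f h : (PadicAlgCl p)[X]} (D : IsDat e A B G f h)
    (hfg : f.natDegree ≤ 2 * g + 2) (hdeg : 2 * h.natDegree + 2 ≤ f.natDegree)
    {α β : PadicAlgCl p} (hαβ : α ≠ 0 ∨ β ≠ 0) (Y : Finset ℚ)
    (hY : ∀ x ∈ Y, β * A.eval (x : PadicAlgCl p) = α * B.eval (x : PadicAlgCl p))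
    (c : ℚ) (hc : c ∈ Y) :
    ((Y.erase c).image (fun x => padicNorm p (x - c))).card ≤ bigD g := by
  classical
  have hpp : p.Prime := Fact.out
  have hp1 : (1 : ℝ) < p := by exact_mod_cast hpp.one_lt
  have hp0 : (0 : ℝ) < p := lt_trans one_pos hp1
  set Crit : Finset ℝ := (f.roots.toFinset ∪ h.roots.toFinset).image
    (fun γ => ‖γ - (c : PadicAlgCl p)‖) with hCrit
  have hCard : Crit.card ≤ 3 * g + 3 := by
    have h1 : Crit.card ≤ f.roots.toFinset.card + h.roots.toFinset.card :=
      Finset.card_image_le.trans (Finset.card_union_le _ _)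
    have h2 : f.roots.toFinset.card ≤ f.natDegree :=
      (Multiset.toFinset_card_le _).trans (Polynomial.card_roots' f)
    have h3 : h.roots.toFinset.card ≤ h.natDegree :=
      (Multiset.toFinset_card_le _).trans (Polynomial.card_roots' h)
    omega
  set S : Finset ℤ := (Y.erase c).image (fun x => -padicValRat p (x - c)) with hS
  have hle : ((Y.erase c).image (fun x => padicNorm p (x - c))).card ≤ S.card := by
    have h1 : (Y.erase c).image (fun x => padicNorm p (x - c)) ⊆
        S.image (fun s => (p : ℚ) ^ s) := by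
      intro d hd
      rw [Finset.mem_image] at hd
      obtain ⟨x, hx, rfl⟩ := hd
      rw [Finset.mem_image]
      refine ⟨-padicValRat p (x - c), Finset.mem_image_of_mem _ hx, ?_⟩
      exact (padicNorm.eq_zpow_of_nonzero (sub_ne_zero.2 (Finset.ne_of_mem_erase hx))).symm
    exact (Finset.card_le_card h1).trans Finset.card_image_le
  have hβn : ‖((p : PadicAlgCl p)⁻¹) ^ (2 * g + 4)‖ = (p : ℝ) ^ (2 * g + 4) :=
    norm_p_inv_pow p (2 * g + 4)
  have hmain : S.card ≤ Crit.card * (4 * (2 * g + 4) + 1) + 2 * (Crit.card + 1) := by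
    apply card_exponents_le hp1 S Crit (2 * g + 4)
    intro s hs hinj
    by_contra hcon
    have hsx : ∀ i, ∃ x ∈ Y.erase c, -padicValRat p (x - c) = s i := fun i =>
      Finset.mem_image.1 (hs i)
    choose x hxY hxs using hsx
    have hxc : ∀ i, x i ≠ c := fun i => Finset.ne_of_mem_erase (hxY i)
    have hnorm : ∀ i, ‖(x i : PadicAlgCl p) - (c : PadicAlgCl p)‖ = (p : ℝ) ^ (s i) := by
      intro i
      rw [FibA_norm (hxc i), hxs i]
    obtain ⟨i, j, hij, heq⟩ := three_x (norm_two p hp) (norm_int_mul_abs p) D hdeg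
      (c : PadicAlgCl p) (fun i => (x i : PadicAlgCl p))
      (fun i h => hxc i (by exact_mod_cast h))
      (β₀ := ((p : PadicAlgCl p)⁻¹) ^ (2 * g + 4)) (by
        rw [hβn]
        have h1 : (f.natDegree : ℝ) + 2 ≤ ((2 * g + 4 : ℕ) : ℝ) := by
          have : f.natDegree + 2 ≤ 2 * g + 4 := by omega
          exact_mod_cast this
        have h2 : (2 * g + 4 : ℕ) ≤ p ^ (2 * g + 4) :=
          (Nat.lt_pow_self hpp.one_lt).le
        have h3 : ((2 * g + 4 : ℕ) : ℝ) ≤ (p : ℝ) ^ (2 * g + 4) := by exact_mod_cast h2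
        exact h1.trans h3)
      (by
        intro γ hγ i j h1 h2
        apply hcon
        refine ⟨‖γ - (c : PadicAlgCl p)‖, ?_, i, j, ?_, ?_⟩
        · rw [hCrit]
          apply Finset.mem_image_of_mem
          rw [Finset.mem_union, Multiset.mem_toFinset, Multiset.mem_toFinset,
            Polynomial.mem_roots D.f_ne, Polynomial.mem_roots D.h_ne]
          exact hγ
        · rw [hnorm i, hβn] at h1
          refine le_trans (le_of_eq ?_) h1
          rw [zpow_sub₀ hp0.ne', ← pow_mul]
          congr 1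
          rw [← zpow_natCast]
          congr 1
          push_cast
          ring
        · rw [hnorm j, hβn] at h2
          refine h2.trans (le_of_eq ?_)
          rw [zpow_add₀ hp0.ne', ← pow_mul]
          congr 1
          rw [← zpow_natCast]
          congr 1
          push_cast
          ring)
      hαβ (fun i => hY (x i) (Finset.mem_of_mem_erase (hxY i)))
    apply hij
    apply hinj
    rw [hnorm i, hnorm j] at heq
    exact zpow_right_injective₀ hp0 hp1.ne' heq
  refine hle.trans (hmain.trans ?_)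
  unfold bigD
  have h1 : Crit.card * (4 * (2 * g + 4) + 1) ≤ (3 * g + 3) * (4 * (2 * g + 4) + 1) :=
    Nat.mul_le_mul_right _ hCard
  omega

end UE97
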