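import Mathlib

/-!
# The good model
-/

namespace UE97

open Polynomial

/-- If `x = ε₁ - ε₀`, `y = ε₂ - ε₀` then `a₂² - 3 a₄ = x² - x y + y²` and
`disc = (x y (x - y))²`; if the three distances are not equal then the two largest are equal, `r`,
and the third is `s < r`; in each of the three cases
`‖x² - x y + y²‖ = r²` (`x² - x y + y² = (x - y)² + x y = x² + y (y - x) = y² + x (x - y)`),
so `‖a₂² - 3 a₄‖ ^ 3 = r ^ 6 > r ^ 4 s ^ 2 = ‖disc‖`. -/
theorem dist_eq_of_integral_j {K : Type*} [NormedField K] [IsUltrametricDist K] (ε : Fin 3 → K)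
    (hε : Function.Injective ε)
    (hj : ‖(ε 1 - ε 0) ^ 2 - (ε 1 - ε 0) * (ε 2 - ε 0) + (ε 2 - ε 0) ^ 2‖ ^ 3 ≤
      ‖((ε 1 - ε 0) * (ε 2 - ε 0) * (ε 1 - ε 2)) ^ 2‖) :
    ‖ε 2 - ε 0‖ = ‖ε 1 - ε 0‖ ∧ ‖ε 1 - ε 2‖ = ‖ε 1 - ε 0‖ := by
  have hx0 : ε 1 - ε 0 ≠ 0 := sub_ne_zero.2 (hε.ne (by decide))
  have hy0 : ε 2 - ε 0 ≠ 0 := sub_ne_zero.2 (hε.ne (by decide))
  have hz0 : ε 1 - ε 2 ≠ 0 := sub_ne_zero.2 (hε.ne (by decide))
  obtain ⟨x, hx⟩ : ∃ x, x = ε 1 - ε 0 := ⟨_, rfl⟩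
  obtain ⟨y, hy⟩ : ∃ y, y = ε 2 - ε 0 := ⟨_, rfl⟩
  have hz : ε 1 - ε 2 = x - y := by rw [hx, hy]; ring
  rw [hz] at hz0 hj ⊢
  rw [← hx, ← hy] at hj ⊢
  rw [← hx] at hx0
  rw [← hy] at hy0
  have ha : 0 < ‖x‖ := norm_pos_iff.2 hx0
  have hb : 0 < ‖y‖ := norm_pos_iff.2 hy0
  have hc : 0 < ‖x - y‖ := norm_pos_iff.2 hz0
  rw [norm_pow, norm_mul, norm_mul] at hj
  -- a sum of a big and a small element
  have hbig : ∀ u v : K, ‖v‖ < ‖u‖ → ‖u + v‖ = ‖u‖ := by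
    intro u v huv
    rw [IsUltrametricDist.norm_add_eq_max_of_norm_ne_norm huv.ne']
    exact max_eq_left huv.le
  rcases lt_trichotomy ‖x‖ ‖y‖ with h | h | h
  · exfalso
    have h1 : ‖x - y‖ = ‖y‖ := by
      have h2 := hbig (-y) x (by rwa [norm_neg])
      rw [norm_neg] at h2
      rw [show x - y = -y + x by ring]
      exact h2
    have h2 : ‖x ^ 2 - x * y + y ^ 2‖ = ‖y‖ ^ 2 := by
      rw [show x ^ 2 - x * y + y ^ 2 = y ^ 2 + x * (x - y) by ring, hbig, norm_pow]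
      rw [norm_mul, norm_pow, h1]
      nlinarith
    rw [h2, h1] at hj
    have h3 : ‖x‖ ^ 2 < ‖y‖ ^ 2 := pow_lt_pow_left₀ h ha.le (by norm_num)
    have h4 : 0 < ‖y‖ ^ 4 := by positivity
    nlinarith
  · rcases lt_trichotomy ‖x - y‖ ‖x‖ with h' | h' | h'
    · exfalso
      have h2 : ‖x ^ 2 - x * y + y ^ 2‖ = ‖x‖ ^ 2 := by
        rw [show x ^ 2 - x * y + y ^ 2 = x * y + (x - y) ^ 2 by ring, hbig, norm_mul, ← h]
        · ring
        · rw [norm_mul, norm_pow, ← h]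
          nlinarith
      rw [h2, ← h] at hj
      have h3 : ‖x - y‖ ^ 2 < ‖x‖ ^ 2 := pow_lt_pow_left₀ h' hc.le (by norm_num)
      have h4 : 0 < ‖x‖ ^ 4 := by positivity
      nlinarith
    · exact ⟨h.symm, h'⟩
    · exfalso
      have h1 : ‖x - y‖ ≤ max ‖x‖ ‖y‖ := by
        have h2 := IsUltrametricDist.norm_add_le_max x (-y)
        rwa [norm_neg, ← sub_eq_add_neg] at h2
      rw [← h, max_self] at h1
      linarith
  · exfalso
    have h1 : ‖x - y‖ = ‖x‖ := by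
      have h2 := hbig x (-y) (by rwa [norm_neg])
      rw [sub_eq_add_neg]
      exact h2
    have h2 : ‖x ^ 2 - x * y + y ^ 2‖ = ‖x‖ ^ 2 := by
      rw [show x ^ 2 - x * y + y ^ 2 = x ^ 2 + -(y * (x - y)) by ring, hbig, norm_pow]
      rw [norm_neg, norm_mul, norm_pow, h1]
      nlinarith
    rw [h2, h1] at hj
    have h3 : ‖y‖ ^ 2 < ‖x‖ ^ 2 := pow_lt_pow_left₀ h hb.le (by norm_num)
    have h4 : 0 < ‖x‖ ^ 4 := by positivity
    nlinarith

/-- the three roots of a cubic over an algebraically closed field -/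
private lemma Model_roots {K : Type*} [Field K] [IsAlgClosed K] (a2 a4 a6 : K) :
    ∃ r0 r1 r2 : K, a2 = -(r0 + r1 + r2) ∧ a4 = r0 * r1 + r0 * r2 + r1 * r2 ∧
      a6 = -(r0 * r1 * r2) := by
  obtain ⟨r0, h0⟩ : ∃ r0 : K, r0 ^ 3 + a2 * r0 ^ 2 + a4 * r0 + a6 = 0 := by
    have hdeg : (X ^ 3 + C a2 * X ^ 2 + C a4 * X + C a6 : K[X]).degree = 3 := by
      compute_degree!
    obtain ⟨r, hr⟩ := IsAlgClosed.exists_root (X ^ 3 + C a2 * X ^ 2 + C a4 * X + C a6 : K[X])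
      (by rw [hdeg]; norm_num)
    refine ⟨r, ?_⟩
    simpa [IsRoot] using hr
  obtain ⟨r1, h1⟩ : ∃ r1 : K, r1 ^ 2 + (a2 + r0) * r1 + (a4 + a2 * r0 + r0 ^ 2) = 0 := by
    have hdeg : (X ^ 2 + C (a2 + r0) * X + C (a4 + a2 * r0 + r0 ^ 2) : K[X]).degree = 2 := by
      compute_degree!
    obtain ⟨r, hr⟩ := IsAlgClosed.exists_root
      (X ^ 2 + C (a2 + r0) * X + C (a4 + a2 * r0 + r0 ^ 2) : K[X]) (by rw [hdeg]; norm_num)
    refine ⟨r, ?_⟩
    simpa only [IsRoot, eval_add, eval_mul, eval_pow, eval_X, eval_C] using hr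
  refine ⟨r0, r1, -(a2 + r0) - r1, by ring, ?_, ?_⟩
  · linear_combination h1
  · linear_combination h0 - r0 * h1

/-- From the cubic `X ^ 3 + a₂ X ^ 2 + a₄ X + a₆` over an algebraically closed ultrametric field
with `‖2‖ = 1` to a model with `‖eᵢ‖ ≤ 1`, `‖eᵢ - eⱼ‖ = 1`: let `εᵢ` be the roots of the cubic,
`δ = ε 1 - ε 0`, `d ^ 2 = δ`, `e i = (ε i - ε 0) / δ`, `A' = A - ε₀ B`, `B' = δ B`, `G' = d G`.
Then `B' ∏ (A' - e i B') = δ B ∏ (A - ε i B) = δ B (A³ + a₂ A² B + a₄ A B² + a₆ B³)`.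
The fibres of `A' / B'` are those of `A / B`: `β A = α B` iff
`β δ... `: `(β δ) A' = (α - ε₀ β) B'`. -/
theorem exists_model {K : Type*} [NormedField K] [IsUltrametricDist K] [IsAlgClosed K]
    {a2 a4 a6 : K}
    (hd : a2 ^ 2 * a4 ^ 2 - 4 * a4 ^ 3 - 4 * a2 ^ 3 * a6 - 27 * a6 ^ 2 + 18 * a2 * a4 * a6 ≠ 0)
    (hj : ‖a2 ^ 2 - 3 * a4‖ ^ 3 ≤
      ‖a2 ^ 2 * a4 ^ 2 - 4 * a4 ^ 3 - 4 * a2 ^ 3 * a6 - 27 * a6 ^ 2 + 18 * a2 * a4 * a6‖)
    {A B G f : K[X]} (hAB : IsCoprime A B) (hnc : ¬ (A.natDegree = 0 ∧ B.natDegree = 0))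
    (heq : B * (A ^ 3 + C a2 * A ^ 2 * B + C a4 * A * B ^ 2 + C a6 * B ^ 3) = f * G ^ 2) :
    ∃ (e : Fin 3 → K) (A' B' G' : K[X]), (∀ i, ‖e i‖ ≤ 1) ∧
      (∀ i j, i ≠ j → ‖e i - e j‖ = 1) ∧ IsCoprime A' B' ∧
      ¬ (A'.natDegree = 0 ∧ B'.natDegree = 0) ∧
      B' * ((A' - C (e 0) * B') * (A' - C (e 1) * B') * (A' - C (e 2) * B')) = f * G' ^ 2 ∧
      ∀ α β : K, (α ≠ 0 ∨ β ≠ 0) → ∃ α' β' : K, (α' ≠ 0 ∨ β' ≠ 0) ∧
        ∀ x : K, β * A.eval x = α * B.eval x → β' * A'.eval x = α' * B'.eval x := by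
  obtain ⟨r0, r1, r2, h2, h4, h6⟩ := Model_roots a2 a4 a6
  have hdisc : a2 ^ 2 * a4 ^ 2 - 4 * a4 ^ 3 - 4 * a2 ^ 3 * a6 - 27 * a6 ^ 2 +
      18 * a2 * a4 * a6 = ((r1 - r0) * (r2 - r0) * (r1 - r2)) ^ 2 := by
    rw [h2, h4, h6]; ring
  have hc4 : a2 ^ 2 - 3 * a4 = (r1 - r0) ^ 2 - (r1 - r0) * (r2 - r0) + (r2 - r0) ^ 2 := by
    rw [h2, h4]; ring
  rw [hdisc] at hd hj
  rw [hc4] at hj
  have h10 : r1 - r0 ≠ 0 := by
    intro h; apply hd; rw [h]; ring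
  have h20 : r2 - r0 ≠ 0 := by
    intro h; apply hd; rw [h]; ring
  have h12 : r1 - r2 ≠ 0 := by
    intro h; apply hd; rw [h]; ring
  have hinj : Function.Injective ![r0, r1, r2] := by
    intro i j hij
    fin_cases i <;> fin_cases j <;> simp at hij ⊢
    · exact h10 (by rw [hij]; ring)
    · exact h20 (by rw [hij]; ring)
    · exact h10 (by rw [hij]; ring)
    · exact h12 (by rw [hij]; ring)
    · exact h20 (by rw [hij]; ring)
    · exact h12 (by rw [hij]; ring)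
  obtain ⟨hn20, hn12⟩ := dist_eq_of_integral_j ![r0, r1, r2] hinj (by simpa using hj)
  simp only [Matrix.cons_val_zero, Matrix.cons_val_one, Matrix.cons_val] at hn20 hn12
  have hδ : 0 < ‖r1 - r0‖ := norm_pos_iff.2 h10
  obtain ⟨d, hd2⟩ := IsAlgClosed.exists_eq_mul_self (r1 - r0)
  have he2 : ‖(r2 - r0) / (r1 - r0)‖ = 1 := by
    rw [norm_div, hn20, div_self hδ.ne']
  have he12 : ‖1 - (r2 - r0) / (r1 - r0)‖ = 1 := by
    have : 1 - (r2 - r0) / (r1 - r0) = (r1 - r2) / (r1 - r0) := by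
      field_simp
      ring
    rw [this, norm_div, hn12, div_self hδ.ne']
  refine ⟨![0, 1, (r2 - r0) / (r1 - r0)], A - C r0 * B, C (r1 - r0) * B, C d * G, ?_, ?_, ?_, ?_,
    ?_, ?_⟩
  · intro i
    fin_cases i
    · simp
    · simp
    · simpa using he2.le
  · intro i j hij
    fin_cases i <;> fin_cases j
    · exact absurd rfl hij
    · simp
    · simpa using he2
    · simp
    · exact absurd rfl hij
    · simpa using he12
    · simpa using he2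
    · have : ‖(r2 - r0) / (r1 - r0) - 1‖ = 1 := by rw [norm_sub_rev]; exact he12
      simpa using this
    · exact absurd rfl hij
  · have hu : IsUnit (C (r1 - r0) : K[X]) := isUnit_C.2 (isUnit_iff_ne_zero.2 h10)
    have h1 : IsCoprime (A - C r0 * B) B := by
      have := hAB.add_mul_right_left (-C r0)
      rwa [show A + -C r0 * B = A - C r0 * B by ring] at this
    exact (isCoprime_mul_unit_left_right hu _ _).2 h1
  · rintro ⟨hA, hB⟩
    apply hnc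
    have hB' : B.natDegree = 0 := by
      rwa [natDegree_C_mul h10] at hB
    refine ⟨?_, hB'⟩
    obtain ⟨u, hu⟩ := natDegree_eq_zero.1 hA
    obtain ⟨v, hv⟩ := natDegree_eq_zero.1 hB'
    have : A = C (u + r0 * v) := by
      rw [C_add, C_mul, hu, hv]
      ring
    rw [this]
    exact natDegree_C _
  · have hC : C (r1 - r0) = (C d : K[X]) ^ 2 := by
      rw [hd2, C_mul, sq]
    have hcancel : C ((r2 - r0) / (r1 - r0)) * (C (r1 - r0) * B) = C (r2 - r0) * B := by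
      rw [← mul_assoc, ← C_mul, div_mul_cancel₀ _ h10]
    simp only [Matrix.cons_val_zero, Matrix.cons_val_one, Matrix.cons_val]
    rw [hcancel]
    have hexp : B * ((A - C r0 * B) * (A - C r1 * B) * (A - C r2 * B)) = f * G ^ 2 := by
      rw [← heq, h2, h4, h6]
      simp only [C_neg, C_add, C_mul]
      ring
    have : C (r1 - r0) * B * ((A - C r0 * B - C 0 * (C (r1 - r0) * B)) *
        (A - C r0 * B - C 1 * (C (r1 - r0) * B)) * (A - C r0 * B - C (r2 - r0) * B)) =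
        C (r1 - r0) * (B * ((A - C r0 * B) * (A - C r1 * B) * (A - C r2 * B))) := by
      simp only [C_0, C_1, C_sub]
      ring
    rw [this, hexp, hC]
    ring
  · intro α β hαβ
    refine ⟨α - r0 * β, β * (r1 - r0), ?_, ?_⟩
    · by_cases hβ : β = 0
      · left
        rcases hαβ with h | h
        · rw [hβ, mul_zero, sub_zero]
          exact h
        · exact absurd hβ h
      · right
        exact mul_ne_zero hβ h10
    · intro x hx
      simp only [eval_sub, eval_mul, eval_C]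
      linear_combination (r1 - r0) * hx

end UE97
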