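import Mathlib

/-!
# Finite sets of rational numbers in which every point sees few `p`-adic distances
-/

namespace UE97

private theorem UC_sub_lt {p : ℕ} [Fact p.Prime] {x y c r : ℚ} (h1 : padicNorm p (x - c) < r)
    (h2 : padicNorm p (y - c) < r) : padicNorm p (x - y) < r := by
  have h3 : x - y = (x - c) - (y - c) := by ring
  rw [h3]
  exact lt_of_le_of_lt (padicNorm.sub (p := p)) (max_lt h1 h2)

/-- the reduction map -/
private noncomputable def UC_phi (p : ℕ) [Fact p.Prime] (c₀ : ℚ) (k : ℤ) (x : ℚ) : ZMod p :=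
  if h : ‖(((x - c₀) * (p : ℚ) ^ k : ℚ) : ℚ_[p])‖ ≤ 1 then
    PadicInt.toZMod (⟨(((x - c₀) * (p : ℚ) ^ k : ℚ) : ℚ_[p]), h⟩ : ℤ_[p])
  else 0

private theorem UC_norm {p : ℕ} [Fact p.Prime] (z : ℚ) (k : ℤ) :
    padicNorm p (z * (p : ℚ) ^ k) = padicNorm p z * (p : ℚ) ^ (-k) := by
  have hp : (p : ℚ) ≠ 0 := by
    exact_mod_cast (Fact.out : p.Prime).ne_zero
  rw [padicNorm.mul]
  congr 1
  rw [padicNorm.eq_zpow_of_nonzero (zpow_ne_zero _ hp), padicValRat.zpow]
  simp [padicValRat.self (Fact.out : p.Prime).one_lt]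

private theorem UC_phi_eq {p : ℕ} [Fact p.Prime] {c₀ : ℚ} {k : ℤ} {r : ℚ}
    (hr : r = (p : ℚ) ^ k) {x y : ℚ}
    (hx : padicNorm p (x - c₀) ≤ r) (hy : padicNorm p (y - c₀) ≤ r)
    (h : UC_phi p c₀ k x = UC_phi p c₀ k y) : padicNorm p (x - y) < r := by
  have hp : (p : ℚ) ≠ 0 := by
    exact_mod_cast (Fact.out : p.Prime).ne_zero
  have hp0 : (0 : ℚ) < p := by
    exact_mod_cast (Fact.out : p.Prime).pos
  have hrpos : 0 < r := by rw [hr]; exact zpow_pos hp0 _
  have aux : ∀ z : ℚ, padicNorm p (z - c₀) ≤ r →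
      ‖(((z - c₀) * (p : ℚ) ^ k : ℚ) : ℚ_[p])‖ ≤ 1 := by
    intro z hz
    rw [Padic.eq_padicNorm, UC_norm]
    have h1 : padicNorm p (z - c₀) * (p : ℚ) ^ (-k) ≤ 1 := by
      rw [zpow_neg, ← hr, ← div_eq_mul_inv, div_le_one hrpos]
      exact hz
    exact_mod_cast h1
  have hx1 := aux x hx
  have hy1 := aux y hy
  rw [UC_phi, UC_phi, dif_pos hx1, dif_pos hy1] at h
  obtain ⟨u, hu⟩ : ∃ u : ℤ_[p], u = ⟨(((x - c₀) * (p : ℚ) ^ k : ℚ) : ℚ_[p]), hx1⟩ := ⟨_, rfl⟩
  obtain ⟨v, hv⟩ : ∃ v : ℤ_[p], v = ⟨(((y - c₀) * (p : ℚ) ^ k : ℚ) : ℚ_[p]), hy1⟩ := ⟨_, rfl⟩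
  have hu' : (u : ℚ_[p]) = (((x - c₀) * (p : ℚ) ^ k : ℚ) : ℚ_[p]) := by rw [hu]
  have hv' : (v : ℚ_[p]) = (((y - c₀) * (p : ℚ) ^ k : ℚ) : ℚ_[p]) := by rw [hv]
  rw [← hu, ← hv] at h
  have h2 : u - v ∈ RingHom.ker (PadicInt.toZMod (p := p)) := by
    rw [RingHom.mem_ker, map_sub, h, sub_self]
  rw [PadicInt.ker_toZMod, IsLocalRing.mem_maximalIdeal, PadicInt.mem_nonunits] at h2
  rw [PadicInt.norm_def] at h2
  have h3 : ((u - v : ℤ_[p]) : ℚ_[p]) = (((x - y) * (p : ℚ) ^ k : ℚ) : ℚ_[p]) := by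
    rw [PadicInt.coe_sub, hu', hv']
    push_cast
    ring
  rw [h3, Padic.eq_padicNorm, UC_norm] at h2
  have h4 : padicNorm p (x - y) * (p : ℚ) ^ (-k) < 1 := by exact_mod_cast h2
  rw [zpow_neg, ← hr, ← div_eq_mul_inv, div_lt_one hrpos] at h4
  exact h4

/-- If in the finite set `Y ⊂ ℚ` every point `c ∈ Y` has at most `D` different distances
`padicNorm p (x - c)`, `x ∈ Y`, `x ≠ c`, to the other points, then `Y` has at most `p ^ D`
elements.
Proof by induction on `D` (for all `Y`). If `Y` has at most one element: clear. Otherwise let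
`r = p ^ (-k)` be the largest distance between two different points of `Y`. Every `c ∈ Y` sees the
distance `r` (if `|x - y| = r` then `|x - c| = r` or `|y - c| = r`), in particular `1 ≤ D`.
Fix `c₀ ∈ Y`; the map `Y → ZMod p`, `x ↦ ((x - c₀) / p ^ k mod p)` (`PadicInt.toZMod`, or
`Rat` numerators and denominators) has fibres in which all distances are `< r`; in each fibre every
point sees at most `D - 1` distances. So `|Y| ≤ p * p ^ (D - 1)`. -/
theorem card_le_of_few_distances (p : ℕ) [Fact p.Prime] (D : ℕ) (Y : Finset ℚ)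
    (h : ∀ c ∈ Y, ((Y.erase c).image (fun x => padicNorm p (x - c))).card ≤ D) :
    Y.card ≤ p ^ D := by
  classical
  have hp0 : (0 : ℚ) < p := by
    exact_mod_cast (Fact.out : p.Prime).pos
  have hp1 : 0 < p := (Fact.out : p.Prime).pos
  induction D generalizing Y with
  | zero =>
    rw [pow_zero, Finset.card_le_one]
    intro a ha b hb
    by_contra hab
    have h1 := h a ha
    rw [Nat.le_zero, Finset.card_eq_zero, Finset.image_eq_empty] at h1
    have : b ∈ Y.erase a := Finset.mem_erase.2 ⟨fun h => hab h.symm, hb⟩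
    rw [h1] at this
    exact absurd this (Finset.notMem_empty _)
  | succ D ih =>
    by_cases hY : Y.card ≤ 1
    · exact hY.trans (Nat.one_le_pow _ _ hp1)
    push Not at hY
    obtain ⟨a0, ha0, b0, hb0, hab0⟩ := Finset.one_lt_card.1 hY
    -- the largest distance
    set P : Finset (ℚ × ℚ) := (Y ×ˢ Y).filter (fun q => q.1 ≠ q.2) with hP
    have hPne : P.Nonempty := ⟨(a0, b0), by simp [hP, ha0, hb0, hab0]⟩
    obtain ⟨⟨x0, y0⟩, hxy0, hmax⟩ := P.exists_max_image (fun q => padicNorm p (q.1 - q.2)) hPne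
    simp only [hP, Finset.mem_filter, Finset.mem_product] at hxy0
    obtain ⟨⟨hx0, hy0⟩, hne0⟩ := hxy0
    set r : ℚ := padicNorm p (x0 - y0) with hr
    have hmax' : ∀ x ∈ Y, ∀ y ∈ Y, padicNorm p (x - y) ≤ r := by
      intro x hx y hy
      by_cases hxy : x = y
      · rw [hxy, sub_self, padicNorm.zero]
        exact padicNorm.nonneg _
      · exact hmax (x, y) (by simp [hP, hx, hy, hxy])
    have hrval : r = (p : ℚ) ^ (-padicValRat p (x0 - y0)) :=
      padicNorm.eq_zpow_of_nonzero (sub_ne_zero.2 hne0)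
    have hrpos : 0 < r := by rw [hrval]; exact zpow_pos hp0 _
    set k : ℤ := -padicValRat p (x0 - y0) with hk
    -- fibres
    have hfib : ∀ z : ZMod p, (Y.filter (fun x => UC_phi p x0 k x = z)).card ≤ p ^ D := by
      intro z
      apply ih
      intro c hc
      rw [Finset.mem_filter] at hc
      have hsee : r ∈ (Y.erase c).image (fun x => padicNorm p (x - c)) := by
        rw [Finset.mem_image]
        by_cases h1 : padicNorm p (x0 - c) = r
        · refine ⟨x0, Finset.mem_erase.2 ⟨?_, hx0⟩, h1⟩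
          rintro rfl
          rw [sub_self, padicNorm.zero] at h1
          exact hrpos.ne h1
        by_cases h2 : padicNorm p (y0 - c) = r
        · refine ⟨y0, Finset.mem_erase.2 ⟨?_, hy0⟩, h2⟩
          rintro rfl
          rw [sub_self, padicNorm.zero] at h2
          exact hrpos.ne h2
        exfalso
        have h3 := lt_of_le_of_ne (hmax' x0 hx0 c hc.1) h1
        have h4 := lt_of_le_of_ne (hmax' y0 hy0 c hc.1) h2
        exact lt_irrefl _ (UC_sub_lt h3 h4)
      have hsub : (((Y.filter (fun x => UC_phi p x0 k x = z)).erase c).image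
          (fun x => padicNorm p (x - c))) ⊆
          ((Y.erase c).image (fun x => padicNorm p (x - c))).erase r := by
        intro d hd
        rw [Finset.mem_image] at hd
        obtain ⟨x, hx, rfl⟩ := hd
        rw [Finset.mem_erase, Finset.mem_filter] at hx
        rw [Finset.mem_erase, Finset.mem_image]
        refine ⟨?_, x, Finset.mem_erase.2 ⟨hx.1, hx.2.1⟩, rfl⟩
        apply ne_of_lt
        exact UC_phi_eq hrval (hmax' x hx.2.1 x0 hx0) (hmax' c hc.1 x0 hx0)
          (hx.2.2.trans hc.2.symm)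
      have h5 := Finset.card_le_card hsub
      rw [Finset.card_erase_of_mem hsee] at h5
      have h6 := h c hc.1
      omega
    have h7 : Y.card = ∑ z : ZMod p, (Y.filter (fun x => UC_phi p x0 k x = z)).card :=
      Finset.card_eq_sum_card_fiberwise (fun _ _ => Finset.mem_coe.2 (Finset.mem_univ _))
    rw [h7]
    refine (Finset.sum_le_card_nsmul _ _ _ (fun z _ => hfib z)).trans ?_
    rw [Finset.card_univ, ZMod.card, smul_eq_mul, pow_succ, mul_comm]

end UE97
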