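import Mathlib

/-!
# Divisibility of the Wronskian
-/

namespace UE97

open Polynomial

variable {K : Type*} [Field K]

/-- a high power of `X - γ` dividing `L` gives half of it in the Wronskian with `M` -/
lemma wrA_pow_dvd {L M : K[X]} {γ : K} {μ : ℕ} (h : (X - C γ) ^ (2 * μ) ∣ L) :
    (X - C γ) ^ μ ∣ derivative L * M - L * derivative M := by
  rcases Nat.eq_zero_or_pos μ with h0 | h0
  · subst h0; simp
  · have h1 : (X - C γ) ^ μ ∣ L := dvd_trans (pow_dvd_pow _ (by omega)) h
    have h2 : (X - C γ) ^ (2 * μ - 1) ∣ derivative L := pow_sub_one_dvd_derivative_of_pow_dvd h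
    have h3 : (X - C γ) ^ μ ∣ derivative L := dvd_trans (pow_dvd_pow _ (by omega)) h2
    exact dvd_sub (Dvd.dvd.mul_right h3 _) (Dvd.dvd.mul_right h1 _)

lemma wrA_coprime {M : K[X]} {γ : K} (n : ℕ) (h : M.eval γ ≠ 0) :
    IsCoprime ((X - C γ) ^ n) M := by
  apply IsCoprime.pow_left
  rw [Irreducible.coprime_iff_not_dvd (irreducible_X_sub_C γ), dvd_iff_isRoot]
  exact h

/-- `G` divides the Wronskian. Proof (`K` algebraically closed): compare the multiplicities of each
root `γ` of `G`, `μ = rootMultiplicity γ G ≥ 1`. The four polynomials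
`B, A - e₀ B, A - e₁ B, A - e₂ B` are pairwise coprime, so exactly one of them, `L`, vanishes at
`γ`, and `(X - C γ) ^ (2 μ)` divides `L`. Let `M` be another of the four; the Wronskian
`A' B - A B'` is, up to a nonzero constant, `L' M - L M'`, which is divisible by
`(X - C γ) ^ (2 μ - 1)`, and `2 μ - 1 ≥ μ`. Conclude with `Polynomial.dvd_of_roots`-like lemmas
(e.g. `Polynomial.Splits.dvd_iff_roots_le_roots`, `Multiset.le_iff_count`, `count_roots`), or
induct. -/
theorem dvd_wronskian [IsAlgClosed K] [CharZero K] {e : Fin 3 → K} (he : Function.Injective e)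
    {A B G f : K[X]} (hAB : IsCoprime A B) (hG : G ≠ 0)
    (heq : B * ((A - C (e 0) * B) * (A - C (e 1) * B) * (A - C (e 2) * B)) = f * G ^ 2) :
    G ∣ derivative A * B - A * derivative B := by
  classical
  by_cases hW : derivative A * B - A * derivative B = 0
  · rw [hW]; exact dvd_zero _
  rw [IsAlgClosed.dvd_iff_roots_le_roots hG hW, Multiset.le_iff_count]
  intro γ
  rw [count_roots, count_roots, le_rootMultiplicity_iff hW]
  set μ := rootMultiplicity γ G with hμ
  have hnz : A.eval γ ≠ 0 ∨ B.eval γ ≠ 0 := by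
    by_contra hcon
    push Not at hcon
    obtain ⟨a, b, hab⟩ := hAB
    have := congrArg (Polynomial.eval γ) hab
    simp [hcon.1, hcon.2] at this
  have hdvd : (X - C γ) ^ (2 * μ) ∣
      B * ((A - C (e 0) * B) * (A - C (e 1) * B) * (A - C (e 2) * B)) := by
    rw [heq, mul_comm 2 μ, pow_mul]
    exact Dvd.dvd.mul_left (pow_dvd_pow_of_dvd (pow_rootMultiplicity_dvd G γ) 2) f
  -- the Wronskian in terms of `A - c B` and `B`
  have hWc : ∀ c : K, derivative A * B - A * derivative B =
      derivative (A - C c * B) * B - (A - C c * B) * derivative B := by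
    intro c
    rw [derivative_sub, derivative_C_mul]
    ring
  have hWB : derivative A * B - A * derivative B =
      -(derivative B * A - B * derivative A) := by ring
  have hcase : ∀ c : K, (X - C γ) ^ (2 * μ) ∣ A - C c * B →
      (X - C γ) ^ μ ∣ derivative A * B - A * derivative B := by
    intro c hc
    rw [hWc c]
    exact wrA_pow_dvd hc
  by_cases hB : B.eval γ = 0
  · have hA : A.eval γ ≠ 0 := by
      rcases hnz with h | h
      · exact h
      · exact absurd hB h
    have hev : ((A - C (e 0) * B) * (A - C (e 1) * B) * (A - C (e 2) * B)).eval γ ≠ 0 := by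
      simp [hB, hA]
    have h1 : (X - C γ) ^ (2 * μ) ∣ B := (wrA_coprime _ hev).dvd_of_dvd_mul_right hdvd
    rw [hWB]
    exact (wrA_pow_dvd h1).neg_right
  · -- `(X - γ)^(2 μ)` divides the product of the three factors
    have h0 := (wrA_coprime (2 * μ) hB).dvd_of_dvd_mul_left hdvd
    have hne : ∀ i j : Fin 3, i ≠ j → (A - C (e i) * B).eval γ = 0 →
        (A - C (e j) * B).eval γ ≠ 0 := by
      intro i j hij h1 h2
      simp only [eval_sub, eval_mul, eval_C] at h1 h2
      have h3 : (e i - e j) * B.eval γ = 0 := by linear_combination h2 - h1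
      rcases mul_eq_zero.1 h3 with h | h
      · exact hij (he (sub_eq_zero.1 h))
      · exact hB h
    by_cases hc2 : (A - C (e 2) * B).eval γ = 0
    · have h1 : ((A - C (e 0) * B) * (A - C (e 1) * B)).eval γ ≠ 0 := by
        rw [eval_mul]
        exact mul_ne_zero (hne 2 0 (by decide) hc2) (hne 2 1 (by decide) hc2)
      exact hcase _ ((wrA_coprime _ h1).dvd_of_dvd_mul_left h0)
    · have h1 := (wrA_coprime (2 * μ) hc2).dvd_of_dvd_mul_right h0
      by_cases hc1 : (A - C (e 1) * B).eval γ = 0
      · exact hcase _ ((wrA_coprime _ (hne 1 0 (by decide) hc1)).dvd_of_dvd_mul_left h1)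
      · exact hcase _ ((wrA_coprime (2 * μ) hc1).dvd_of_dvd_mul_right h1)

end UE97
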