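import Mathlib
import Pool.Agent.Lib.MP_10e784_ag.EQ.Dat
import Pool.Agent.Lib.MP_10e784_ag.EQ.WrA

/-!
# The pull-back of the invariant differential
-/

namespace UE97

open Polynomial

variable {K : Type*} [Field K]

/-- The Wronskian of a nonconstant fraction is not zero (characteristic zero). Proof: if
`A' B = A B'` then `A ∣ A' B`, so `A ∣ A'` by coprimality, so `A' = 0`; in the same way `B' = 0`. -/
theorem wronskian_ne_zero [CharZero K] {A B : K[X]} (hAB : IsCoprime A B)
    (hnc : ¬ (A.natDegree = 0 ∧ B.natDegree = 0)) :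
    derivative A * B - A * derivative B ≠ 0 := by
  intro h
  apply hnc
  have h1 : wronskian A B = 0 := by
    rw [wronskian]
    linear_combination -h
  obtain ⟨hA, hB⟩ := hAB.wronskian_eq_zero_iff.1 h1
  exact ⟨natDegree_eq_zero_of_derivative_eq_zero hA, natDegree_eq_zero_of_derivative_eq_zero hB⟩

/-- Degree of the Wronskian: `deg (L' M - L M') < deg L + deg M`. With
`D = max (natDegree A) (natDegree B)`: at most one of the four polynomials
`B, A - eᵢ B` has degree `< D`; let `D - δ` be the smallest of their degrees. Then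
`natDegree f + 2 * natDegree G = 4 D - δ`, and the degree of `W = A' B - A B'` is at most
`(D - δ) + D - 1` (use `W = ± const (L' M - L M')` with `L` of degree `D - δ`). -/
theorem natDegree_quotient {e : Fin 3 → K} (he : Function.Injective e)
    {A B G f h : K[X]} (hAB : IsCoprime A B) (hf : f ≠ 0) (hG : G ≠ 0) (hh : h ≠ 0)
    (heq : B * ((A - C (e 0) * B) * (A - C (e 1) * B) * (A - C (e 2) * B)) = f * G ^ 2)
    (hw : derivative A * B - A * derivative B = h * G) :
    2 * h.natDegree + 2 ≤ f.natDegree := by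
  have hfG : f * G ^ 2 ≠ 0 := mul_ne_zero hf (pow_ne_zero 2 hG)
  rw [← heq] at hfG
  have hB0 : B ≠ 0 := left_ne_zero_of_mul hfG
  have h3 := right_ne_zero_of_mul hfG
  have h20 : A - C (e 2) * B ≠ 0 := right_ne_zero_of_mul h3
  have h01 := left_ne_zero_of_mul h3
  have h00 : A - C (e 0) * B ≠ 0 := left_ne_zero_of_mul h01
  have h10 : A - C (e 1) * B ≠ 0 := right_ne_zero_of_mul h01
  have hdeg : B.natDegree + ((A - C (e 0) * B).natDegree + (A - C (e 1) * B).natDegree +
      (A - C (e 2) * B).natDegree) = f.natDegree + 2 * G.natDegree := by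
    have h1 := congrArg natDegree heq
    rw [natDegree_mul hB0 h3, natDegree_mul h01 h20, natDegree_mul h00 h10,
      natDegree_mul hf (pow_ne_zero 2 hG), natDegree_pow] at h1
    exact h1
  have hW1 : wronskian (A - C (e 0) * B) B = -(h * G) := by
    rw [wronskian, ← hw, derivative_sub, derivative_C_mul]
    ring
  have hW2 : wronskian (A - C (e 1) * B) (A - C (e 2) * B) = C (e 2 - e 1) * (h * G) := by
    rw [wronskian, ← hw, derivative_sub, derivative_C_mul, derivative_sub, derivative_C_mul,
      C_sub]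
    ring
  have hhG : h * G ≠ 0 := mul_ne_zero hh hG
  have hc : e 2 - e 1 ≠ 0 := by
    intro h0
    have := he (sub_eq_zero.1 h0)
    exact absurd this (by decide)
  have hd1 := natDegree_wronskian_lt_add (a := A - C (e 0) * B) (b := B) (by
    rw [hW1]; exact neg_ne_zero.2 hhG)
  have hd2 := natDegree_wronskian_lt_add (a := A - C (e 1) * B) (b := A - C (e 2) * B) (by
    rw [hW2]; exact mul_ne_zero (C_ne_zero.2 hc) hhG)
  rw [hW1, natDegree_neg, natDegree_mul hh hG] at hd1
  rw [hW2, natDegree_C_mul hc, natDegree_mul hh hG] at hd2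
  omega

/-- Summary. -/
theorem exists_isDat {K : Type*} [NormedField K] [IsAlgClosed K] [CharZero K] {e : Fin 3 → K}
    (he1 : ∀ i, ‖e i‖ ≤ 1) (he2 : ∀ i j, i ≠ j → ‖e i - e j‖ = 1)
    {A B G f : K[X]} (hAB : IsCoprime A B) (hnc : ¬ (A.natDegree = 0 ∧ B.natDegree = 0))
    (heq : B * ((A - C (e 0) * B) * (A - C (e 1) * B) * (A - C (e 2) * B)) = f * G ^ 2) :
    ∃ h : K[X], IsDat e A B G f h ∧ 2 * h.natDegree + 2 ≤ f.natDegree := by
  have hW := wronskian_ne_zero hAB hnc
  have hinj : Function.Injective e := by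
    intro i j hij
    by_contra hne
    have := he2 i j hne
    rw [hij, sub_self, norm_zero] at this
    exact zero_ne_one this
  have hB0 : B ≠ 0 := by
    rintro rfl
    apply hW
    simp
  have hL : ∀ c : K, A - C c * B ≠ 0 := by
    intro c h0
    apply hW
    have hA : A = C c * B := sub_eq_zero.1 h0
    rw [hA, derivative_C_mul]
    ring
  have hprod : B * ((A - C (e 0) * B) * (A - C (e 1) * B) * (A - C (e 2) * B)) ≠ 0 :=
    mul_ne_zero hB0 (mul_ne_zero (mul_ne_zero (hL _) (hL _)) (hL _))
  rw [heq] at hprod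
  have hf : f ≠ 0 := left_ne_zero_of_mul hprod
  have hG : G ≠ 0 := by
    rintro rfl
    apply hprod
    simp
  obtain ⟨h, hh⟩ := dvd_wronskian hinj hAB hG heq
  have hh' : derivative A * B - A * derivative B = h * G := by rw [hh]; ring
  have hh0 : h ≠ 0 := by
    rintro rfl
    apply hW
    rw [hh]; simp
  exact ⟨h, ⟨he1, he2, hAB, heq, hh', hf, hh0, hG⟩,
    natDegree_quotient hinj hAB hf hG hh0 heq hh'⟩

end UE97
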