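import Mathlib
import Pool.Agent.Lib.MP_10e784_ag.EQ.FibA
import Pool.Agent.Lib.MP_10e784_ag.EQ.Wr
import Pool.Agent.Lib.MP_10e784_ag.EQ.Model
import Pool.Agent.Lib.MP_10e784_ag.EQ.UC

/-!
# Uniform bound for the rational points of the fibres
-/

namespace UE97

open Polynomial

/-- **Uniform bound for fibres**, over the algebraic closure of `ℚ_p`. Take the model
(`exists_model`), `exists_isDat`, and combine `distances_le` with
`card_le_of_few_distances`. -/
theorem fibre_bound {p : ℕ} [Fact p.Prime] (hp : p ≠ 2) {g : ℕ} {f : (PadicAlgCl p)[X]}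
    (hfg : f.natDegree ≤ 2 * g + 2) {a2 a4 a6 : PadicAlgCl p}
    (hd : a2 ^ 2 * a4 ^ 2 - 4 * a4 ^ 3 - 4 * a2 ^ 3 * a6 - 27 * a6 ^ 2 + 18 * a2 * a4 * a6 ≠ 0)
    (hj : ‖a2 ^ 2 - 3 * a4‖ ^ 3 ≤
      ‖a2 ^ 2 * a4 ^ 2 - 4 * a4 ^ 3 - 4 * a2 ^ 3 * a6 - 27 * a6 ^ 2 + 18 * a2 * a4 * a6‖)
    {A B G : (PadicAlgCl p)[X]} (hAB : IsCoprime A B)
    (hnc : ¬ (A.natDegree = 0 ∧ B.natDegree = 0))
    (heq : B * (A ^ 3 + C a2 * A ^ 2 * B + C a4 * A * B ^ 2 + C a6 * B ^ 3) = f * G ^ 2)
    {α β : PadicAlgCl p} (hαβ : α ≠ 0 ∨ β ≠ 0) (Y : Finset ℚ)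
    (hY : ∀ x ∈ Y, β * A.eval (x : PadicAlgCl p) = α * B.eval (x : PadicAlgCl p)) :
    Y.card ≤ p ^ bigD g := by
  obtain ⟨e, A', B', G', he1, he2, hAB2, hnc2, heq2, hfib⟩ := exists_model hd hj hAB hnc heq
  obtain ⟨h, D, hdeg⟩ := exists_isDat he1 he2 hAB2 hnc2 heq2
  obtain ⟨α', β', hαβ2, hfib'⟩ := hfib α β hαβ
  refine card_le_of_few_distances p (bigD g) Y fun c hc => ?_
  exact distances_le hp D hfg hdeg hαβ2 Y (fun x hx => hfib' _ (hY x hx)) c hc

private theorem Fib_eval {p : ℕ} [Fact p.Prime] {F : Type*} [Field F] [CharZero F]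
    (σ : F →+* PadicAlgCl p) (A : F[X]) (x : ℚ) :
    (A.map σ).eval (x : PadicAlgCl p) = σ (A.eval (x : F)) := by
  have h : (x : PadicAlgCl p) = σ (x : F) := by simp
  rw [h, Polynomial.eval_map, Polynomial.eval₂_at_apply]

private theorem Fib_two (f : ℚ[X]) (F : Finset (ℚ × ℚ)) (hF : ∀ P ∈ F, P.2 ^ 2 = f.eval P.1) :
    F.card ≤ 2 * (F.image Prod.fst).card := by
  classical
  refine Finset.card_le_mul_card_image F 2 fun x hx => ?_
  obtain ⟨P, hP, rfl⟩ := Finset.mem_image.1 hx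
  have hsub : F.filter (fun a => a.1 = P.1) ⊆ {(P.1, P.2), (P.1, -P.2)} := by
    intro Q hQ
    rw [Finset.mem_filter] at hQ
    have h1 := hF P hP
    have h2 := hF Q hQ.1
    rw [hQ.2, ← h1] at h2
    rcases sq_eq_sq_iff_eq_or_eq_neg.mp h2 with h | h
    · rw [Finset.mem_insert]
      left
      exact Prod.ext hQ.2 h
    · rw [Finset.mem_insert, Finset.mem_singleton]
      right
      exact Prod.ext hQ.2 h
  exact (Finset.card_le_card hsub).trans Finset.card_le_two

/-- **Uniform bound for rational points, polynomial form.** The map is defined over a field `F`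
with an embedding `σ` into `PadicAlgCl p`. If the right side is infinite there
is nothing to prove. A rational point `(x, y)` with `B x ≠ 0` maps to the point
`(A / B, G y / B ^ 2)` of the cubic, and those with `B x = 0` lie in the fibre `(α, β) = (1, 0)`.
So the `x`-coordinates lie in at most `1 + #E` fibres, each with at most `p ^ bigD g` elements
(`fibre_bound`), and each `x` has at most `2` values of `y`. -/
theorem points_bound {p : ℕ} [Fact p.Prime] (hp : p ≠ 2) {g : ℕ} {f : ℚ[X]}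
    (hfg : f.natDegree ≤ 2 * g + 2) {F : Type*} [Field F] [CharZero F]
    (σ : F →+* PadicAlgCl p) {a2 a4 a6 : F}
    (hd : a2 ^ 2 * a4 ^ 2 - 4 * a4 ^ 3 - 4 * a2 ^ 3 * a6 - 27 * a6 ^ 2 + 18 * a2 * a4 * a6 ≠ 0)
    (hj : ‖σ (a2 ^ 2 - 3 * a4)‖ ^ 3 ≤
      ‖σ (a2 ^ 2 * a4 ^ 2 - 4 * a4 ^ 3 - 4 * a2 ^ 3 * a6 - 27 * a6 ^ 2 + 18 * a2 * a4 * a6)‖)
    {A B G : F[X]} (hAB : IsCoprime A B) (hnc : ¬ (A.natDegree = 0 ∧ B.natDegree = 0))
    (heq : B * (A ^ 3 + C a2 * A ^ 2 * B + C a4 * A * B ^ 2 + C a6 * B ^ 3) =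
      f.map (algebraMap ℚ F) * G ^ 2) :
    {P : ℚ × ℚ | P.2 ^ 2 = f.eval P.1}.encard ≤
      ((2 * p ^ bigD g : ℕ) : ℕ∞) *
        (1 + {Q : F × F | Q.2 ^ 2 = Q.1 ^ 3 + a2 * Q.1 ^ 2 + a4 * Q.1 + a6}.encard) := by
  classical
  have hp0 : 0 < p := (Fact.out : p.Prime).pos
  have hfib : ∀ (α β : F), (α ≠ 0 ∨ β ≠ 0) → ∀ Y : Finset ℚ,
      (∀ x ∈ Y, β * A.eval (x : F) = α * B.eval (x : F)) → Y.card ≤ p ^ bigD g := by
    intro α β hαβ Y hY
    have hd' := (map_ne_zero σ).2 hd
    simp only [map_add, map_sub, map_mul, map_pow, map_ofNat] at hd' hj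
    refine fibre_bound hp (g := g) (f := f.map (algebraMap ℚ (PadicAlgCl p)))
      (by rwa [natDegree_map]) hd' hj (A := A.map σ) (B := B.map σ) (G := G.map σ)
      (hAB.map (mapRingHom σ)) (by rwa [natDegree_map, natDegree_map]) ?_
      (α := σ α) (β := σ β) ?_ Y ?_
    · have h := congrArg (Polynomial.map σ) heq
      simp only [Polynomial.map_mul, Polynomial.map_add, Polynomial.map_pow, Polynomial.map_C,
        Polynomial.map_map] at h
      rw [h]
      congr 2
      exact Subsingleton.elim _ _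
    · rcases hαβ with h | h
      · exact Or.inl ((map_ne_zero σ).2 h)
      · exact Or.inr ((map_ne_zero σ).2 h)
    · intro x hx
      rw [Fib_eval, Fib_eval, ← map_mul, ← map_mul, hY x hx]
  set E := {Q : F × F | Q.2 ^ 2 = Q.1 ^ 3 + a2 * Q.1 ^ 2 + a4 * Q.1 + a6} with hE
  by_cases hfin : E.Finite
  swap
  · have h1 : E.encard = ⊤ := Set.encard_eq_top hfin
    rw [h1, add_top, ENat.mul_top]
    · exact le_top
    · have : 2 * p ^ bigD g ≠ 0 := by positivity
      exact_mod_cast this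
  set n := hfin.toFinset.card with hn
  have h1 : E.encard = (n : ℕ∞) := hfin.encard_eq_coe_toFinset_card
  rw [h1]
  -- finite subsets
  have hfinsub : ∀ T : Finset (ℚ × ℚ), (∀ P ∈ T, P.2 ^ 2 = f.eval P.1) →
      T.card ≤ 2 * p ^ bigD g * (1 + n) := by
    intro T hT
    set φ : ℚ × ℚ → Option (F × F) := fun P => if B.eval (P.1 : F) = 0 then none else
      some (A.eval (P.1 : F) / B.eval (P.1 : F),
        G.eval (P.1 : F) * P.2 / (B.eval (P.1 : F)) ^ 2) with hφ
    set t : Finset (Option (F × F)) := insert none (hfin.toFinset.image some) with ht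
    have htc : t.card ≤ 1 + n := by
      refine (Finset.card_insert_le _ _).trans ?_
      have := Finset.card_image_le (s := hfin.toFinset) (f := (some : F × F → Option (F × F)))
      omega
    have hmaps : ∀ P ∈ T, φ P ∈ t := by
      intro P hP
      rw [hφ, ht]
      by_cases hB : B.eval (P.1 : F) = 0
      · simp [hB]
      · simp only [if_neg hB]
        rw [Finset.mem_insert]
        right
        rw [Finset.mem_image]
        refine ⟨_, ?_, rfl⟩
        rw [Set.Finite.mem_toFinset, hE, Set.mem_ofPred_eq]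
        have h2 : ((P.2 : F)) ^ 2 = (f.map (algebraMap ℚ F)).eval (P.1 : F) := by
          have h2' := congrArg (algebraMap ℚ F) (hT P hP)
          rw [map_pow, ← Polynomial.eval₂_at_apply, ← Polynomial.eval_map] at h2'
          simpa using h2'
        have h3 := congrArg (Polynomial.eval (P.1 : F)) heq
        simp only [eval_mul, eval_add, eval_pow, eval_C] at h3
        rw [div_pow, mul_pow, h2]
        field_simp
        linear_combination -h3
    have hfibs : ∀ b ∈ t, (T.filter (fun a => φ a = b)).card ≤ 2 * p ^ bigD g := by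
      intro b _
      have hF' : ∀ P ∈ T.filter (fun a => φ a = b), P.2 ^ 2 = f.eval P.1 :=
        fun P hP => hT P (Finset.mem_filter.1 hP).1
      refine (Fib_two f _ hF').trans (Nat.mul_le_mul_left _ ?_)
      rcases b with _ | ⟨u, v⟩
      · refine hfib 1 0 (Or.inl one_ne_zero) _ ?_
        intro x hx
        obtain ⟨P, hP, rfl⟩ := Finset.mem_image.1 hx
        have h4 := (Finset.mem_filter.1 hP).2
        rw [hφ] at h4
        by_cases hB : B.eval (P.1 : F) = 0
        · rw [hB]; ring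
        · simp [hB] at h4
      · refine hfib u 1 (Or.inr one_ne_zero) _ ?_
        intro x hx
        obtain ⟨P, hP, rfl⟩ := Finset.mem_image.1 hx
        have h4 := (Finset.mem_filter.1 hP).2
        rw [hφ] at h4
        by_cases hB : B.eval (P.1 : F) = 0
        · simp [hB] at h4
        · simp only [if_neg hB, Option.some.injEq, Prod.mk.injEq] at h4
          rw [← h4.1]
          field_simp
    calc T.card ≤ 2 * p ^ bigD g * t.card := Finset.card_le_mul_card_image_of_maps_to hmaps _ hfibs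
      _ ≤ _ := Nat.mul_le_mul_left _ htc
  by_contra hcon
  push Not at hcon
  have h2 : ((2 * p ^ bigD g * (1 + n) + 1 : ℕ) : ℕ∞) ≤
      {P : ℚ × ℚ | P.2 ^ 2 = f.eval P.1}.encard := by
    have h3 : ((2 * p ^ bigD g * (1 + n) : ℕ) : ℕ∞) < {P : ℚ × ℚ | P.2 ^ 2 = f.eval P.1}.encard := by
      refine lt_of_eq_of_lt ?_ hcon
      push_cast
      ring
    have h4 := Order.add_one_le_of_lt h3
    exact_mod_cast h4
  obtain ⟨T, hT1, hT2⟩ := Set.exists_subset_encard_eq h2
  have hTfin : T.Finite := Set.finite_of_encard_eq_coe hT2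
  have h5 := hfinsub hTfin.toFinset (fun P hP => hT1 (hTfin.mem_toFinset.1 hP))
  rw [hTfin.encard_eq_coe_toFinset_card] at hT2
  have h6 : hTfin.toFinset.card = 2 * p ^ bigD g * (1 + n) + 1 := by exact_mod_cast hT2
  omega

end UE97
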