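import Mathlib
import Pool.Agent.Lib.MP_10e784_ag.EQ.Four

/-!
# Points of an elliptic curve over the field of rational functions
-/

namespace UE97

open Polynomial

/-- The discriminant of `X ^ 3 + a2 X ^ 2 + a4 X + a6`. -/
def cdisc {F : Type*} [Field F] (a2 a4 a6 : F) : F :=
  a2 ^ 2 * a4 ^ 2 - 4 * a4 ^ 3 - 4 * a2 ^ 3 * a6 - 27 * a6 ^ 2 + 18 * a2 * a4 * a6

variable {F : Type*} [Field F] [CharZero F]

/-- the three roots of a cubic over an algebraically closed field -/
private lemma GenA_roots {K : Type*} [Field K] [IsAlgClosed K] (a2 a4 a6 : K) :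
    ∃ r0 r1 r2 : K, a2 = -(r0 + r1 + r2) ∧ a4 = r0 * r1 + r0 * r2 + r1 * r2 ∧
      a6 = -(r0 * r1 * r2) := by
  obtain ⟨r0, h0⟩ : ∃ r0 : K, r0 ^ 3 + a2 * r0 ^ 2 + a4 * r0 + a6 = 0 := by
    have hdeg : (X ^ 3 + C a2 * X ^ 2 + C a4 * X + C a6 : K[X]).degree = 3 := by
      compute_degree!
    obtain ⟨r, hr⟩ := IsAlgClosed.exists_root (X ^ 3 + C a2 * X ^ 2 + C a4 * X + C a6 : K[X])
      (by rw [hdeg]; norm_num)
    refine ⟨r, ?_⟩
    simpa [IsRoot] using hr
  obtain ⟨r1, h1⟩ : ∃ r1 : K, r1 ^ 2 + (a2 + r0) * r1 + (a4 + a2 * r0 + r0 ^ 2) = 0 := by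
    have hdeg : (X ^ 2 + C (a2 + r0) * X + C (a4 + a2 * r0 + r0 ^ 2) : K[X]).degree = 2 := by
      compute_degree!
    obtain ⟨r, hr⟩ := IsAlgClosed.exists_root
      (X ^ 2 + C (a2 + r0) * X + C (a4 + a2 * r0 + r0 ^ 2) : K[X]) (by rw [hdeg]; norm_num)
    refine ⟨r, ?_⟩
    simpa only [IsRoot, eval_add, eval_mul, eval_pow, eval_X, eval_C] using hr
  refine ⟨r0, r1, -(a2 + r0) - r1, by ring, ?_, ?_⟩
  · linear_combination h1
  · linear_combination h0 - r0 * h1

/-- a rational function with constant numerator and denominator is constant -/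
private lemma GenA_const {R : RatFunc F} (h : R.num.natDegree = 0 ∧ R.denom.natDegree = 0) :
    ∃ r : F, R = RatFunc.C r := by
  obtain ⟨a, ha⟩ := natDegree_eq_zero.1 h.1
  obtain ⟨b, hb⟩ := natDegree_eq_zero.1 h.2
  refine ⟨a / b, ?_⟩
  rw [map_div₀, ← RatFunc.algebraMap_C, ← RatFunc.algebraMap_C, ha, hb]
  exact (RatFunc.num_div_denom R).symm

/-- clearing denominators -/
private lemma GenA_clear {R T : RatFunc F} {a2 a4 a6 : F} (S : RatFunc F)
    (hT : T = S * (algebraMap F[X] (RatFunc F) R.denom) ^ 2) (f : F[X])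
    (h : algebraMap F[X] (RatFunc F) f * S ^ 2 =
      R ^ 3 + RatFunc.C a2 * R ^ 2 + RatFunc.C a4 * R + RatFunc.C a6) :
    algebraMap F[X] (RatFunc F) f * T ^ 2 = algebraMap F[X] (RatFunc F)
      (R.denom * (R.num ^ 3 + C a2 * R.num ^ 2 * R.denom + C a4 * R.num * R.denom ^ 2 +
        C a6 * R.denom ^ 3)) := by
  have hB : algebraMap F[X] (RatFunc F) R.denom ≠ 0 :=
    RatFunc.algebraMap_ne_zero R.denom_ne_zero
  have hR : R * algebraMap F[X] (RatFunc F) R.denom = algebraMap F[X] (RatFunc F) R.num := by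
    have h0 := RatFunc.num_div_denom R
    rw [div_eq_iff hB] at h0
    exact h0.symm
  simp only [map_mul, map_add, map_pow, RatFunc.algebraMap_C]
  rw [← hR, hT]
  set B := algebraMap F[X] (RatFunc F) R.denom with hBdef
  calc algebraMap F[X] (RatFunc F) f * (S * B ^ 2) ^ 2
      = (algebraMap F[X] (RatFunc F) f * S ^ 2) * B ^ 4 := by ring
    _ = (R ^ 3 + RatFunc.C a2 * R ^ 2 + RatFunc.C a4 * R + RatFunc.C a6) * B ^ 4 := by rw [h]
    _ = _ := by ring

/-- Polynomial form. Map to an algebraic closure of `F`, factor the cubic there: the roots are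
different because the discriminant is not zero; apply `const_of_square` with `g = 1`. -/
theorem no_line_poly {a2 a4 a6 : F} (hd : cdisc a2 a4 a6 ≠ 0) {A B H : F[X]}
    (hAB : IsCoprime A B)
    (h : B * (A ^ 3 + C a2 * A ^ 2 * B + C a4 * A * B ^ 2 + C a6 * B ^ 3) = H ^ 2) :
    A.natDegree = 0 ∧ B.natDegree = 0 := by
  set φ : F →+* AlgebraicClosure F := algebraMap F (AlgebraicClosure F) with hφ
  obtain ⟨r0, r1, r2, h2, h4, h6⟩ := GenA_roots (φ a2) (φ a4) (φ a6)
  have hdisc : φ (cdisc a2 a4 a6) = ((r1 - r0) * (r2 - r0) * (r1 - r2)) ^ 2 := by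
    unfold cdisc
    simp only [map_add, map_sub, map_mul, map_pow, map_ofNat]
    rw [h2, h4, h6]
    ring
  have hd' : φ (cdisc a2 a4 a6) ≠ 0 := (map_ne_zero φ).2 hd
  rw [hdisc] at hd'
  have h10 : r1 - r0 ≠ 0 := by
    intro h; apply hd'; rw [h]; ring
  have h20 : r2 - r0 ≠ 0 := by
    intro h; apply hd'; rw [h]; ring
  have h12 : r1 - r2 ≠ 0 := by
    intro h; apply hd'; rw [h]; ring
  have hinj : Function.Injective ![r0, r1, r2] := by
    intro i j hij
    fin_cases i <;> fin_cases j <;> simp at hij ⊢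
    · exact h10 (by rw [hij]; ring)
    · exact h20 (by rw [hij]; ring)
    · exact h10 (by rw [hij]; ring)
    · exact h12 (by rw [hij]; ring)
    · exact h20 (by rw [hij]; ring)
    · exact h12 (by rw [hij]; ring)
  have hcop : IsCoprime (A.map φ) (B.map φ) := by
    have := hAB.map (mapRingHom φ)
    simpa only [coe_mapRingHom] using this
  have hmap : B.map φ * ((A.map φ) ^ 3 + C (φ a2) * (A.map φ) ^ 2 * B.map φ +
      C (φ a4) * A.map φ * (B.map φ) ^ 2 + C (φ a6) * (B.map φ) ^ 3) = (H.map φ) ^ 2 := by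
    have := congrArg (Polynomial.map φ) h
    simpa only [Polynomial.map_mul, Polynomial.map_add, Polynomial.map_pow, Polynomial.map_C]
      using this
  have key := const_of_square (k := AlgebraicClosure F) two_ne_zero hinj hcop one_ne_zero
    (H := H.map φ) (by
      rw [← hmap, h2, h4, h6]
      simp only [Matrix.cons_val_zero, Matrix.cons_val_one, Matrix.cons_val, C_neg, C_add, C_mul]
      ring)
  rwa [natDegree_map, natDegree_map] at key

/-- **An elliptic curve has no nonconstant point over `F(x)`.** With `R = A / B` in lowest terms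
(`RatFunc.num`, `RatFunc.denom`), `(S * B ^ 2) ^ 2 = B * (A ^ 3 + ...)` is a polynomial, so
`S * B ^ 2` is a polynomial (`F[X]` is integrally closed: `IsIntegrallyClosed`, or argue with a
reduced fraction), and `no_line_poly` applies. -/
theorem no_line {a2 a4 a6 : F} (hd : cdisc a2 a4 a6 ≠ 0) {R S : RatFunc F}
    (h : S ^ 2 = R ^ 3 + RatFunc.C a2 * R ^ 2 + RatFunc.C a4 * R + RatFunc.C a6) :
    ∃ r : F, R = RatFunc.C r := by
  have h1 := GenA_clear (a2 := a2) (a4 := a4) (a6 := a6) (R := R) S rfl 1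
    (by rw [map_one, one_mul]; exact h)
  rw [map_one, one_mul] at h1
  obtain ⟨H, hH⟩ := IsIntegrallyClosed.exists_algebraMap_eq_of_isIntegral_pow (R := F[X])
    (n := 2) (by norm_num) (by rw [h1]; exact isIntegral_algebraMap)
  rw [← hH, ← map_pow] at h1
  have h2 := RatFunc.algebraMap_injective F h1
  exact GenA_const (no_line_poly hd (RatFunc.isCoprime_num_denom R) h2.symm)

/-- From rational functions to polynomials. `R = A / B` in lowest terms, `G = S * B ^ 2` satisfies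
`f * G ^ 2 = B * (A ^ 3 + ...)`, a polynomial, and `f` is squarefree, so `G` is a polynomial: if
`G = U / V` in lowest terms then `V ^ 2` divides `f * U ^ 2`, hence `f`, so `V` is a unit. -/
theorem exists_poly_of_ratFunc {f : F[X]} (hf : Squarefree f) {a2 a4 a6 : F}
    {R S : RatFunc F} (hR : ∀ r : F, R ≠ RatFunc.C r)
    (h : algebraMap F[X] (RatFunc F) f * S ^ 2 =
      R ^ 3 + RatFunc.C a2 * R ^ 2 + RatFunc.C a4 * R + RatFunc.C a6) :
    ∃ A B G : F[X], IsCoprime A B ∧ ¬ (A.natDegree = 0 ∧ B.natDegree = 0) ∧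
      B * (A ^ 3 + C a2 * A ^ 2 * B + C a4 * A * B ^ 2 + C a6 * B ^ 3) = f * G ^ 2 := by
  have hf0 : f ≠ 0 := hf.ne_zero
  have hf0' : algebraMap F[X] (RatFunc F) f ≠ 0 := RatFunc.algebraMap_ne_zero hf0
  obtain ⟨T, hT⟩ : ∃ T, T = S * (algebraMap F[X] (RatFunc F) R.denom) ^ 2 := ⟨_, rfl⟩
  have h1 := GenA_clear (a2 := a2) (a4 := a4) (a6 := a6) (R := R) S hT f h
  set P : F[X] := R.denom * (R.num ^ 3 + C a2 * R.num ^ 2 * R.denom +
    C a4 * R.num * R.denom ^ 2 + C a6 * R.denom ^ 3) with hP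
  have h2 : (algebraMap F[X] (RatFunc F) f * T) ^ 2 = algebraMap F[X] (RatFunc F) (f * P) := by
    rw [map_mul, ← h1]
    ring
  obtain ⟨W, hW⟩ := IsIntegrallyClosed.exists_algebraMap_eq_of_isIntegral_pow (R := F[X])
    (n := 2) (by norm_num) (by rw [h2]; exact isIntegral_algebraMap)
  rw [← hW, ← map_pow] at h2
  have h3 : W ^ 2 = f * P := RatFunc.algebraMap_injective F h2
  obtain ⟨G, hG⟩ : f ∣ W := hf.isRadical 2 W ⟨P, h3⟩
  refine ⟨R.num, R.denom, G, RatFunc.isCoprime_num_denom R, ?_, ?_⟩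
  · intro h0
    obtain ⟨r, hr⟩ := GenA_const h0
    exact hR r hr
  · rw [← hP]
    have h4 : f * P = f * (f * G ^ 2) := by
      rw [← h3, hG]
      ring
    exact mul_left_cancel₀ hf0 h4

end UE97
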