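import Mathlib

/-!
# Making a map odd

Let `(ξ, η) = (a + b y, c + d y)` be a point of the elliptic curve, `y ^ 2 = f`. Its two parts give
the relations `h1`, `h2`. If `b ≠ 0` the sum of `(ξ, η)` and of the negative of its conjugate has
the form `(R, S y)` with `R = c² / (b² f) - a₂ - 2 a`, `S = -((c / (b f)) (R - a) + d)`.
-/

namespace UE97

open Polynomial

/-- Field identity: the point `(R, S y)` is on the curve. (`field_simp`, then a linear combination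
of `h1` and `h2`. Idea: with `λ = c / (b f)` the cubic polynomial
`X³ + a₂ X² + a₄ X + a₆ - f (λ (X - a) + d)²` has the roots `a ± b y` (this is `h1`, `h2`), so it is
`((X - a)² - b² f) (X - R)`; evaluate at `X = R`.) -/
theorem odd_identity {F : Type*} [Field F] {a2 a4 a6 a b c d f : F} (hb : b ≠ 0) (hf : f ≠ 0)
    (h1 : c ^ 2 + d ^ 2 * f = a ^ 3 + 3 * a * b ^ 2 * f + a2 * (a ^ 2 + b ^ 2 * f) + a4 * a + a6)
    (h2 : 2 * c * d = 3 * a ^ 2 * b + b ^ 3 * f + 2 * a2 * a * b + a4 * b) {R S : F}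
    (hR : R = c ^ 2 / (b ^ 2 * f) - a2 - 2 * a) (hS : S = -(c / (b * f) * (R - a) + d)) :
    f * S ^ 2 = R ^ 3 + a2 * R ^ 2 + a4 * R + a6 := by
  obtain ⟨lam, hlam⟩ : ∃ lam, lam = c / (b * f) := ⟨_, rfl⟩
  have hc : c = lam * (b * f) := by
    rw [hlam]
    field_simp
  have hR' : R = lam ^ 2 * f - a2 - 2 * a := by
    rw [hR, hc]
    field_simp
  have h2' : 2 * lam * f * d = 3 * a ^ 2 + b ^ 2 * f + 2 * a2 * a + a4 := by
    apply mul_left_cancel₀ hb
    rw [hc] at h2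
    linear_combination h2
  rw [hc] at h1
  rw [hS, ← hlam]
  linear_combination h1 + (R - a) * h2' - ((R - a) ^ 2 - b ^ 2 * f) * hR'

/-- Field identities in the degenerate case `S = 0` (then `R = r` is a root of the cubic). With
`t = a - r`, `A2 = a2 + 3 r`, `A4 = 3 r² + 2 a2 r + a4`: `b² f = t² - A4` and
`(2 c)² = (2 t)³ + A2 (2 t)² - 4 A4 (2 t) - 4 A2 A4`. -/
theorem degenerate_identity {F : Type*} [Field F] [CharZero F] {a2 a4 a6 a b c d f r : F}
    (hb : b ≠ 0) (hf : f ≠ 0)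
    (h1 : c ^ 2 + d ^ 2 * f = a ^ 3 + 3 * a * b ^ 2 * f + a2 * (a ^ 2 + b ^ 2 * f) + a4 * a + a6)
    (h2 : 2 * c * d = 3 * a ^ 2 * b + b ^ 3 * f + 2 * a2 * a * b + a4 * b)
    (hr : r ^ 3 + a2 * r ^ 2 + a4 * r + a6 = 0)
    (hR : r = c ^ 2 / (b ^ 2 * f) - a2 - 2 * a) (hS : c / (b * f) * (r - a) + d = 0) :
    b ^ 2 * f = (a - r) ^ 2 - (3 * r ^ 2 + 2 * a2 * r + a4) ∧
    (2 * c) ^ 2 = (2 * (a - r)) ^ 3 + (a2 + 3 * r) * (2 * (a - r)) ^ 2
      + (-4 * (3 * r ^ 2 + 2 * a2 * r + a4)) * (2 * (a - r))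
      + (-4 * (a2 + 3 * r) * (3 * r ^ 2 + 2 * a2 * r + a4)) := by
  obtain ⟨lam, hlam⟩ : ∃ lam, lam = c / (b * f) := ⟨_, rfl⟩
  have hc : c = lam * (b * f) := by
    rw [hlam]
    field_simp
  have hR' : r = lam ^ 2 * f - a2 - 2 * a := by
    rw [hR, hc]
    field_simp
  have h2' : 2 * lam * f * d = 3 * a ^ 2 + b ^ 2 * f + 2 * a2 * a + a4 := by
    apply mul_left_cancel₀ hb
    rw [hc] at h2
    linear_combination h2
  rw [← hlam] at hS
  have hd : d = -(lam * (r - a)) := by linear_combination hS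
  have hA : b ^ 2 * f = (a - r) ^ 2 - (3 * r ^ 2 + 2 * a2 * r + a4) := by
    rw [hd] at h2'
    linear_combination (-1 : F) * h2' + (2 : F) * (r - a) * hR'
  refine ⟨hA, ?_⟩
  have h4 : (2 * c) ^ 2 = 4 * (lam ^ 2 * f) * (b ^ 2 * f) := by
    rw [hc]
    ring
  have h5 : lam ^ 2 * f = r + a2 + 2 * a := by linear_combination -hR'
  rw [h4, hA, h5]
  ring

end UE97
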