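import Mathlib
import Pool.Agent.Lib.MP_10e784_ag.EQ.GenA
import Pool.Agent.Lib.MP_10e784_ag.EQ.GenBid

/-!
# Making a map odd, continued
-/

namespace UE97

open Polynomial

variable {F : Type*} [Field F] [CharZero F]

/-- A squarefree polynomial of positive degree is not `constant * square` in `F(x)`. -/
theorem not_square_mul {f : F[X]} (hf : Squarefree f) (hdeg : 1 ≤ f.natDegree) {b : RatFunc F}
    {r : F} (hb : b ≠ 0) (h : b ^ 2 * algebraMap F[X] (RatFunc F) f = RatFunc.C r) : False := by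
  have hf0 : f ≠ 0 := hf.ne_zero
  have hU0 : b.num ≠ 0 := RatFunc.num_ne_zero hb
  have hV0 : b.denom ≠ 0 := RatFunc.denom_ne_zero b
  have hV0' : algebraMap F[X] (RatFunc F) b.denom ≠ 0 := by
    rw [Ne, FaithfulSMul.algebraMap_eq_zero_iff]
    exact hV0
  have hco : IsCoprime b.num b.denom := RatFunc.isCoprime_num_denom b
  have h1 : b.num ^ 2 * f = C r * b.denom ^ 2 := by
    apply RatFunc.algebraMap_injective F
    rw [map_mul, map_mul, map_pow, map_pow, RatFunc.algebraMap_C, ← h]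
    have h2 : b = algebraMap F[X] (RatFunc F) b.num / algebraMap F[X] (RatFunc F) b.denom :=
      (RatFunc.num_div_denom b).symm
    generalize algebraMap F[X] (RatFunc F) b.num = u at h2 ⊢
    generalize algebraMap F[X] (RatFunc F) b.denom = v at h2 hV0' ⊢
    rw [h2]
    field_simp
  have h3 : b.denom ^ 2 ∣ f := by
    have h4 : b.denom ^ 2 ∣ b.num ^ 2 * f := by rw [h1]; exact dvd_mul_left _ _
    have h5 : IsCoprime (b.denom ^ 2) (b.num ^ 2) := (hco.symm).pow
    exact h5.dvd_of_dvd_mul_left h4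
  have h6 : IsUnit b.denom := hf b.denom (by rw [← sq]; exact h3)
  have h7 : b.denom.natDegree = 0 := natDegree_eq_zero_of_isUnit h6
  have h8 : (b.num ^ 2 * f).natDegree = 2 * b.num.natDegree + f.natDegree := by
    rw [natDegree_mul (pow_ne_zero 2 hU0) hf0, natDegree_pow]
  have h9 : (C r * b.denom ^ 2).natDegree ≤ 0 := by
    refine (natDegree_C_mul_le _ _).trans ?_
    rw [natDegree_pow, h7]
  rw [← h1, h8] at h9
  omega

/-- **Odd map.** If `b = 0`: then `c d = 0`; if `d = 0`, `c ^ 2 = a ^ 3 + ...` contradicts `no_line`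
(`a` is not constant by `hnc`); if `c = 0` take `R = a`, `S = d`. If `b ≠ 0`, take `R`, `S` as in
`odd_identity`; if `R` were a constant `r` then `f S² = const` and `not_square_mul` shows `S = 0`
and `r` is a root of the cubic; by `degenerate_identity` and `no_line` (applied to the cubic
`(Z² - 4 A4) (Z + A2)`, whose discriminant `16 A4 (A2² - 4 A4)²` is not zero because
`cdisc a2 a4 a6 = A4² (A2² - 4 A4)`), `2 (a - r)` is a constant, so `b² f` is a constant,
contradicting `not_square_mul`. -/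
theorem exists_odd {f : F[X]} (hf : Squarefree f) (hdeg : 1 ≤ f.natDegree)
    {a2 a4 a6 : F} (hd : cdisc a2 a4 a6 ≠ 0) {a b c d : RatFunc F}
    (hnc : b ≠ 0 ∨ ∀ r : F, a ≠ RatFunc.C r)
    (h1 : c ^ 2 + d ^ 2 * algebraMap F[X] (RatFunc F) f =
      a ^ 3 + 3 * a * b ^ 2 * algebraMap F[X] (RatFunc F) f
        + RatFunc.C a2 * (a ^ 2 + b ^ 2 * algebraMap F[X] (RatFunc F) f)
        + RatFunc.C a4 * a + RatFunc.C a6)
    (h2 : 2 * c * d = 3 * a ^ 2 * b + b ^ 3 * algebraMap F[X] (RatFunc F) f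
        + 2 * RatFunc.C a2 * a * b + RatFunc.C a4 * b) :
    ∃ R S : RatFunc F, (∀ r : F, R ≠ RatFunc.C r) ∧
      algebraMap F[X] (RatFunc F) f * S ^ 2 =
        R ^ 3 + RatFunc.C a2 * R ^ 2 + RatFunc.C a4 * R + RatFunc.C a6 := by
  have hf0 : algebraMap F[X] (RatFunc F) f ≠ 0 := by
    rw [Ne, FaithfulSMul.algebraMap_eq_zero_iff]
    exact hf.ne_zero
  have hns := fun (b : RatFunc F) (r : F) (hb : b ≠ 0)
    (h : b ^ 2 * algebraMap F[X] (RatFunc F) f = RatFunc.C r) => not_square_mul hf hdeg hb h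
  generalize algebraMap F[X] (RatFunc F) f = Fp at *
  have h20 : (2 : RatFunc F) ≠ 0 := two_ne_zero
  by_cases hb : b = 0
  · subst hb
    have hnc' : ∀ r : F, a ≠ RatFunc.C r := by
      rcases hnc with h | h
      · exact absurd rfl h
      · exact h
    have h3 : c * d = 0 := by
      have : 2 * (c * d) = 0 := by rw [← mul_assoc, h2]; ring
      rcases mul_eq_zero.1 this with h | h
      · exact absurd h h20
      · exact h
    rcases mul_eq_zero.1 h3 with h | h
    · subst h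
      exact ⟨a, d, hnc', by linear_combination h1⟩
    · subst h
      exfalso
      obtain ⟨r, hr⟩ := no_line (R := a) (S := c) hd (by linear_combination h1)
      exact hnc' r hr
  · refine ⟨c ^ 2 / (b ^ 2 * Fp) - RatFunc.C a2 - 2 * a,
      -(c / (b * Fp) * ((c ^ 2 / (b ^ 2 * Fp) - RatFunc.C a2 - 2 * a) - a) + d), ?_,
      odd_identity hb hf0 h1 h2 rfl rfl⟩
    intro r hr
    have hid := odd_identity hb hf0 h1 h2 rfl rfl
    rw [hr] at hid
    have hC : RatFunc.C r ^ 3 + RatFunc.C a2 * RatFunc.C r ^ 2 + RatFunc.C a4 * RatFunc.C r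
        + RatFunc.C a6 = (RatFunc.C (r ^ 3 + a2 * r ^ 2 + a4 * r + a6) : RatFunc F) := by
      simp only [map_add, map_mul, map_pow]
    have hS : c / (b * Fp) * (RatFunc.C r - a) + d = 0 := by
      by_contra hne
      refine hns (-(c / (b * Fp) * (RatFunc.C r - a) + d)) (r ^ 3 + a2 * r ^ 2 + a4 * r + a6)
        (neg_ne_zero.2 hne) ?_
      rw [← hC, ← hid]; ring
    have hroot : r ^ 3 + a2 * r ^ 2 + a4 * r + a6 = 0 := by
      have h5 : (RatFunc.C (r ^ 3 + a2 * r ^ 2 + a4 * r + a6) : RatFunc F) = 0 := by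
        rw [← hC, ← hid, hS]; ring
      rw [← map_zero RatFunc.C] at h5
      exact RatFunc.C_injective h5
    have hroot' : (RatFunc.C r : RatFunc F) ^ 3 + RatFunc.C a2 * RatFunc.C r ^ 2
        + RatFunc.C a4 * RatFunc.C r + RatFunc.C a6 = 0 := by
      rw [hC, hroot, map_zero]
    obtain ⟨k1, k2⟩ := degenerate_identity hb hf0 h1 h2 hroot' hr.symm hS
    have hA : cdisc a2 a4 a6 = (3 * r ^ 2 + 2 * a2 * r + a4) ^ 2 *
        ((a2 + 3 * r) ^ 2 - 4 * (3 * r ^ 2 + 2 * a2 * r + a4)) := by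
      have h6 : a6 = -(r ^ 3 + a2 * r ^ 2 + a4 * r) := by linear_combination hroot
      unfold cdisc
      rw [h6]; ring
    rw [hA] at hd
    have hd1 : (3 * r ^ 2 + 2 * a2 * r + a4) ≠ 0 := fun h => hd (by rw [h]; ring)
    have hd2 : ((a2 + 3 * r) ^ 2 - 4 * (3 * r ^ 2 + 2 * a2 * r + a4)) ≠ 0 :=
      fun h => hd (by rw [h]; ring)
    have hd3 : cdisc (a2 + 3 * r) (-4 * (3 * r ^ 2 + 2 * a2 * r + a4))
        (-4 * (a2 + 3 * r) * (3 * r ^ 2 + 2 * a2 * r + a4)) ≠ 0 := by
      have : cdisc (a2 + 3 * r) (-4 * (3 * r ^ 2 + 2 * a2 * r + a4))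
        (-4 * (a2 + 3 * r) * (3 * r ^ 2 + 2 * a2 * r + a4)) =
          16 * (3 * r ^ 2 + 2 * a2 * r + a4) *
            ((a2 + 3 * r) ^ 2 - 4 * (3 * r ^ 2 + 2 * a2 * r + a4)) ^ 2 := by
        unfold cdisc; ring
      rw [this]
      exact mul_ne_zero (mul_ne_zero (by norm_num) hd1) (pow_ne_zero 2 hd2)
    obtain ⟨s, hs⟩ := no_line (R := 2 * (a - RatFunc.C r)) (S := 2 * c) hd3 (by
      rw [k2]
      simp only [map_add, map_mul, map_pow, map_neg, map_ofNat])
    refine hns b ((s / 2) ^ 2 - (3 * r ^ 2 + 2 * a2 * r + a4)) hb ?_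
    rw [k1]
    have h7 : a - RatFunc.C r = RatFunc.C (s / 2) := by
      have h8 : (RatFunc.C s : RatFunc F) = 2 * RatFunc.C (s / 2) := by
        rw [← map_ofNat RatFunc.C 2, ← map_mul]
        congr 1; ring
      rw [h8] at hs
      exact mul_left_cancel₀ h20 hs
    rw [h7]
    simp only [map_add, map_mul, map_pow, map_sub, map_ofNat]

end UE97
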