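import Mathlib
import Pool.Agent.Lib.MP_10e784_ag.EQ.GenB

/-!
# The function field of a hyperelliptic curve
-/

namespace UE97

open Polynomial

variable {F : Type*} [Field F] [CharZero F]

/-- In the field `L = F(x, y)`, `y ^ 2 = f(x)`, every element is `a + b y` with `a, b ∈ F(x)`, in a
unique way. `φ` is `RatFunc.liftAlgHom` (or `IsFractionRing.liftAlgHom`) of `aeval x`. Existence:
the elements `φ a + φ b * y` form a subfield (`(a + b y)⁻¹ = (a - b y) / (a² - b² f)`) which
contains `F`, `x`, `y`. Uniqueness: if `b ≠ 0` then `y = φ (-a / b)` and `f = (a / b) ^ 2`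
contradicts `not_square_mul` (with `b⁻¹`-like arguments, `r = 1`). -/
theorem exists_decomposition {f : F[X]} (hf : Squarefree f) (hdeg : 1 ≤ f.natDegree)
    {L : Type*} [Field L] [Algebra F L] {x y : L} (hx : Transcendental F x)
    (hy : y ^ 2 = aeval x f) (hL : IntermediateField.adjoin F {x, y} = ⊤) :
    ∃ φ : RatFunc F →ₐ[F] L, (∀ P : F[X], φ (algebraMap F[X] (RatFunc F) P) = aeval x P) ∧
      (∀ z : L, ∃ a b : RatFunc F, z = φ a + φ b * y) ∧
      (∀ a b : RatFunc F, φ a + φ b * y = 0 → a = 0 ∧ b = 0) := by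
  have hinj : Function.Injective (aeval x : F[X] →ₐ[F] L) :=
    transcendental_iff_injective.1 hx
  let φ : RatFunc F →ₐ[F] L := IsFractionRing.liftAlgHom (K := RatFunc F) hinj
  have hφ : ∀ P : F[X], φ (algebraMap F[X] (RatFunc F) P) = aeval x P := by
    intro P
    exact IsFractionRing.lift_algebraMap (K := RatFunc F)
      (show Function.Injective (aeval x : F[X] →ₐ[F] L).toRingHom from hinj) P
  have hφi : Function.Injective φ := φ.toRingHom.injective
  have hφ0 : ∀ a, φ a = 0 → a = 0 := fun a h => hφi (h.trans (map_zero φ).symm)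
  have hf0 : f ≠ 0 := by
    rintro rfl
    simp at hdeg
  have hyf : y ^ 2 = φ (algebraMap F[X] (RatFunc F) f) := by rw [hφ, hy]
  have huniq : ∀ a b : RatFunc F, φ a + φ b * y = 0 → a = 0 ∧ b = 0 := by
    intro a b h
    by_cases hb : b = 0
    · subst hb
      rw [map_zero, zero_mul, add_zero] at h
      exact ⟨hφ0 a h, rfl⟩
    · exfalso
      have hφb : φ b ≠ 0 := fun h0 => hb (hφ0 b h0)
      have h1 : φ b * y = -φ a := by linear_combination h
      have h2 : φ (b ^ 2 * algebraMap F[X] (RatFunc F) f) = φ (a ^ 2) := by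
        rw [map_mul, map_pow, map_pow, ← hyf]
        linear_combination (φ b * y - φ a) * h1
      have h3 : b ^ 2 * algebraMap F[X] (RatFunc F) f = a ^ 2 := hφi h2
      by_cases ha : a = 0
      · rw [ha, zero_pow two_ne_zero] at h3
        rcases mul_eq_zero.1 h3 with h4 | h4
        · exact hb (pow_eq_zero_iff two_ne_zero |>.1 h4)
        · exact hf0 ((map_eq_zero_iff _ (IsFractionRing.injective F[X] (RatFunc F))).1 h4)
      · refine not_square_mul hf hdeg (b := b / a) (r := 1) (div_ne_zero hb ha) ?_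
        rw [div_pow, div_mul_eq_mul_div, h3, div_self (pow_ne_zero 2 ha), map_one]
  refine ⟨φ, hφ, ?_, huniq⟩
  let S : IntermediateField F L :=
    { carrier := {z | ∃ a b : RatFunc F, z = φ a + φ b * y}
      mul_mem' := by
        rintro _ _ ⟨a, b, rfl⟩ ⟨c, d, rfl⟩
        refine ⟨a * c + b * d * algebraMap F[X] (RatFunc F) f, a * d + b * c, ?_⟩
        simp only [map_add, map_mul]
        rw [← hyf]
        ring
      add_mem' := by
        rintro _ _ ⟨a, b, rfl⟩ ⟨c, d, rfl⟩
        refine ⟨a + c, b + d, ?_⟩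
        simp only [map_add]
        ring
      algebraMap_mem' := fun r => ⟨algebraMap F (RatFunc F) r, 0, by
        rw [map_zero, zero_mul, add_zero, AlgHom.commutes]⟩
      inv_mem' := by
        rintro _ ⟨a, b, rfl⟩
        by_cases hz : φ a + φ b * y = 0
        · exact ⟨0, 0, by rw [hz]; simp⟩
        · have hN : a ^ 2 - b ^ 2 * algebraMap F[X] (RatFunc F) f ≠ 0 := by
            intro h0
            have h1 : (φ a + φ b * y) * (φ a + φ (-b) * y) = 0 := by
              have h2 := congrArg φ h0
              rw [map_sub, map_mul, map_pow, map_pow, map_zero, ← hyf] at h2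
              rw [map_neg]
              linear_combination h2
            rcases mul_eq_zero.1 h1 with h2 | h2
            · exact hz h2
            · obtain ⟨ha, hb⟩ := huniq _ _ h2
              apply hz
              rw [ha, neg_eq_zero.1 hb, map_zero, zero_mul, add_zero]
          refine ⟨a / (a ^ 2 - b ^ 2 * algebraMap F[X] (RatFunc F) f),
            -b / (a ^ 2 - b ^ 2 * algebraMap F[X] (RatFunc F) f), ?_⟩
          apply inv_eq_of_mul_eq_one_right
          have hn : φ (a ^ 2 - b ^ 2 * algebraMap F[X] (RatFunc F) f) ≠ 0 :=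
            fun h0 => hN (hφ0 _ h0)
          have he : φ (a ^ 2 - b ^ 2 * algebraMap F[X] (RatFunc F) f) =
              φ a ^ 2 - φ b ^ 2 * y ^ 2 := by
            rw [map_sub, map_mul, map_pow, map_pow, ← hyf]
          rw [map_div₀, map_div₀, map_neg]
          generalize φ (a ^ 2 - b ^ 2 * algebraMap F[X] (RatFunc F) f) = n at hn he
          field_simp
          rw [he]
          ring }
  have hS : S = ⊤ := by
    rw [eq_top_iff, ← hL, IntermediateField.adjoin_le_iff]
    rintro z (rfl | rfl)
    · exact ⟨algebraMap F[X] (RatFunc F) X, 0, by rw [hφ]; simp⟩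
    · exact ⟨0, 1, by simp⟩
  intro z
  have hz : z ∈ S := by rw [hS]; exact IntermediateField.mem_top
  exact hz

/-- A point of the cubic over the function field with transcendental first coordinate gives
polynomials `A, B, G`. Write `ξ = φ a + φ b y`, `η = φ c + φ d y`, compare the two parts of
`η ^ 2 = ξ ^ 3 + ...` (uniqueness in `exists_decomposition`), and apply `exists_odd` and
`exists_poly_of_ratFunc`. `hnc`: if `b = 0` and `a` is a constant then `ξ` is algebraic. -/
theorem exists_poly_of_point {f : F[X]} (hf : Squarefree f) (hdeg : 1 ≤ f.natDegree)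
    {a2 a4 a6 : F} (hd : cdisc a2 a4 a6 ≠ 0)
    {L : Type*} [Field L] [Algebra F L] {x y ξ η : L} (hx : Transcendental F x)
    (hy : y ^ 2 = aeval x f) (hL : IntermediateField.adjoin F {x, y} = ⊤)
    (hξ : Transcendental F ξ)
    (hE : η ^ 2 = ξ ^ 3 + algebraMap F L a2 * ξ ^ 2 + algebraMap F L a4 * ξ
      + algebraMap F L a6) :
    ∃ A B G : F[X], IsCoprime A B ∧ ¬ (A.natDegree = 0 ∧ B.natDegree = 0) ∧
      B * (A ^ 3 + C a2 * A ^ 2 * B + C a4 * A * B ^ 2 + C a6 * B ^ 3) = f * G ^ 2 := by
  obtain ⟨φ, hφ, hex, huniq⟩ := exists_decomposition hf hdeg hx hy hL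
  obtain ⟨a, b, rfl⟩ := hex ξ
  obtain ⟨c, d, rfl⟩ := hex η
  have hC : ∀ r : F, φ (RatFunc.C r) = algebraMap F L r := by
    intro r
    rw [← RatFunc.algebraMap_eq_C]
    exact φ.commutes r
  have hyf : y ^ 2 = φ (algebraMap F[X] (RatFunc F) f) := by rw [hφ, hy]
  have key := huniq (c ^ 2 + d ^ 2 * algebraMap F[X] (RatFunc F) f -
      (a ^ 3 + 3 * a * b ^ 2 * algebraMap F[X] (RatFunc F) f
        + RatFunc.C a2 * (a ^ 2 + b ^ 2 * algebraMap F[X] (RatFunc F) f)
        + RatFunc.C a4 * a + RatFunc.C a6))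
    (2 * c * d - (3 * a ^ 2 * b + b ^ 3 * algebraMap F[X] (RatFunc F) f
        + 2 * RatFunc.C a2 * a * b + RatFunc.C a4 * b)) (by
      simp only [map_add, map_sub, map_mul, map_pow, map_ofNat, hC]
      rw [← hyf]
      linear_combination hE)
  obtain ⟨R, S, hR, hRS⟩ := exists_odd hf hdeg hd (a := a) (b := b) (c := c) (d := d)
    (by
      by_contra h0
      push Not at h0
      obtain ⟨hb, r, hr⟩ := h0
      apply hξ
      rw [hb, hr, map_zero, zero_mul, add_zero, hC]
      exact isAlgebraic_algebraMap r)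
    (sub_eq_zero.1 key.1) (sub_eq_zero.1 key.2)
  exact exists_poly_of_ratFunc hf hR hRS

end UE97
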