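import Mathlib
import Pool.Agent.Lib.MP_10e784_ag.EQ.Fib
import Pool.Agent.Lib.MP_10e784_ag.EQ.GenC

/-!
# Main theorem
-/

namespace UE97

open Polynomial

section

variable {F : Type*} [Field F] [CharZero F]

/-- Completing the square: the points of `W` and of
`Y ^ 2 = X ^ 3 + (b₂ / 4) X ^ 2 + (b₄ / 2) X + b₆ / 4` correspond. -/
theorem encard_points (W : WeierstrassCurve F) :
    {Q : F × F | Q.2 ^ 2 = Q.1 ^ 3 + W.b₂ / 4 * Q.1 ^ 2 + W.b₄ / 2 * Q.1 + W.b₆ / 4}.encard =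
      {Q : F × F | W.toAffine.Equation Q.1 Q.2}.encard := by
  let φ : F × F → F × F := fun Q => (Q.1, Q.2 + (W.a₁ * Q.1 + W.a₃) / 2)
  have hφ : Function.Injective φ := by
    rintro ⟨a, b⟩ ⟨c, d⟩ h
    simp only [φ, Prod.mk.injEq] at h
    obtain ⟨rfl, h2⟩ := h
    simpa using h2
  rw [← hφ.encard_image {Q : F × F | W.toAffine.Equation Q.1 Q.2}]
  congr 1
  ext ⟨X, Y⟩
  simp only [Set.mem_ofPred_eq, Set.mem_image, Prod.exists, φ, Prod.mk.injEq]
  constructor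
  · intro h
    refine ⟨X, Y - (W.a₁ * X + W.a₃) / 2, ?_, rfl, by ring⟩
    rw [WeierstrassCurve.Affine.equation_iff]
    simp only [WeierstrassCurve.b₂, WeierstrassCurve.b₄, WeierstrassCurve.b₆] at h
    linear_combination h
  · rintro ⟨a, b, h, rfl, rfl⟩
    rw [WeierstrassCurve.Affine.equation_iff] at h
    simp only [WeierstrassCurve.b₂, WeierstrassCurve.b₄, WeierstrassCurve.b₆]
    linear_combination h

/-- Discriminant and `j`-invariant of the cubic: `cdisc = Δ / 16`,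
`(b₂ / 4) ^ 2 - 3 (b₄ / 2) = c₄ / 16`. -/
theorem cdisc_eq (W : WeierstrassCurve F) :
    cdisc (W.b₂ / 4) (W.b₄ / 2) (W.b₆ / 4) = W.Δ / 16 ∧
      (W.b₂ / 4) ^ 2 - 3 * (W.b₄ / 2) = W.c₄ / 16 := by
  constructor
  · have := W.b_relation
    simp only [cdisc, WeierstrassCurve.Δ]
    linear_combination (W.b₂ ^ 2 / 64) * this
  · simp only [WeierstrassCurve.c₄]
    ring

/-- The integrality of `j`, for `p` odd. -/
theorem integral_j {p : ℕ} [Fact p.Prime] (hp : p ≠ 2) (σ : F →+* PadicAlgCl p)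
    (W : WeierstrassCurve F) [W.IsElliptic] (hj : ‖σ W.j‖ ≤ 1) :
    ‖σ ((W.b₂ / 4) ^ 2 - 3 * (W.b₄ / 2))‖ ^ 3 ≤
      ‖σ (cdisc (W.b₂ / 4) (W.b₄ / 2) (W.b₆ / 4))‖ := by
  rw [(cdisc_eq W).1, (cdisc_eq W).2]
  have h16 : ‖σ 16‖ = 1 := by
    have : (16 : F) = 2 ^ 4 := by norm_num
    rw [this, map_pow, norm_pow, map_ofNat, norm_two p hp, one_pow]
  have hΔ : W.Δ ≠ 0 := W.isUnit_Δ.ne_zero
  have hj2 : W.j = W.c₄ ^ 3 / W.Δ := by
    rw [WeierstrassCurve.j]
    rw [Units.val_inv_eq_inv_val, WeierstrassCurve.coe_Δ']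
    field_simp
  rw [hj2, map_div₀, map_pow, norm_div, norm_pow, div_le_one] at hj
  · rw [map_div₀, map_div₀, norm_div, norm_div, h16]
    simpa using hj
  · exact norm_pos_iff.2 ((map_ne_zero σ).2 hΔ)

end

theorem main_bound (g p : ℕ) [Fact p.Prime] (hp2 : p ≠ 2) : ∃ N : ℕ,
    ∀ f : ℚ[X], Squarefree f → (f.natDegree = 2 * g + 1 ∨ f.natDegree = 2 * g + 2) →
    ∀ (F : Type) [Field F] [CharZero F] (σ : F →+* PadicAlgCl p) (W : WeierstrassCurve F)
    [W.IsElliptic], ‖σ W.j‖ ≤ 1 →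
    (∃ (M : Type) (_ : Field M) (_ : Algebra F M) (x y ξ η : M),
      Transcendental F x ∧ y ^ 2 = aeval x (f.map (algebraMap ℚ F)) ∧
      IntermediateField.adjoin F {x, y} = ⊤ ∧
      Transcendental F ξ ∧ (W.map (algebraMap F M)).toAffine.Equation ξ η) →
    {P : ℚ × ℚ | P.2 ^ 2 = f.eval P.1}.encard ≤
      N * (1 + {Q : F × F | W.toAffine.Equation Q.1 Q.2}.encard) := by
  refine ⟨2 * p ^ bigD g, ?_⟩
  intro f hf hdeg F _ _ σ W _ hj ⟨M, _, _, x, y, ξ, η, hx, hy, hL, hξ, hE⟩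
  have hW : W.Δ ≠ 0 := by
    have := W.isUnit_Δ
    exact this.ne_zero
  have hd : cdisc (W.b₂ / 4) (W.b₄ / 2) (W.b₆ / 4) ≠ 0 := by
    rw [(cdisc_eq W).1]
    exact div_ne_zero hW (by norm_num)
  have : CharZero M := charZero_of_injective_algebraMap (algebraMap F M).injective
  have hfsep : f.Separable := PerfectField.separable_iff_squarefree.2 hf
  have hf' : Squarefree (f.map (algebraMap ℚ F)) := (hfsep.map).squarefree
  obtain ⟨A, B, G, hAB, hnc, heq⟩ := exists_poly_of_point hf' (by rw [natDegree_map]; omega) hd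
    hx hy hL hξ
    (η := η + algebraMap F M (W.a₁ / 2) * ξ + algebraMap F M (W.a₃ / 2)) (by
      rw [WeierstrassCurve.Affine.equation_iff] at hE
      simp only [WeierstrassCurve.map, WeierstrassCurve.b₂, WeierstrassCurve.b₄,
        WeierstrassCurve.b₆] at hE ⊢
      simp only [map_div₀, map_add, map_mul, map_pow, map_ofNat]
      linear_combination hE)
  have h := points_bound hp2 (g := g) (f := f) (by omega) σ (a2 := W.b₂ / 4) (a4 := W.b₄ / 2)
    (a6 := W.b₆ / 4) hd (integral_j hp2 σ W hj) hAB hnc heq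
  rw [encard_points] at h
  exact_mod_cast h

end UE97
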