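import Mathlib

/-!
# A rational place of a hyperelliptic function field is determined by its centre
-/

namespace UE97

open Polynomial

section PlcA

variable {L : Type*} [Field L] [Algebra ℚ L]

private theorem plcA_val_const {R : ValuationSubring L} (h1 : ∀ q : ℚ, algebraMap ℚ L q ∈ R)
    {q : ℚ} (hq : q ≠ 0) : R.valuation (algebraMap ℚ L q) = 1 := by
  have h2 : R.valuation (algebraMap ℚ L q) ≤ 1 := (R.valuation_le_one_iff _).2 (h1 q)
  have h3 : R.valuation (algebraMap ℚ L q⁻¹) ≤ 1 := (R.valuation_le_one_iff _).2 (h1 q⁻¹)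
  have h4 : R.valuation (algebraMap ℚ L q) * R.valuation (algebraMap ℚ L q⁻¹) = 1 := by
    rw [← map_mul, ← map_mul, mul_inv_cancel₀ hq, map_one, map_one]
  refine le_antisymm h2 ?_
  rw [← h4]
  exact mul_le_of_le_one_right' h3

private theorem plcA_poly_mem {R : ValuationSubring L} (h1 : ∀ q : ℚ, algebraMap ℚ L q ∈ R)
    {x : L} (hx : x ∈ R) (P : ℚ[X]) : aeval x P ∈ R := by
  induction P using Polynomial.induction_on with
  | C q => rw [aeval_C]; exact h1 q
  | add p q hp hq => rw [map_add]; exact R.add_mem _ _ hp hq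
  | monomial n q _ =>
    rw [map_mul, aeval_C, map_pow, aeval_X]
    exact R.mul_mem _ _ (h1 q) (pow_mem hx (n + 1))

private theorem plcA_mem_x {R : ValuationSubring L} (h1 : ∀ q : ℚ, algebraMap ℚ L q ∈ R)
    {x : L} {a : ℚ} (hx : R.valuation (x - algebraMap ℚ L a) < 1) : x ∈ R := by
  have h2 : x - algebraMap ℚ L a ∈ R := (R.valuation_le_one_iff _).1 hx.le
  have h3 : x = (x - algebraMap ℚ L a) + algebraMap ℚ L a := by ring
  rw [h3]
  exact R.add_mem _ _ h2 (h1 a)

private theorem plcA_poly_sub {R : ValuationSubring L} (h1 : ∀ q : ℚ, algebraMap ℚ L q ∈ R)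
    {x : L} {a : ℚ} (hx : R.valuation (x - algebraMap ℚ L a) < 1) (P : ℚ[X]) :
    R.valuation (aeval x P - algebraMap ℚ L (P.eval a)) < 1 := by
  obtain ⟨q, hq⟩ := Polynomial.X_sub_C_dvd_sub_C_eval (a := a) (p := P)
  have h2 : aeval x P - algebraMap ℚ L (P.eval a) = (x - algebraMap ℚ L a) * aeval x q := by
    have h3 := congrArg (aeval x) hq
    simpa using h3
  rw [h2, map_mul]
  have h4 : R.valuation (aeval x q) ≤ 1 :=
    (R.valuation_le_one_iff _).2 (plcA_poly_mem h1 (plcA_mem_x h1 hx) q)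
  exact lt_of_le_of_lt (mul_le_of_le_one_right' h4) hx

/-- `P(x) + Q(x) y` is congruent to `P(a) + Q(a) b` -/
private theorem plcA_sub {R : ValuationSubring L} (h1 : ∀ q : ℚ, algebraMap ℚ L q ∈ R)
    {x y : L} {a b : ℚ} (hx : R.valuation (x - algebraMap ℚ L a) < 1)
    (hy : R.valuation (y - algebraMap ℚ L b) < 1) (P Q : ℚ[X]) :
    R.valuation (aeval x P + aeval x Q * y - algebraMap ℚ L (P.eval a + Q.eval a * b)) < 1 := by
  have e : aeval x P + aeval x Q * y - algebraMap ℚ L (P.eval a + Q.eval a * b) =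
      (aeval x P - algebraMap ℚ L (P.eval a)) + (aeval x Q - algebraMap ℚ L (Q.eval a)) * y +
      algebraMap ℚ L (Q.eval a) * (y - algebraMap ℚ L b) := by
    rw [map_add, map_mul]
    ring
  rw [e]
  refine Valuation.map_add_lt _ (Valuation.map_add_lt _ (plcA_poly_sub h1 hx P) ?_) ?_
  · rw [map_mul]
    have h4 : R.valuation y ≤ 1 := (R.valuation_le_one_iff _).2 (plcA_mem_x h1 hy)
    exact lt_of_le_of_lt (mul_le_of_le_one_right' h4) (plcA_poly_sub h1 hx Q)
  · rw [map_mul]
    have h4 : R.valuation (algebraMap ℚ L (Q.eval a)) ≤ 1 :=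
      (R.valuation_le_one_iff _).2 (h1 _)
    exact lt_of_le_of_lt (mul_le_of_le_one_left' h4) hy

private theorem plcA_unit {R : ValuationSubring L} (h1 : ∀ q : ℚ, algebraMap ℚ L q ∈ R)
    {x y : L} {a b : ℚ} (hx : R.valuation (x - algebraMap ℚ L a) < 1)
    (hy : R.valuation (y - algebraMap ℚ L b) < 1) {P Q : ℚ[X]}
    (h0 : P.eval a + Q.eval a * b ≠ 0) :
    R.valuation (aeval x P + aeval x Q * y) = 1 := by
  have h2 := plcA_sub h1 hx hy P Q
  have h3 := plcA_val_const h1 h0
  have e : aeval x P + aeval x Q * y =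
      algebraMap ℚ L (P.eval a + Q.eval a * b) +
      (aeval x P + aeval x Q * y - algebraMap ℚ L (P.eval a + Q.eval a * b)) := by ring
  rw [e, Valuation.map_add_eq_of_lt_left, h3]
  rw [h3]
  exact h2

/-- being `P(x) + Q(x) y` with `P(a) + Q(a) b ≠ 0` -/
private def PlcAU (x y : L) (a b : ℚ) (u : L) : Prop :=
  ∃ P Q : ℚ[X], P.eval a + Q.eval a * b ≠ 0 ∧ u = aeval x P + aeval x Q * y

private theorem PlcAU.mul {x y : L} {a b : ℚ} {f : ℚ[X]} (hy : y ^ 2 = aeval x f)
    (hab : b ^ 2 = f.eval a) {u v : L} (hu : PlcAU x y a b u) (hv : PlcAU x y a b v) :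
    PlcAU x y a b (u * v) := by
  obtain ⟨P, Q, h1, rfl⟩ := hu
  obtain ⟨P', Q', h2, rfl⟩ := hv
  refine ⟨P * P' + Q * Q' * f, P * Q' + Q * P', ?_, ?_⟩
  · have e : (P * P' + Q * Q' * f).eval a + (P * Q' + Q * P').eval a * b =
        (P.eval a + Q.eval a * b) * (P'.eval a + Q'.eval a * b) := by
      simp only [eval_add, eval_mul]
      rw [← hab]
      ring
    rw [e]
    exact mul_ne_zero h1 h2
  · simp only [map_add, map_mul]
    rw [← hy]
    ring

private theorem PlcAU.one {x y : L} {a b : ℚ} : PlcAU x y a b 1 :=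
  ⟨1, 0, by simp, by simp⟩

private theorem PlcAU.val {R : ValuationSubring L} (h1 : ∀ q : ℚ, algebraMap ℚ L q ∈ R)
    {x y : L} {a b : ℚ} (hx : R.valuation (x - algebraMap ℚ L a) < 1)
    (hy : R.valuation (y - algebraMap ℚ L b) < 1) {u : L} (hu : PlcAU x y a b u) :
    R.valuation u = 1 := by
  obtain ⟨P, Q, h0, rfl⟩ := hu
  exact plcA_unit h1 hx hy h0

/-- elements of `L` are quotients of elements `P(x) + Q(x) y` -/
private theorem plcA_quot {x y : L} {f : ℚ[X]} (hy : y ^ 2 = aeval x f)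
    (hL : IntermediateField.adjoin ℚ {x, y} = ⊤) (z : L) :
    ∃ P Q P' Q' : ℚ[X], z = (aeval x P + aeval x Q * y) / (aeval x P' + aeval x Q' * y) := by
  have key : ∀ s ∈ Algebra.adjoin ℚ ({x, y} : Set L), ∃ P Q : ℚ[X],
      s = aeval x P + aeval x Q * y := by
    intro s hs
    induction hs using Algebra.adjoin_induction with
    | mem s hs =>
      rcases hs with rfl | hs
      · exact ⟨X, 0, by simp⟩
      · rw [Set.mem_singleton_iff] at hs
        subst hs
        exact ⟨0, 1, by simp⟩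
    | algebraMap r => exact ⟨C r, 0, by simp⟩
    | add s t _ _ hs ht =>
      obtain ⟨P, Q, rfl⟩ := hs
      obtain ⟨P', Q', rfl⟩ := ht
      exact ⟨P + P', Q + Q', by simp only [map_add]; ring⟩
    | mul s t _ _ hs ht =>
      obtain ⟨P, Q, rfl⟩ := hs
      obtain ⟨P', Q', rfl⟩ := ht
      refine ⟨P * P' + Q * Q' * f, P * Q' + Q * P', ?_⟩
      simp only [map_add, map_mul]
      rw [← hy]
      ring
  have hz : z ∈ IntermediateField.adjoin ℚ ({x, y} : Set L) := by
    rw [hL]
    exact IntermediateField.mem_top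
  rw [IntermediateField.mem_adjoin_iff_div] at hz
  obtain ⟨r, hr, s, hs, rfl⟩ := hz
  obtain ⟨P, Q, rfl⟩ := key r hr
  obtain ⟨P', Q', rfl⟩ := key s hs
  exact ⟨P, Q, P', Q', rfl⟩

/-- the uniformizer, with one place `R` at the point: `t` and one division step -/
private theorem plcA_step {x y : L} {f : ℚ[X]} (hx : Transcendental ℚ x)
    (hy : y ^ 2 = aeval x f) {a b : ℚ} (hab : b ^ 2 = f.eval a)
    (hs : f.eval a ≠ 0 ∨ (derivative f).eval a ≠ 0) :
    ∃ t : L, t ≠ 0 ∧ (t = x - algebraMap ℚ L a ∨ (b = 0 ∧ t = y)) ∧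
      (∀ R : ValuationSubring L, (∀ q : ℚ, algebraMap ℚ L q ∈ R) →
        R.valuation (x - algebraMap ℚ L a) < 1 → R.valuation (y - algebraMap ℚ L b) < 1 →
        R.valuation t < 1 ∧ R.valuation t ^ 2 ≤ R.valuation (x - algebraMap ℚ L a)) ∧
      ∀ P Q : ℚ[X], P.eval a + Q.eval a * b = 0 → ∃ (P₁ Q₁ : ℚ[X]) (β : L), PlcAU x y a b β ∧
        (aeval x P + aeval x Q * y) * β = t * (aeval x P₁ + aeval x Q₁ * y) := by
  have hxa : x - algebraMap ℚ L a ≠ 0 := by
    intro h
    apply hx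
    rw [sub_eq_zero] at h
    rw [h]
    exact isAlgebraic_algebraMap a
  by_cases hb : b = 0
  · -- t = y
    subst hb
    have hfa : f.eval a = 0 := by rw [← hab]; norm_num
    have hfa' : (derivative f).eval a ≠ 0 := by
      rcases hs with h | h
      · exact absurd hfa h
      · exact h
    obtain ⟨f₁, hf₁⟩ : (X - C a) ∣ f := dvd_iff_isRoot.2 hfa
    have hf₁a : f₁.eval a ≠ 0 := by
      intro h
      apply hfa'
      rw [hf₁, derivative_mul]
      simp [h]
    have hf0 : f ≠ 0 := by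
      rintro rfl
      simp at hfa'
    have hy0 : y ≠ 0 := by
      intro h
      rw [h] at hy
      have h2 : aeval x f = 0 := by rw [← hy]; ring
      exact hf0 ((transcendental_iff.1 hx) f h2)
    have hyy : y ^ 2 = (x - algebraMap ℚ L a) * aeval x f₁ := by
      rw [hy, hf₁, map_mul, map_sub, aeval_X, aeval_C]
    refine ⟨y, hy0, Or.inr ⟨rfl, rfl⟩, ?_, ?_⟩
    · intro R h1 h2 h3
      have h4 : R.valuation y < 1 := by
        rw [map_zero, sub_zero] at h3
        exact h3
      refine ⟨h4, ?_⟩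
      rw [← map_pow, hyy, map_mul]
      have h5 : R.valuation (aeval x f₁) ≤ 1 :=
        (R.valuation_le_one_iff _).2 (plcA_poly_mem h1 (plcA_mem_x h1 h2) f₁)
      exact mul_le_of_le_one_right' h5
    · intro P Q h
      rw [mul_zero, add_zero] at h
      obtain ⟨P₁, hP₁⟩ : (X - C a) ∣ P := dvd_iff_isRoot.2 h
      refine ⟨Q * f₁, P₁, aeval x f₁, ⟨f₁, 0, by simpa using hf₁a, by simp⟩, ?_⟩
      have e1 : aeval x P = (x - algebraMap ℚ L a) * aeval x P₁ := by
        rw [hP₁, map_mul, map_sub, aeval_X, aeval_C]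
      rw [e1, map_mul]
      linear_combination (-(aeval x P₁)) * hyy
  · -- t = x - a
    refine ⟨x - algebraMap ℚ L a, hxa, Or.inl rfl, ?_, ?_⟩
    · intro R h1 h2 h3
      refine ⟨h2, ?_⟩
      rw [pow_two]
      exact mul_le_of_le_one_right' h2.le
    · intro P Q h
      have hA : (P * C b + Q * f).eval a = 0 := by
        simp only [eval_add, eval_mul, eval_C]
        rw [← hab]
        linear_combination b * h
      have hB : (P + Q * C b).eval a = 0 := by
        simp only [eval_add, eval_mul, eval_C]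
        exact h
      obtain ⟨P₁, hP₁⟩ : (X - C a) ∣ (P * C b + Q * f) := dvd_iff_isRoot.2 hA
      obtain ⟨Q₁, hQ₁⟩ : (X - C a) ∣ (P + Q * C b) := dvd_iff_isRoot.2 hB
      refine ⟨P₁, Q₁, y + algebraMap ℚ L b, ⟨C b, 1, ?_, ?_⟩, ?_⟩
      · simp only [eval_C, eval_one, one_mul]
        intro h'
        apply hb
        linarith
      · simp only [aeval_C, map_one, one_mul]
        ring
      · have e1 := congrArg (aeval x) hP₁
        have e2 := congrArg (aeval x) hQ₁
        simp only [map_add, map_mul, map_sub, aeval_X, aeval_C] at e1 e2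
        linear_combination e1 + y * e2 + (aeval x Q) * hy

/-- the decomposition of the polynomials in `x`, `y` -/
private theorem plcA_decomp {x y : L} {f : ℚ[X]}
    (hy : y ^ 2 = aeval x f) {a b : ℚ} (hab : b ^ 2 = f.eval a)
    {R : ValuationSubring L}
    (h1 : ∀ q : ℚ, algebraMap ℚ L q ∈ R)
    (hx1 : R.valuation (x - algebraMap ℚ L a) < 1)
    (hy1 : R.valuation (y - algebraMap ℚ L b) < 1)
    {t : L} (ht0 : t ≠ 0)
    (hstep : ∀ P Q : ℚ[X], P.eval a + Q.eval a * b = 0 → ∃ (P₁ Q₁ : ℚ[X]) (β : L),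
      PlcAU x y a b β ∧
        (aeval x P + aeval x Q * y) * β = t * (aeval x P₁ + aeval x Q₁ * y)) (m : ℕ) :
    ∀ P Q : ℚ[X], R.valuation t ^ m ≤ R.valuation (aeval x P + aeval x Q * y) →
      ∃ (n : ℕ) (α β : L), PlcAU x y a b α ∧ PlcAU x y a b β ∧
        (aeval x P + aeval x Q * y) * β = t ^ n * α := by
  induction m with
  | zero =>
    intro P Q h
    rw [pow_zero] at h
    have h0 : P.eval a + Q.eval a * b ≠ 0 := by
      intro h0
      have h2 := plcA_sub h1 hx1 hy1 P Q
      rw [h0, map_zero, sub_zero] at h2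
      exact absurd h2 (not_lt.2 h)
    exact ⟨0, _, 1, ⟨P, Q, h0, rfl⟩, PlcAU.one, by rw [pow_zero, one_mul, mul_one]⟩
  | succ m ih =>
    intro P Q h
    by_cases h0 : P.eval a + Q.eval a * b = 0
    · obtain ⟨P₁, Q₁, β, hβ, e⟩ := hstep P Q h0
      have hv : 0 < R.valuation t := by
        rw [Valuation.pos_iff]
        exact ht0
      have e2 := congrArg R.valuation e
      rw [map_mul, map_mul, hβ.val h1 hx1 hy1, mul_one] at e2
      have h3 : R.valuation t ^ m ≤ R.valuation (aeval x P₁ + aeval x Q₁ * y) := by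
        rw [e2, pow_succ, mul_comm] at h
        exact le_of_mul_le_mul_left h hv
      obtain ⟨n, α, β', hα, hβ', e3⟩ := ih P₁ Q₁ h3
      refine ⟨n + 1, α, β * β', hα, hβ.mul hy hab hβ', ?_⟩
      rw [← mul_assoc, e, mul_assoc, e3, pow_succ]
      ring
    · exact ⟨0, _, 1, ⟨P, Q, h0, rfl⟩, PlcAU.one, by rw [pow_zero, one_mul, mul_one]⟩

/-- the valuation of a nonzero polynomial in `x`, `y` is bounded below by a power of `v(x - a)` -/
private theorem plcA_bound {x y : L} {f : ℚ[X]}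
    (hy : y ^ 2 = aeval x f) {a b : ℚ} {R : ValuationSubring L}
    (h1 : ∀ q : ℚ, algebraMap ℚ L q ∈ R)
    (hx1 : R.valuation (x - algebraMap ℚ L a) < 1)
    (hy1 : R.valuation (y - algebraMap ℚ L b) < 1)
    (P Q : ℚ[X]) (h0 : aeval x P + aeval x Q * y ≠ 0) :
    ∃ k : ℕ, R.valuation (x - algebraMap ℚ L a) ^ k ≤ R.valuation (aeval x P + aeval x Q * y) := by
  have hxR : x ∈ R := plcA_mem_x h1 hx1
  have hyR : y ∈ R := plcA_mem_x h1 hy1
  -- a nonzero polynomial in `x` which is a multiple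
  obtain ⟨N, hN0, w, hw, hNw⟩ : ∃ N : ℚ[X], N ≠ 0 ∧ ∃ w ∈ R,
      (aeval x P + aeval x Q * y) * w = aeval x N := by
    by_cases hN : P ^ 2 - Q ^ 2 * f = 0
    · have h2 : (aeval x P + aeval x Q * y) * (aeval x P - aeval x Q * y) = 0 := by
        have h3 := congrArg (aeval x) hN
        simp only [map_sub, map_mul, map_pow, map_zero] at h3
        linear_combination h3 - (aeval x Q) ^ 2 * hy
      have h4 : aeval x P - aeval x Q * y = 0 := (mul_eq_zero.1 h2).resolve_left h0
      refine ⟨C 2 * P, ?_, 1, R.one_mem, ?_⟩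
      · intro h5
        apply h0
        have h6 := congrArg (aeval x) h5
        simp only [map_mul, map_zero, map_ofNat] at h6
        linear_combination h6 - h4
      · simp only [map_mul, map_ofNat]
        linear_combination (-1 : L) * h4
    · refine ⟨P ^ 2 - Q ^ 2 * f, hN, aeval x P - aeval x Q * y, ?_, ?_⟩
      · exact sub_mem (plcA_poly_mem h1 hxR P)
          (R.mul_mem _ _ (plcA_poly_mem h1 hxR Q) hyR)
      · simp only [map_sub, map_mul, map_pow]
        linear_combination (-(aeval x Q) ^ 2) * hy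
  obtain ⟨N₁, hN₁, hnd⟩ := Polynomial.exists_eq_pow_rootMultiplicity_mul_and_not_dvd N hN0 a
  refine ⟨rootMultiplicity a N, ?_⟩
  have h2 : R.valuation (aeval x N₁) = 1 := by
    have h3 : N₁.eval a + (0 : ℚ[X]).eval a * b ≠ 0 := by
      rw [eval_zero, zero_mul, add_zero]
      intro h4
      exact hnd (dvd_iff_isRoot.2 h4)
    have h5 := plcA_unit h1 hx1 hy1 h3
    rw [map_zero, zero_mul, add_zero] at h5
    exact h5
  have h6 : R.valuation (aeval x N) = R.valuation (x - algebraMap ℚ L a) ^ rootMultiplicity a N := by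
    have h7 := congrArg (fun p => R.valuation (aeval x p)) hN₁
    simp only [map_mul, map_pow, map_sub, aeval_X, aeval_C] at h7
    rw [h2, mul_one] at h7
    exact h7
  rw [← h6, ← hNw, map_mul]
  exact mul_le_of_le_one_right' ((R.valuation_le_one_iff _).2 hw)

/-- every nonzero element of `L` is a power of `t` times a unit -/
private theorem plcA_unif {x y : L} {f : ℚ[X]} (hx : Transcendental ℚ x)
    (hy : y ^ 2 = aeval x f) (hL : IntermediateField.adjoin ℚ {x, y} = ⊤) {a b : ℚ}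
    (hab : b ^ 2 = f.eval a) (hs : f.eval a ≠ 0 ∨ (derivative f).eval a ≠ 0)
    {R : ValuationSubring L}
    (h1 : ∀ q : ℚ, algebraMap ℚ L q ∈ R)
    (hx1 : R.valuation (x - algebraMap ℚ L a) < 1)
    (hy1 : R.valuation (y - algebraMap ℚ L b) < 1) :
    ∃ t : L, t ≠ 0 ∧
      (∀ R : ValuationSubring L, (∀ q : ℚ, algebraMap ℚ L q ∈ R) →
        R.valuation (x - algebraMap ℚ L a) < 1 → R.valuation (y - algebraMap ℚ L b) < 1 →
        R.valuation t < 1) ∧
      ∀ z : L, z ≠ 0 → ∃ (n : ℤ) (α β : L), PlcAU x y a b α ∧ PlcAU x y a b β ∧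
        z * β = t ^ n * α := by
  obtain ⟨t, ht0, -, ht, hstep⟩ := plcA_step hx hy hab hs
  refine ⟨t, ht0, fun R' a1 a2 a3 => (ht R' a1 a2 a3).1, ?_⟩
  have key : ∀ P Q : ℚ[X], aeval x P + aeval x Q * y ≠ 0 →
      ∃ (n : ℕ) (α β : L), PlcAU x y a b α ∧ PlcAU x y a b β ∧
        (aeval x P + aeval x Q * y) * β = t ^ n * α := by
    intro P Q h0
    obtain ⟨k, hk⟩ := plcA_bound hy h1 hx1 hy1 P Q h0
    refine plcA_decomp hy hab h1 hx1 hy1 ht0 hstep (2 * k) P Q (le_trans ?_ hk)
    rw [pow_mul]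
    exact pow_le_pow_left' (ht R h1 hx1 hy1).2 k
  intro z hz
  obtain ⟨P, Q, P', Q', hzz⟩ := plcA_quot hy hL z
  have hn : aeval x P + aeval x Q * y ≠ 0 := by
    intro h
    rw [hzz, h, zero_div] at hz
    exact hz rfl
  have hd : aeval x P' + aeval x Q' * y ≠ 0 := by
    intro h
    rw [hzz, h, div_zero] at hz
    exact hz rfl
  obtain ⟨n, α, β, hα, hβ, e⟩ := key P Q hn
  obtain ⟨n', α', β', hα', hβ', e'⟩ := key P' Q' hd
  refine ⟨(n : ℤ) - n', α * β', β * α', hα.mul hy hab hβ', hβ.mul hy hab hα', ?_⟩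
  have htn' : t ^ n' ≠ 0 := pow_ne_zero _ ht0
  have hα'0 : α' ≠ 0 := by
    intro h
    have := hα'.val h1 hx1 hy1
    rw [h, map_zero] at this
    exact zero_ne_one this
  rw [zpow_sub₀ ht0, zpow_natCast, zpow_natCast, hzz, div_mul_eq_mul_div, div_mul_eq_mul_div,
    div_eq_div_iff hd htn']
  calc (aeval x P + aeval x Q * y) * (β * α') * t ^ n'
      = ((aeval x P + aeval x Q * y) * β) * (t ^ n' * α') := by ring
    _ = (t ^ n * α) * ((aeval x P' + aeval x Q' * y) * β') := by rw [e, e']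
    _ = _ := by ring

end PlcA

/-- Two valuation rings with the same smooth rational centre are equal. With
`exists_uniformizer`: for `z ≠ 0`, `z = t ^ n * unit` in both rings, `t` is in both maximal ideals,
so `z ∈ R` iff `0 ≤ n`. (Or: both valuation rings dominate the local ring of the point, which is a
discrete valuation ring, and valuation rings are maximal for domination.) -/
theorem place_unique {L : Type*} [Field L] [Algebra ℚ L] {x y : L} {f : ℚ[X]}
    (hx : Transcendental ℚ x) (hy : y ^ 2 = aeval x f)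
    (hL : IntermediateField.adjoin ℚ {x, y} = ⊤) {a b : ℚ} (hab : b ^ 2 = f.eval a)
    (hs : f.eval a ≠ 0 ∨ (derivative f).eval a ≠ 0) {R₁ R₂ : ValuationSubring L}
    (h1 : ∀ q : ℚ, algebraMap ℚ L q ∈ R₁) (h2 : ∀ q : ℚ, algebraMap ℚ L q ∈ R₂)
    (hx1 : R₁.valuation (x - algebraMap ℚ L a) < 1) (hx2 : R₂.valuation (x - algebraMap ℚ L a) < 1)
    (hy1 : R₁.valuation (y - algebraMap ℚ L b) < 1)
    (hy2 : R₂.valuation (y - algebraMap ℚ L b) < 1) :
    R₁ = R₂ := by
  obtain ⟨t, ht0, ht, hdec⟩ := plcA_unif hx hy hL hab hs h1 hx1 hy1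
  have key : ∀ (R : ValuationSubring L), (∀ q : ℚ, algebraMap ℚ L q ∈ R) →
      R.valuation (x - algebraMap ℚ L a) < 1 → R.valuation (y - algebraMap ℚ L b) < 1 →
      ∀ (z : L) (n : ℤ) (α β : L), PlcAU x y a b α → PlcAU x y a b β → z * β = t ^ n * α →
      (z ∈ R ↔ 0 ≤ n) := by
    intro R a1 a2 a3 z n α β hα hβ e
    have hv : R.valuation z = R.valuation t ^ n := by
      have e2 := congrArg R.valuation e
      rw [map_mul, map_mul, hα.val a1 a2 a3, hβ.val a1 a2 a3, mul_one, mul_one, map_zpow₀] at e2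
      exact e2
    have hlt := ht R a1 a2 a3
    have hpos : 0 < R.valuation t := by
      rw [Valuation.pos_iff]
      exact ht0
    rw [← R.valuation_le_one_iff, hv]
    constructor
    · intro h
      by_contra hn
      push Not at hn
      have h3 : 1 < R.valuation t ^ n := one_lt_zpow_of_neg₀ hpos hlt hn
      exact absurd h3 (not_lt.2 h)
    · intro h
      exact zpow_le_one₀ hpos hlt.le h
  ext z
  by_cases hz : z = 0
  · subst hz
    exact ⟨fun _ => R₂.zero_mem, fun _ => R₁.zero_mem⟩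
  · obtain ⟨n, α, β, hα, hβ, e⟩ := hdec z hz
    rw [key R₁ h1 hx1 hy1 z n α β hα hβ e, key R₂ h2 hx2 hy2 z n α β hα hβ e]

end UE97
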