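import Mathlib
import Pool.Agent.Lib.MP_10e784_ag.EQ.PlcA

/-!
# Rational places and rational points
-/

namespace UE97

open Polynomial

/-- The rational places of a function field `L` over `ℚ` (as in the frozen statement). -/
def ratPlaces (L : Type*) [Field L] [Algebra ℚ L] : Set (ValuationSubring L) :=
  {R | (∀ q : ℚ, algebraMap ℚ L q ∈ R) ∧ R ≠ ⊤ ∧
    ∀ r ∈ R, ∃ q : ℚ, R.valuation (r - algebraMap ℚ L q) < 1}

private lemma plcB_aeval_mem {L : Type*} [Field L] [Algebra ℚ L] {x : L} {R : ValuationSubring L}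
    (hR : ∀ q : ℚ, algebraMap ℚ L q ∈ R) (hx : x ∈ R) (g : ℚ[X]) : aeval x g ∈ R := by
  rw [Polynomial.aeval_eq_sum_range]
  refine sum_mem fun i _ => ?_
  rw [Algebra.smul_def]
  exact mul_mem (hR _) (pow_mem hx i)

/-- A rational place where `x` is finite has a centre `(a, b)` on the affine curve: `y` is integral
over `ℚ[x] ⊂ R`, so `y ∈ R`; take the residues `a`, `b` of `x`, `y`; then `b ^ 2 - f(a)` is a
rational number of valuation `< 1`, so it is `0`. -/
theorem exists_centre {L : Type*} [Field L] [Algebra ℚ L] {x y : L} {f : ℚ[X]}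
    (hy : y ^ 2 = aeval x f) {R : ValuationSubring L} (hR : R ∈ ratPlaces L) (hxR : x ∈ R) :
    ∃ a b : ℚ, b ^ 2 = f.eval a ∧ R.valuation (x - algebraMap ℚ L a) < 1 ∧
      R.valuation (y - algebraMap ℚ L b) < 1 := by
  obtain ⟨hq, htop, hres⟩ := hR
  have hfx : aeval x f ∈ R := plcB_aeval_mem hq hxR f
  have hyR : y ∈ R := by
    rw [← R.valuation_le_one_iff]
    have h1 : R.valuation y ^ 2 ≤ 1 := by
      rw [← map_pow, hy]; exact (R.valuation_le_one_iff _).2 hfx
    by_contra hlt
    rw [not_le] at hlt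
    exact absurd h1 (not_le.2 (one_lt_pow₀ hlt two_ne_zero))
  obtain ⟨a, ha⟩ := hres x hxR
  obtain ⟨b, hb⟩ := hres y hyR
  refine ⟨a, b, ?_, ha, hb⟩
  -- f(x) - f(a)
  have h1 : R.valuation (aeval x f - algebraMap ℚ L (f.eval a)) < 1 := by
    have hd : (X - C a) ∣ f - C (f.eval a) := by
      rw [Polynomial.dvd_iff_isRoot]; simp
    obtain ⟨g, hg⟩ := hd
    have h2 : aeval x f - algebraMap ℚ L (f.eval a) = (x - algebraMap ℚ L a) * aeval x g := by
      have h3 := congrArg (aeval x) hg
      simpa using h3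
    rw [h2, map_mul]
    have h3 : R.valuation (aeval x g) ≤ 1 := (R.valuation_le_one_iff _).2 (plcB_aeval_mem hq hxR g)
    calc R.valuation (x - algebraMap ℚ L a) * R.valuation (aeval x g)
        ≤ R.valuation (x - algebraMap ℚ L a) * 1 := by gcongr
      _ = R.valuation (x - algebraMap ℚ L a) := mul_one _
      _ < 1 := ha
  have h2 : R.valuation (y ^ 2 - algebraMap ℚ L (b ^ 2)) < 1 := by
    have h3 : y ^ 2 - algebraMap ℚ L (b ^ 2) = (y - algebraMap ℚ L b) * (y + algebraMap ℚ L b) := by
      rw [map_pow]; ring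
    rw [h3, map_mul]
    have h4 : R.valuation (y + algebraMap ℚ L b) ≤ 1 :=
      (R.valuation_le_one_iff _).2 (add_mem hyR (hq b))
    calc R.valuation (y - algebraMap ℚ L b) * R.valuation (y + algebraMap ℚ L b)
        ≤ R.valuation (y - algebraMap ℚ L b) * 1 := by gcongr
      _ = R.valuation (y - algebraMap ℚ L b) := mul_one _
      _ < 1 := hb
  have h3 : R.valuation (algebraMap ℚ L (b ^ 2 - f.eval a)) < 1 := by
    have h4 : algebraMap ℚ L (b ^ 2 - f.eval a)
        = (aeval x f - algebraMap ℚ L (f.eval a)) - (y ^ 2 - algebraMap ℚ L (b ^ 2)) := by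
      rw [hy, map_sub]; ring
    rw [h4]
    exact (R.valuation.map_sub _ _).trans_lt (max_lt h1 h2)
  by_contra hne
  have hne' : b ^ 2 - f.eval a ≠ 0 := sub_ne_zero.2 hne
  have h5 : R.valuation (algebraMap ℚ L (b ^ 2 - f.eval a)⁻¹) ≤ 1 :=
    (R.valuation_le_one_iff _).2 (hq _)
  have h6 : R.valuation (algebraMap ℚ L (b ^ 2 - f.eval a))
      * R.valuation (algebraMap ℚ L (b ^ 2 - f.eval a)⁻¹) = 1 := by
    rw [← map_mul, ← map_mul, mul_inv_cancel₀ hne', map_one, map_one]
  have h7 : R.valuation (algebraMap ℚ L (b ^ 2 - f.eval a))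
      * R.valuation (algebraMap ℚ L (b ^ 2 - f.eval a)⁻¹) < 1 := by
    calc R.valuation (algebraMap ℚ L (b ^ 2 - f.eval a))
      * R.valuation (algebraMap ℚ L (b ^ 2 - f.eval a)⁻¹)
        ≤ R.valuation (algebraMap ℚ L (b ^ 2 - f.eval a)) * 1 := by gcongr
      _ = R.valuation (algebraMap ℚ L (b ^ 2 - f.eval a)) := mul_one _
      _ < 1 := h3
  exact absurd h6 h7.ne

/-- The affine rational places inject into the affine rational points (`exists_centre`,
`place_unique`; `f` squarefree in characteristic zero is separable, so `f(a)`, `f'(a)` are not both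
zero). -/
theorem encard_affine_places_le {L : Type*} [Field L] [Algebra ℚ L] {x y : L} {f : ℚ[X]}
    (hf : Squarefree f) (hx : Transcendental ℚ x) (hy : y ^ 2 = aeval x f)
    (hL : IntermediateField.adjoin ℚ {x, y} = ⊤) :
    {R | R ∈ ratPlaces L ∧ x ∈ R}.encard ≤ {P : ℚ × ℚ | P.2 ^ 2 = f.eval P.1}.encard := by
  classical
  have hsep : f.Separable := PerfectField.separable_iff_squarefree.2 hf
  have hsm : ∀ a : ℚ, f.eval a ≠ 0 ∨ (derivative f).eval a ≠ 0 := by
    intro a
    by_contra h
    push Not at h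
    obtain ⟨u, v, huv⟩ := hsep
    have := congrArg (Polynomial.eval a) huv
    simp [h.1, h.2] at this
  have hex : ∀ R : ValuationSubring L, R ∈ {R | R ∈ ratPlaces L ∧ x ∈ R} → ∃ P : ℚ × ℚ,
      P.2 ^ 2 = f.eval P.1 ∧ R.valuation (x - algebraMap ℚ L P.1) < 1 ∧
      R.valuation (y - algebraMap ℚ L P.2) < 1 := by
    intro R hR
    obtain ⟨a, b, h1, h2, h3⟩ := exists_centre hy hR.1 hR.2
    exact ⟨(a, b), h1, h2, h3⟩
  let F : ValuationSubring L → ℚ × ℚ := fun R =>
    if h : R ∈ {R | R ∈ ratPlaces L ∧ x ∈ R} then (hex R h).choose else (0, 0)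
  have hF : ∀ R (h : R ∈ {R | R ∈ ratPlaces L ∧ x ∈ R}), (F R).2 ^ 2 = f.eval (F R).1 ∧
      R.valuation (x - algebraMap ℚ L (F R).1) < 1 ∧
      R.valuation (y - algebraMap ℚ L (F R).2) < 1 := by
    intro R h
    have : F R = (hex R h).choose := by simp only [F]; rw [dif_pos h]
    rw [this]
    exact (hex R h).choose_spec
  refine Set.encard_le_encard_of_injOn (f := F) ?_ ?_
  · intro R hR
    exact (hF R hR).1
  · intro R₁ h1 R₂ h2 h12
    obtain ⟨e1, e2, e3⟩ := hF R₁ h1
    obtain ⟨g1, g2, g3⟩ := hF R₂ h2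
    rw [← h12] at g2 g3
    exact place_unique hx hy hL e1 (hsm _) h1.1.1 h2.1.1 e2 g2 e3 g3

/-- The rational points of an elliptic curve over a field: the affine ones and the point at infinity. -/
theorem card_point {F : Type*} [Field F] (W : WeierstrassCurve F) [W.IsElliptic] :
    1 + {Q : F × F | W.toAffine.Equation Q.1 Q.2}.encard = ENat.card W.toAffine.Point := by
  have e : Option {Q : F × F // W.toAffine.Equation Q.1 Q.2} ≃ W.toAffine.Point :=
    { toFun := fun o => match o with
        | none => .zero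
        | some Q => .some Q.1.1 Q.1.2 (W.toAffine.equation_iff_nonsingular.1 Q.2)
      invFun := fun P => match P with
        | .zero => none
        | .some a b h => some ⟨(a, b), h.1⟩
      left_inv := by
        rintro (_ | Q) <;> rfl
      right_inv := by
        rintro (_ | _) <;> rfl }
  rw [← ENat.card_congr e, ENat.card_congr (Equiv.optionEquivSumPUnit.{0} _), ENat.card_sum]
  have h1 : ENat.card PUnit.{1} = 1 := by simp
  rw [h1, add_comm]
  rfl

end UE97
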