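import Mathlib
import Pool.Agent.Lib.MP_10e784_ag.EQ.PlcB

/-!
# Rational places at infinity
-/

namespace UE97

open Polynomial

/-- A rational number of valuation `< 1` is zero. -/
theorem plcC_eq_zero {L : Type*} [Field L] [Algebra ℚ L] {R : ValuationSubring L}
    (hR : ∀ q : ℚ, algebraMap ℚ L q ∈ R) {a : ℚ} (ha : R.valuation (algebraMap ℚ L a) < 1) :
    a = 0 := by
  by_contra h0
  have h1 : R.valuation (algebraMap ℚ L a⁻¹) ≤ 1 := (R.valuation_le_one_iff _).2 (hR _)
  have h2 : R.valuation (algebraMap ℚ L a) * R.valuation (algebraMap ℚ L a⁻¹) = 1 := by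
    rw [← map_mul, ← map_mul, mul_inv_cancel₀ h0, map_one, map_one]
  have h3 : R.valuation (algebraMap ℚ L a) * R.valuation (algebraMap ℚ L a⁻¹) < 1 :=
    mul_lt_one_of_lt_of_le ha h1
  exact absurd h2 h3.ne

/-- At most two square roots. -/
theorem plcC_encard_sqrt (c : ℚ) : {b : ℚ | b ^ 2 = c}.encard ≤ 2 := by
  rcases Set.eq_empty_or_nonempty {b : ℚ | b ^ 2 = c} with h | ⟨b, hb⟩
  · rw [h]; simp
  · have hsub : {b : ℚ | b ^ 2 = c} ⊆ {b, -b} := by
      intro d hd
      have hb' : b ^ 2 = c := hb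
      have hd' : d ^ 2 = c := hd
      have : (d - b) * (d + b) = 0 := by ring_nf; rw [hb', hd']; ring
      rcases mul_eq_zero.1 this with h | h
      · left; linarith
      · right; rw [Set.mem_singleton_iff]; linarith
    calc {b : ℚ | b ^ 2 = c}.encard ≤ ({b, -b} : Set ℚ).encard := Set.encard_le_encard hsub
      _ ≤ ({-b} : Set ℚ).encard + 1 := Set.encard_insert_le _ _
      _ = 2 := by rw [Set.encard_singleton]; norm_num

/-- At most two rational places at infinity. Put `x' = x⁻¹`, `y' = y * x' ^ (g + 1)` and let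
`f' = ∑ i, f.coeff i * X ^ (2 g + 2 - i)` (for instance `f.reverse * X ^ (2 g + 2 - f.natDegree)`).
Then `y' ^ 2 = f'(x')`, `L = ℚ(x', y')`, `x'` is transcendental, and `f'(0) = lc f` if the degree is
`2 g + 2`, while `f'(0) = 0`, `f''s` derivative at `0` is `lc f ≠ 0` if the degree is `2 g + 1`. If
`x ∉ R` then `R.valuation x' < 1`, the centre is `(0, b)` with `b ^ 2 = f'(0)`, at most two values of
`b`; use `exists_centre` and `place_unique` for `x'`, `y'`, `f'`. -/
theorem encard_infinite_places_le {L : Type*} [Field L] [Algebra ℚ L] {x y : L} {f : ℚ[X]} {g : ℕ}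
    (hfg : f.natDegree = 2 * g + 1 ∨ f.natDegree = 2 * g + 2)
    (hx : Transcendental ℚ x) (hy : y ^ 2 = aeval x f)
    (hL : IntermediateField.adjoin ℚ {x, y} = ⊤) :
    {R | R ∈ ratPlaces L ∧ x ∉ R}.encard ≤ 2 := by
  have hx0 : x ≠ 0 := by
    rintro rfl
    exact hx (isAlgebraic_zero)
  have hf0 : f ≠ 0 := by
    rintro rfl
    simp at hfg
  set x' : L := x⁻¹ with hx'
  set y' : L := y * x' ^ (g + 1) with hy'
  set F : ℚ[X] := reflect (2 * g + 2) f with hF
  have hdeg : f.natDegree ≤ 2 * g + 2 := by omega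
  have hxT : Transcendental ℚ x' := by
    intro h
    apply hx
    have := h.inv
    rwa [hx', inv_inv] at this
  have hyF : y' ^ 2 = aeval x' F := by
    have h1 : aeval x' F * x ^ (2 * g + 2) = aeval x f := by
      have : Invertible x := invertibleOfNonzero hx0
      have h2 := eval₂_reflect_mul_pow (algebraMap ℚ L) x (2 * g + 2) f hdeg
      rw [invOf_eq_inv] at h2
      rw [aeval_def, aeval_def]
      exact h2
    have h3 : y' ^ 2 * x ^ (2 * g + 2) = y ^ 2 := by
      have h4 : x' * x = 1 := inv_mul_cancel₀ hx0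
      calc y' ^ 2 * x ^ (2 * g + 2) = y ^ 2 * (x' * x) ^ (2 * g + 2) := by rw [hy']; ring
        _ = y ^ 2 := by rw [h4]; simp
    have h5 : (x ^ (2 * g + 2)) ≠ 0 := pow_ne_zero _ hx0
    apply mul_right_cancel₀ h5
    rw [h3, h1, hy]
  have hLT : IntermediateField.adjoin ℚ {x', y'} = ⊤ := by
    rw [eq_top_iff, ← hL, IntermediateField.adjoin_le_iff]
    have hx'm : x' ∈ IntermediateField.adjoin ℚ {x', y'} :=
      IntermediateField.subset_adjoin _ _ (by simp)
    have hy'm : y' ∈ IntermediateField.adjoin ℚ {x', y'} :=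
      IntermediateField.subset_adjoin _ _ (by simp)
    have hxm : x ∈ IntermediateField.adjoin ℚ {x', y'} := by
      have := (IntermediateField.adjoin ℚ {x', y'}).inv_mem hx'm
      rwa [hx', inv_inv] at this
    have hym : y ∈ IntermediateField.adjoin ℚ {x', y'} := by
      have h4 : x' * x = 1 := inv_mul_cancel₀ hx0
      have : y = y' * x ^ (g + 1) := by
        calc y = y * (x' * x) ^ (g + 1) := by rw [h4]; simp
          _ = y' * x ^ (g + 1) := by rw [hy']; ring
      rw [this]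
      exact mul_mem hy'm (pow_mem hxm _)
    intro z hz
    rcases hz with rfl | hz
    · exact hxm
    · rw [Set.mem_singleton_iff] at hz
      rw [hz]; exact hym
  have hF0 : F.eval 0 = f.coeff (2 * g + 2) := by
    rw [← coeff_zero_eq_eval_zero, hF, coeff_reflect, revAt_le (Nat.zero_le _)]
    simp
  have hF1 : (derivative F).eval 0 = f.coeff (2 * g + 1) := by
    rw [← coeff_zero_eq_eval_zero, coeff_derivative, hF, coeff_reflect, revAt_le (by omega)]
    simp
  have hs : F.eval 0 ≠ 0 ∨ (derivative F).eval 0 ≠ 0 := by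
    rcases hfg with h | h
    · right
      rw [hF1, ← h]
      exact leadingCoeff_ne_zero.2 hf0
    · left
      rw [hF0, ← h]
      exact leadingCoeff_ne_zero.2 hf0
  have key : ∀ R ∈ {R | R ∈ ratPlaces L ∧ x ∉ R}, ∃ b : ℚ, b ^ 2 = F.eval 0 ∧
      R.valuation (x' - algebraMap ℚ L 0) < 1 ∧ R.valuation (y' - algebraMap ℚ L b) < 1 := by
    rintro R ⟨hR, hxR⟩
    have hval : R.valuation x' < 1 := by
      have h1 : ¬ R.valuation x ≤ 1 := fun h => hxR ((R.valuation_le_one_iff x).1 h)
      rw [hx', map_inv₀]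
      exact inv_lt_one_of_one_lt₀ (not_le.1 h1)
    have hx'R : x' ∈ R := (R.valuation_le_one_iff x').1 hval.le
    obtain ⟨a, b, hab, ha, hb⟩ := exists_centre hyF hR hx'R
    have ha0 : a = 0 := by
      apply plcC_eq_zero hR.1
      have : algebraMap ℚ L a = x' - (x' - algebraMap ℚ L a) := by ring
      rw [this]
      exact lt_of_le_of_lt (Valuation.map_sub _ _ _) (max_lt hval ha)
    subst ha0
    exact ⟨b, hab, ha, hb⟩
  choose! φ hφ1 hφ2 hφ3 using key
  have hinj : Set.InjOn φ {R | R ∈ ratPlaces L ∧ x ∉ R} := by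
    intro R₁ h₁ R₂ h₂ h12
    refine place_unique hxT hyF hLT (a := 0) (b := φ R₁) (hφ1 R₁ h₁) hs h₁.1.1 h₂.1.1
      (hφ2 R₁ h₁) (hφ2 R₂ h₂) (hφ3 R₁ h₁) ?_
    rw [h12]
    exact hφ3 R₂ h₂
  calc {R | R ∈ ratPlaces L ∧ x ∉ R}.encard
      ≤ {b : ℚ | b ^ 2 = F.eval 0}.encard :=
        Set.encard_le_encard_of_injOn (fun R hR => hφ1 R hR) hinj
    _ ≤ 2 := plcC_encard_sqrt _

end UE97
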