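import Mathlib
import Pool.Agent.Lib.MP_10e784_ag.EQ.Main
import Pool.Agent.Lib.MP_10e784_ag.EQ.PlcC

/-!
# Main theorem, in terms of rational places
-/

namespace UE97

open Polynomial

theorem main_places : ∀ (g p : ℕ) [Fact p.Prime], p ≠ 2 → ∃ N : ℕ,
    ∀ (L : Type) [Field L] [Algebra ℚ L] (x y : L) (f : ℚ[X]), Squarefree f →
    (f.natDegree = 2 * g + 1 ∨ f.natDegree = 2 * g + 2) →
    Transcendental ℚ x → y ^ 2 = aeval x f → IntermediateField.adjoin ℚ {x, y} = ⊤ →
    ∀ (F : Type) [Field F] (σ : F →+* PadicAlgCl p) (W : WeierstrassCurve F) [W.IsElliptic],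
    ‖σ W.j‖ ≤ 1 →
    ∀ (M : Type) [Field M] [Algebra F M] [Algebra L M],
    Transcendental F (algebraMap L M x) →
    IntermediateField.adjoin F {algebraMap L M x, algebraMap L M y} = ⊤ →
    (∃ ξ η : M, Transcendental F ξ ∧ (W.map (algebraMap F M)).toAffine.Equation ξ η) →
    {R : ValuationSubring L | (∀ q : ℚ, algebraMap ℚ L q ∈ R) ∧ R ≠ ⊤ ∧
      ∀ r ∈ R, ∃ q : ℚ, R.valuation (r - algebraMap ℚ L q) < 1}.encard ≤
      N * ENat.card W.toAffine.Point := by
  intro g p _ hp2
  obtain ⟨N, hN⟩ := main_bound g p hp2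
  refine ⟨N + 2, ?_⟩
  intro L _ _ x y f hf hfg hx hy hL F _ σ W _ hj M _ _ _ hxM hM ⟨ξ, η, hξ, hE⟩
  have : CharZero F := (RingHom.charZero_iff σ.injective).2 inferInstance
  have hyM : (algebraMap L M y) ^ 2 = aeval (algebraMap L M x) (f.map (algebraMap ℚ F)) := by
    rw [← map_pow, hy, aeval_def, aeval_def, Polynomial.hom_eval₂, Polynomial.eval₂_map]
    congr 1
    exact Subsingleton.elim _ _
  have h1 := hN f hf hfg F σ W hj ⟨M, inferInstance, inferInstance, algebraMap L M x,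
    algebraMap L M y, ξ, η, hxM, hyM, hM, hξ, hE⟩
  rw [card_point] at h1
  have h2 := encard_affine_places_le hf hx hy hL
  have h3 := encard_infinite_places_le hfg hx hy hL
  have h4 : (ratPlaces L).encard ≤ {R | R ∈ ratPlaces L ∧ x ∈ R}.encard +
      {R | R ∈ ratPlaces L ∧ x ∉ R}.encard := by
    refine le_trans (Set.encard_le_encard ?_) (Set.encard_union_le _ _)
    intro R hR
    by_cases h : x ∈ R
    · exact Or.inl ⟨hR, h⟩
    · exact Or.inr ⟨hR, h⟩
  have h5 : (1 : ℕ∞) ≤ ENat.card W.toAffine.Point := by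
    rw [← card_point]
    exact le_self_add
  calc (ratPlaces L).encard ≤ N * ENat.card W.toAffine.Point + 2 :=
        le_trans h4 (add_le_add (le_trans h2 h1) h3)
    _ ≤ N * ENat.card W.toAffine.Point + 2 * ENat.card W.toAffine.Point := by
        gcongr
        calc (2 : ℕ∞) = 2 * 1 := by norm_num
          _ ≤ 2 * ENat.card W.toAffine.Point := by gcongr
    _ = ((N + 2 : ℕ) : ℕ∞) * ENat.card W.toAffine.Point := by
        push_cast
        ring

end UE97
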